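import Mathlib

/-! Definitions: blocks, defect groups, Brauer induction, weights, and Navarro's equality. -/

namespace Pool.Agent.Lib.P0c8ca5

open MonoidAlgebra

variable {k : Type*} [Field k] {A : Type*} [Group A]

/-- `a` lies in `kK`, where `kK` is viewed inside the group algebra `kA`. -/
def SuppIn (K : Subgroup A) (a : MonoidAlgebra k A) : Prop := ∀ x, a.coeff x ≠ 0 → x ∈ K

/-- `(kL)^M`: the elements of `kL` that commute with all elements of `M`.
In particular `fixAlg k K K` is the centre `Z(kK)`. -/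
def fixAlg (k : Type*) [Field k] (L M : Subgroup A) : Subalgebra k (MonoidAlgebra k A) where
  carrier := {a | SuppIn L a ∧ ∀ g ∈ M, Commute (single g (1 : k)) a}
  mul_mem' := by
    rintro a b ⟨ha, ha'⟩ ⟨hb, hb'⟩
    refine ⟨?_, fun g hg => (ha' g hg).mul_right (hb' g hg)⟩
    intro x hx
    rw [coeff_mul_apply_left] at hx
    obtain ⟨y, hy, hy'⟩ := Finset.exists_ne_zero_of_sum_ne_zero hx
    have h1 : a.coeff y ≠ 0 := left_ne_zero_of_mul hy'
    have h2 : b.coeff (y⁻¹ * x) ≠ 0 := right_ne_zero_of_mul hy'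
    have := L.mul_mem (ha y h1) (hb _ h2)
    simpa using this
  add_mem' := by
    rintro a b ⟨ha, ha'⟩ ⟨hb, hb'⟩
    refine ⟨?_, fun g hg => (ha' g hg).add_right (hb' g hg)⟩
    intro x hx
    by_contra hxL
    have h1 : a.coeff x = 0 := by by_contra h; exact hxL (ha x h)
    have h2 : b.coeff x = 0 := by by_contra h; exact hxL (hb x h)
    apply hx; simp [h1, h2]
  algebraMap_mem' := by
    intro r
    refine ⟨?_, fun g _ => (Algebra.commutes r (single g (1:k))).symm⟩
    intro x hx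
    have : x = 1 := by
      by_contra hne
      apply hx
      simp [MonoidAlgebra.coe_algebraMap, Ne.symm hne]
    rw [this]; exact L.one_mem

/-- `e` is a block idempotent of `kK`, i.e. a primitive idempotent of the centre `Z(kK)`. -/
structure IsBlock (K : Subgroup A) (e : MonoidAlgebra k A) : Prop where
  mem : e ∈ fixAlg k K K
  idem : e * e = e
  ne_zero : e ≠ 0
  prim : ∀ f ∈ fixAlg k K K, f * f = f → f * e = f → f = 0 ∨ f = e

/-- `D` is a defect group of the block `e` of `kK`: it is maximal among the `p`-subgroups `P` of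
`K` for which the Brauer map sends `e` to a nonzero element of `kC_K(P)`. -/
structure IsDefectGroup (p : ℕ) (K : Subgroup A) (e : MonoidAlgebra k A) (D : Subgroup A) :
    Prop where
  le : D ≤ K
  isPGroup : IsPGroup p D
  br : ∃ x ∈ Subgroup.centralizer (D : Set A), e.coeff x ≠ 0
  max : ∀ P : Subgroup A, P ≤ K → IsPGroup p P →
    (∃ x ∈ Subgroup.centralizer (P : Set A), e.coeff x ≠ 0) → D ≤ P → P = D

/-- The group `N_A(Q)/Q`. -/
abbrev NQ (Q : Subgroup A) : Type _ :=
  ↥(Subgroup.normalizer (Q : Set A)) ⧸ Q.subgroupOf (Subgroup.normalizer (Q : Set A))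

/-- The image of `N_H(Q)` in `N_A(Q)/Q`; for `Q ≤ H` it is `N_H(Q)/Q`. -/
def sec (H Q : Subgroup A) : Subgroup (NQ Q) :=
  (H.subgroupOf (Subgroup.normalizer (Q : Set A))).map (QuotientGroup.mk' _)

/-- For `a` in `kA`, the image in `k[N_A(Q)/Q]` of the part of `a` supported on `N_A(Q)`. -/
noncomputable def proj (Q : Subgroup A) (a : MonoidAlgebra k A) : MonoidAlgebra k (NQ Q) :=
  MonoidAlgebra.mapDomain
    (fun x : ↥(Subgroup.normalizer (Q : Set A)) => (QuotientGroup.mk x : NQ Q))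
    (MonoidAlgebra.comapDomain Subtype.val Subtype.val_injective a)

/-- `a` lies in the centre `Z(kK)`. -/
def InCen (K : Subgroup A) (a : MonoidAlgebra k A) : Prop := a ∈ fixAlg k K K

/-- `l` restricts to a homomorphism of `k`-algebras from `Z(kK)` to `k`. -/
structure IsCentChar (K : Subgroup A) (l : MonoidAlgebra k A → k) : Prop where
  one : l 1 = 1
  mul : ∀ a b, InCen K a → InCen K b → l (a * b) = l a * l b
  add : ∀ a b, InCen K a → InCen K b → l (a + b) = l a + l b
  smul : ∀ (c : k) (a), InCen K a → l (c • a) = c * l a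

/-- Brauer's block induction: `b ^ H = b'` for blocks `b` of `K ≤ H` and `b'` of `H`. The central
character `w` of `b'` is the composite of the restriction map `Z(kH) → Z(kK)` with the central
character `l` of `b`. -/
def IsInd (K H : Subgroup A) (b b' : MonoidAlgebra k A) : Prop :=
  ∃ l w : MonoidAlgebra k A → k, IsCentChar K l ∧ IsCentChar H w ∧ l b = 1 ∧ w b' = 1 ∧
    ∀ z z', InCen H z → InCen K z' → (∀ x ∈ K, z'.coeff x = z.coeff x) → w z = l z'

/-- `dz(N_H(Q)/Q | B)`, where `e` is the block idempotent of `B`: blocks `f` of defect zero of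
`N_H(Q)/Q` such that `b ^ H` covers `B`, `b` being the block of `N_H(Q)` that contains the
inflation of `f`. -/
def DZ (p : ℕ) (H : Subgroup A) (e : MonoidAlgebra k A) (Q : Subgroup A) :
    Set (MonoidAlgebra k (NQ Q)) :=
  {f | IsBlock (sec H Q) f ∧ IsDefectGroup p (sec H Q) f ⊥ ∧
    ∃ b b', IsBlock (H ⊓ Subgroup.normalizer (Q : Set A)) b ∧ proj Q b * f ≠ 0 ∧
      IsBlock H b' ∧ IsInd (H ⊓ Subgroup.normalizer (Q : Set A)) H b b' ∧ b' * e ≠ 0}

/-- `Θ_B` for the block `B` of `N ⊴ H` with idempotent `e`. -/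
def Theta (p : ℕ) (N H : Subgroup A) (e : MonoidAlgebra k A) : Set (Subgroup A) :=
  {Q | Q ≤ H ∧ IsPGroup p Q ∧ N ⊔ Q = H ∧ ∃ D, IsDefectGroup p N e D ∧ Q ⊓ N ≤ D}

/-- The representations of `N` over `k` on the space `k ^ n`. -/
abbrev Rp (k : Type*) [Field k] (N : Subgroup A) (n : ℕ) : Type _ :=
  Representation k N (Fin n → k)

/-- The vector `ρ(x) v`. -/
def app {N : Subgroup A} {n : ℕ} (ρ : Rp k N n) (x : N) (v : Fin n → k) : Fin n → k := ρ x v

/-- `σ` is the conjugate of `ρ` by `h`, that is `σ (h x h⁻¹) = ρ x`. -/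
def IsConjRep {N : Subgroup A} {n : ℕ} (h : A) (ρ σ : Rp k N n) : Prop :=
  ∀ (x y : N) (v : Fin n → k), (y : A) = h * x * h⁻¹ → app σ y v = app ρ x v

/-- `ρ` lies in the block `e` of `kN`: the idempotent `e` acts as the identity. -/
def InBlock {N : Subgroup A} {n : ℕ} (e : MonoidAlgebra k A) (ρ : Rp k N n) : Prop :=
  ∀ v : Fin n → k, ∑ᶠ x : N, e.coeff (x : A) • app ρ x v = v

/-- The irreducible representations of `N` over `k` that lie in the block `e` of `kN` and are
invariant under conjugation by `H`. -/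
structure IrrInv (N H : Subgroup A) (e : MonoidAlgebra k A) where
  n : ℕ
  ρ : Rp k N n
  irr : ρ.IsIrreducible
  blk : InBlock e ρ
  inv : ∀ h ∈ H, ∀ σ : Rp k N n, IsConjRep h ρ σ → Nonempty (ρ.Equiv σ)

/-- Equivalence of representations. -/
def irrInvSetoid (N H : Subgroup A) (e : MonoidAlgebra k A) : Setoid (IrrInv N H e) where
  r a b := Nonempty (a.ρ.Equiv b.ρ)
  iseqv :=
    { refl := fun a => ⟨Representation.Equiv.refl a.ρ⟩
      symm := fun ⟨P⟩ => ⟨P.symm⟩
      trans := fun ⟨P⟩ ⟨P'⟩ => ⟨P.trans P'⟩ }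

/-- Navarro's equality for `N ⊴ H` and the block `B` of `N` with idempotent `e`:
`|IBr_H(B)| = Σ |dz(N_H(Q)/Q | B)|`, the sum over any set `T` of representatives of the
`H`-classes in `Θ_B`. -/
def NavarroEq (p : ℕ) (N H : Subgroup A) (e : MonoidAlgebra k A) : Prop :=
  ∀ T : Finset (Subgroup A), (↑T ⊆ Theta p N H e) →
    (∀ Q ∈ Theta p N H e, ∃! Q', Q' ∈ T ∧ ∃ h ∈ H, Q' = Q.map (MulAut.conj h).toMonoidHom) →
    Nat.card (Quotient (irrInvSetoid N H e)) = ∑ Q ∈ T, Nat.card (DZ p H e Q)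

end Pool.Agent.Lib.P0c8ca5
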