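import Mathlib
import Pool.Agent.Lib.P0c8ca5.Defs

/-! Basic tools: p-group counting for sums in characteristic p, coefficients in group algebras,
invariant elements, restriction of supports (the Brauer map). -/

namespace Pool.Agent.Lib.P0c8ca5

open MonoidAlgebra

/-- p-group counting for sums of invariant functions with values in characteristic `p`. -/
theorem sum_eq_sum_fixed {p : ℕ} [Fact p.Prime] {k : Type*} [Field k] [CharP k p]
    {P X : Type*} [Group P] (hP : IsPGroup p P) [Fintype X]
    (φ : P →* Equiv.Perm X) (f : X → k) (hf : ∀ g x, f (φ g x) = f x)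
    (S : Finset X) (hS : ∀ x, x ∈ S ↔ ∀ g, φ g x = x) :
    ∑ x, f x = ∑ x ∈ S, f x := by
  classical
  have key : ∀ c : k, ((Finset.univ.filter (fun x => f x = c)).card : k)
      = ((S.filter (fun x => f x = c)).card : k) := by
    intro c
    let Y := {x : X // f x = c}
    let inst : MulAction P Y :=
      { smul := fun g y => ⟨φ g y.1, by rw [hf]; exact y.2⟩
        one_smul := fun y => by apply Subtype.ext; change φ 1 y.1 = y.1; simp
        mul_smul := fun a b y => by
          apply Subtype.ext; change φ (a * b) y.1 = φ a (φ b y.1); simp }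
    have h := hP.card_modEq_card_fixedPoints Y
    have h1 : Nat.card Y = (Finset.univ.filter (fun x => f x = c)).card := by
      rw [Nat.card_eq_fintype_card, Fintype.card_subtype]
    have h2 : Nat.card (MulAction.fixedPoints P Y) = (S.filter (fun x => f x = c)).card := by
      have e : (MulAction.fixedPoints P Y) ≃ (S.filter (fun x => f x = c)) :=
        { toFun := fun y => ⟨y.1.1, by
            rw [Finset.mem_filter, hS]
            exact ⟨fun g => congrArg Subtype.val (y.2 g), y.1.2⟩⟩
          invFun := fun x => ⟨⟨x.1, (Finset.mem_filter.1 x.2).2⟩, fun g =>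
            Subtype.ext (((hS x.1).1 (Finset.mem_filter.1 x.2).1) g)⟩
          left_inv := fun y => rfl
          right_inv := fun x => rfl }
      rw [Nat.card_congr e, Nat.card_eq_fintype_card, Fintype.card_coe]
    rw [h1, h2] at h
    exact (CharP.natCast_eq_natCast k p).2 h
  calc ∑ x, f x = ∑ c ∈ Finset.univ.image f, ∑ x ∈ Finset.univ.filter (fun x => f x = c), f x :=
        (Finset.sum_fiberwise_of_maps_to
          (fun x _ => Finset.mem_image_of_mem f (Finset.mem_univ x)) f).symm
    _ = ∑ c ∈ Finset.univ.image f, ∑ x ∈ S.filter (fun x => f x = c), f x := by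
        refine Finset.sum_congr rfl (fun c _ => ?_)
        have e1 : ∑ x ∈ Finset.univ.filter (fun x => f x = c), f x
            = ∑ x ∈ Finset.univ.filter (fun x => f x = c), c :=
          Finset.sum_congr rfl (fun x hx => (Finset.mem_filter.1 hx).2)
        have e2 : ∑ x ∈ S.filter (fun x => f x = c), f x
            = ∑ x ∈ S.filter (fun x => f x = c), c :=
          Finset.sum_congr rfl (fun x hx => (Finset.mem_filter.1 hx).2)
        rw [e1, e2, Finset.sum_const, Finset.sum_const, nsmul_eq_mul, nsmul_eq_mul, key]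
    _ = ∑ x ∈ S, f x :=
        (Finset.sum_fiberwise_of_maps_to
          (fun x _ => Finset.mem_image_of_mem f (Finset.mem_univ x)) f)

set_option linter.unusedSectionVars false

variable {p : ℕ} {k : Type*} [Field k] {A : Type*} [Group A]

/-- The element `a` of `kA` is fixed by conjugation with the elements of `M`. -/
def InvBy (M : Subgroup A) (a : MonoidAlgebra k A) : Prop :=
  ∀ g ∈ M, ∀ x, a.coeff (g * x * g⁻¹) = a.coeff x

theorem invBy_iff_commute {M : Subgroup A} {a : MonoidAlgebra k A} :
    InvBy M a ↔ ∀ g ∈ M, Commute (single g (1 : k)) a := by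
  constructor
  · intro h g hg
    ext x
    rw [coeff_single_mul_apply, coeff_mul_single_apply, one_mul, mul_one]
    have := h g hg (g⁻¹ * x)
    rw [← this]; congr 1; group
  · intro h g hg x
    have := congrArg (fun b => b.coeff (g * x)) (h g hg).eq
    simp only [coeff_single_mul_apply, coeff_mul_single_apply, one_mul, mul_one] at this
    rw [this.symm]; congr 1; group

theorem InvBy.mono {M M' : Subgroup A} (h : M' ≤ M) {a : MonoidAlgebra k A} (ha : InvBy M a) :
    InvBy M' a := fun g hg x => ha g (h hg) x

theorem SuppIn.mono {K K' : Subgroup A} (h : K ≤ K') {a : MonoidAlgebra k A} (ha : SuppIn K a) :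
    SuppIn K' a := fun x hx => h (ha x hx)

theorem mem_fixAlg {L M : Subgroup A} {a : MonoidAlgebra k A} :
    a ∈ fixAlg k L M ↔ SuppIn L a ∧ InvBy M a := by
  rw [invBy_iff_commute]; exact Iff.rfl

theorem coeff_mul_fin [Fintype A] (a b : MonoidAlgebra k A) (x : A) :
    (a * b).coeff x = ∑ y, a.coeff y * b.coeff (y⁻¹ * x) := by
  rw [coeff_mul_apply_left, Finsupp.sum_fintype]
  intro i; simp

theorem sum_conj_eq [Fact p.Prime] [CharP k p] [Fintype A] {D : Subgroup A} (hD : IsPGroup p D)
    (f : A → k) (hf : ∀ d ∈ D, ∀ x, f (d * x * d⁻¹) = f x) (S : Finset A)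
    (hS : ∀ x, x ∈ S ↔ x ∈ Subgroup.centralizer (D : Set A)) :
    ∑ x, f x = ∑ x ∈ S, f x := by
  refine sum_eq_sum_fixed (p := p) hD
    ((MulAut.toPerm A).comp (MulAut.conj.comp D.subtype)) f ?_ S ?_
  · intro g x
    exact hf g g.2 x
  · intro x
    rw [hS, Subgroup.mem_centralizer_iff]
    constructor
    · intro h g
      change (g : A) * x * (g : A)⁻¹ = x
      rw [h g g.2]; group
    · intro h g hg
      have h2 : g * x * g⁻¹ = x := h ⟨g, hg⟩
      calc g * x = (g * x * g⁻¹) * g := by group
        _ = x * g := by rw [h2]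

/-- restriction of the support of `a` to the set `S` -/
noncomputable def resS (S : Set A) (a : MonoidAlgebra k A) : MonoidAlgebra k A :=
  open Classical in MonoidAlgebra.ofCoeff (a.coeff.filter (fun x => x ∈ S))

omit [Group A] in
open Classical in
theorem coeff_resS (S : Set A) (a : MonoidAlgebra k A) (x : A) :
    (resS S a).coeff x = if x ∈ S then a.coeff x else 0 := by
  rw [resS, coeff_ofCoeff, Finsupp.filter_apply]

theorem coeff_resS_of_mem {S : Set A} (a : MonoidAlgebra k A) {x : A} (hx : x ∈ S) :
    (resS S a).coeff x = a.coeff x := by rw [coeff_resS, if_pos hx]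

theorem coeff_resS_of_notMem {S : Set A} (a : MonoidAlgebra k A) {x : A} (hx : x ∉ S) :
    (resS S a).coeff x = 0 := by rw [coeff_resS, if_neg hx]

theorem resS_add (S : Set A) (a b : MonoidAlgebra k A) :
    resS S (a + b) = resS S a + resS S b := by
  ext x
  by_cases hx : x ∈ S
  · simp [coeff_resS_of_mem _ hx]
  · simp [coeff_resS_of_notMem _ hx]

theorem resS_zero (S : Set A) : resS S (0 : MonoidAlgebra k A) = 0 := by
  ext x
  by_cases hx : x ∈ S
  · simp [coeff_resS_of_mem _ hx]
  · simp [coeff_resS_of_notMem _ hx]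

theorem resS_smul (S : Set A) (c : k) (a : MonoidAlgebra k A) :
    resS S (c • a) = c • resS S a := by
  ext x
  by_cases hx : x ∈ S
  · simp [coeff_resS_of_mem _ hx]
  · simp [coeff_resS_of_notMem _ hx]

theorem resS_sum (S : Set A) {ι : Type*} (T : Finset ι) (f : ι → MonoidAlgebra k A) :
    resS S (∑ i ∈ T, f i) = ∑ i ∈ T, resS S (f i) := by
  classical
  induction T using Finset.induction_on with
  | empty => simp [resS_zero]
  | insert i T hi ih => rw [Finset.sum_insert hi, Finset.sum_insert hi, resS_add, ih]

/-- The Brauer map is multiplicative. -/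
theorem resS_mul [Fact p.Prime] [CharP k p] [Finite A] {D : Subgroup A} (hD : IsPGroup p D)
    {a b : MonoidAlgebra k A} (ha : InvBy D a) (hb : InvBy D b) :
    resS (Subgroup.centralizer (D : Set A) : Set A) (a * b)
      = resS (Subgroup.centralizer (D : Set A) : Set A) a
        * resS (Subgroup.centralizer (D : Set A) : Set A) b := by
  classical
  cases nonempty_fintype A
  ext x
  rw [coeff_mul_fin]
  by_cases hx : x ∈ (Subgroup.centralizer (D : Set A) : Set A)
  · rw [coeff_resS_of_mem _ hx, coeff_mul_fin]
    have hx' := Subgroup.mem_centralizer_iff.1 hx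
    rw [sum_conj_eq (p := p) hD (fun y => a.coeff y * b.coeff (y⁻¹ * x)) ?_
      (Finset.univ.filter (fun y => y ∈ (Subgroup.centralizer (D : Set A) : Set A))) ?_]
    · rw [Finset.sum_filter]
      refine Finset.sum_congr rfl (fun y _ => ?_)
      by_cases hy : y ∈ (Subgroup.centralizer (D : Set A) : Set A)
      · rw [if_pos hy, coeff_resS_of_mem _ hy, coeff_resS_of_mem]
        exact (Subgroup.centralizer (D : Set A)).mul_mem
          ((Subgroup.centralizer (D : Set A)).inv_mem hy) hx
      · rw [if_neg hy, coeff_resS_of_notMem _ hy, zero_mul]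
    · intro d hd y
      rw [ha d hd y]
      have : (d * y * d⁻¹)⁻¹ * x = d * (y⁻¹ * x) * d⁻¹ := by
        have h2 := hx' d hd
        have h3 : x = d * x * d⁻¹ := by rw [h2]; group
        calc (d * y * d⁻¹)⁻¹ * x = (d * y * d⁻¹)⁻¹ * (d * x * d⁻¹) := by rw [← h3]
          _ = d * (y⁻¹ * x) * d⁻¹ := by group
      rw [this, hb d hd]
    · intro y
      rw [Finset.mem_filter]; simp
  · rw [coeff_resS_of_notMem _ hx]
    symm
    apply Finset.sum_eq_zero
    intro y _
    by_cases hy : y ∈ (Subgroup.centralizer (D : Set A) : Set A)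
    · rw [coeff_resS_of_notMem b, mul_zero]
      intro h
      apply hx
      have := (Subgroup.centralizer (D : Set A)).mul_mem hy h
      simpa using this
    · rw [coeff_resS_of_notMem a hy, zero_mul]

/-- conjugation by a group element on the group algebra -/
noncomputable def cj (g : A) (a : MonoidAlgebra k A) : MonoidAlgebra k A :=
  single g 1 * a * single g⁻¹ 1

theorem coeff_cj (g : A) (a : MonoidAlgebra k A) (x : A) :
    (cj g a).coeff x = a.coeff (g⁻¹ * x * g) := by
  rw [cj, coeff_mul_single_apply, coeff_single_mul_apply, one_mul, mul_one, inv_inv, mul_assoc]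

theorem cj_add (g : A) (a b : MonoidAlgebra k A) : cj g (a + b) = cj g a + cj g b := by
  ext x; simp [coeff_cj]

theorem cj_smul (g : A) (c : k) (a : MonoidAlgebra k A) : cj g (c • a) = c • cj g a := by
  ext x; simp [coeff_cj]

theorem cj_zero (g : A) : cj g (0 : MonoidAlgebra k A) = 0 := by
  ext x; simp [coeff_cj]

theorem cj_one (g : A) : cj g (1 : MonoidAlgebra k A) = 1 := by
  rw [cj, mul_one, single_mul_single, mul_inv_cancel, one_mul]; rfl

theorem cj_mul (g : A) (a b : MonoidAlgebra k A) : cj g (a * b) = cj g a * cj g b := by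
  have h : single g⁻¹ (1 : k) * single g 1 = 1 := by
    rw [single_mul_single, inv_mul_cancel, one_mul]; rfl
  calc cj g (a * b) = single g 1 * a * (single g⁻¹ 1 * single g 1) * b * single g⁻¹ 1 := by
        rw [h, mul_one, cj]; simp only [mul_assoc]
    _ = cj g a * cj g b := by simp only [cj, mul_assoc]

theorem cj_cj (g h : A) (a : MonoidAlgebra k A) : cj g (cj h a) = cj (g * h) a := by
  ext x; simp only [coeff_cj]; congr 1; group

theorem cj_one_left (a : MonoidAlgebra k A) : cj 1 a = a := by
  ext x; simp [coeff_cj]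

theorem cj_sum (g : A) {ι : Type*} (T : Finset ι) (f : ι → MonoidAlgebra k A) :
    cj g (∑ i ∈ T, f i) = ∑ i ∈ T, cj g (f i) := by
  classical
  induction T using Finset.induction_on with
  | empty => simp [cj_zero]
  | insert i T hi ih => rw [Finset.sum_insert hi, Finset.sum_insert hi, cj_add, ih]

theorem invBy_iff_cj {M : Subgroup A} {a : MonoidAlgebra k A} :
    InvBy M a ↔ ∀ g ∈ M, cj g a = a := by
  constructor
  · intro h g hg
    ext x
    rw [coeff_cj]
    have := h g⁻¹ (M.inv_mem hg) x
    simpa using this
  · intro h g hg x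
    have := congrArg (fun b => b.coeff x) (h g⁻¹ (M.inv_mem hg))
    simpa [coeff_cj] using this

theorem SuppIn.mul {L : Subgroup A} {a b : MonoidAlgebra k A} (ha : SuppIn L a)
    (hb : SuppIn L b) : SuppIn L (a * b) := by
  intro x hx
  rw [coeff_mul_apply_left] at hx
  obtain ⟨y, hy, hy'⟩ := Finset.exists_ne_zero_of_sum_ne_zero hx
  have h1 : a.coeff y ≠ 0 := left_ne_zero_of_mul hy'
  have h2 : b.coeff (y⁻¹ * x) ≠ 0 := right_ne_zero_of_mul hy'
  have := L.mul_mem (ha y h1) (hb _ h2)
  simpa using this

theorem suppIn_zero {L : Subgroup A} : SuppIn L (0 : MonoidAlgebra k A) := by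
  intro x hx; simp at hx

theorem SuppIn.add {L : Subgroup A} {a b : MonoidAlgebra k A} (ha : SuppIn L a)
    (hb : SuppIn L b) : SuppIn L (a + b) := by
  intro x hx
  by_contra hxL
  have h1 : a.coeff x = 0 := by by_contra h; exact hxL (ha x h)
  have h2 : b.coeff x = 0 := by by_contra h; exact hxL (hb x h)
  apply hx; simp [h1, h2]

theorem SuppIn.sum {L : Subgroup A} {ι : Type*} (T : Finset ι) (f : ι → MonoidAlgebra k A)
    (h : ∀ i ∈ T, SuppIn L (f i)) : SuppIn L (∑ i ∈ T, f i) := by
  classical
  induction T using Finset.induction_on with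
  | empty => simpa using suppIn_zero
  | insert i T hi ih =>
    rw [Finset.sum_insert hi]
    exact (h i (Finset.mem_insert_self i T)).add
      (ih (fun j hj => h j (Finset.mem_insert_of_mem hj)))

theorem SuppIn.cj {L : Subgroup A} {a : MonoidAlgebra k A} (ha : SuppIn L a) {g : A}
    (hg : g ∈ Subgroup.normalizer (L : Set A)) : SuppIn L (cj g a) := by
  intro x hx
  rw [coeff_cj] at hx
  have h1 := ha _ hx
  rw [Subgroup.mem_normalizer_iff] at hg
  have := (hg (g⁻¹ * x * g)).1 h1
  simpa [mul_assoc] using this

end Pool.Agent.Lib.P0c8ca5
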