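import Mathlib

/-! Facts on primitive idempotents and characters of commutative finite-dimensional algebras. -/

namespace Pool.Agent.Lib.P0c8ca5

section
variable {Z : Type*} [CommRing Z]

/-- primitive idempotent of a commutative ring -/
structure PrimIdem (e : Z) : Prop where
  ne_zero : e ≠ 0
  idem : e * e = e
  prim : ∀ f, f * f = f → f * e = f → f = 0 ∨ f = e

theorem PrimIdem.mul_eq {e : Z} (he : PrimIdem e) {f : Z} (hf : f * f = f) :
    f * e = 0 ∨ f * e = e := by
  apply he.prim
  · calc f * e * (f * e) = (f * f) * (e * e) := by ring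
      _ = f * e := by rw [hf, he.idem]
  · rw [mul_assoc, he.idem]

theorem PrimIdem.eq_or_mul_eq_zero {e e' : Z} (he : PrimIdem e) (he' : PrimIdem e') :
    e = e' ∨ e * e' = 0 := by
  rcases he.mul_eq he'.idem with h | h
  · right; rw [mul_comm]; exact h
  · rcases he'.mul_eq he.idem with h' | h'
    · right; exact h'
    · left; rw [← h, mul_comm, h']

theorem PrimIdem.nilp_or_unit [IsArtinianRing Z] {e : Z} (he : PrimIdem e) (x : Z) :
    IsNilpotent (x * e) ∨ ∃ w, x * w * e = e := by
  obtain ⟨n, y, hy⟩ := IsArtinian.exists_pow_succ_smul_dvd (R := Z) (M := Z) x 1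
  simp only [smul_eq_mul, mul_one, Nat.succ_eq_add_one] at hy
  -- hy : x ^ (n+1) * y = x ^ n
  have h1 : ∀ m, x ^ (n + 1) = x ^ (n + 1 + m) * y ^ m := by
    intro m
    induction m with
    | zero => simp
    | succ m ih =>
      have h3 : x ^ (n + 1 + m) = x ^ (n + 1 + (m + 1)) * y := by
        calc x ^ (n + 1 + m) = x ^ n * x ^ (m + 1) := by ring
          _ = (x ^ (n + 1) * y) * x ^ (m + 1) := by rw [hy]
          _ = x ^ (n + 1 + (m + 1)) * y := by ring
      calc x ^ (n + 1) = x ^ (n + 1 + m) * y ^ m := ih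
        _ = (x ^ (n + 1 + (m + 1)) * y) * y ^ m := by rw [← h3]
        _ = x ^ (n + 1 + (m + 1)) * y ^ (m + 1) := by ring
  set N := n + 1 with hN
  have h2 := h1 N
  set ε := x ^ N * y ^ N with hε
  have h4 : x ^ N * ε = x ^ N := by
    calc x ^ N * ε = x ^ (N + N) * y ^ N := by rw [hε]; ring
      _ = x ^ N := h2.symm
  have h3 : ε * ε = ε := by
    calc ε * ε = (x ^ N * ε) * y ^ N := by rw [hε]; ring
      _ = ε := by rw [h4]
  rcases he.mul_eq h3 with h | h
  · left
    refine ⟨N, ?_⟩
    have hpow : ∀ m : ℕ, (x * e) ^ (m + 1) = x ^ (m + 1) * e := by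
      intro m
      induction m with
      | zero => simp
      | succ m ih => 
        rw [pow_succ, ih]
        calc x ^ (m + 1) * e * (x * e) = x ^ (m + 1 + 1) * (e * e) := by ring
          _ = _ := by rw [he.idem]
    rw [hN, hpow n, ← hN]
    calc x ^ N * e = x ^ N * ε * e := by rw [h4]
      _ = x ^ N * (ε * e) := by ring
      _ = 0 := by rw [h, mul_zero]
  · right
    refine ⟨x ^ n * y ^ N, ?_⟩
    calc x * (x ^ n * y ^ N) * e = (x ^ (n + 1) * y ^ N) * e := by ring
      _ = e := by rw [← hN]; exact h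

end

section
variable {k Z : Type*} [Field k] [IsAlgClosed k] [CommRing Z] [Algebra k Z]
  [FiniteDimensional k Z]

theorem exists_char_of_idem {e : Z} (h0 : e ≠ 0) (h1 : e * e = e) : ∃ l : Z →ₐ[k] k, l e = 1 := by
  have hne : Ideal.span {1 - e} ≠ ⊤ := by
    intro h
    have : (1 : Z) ∈ Ideal.span {1 - e} := by rw [h]; trivial
    obtain ⟨a, ha⟩ := Ideal.mem_span_singleton'.1 this
    apply h0
    calc e = 1 * e := (one_mul e).symm
      _ = a * (1 - e) * e := by rw [ha]
      _ = a * (e - e * e) := by ring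
      _ = 0 := by rw [h1, sub_self, mul_zero]
  obtain ⟨m, hm, hle⟩ := Ideal.exists_le_maximal _ hne
  let _ : Field (Z ⧸ m) := Ideal.Quotient.field m
  have hbij : Function.Bijective (algebraMap k (Z ⧸ m)) :=
    IsAlgClosed.algebraMap_bijective_of_isIntegral
  let E : k ≃ₐ[k] (Z ⧸ m) := AlgEquiv.ofBijective (Algebra.ofId k (Z ⧸ m)) hbij
  refine ⟨(E.symm : (Z ⧸ m) →ₐ[k] k).comp (Ideal.Quotient.mkₐ k m), ?_⟩
  have h2 : Ideal.Quotient.mkₐ k m e = 1 := by
    have : (1 - e) ∈ m := hle (Ideal.subset_span rfl)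
    have h3 := (Ideal.Quotient.eq_zero_iff_mem (I := m)).2 this
    rw [map_sub, map_one, sub_eq_zero] at h3
    exact h3.symm
  rw [AlgHom.comp_apply, h2, map_one]

omit [IsAlgClosed k] in
theorem PrimIdem.exists_unit {e : Z} (he : PrimIdem e) (l : Z →ₐ[k] k) {z : Z} (hle : l e = 1)
    (hz : l z ≠ 0) : ∃ w, z * w * e = e := by
  have : IsArtinianRing Z := IsArtinianRing.of_finite k Z
  rcases he.nilp_or_unit z with h | h
  · exfalso
    obtain ⟨n, hn⟩ := h
    have := congrArg l hn
    rw [map_pow, map_mul, hle, mul_one, map_zero] at this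
    exact pow_ne_zero n hz this
  · exact h

omit [IsAlgClosed k] in
theorem PrimIdem.char_unique {e : Z} (he : PrimIdem e) (l l' : Z →ₐ[k] k) (hle : l e = 1)
    (hle' : l' e = 1) : l = l' := by
  have hA : IsArtinianRing Z := IsArtinianRing.of_finite k Z
  ext z
  have h0 : l (z - algebraMap k Z (l z)) = 0 := by
    rw [map_sub, AlgHom.commutes]; simp
  rcases he.nilp_or_unit (z - algebraMap k Z (l z)) with h | ⟨w, hw⟩
  · obtain ⟨n, hn⟩ := h
    have h2 := congrArg l' hn
    rw [map_pow, map_mul, hle', mul_one, map_zero, map_sub, AlgHom.commutes] at h2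
    have h3 : l' z - (algebraMap k k) (l z) = 0 := by
      by_contra h5; exact pow_ne_zero n h5 h2
    rw [Algebra.algebraMap_self, RingHom.id_apply] at h3
    exact (sub_eq_zero.1 h3).symm
  · exfalso
    have h2 := congrArg l hw
    rw [map_mul, map_mul, h0, zero_mul, zero_mul, hle] at h2
    exact zero_ne_one h2

omit [IsAlgClosed k] in
theorem exists_prim_of_char (l : Z →ₐ[k] k) : ∃ e : Z, PrimIdem e ∧ l e = 1 := by
  have hA : IsArtinianRing Z := IsArtinianRing.of_finite k Z
  let S : Set (Ideal Z) := {I | ∃ e : Z, e * e = e ∧ l e = 1 ∧ I = Ideal.span {e}}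
  have hne : S.Nonempty := ⟨Ideal.span {1}, 1, one_mul 1, map_one l, rfl⟩
  obtain ⟨I, ⟨e, he, hle, hI⟩, hmin⟩ := IsArtinian.set_has_minimal S hne
  refine ⟨e, ⟨?_, he, ?_⟩, hle⟩
  · rintro rfl
    rw [map_zero] at hle
    exact zero_ne_one hle
  · have key : ∀ f : Z, f * f = f → f * e = f → l f = 1 → f = e := by
      intro f hf hfe hlf
      have hle2 : Ideal.span {f} ≤ Ideal.span {e} := by
        rw [Ideal.span_singleton_le_span_singleton]
        exact ⟨f, by rw [mul_comm]; exact hfe.symm⟩
      have hnlt := hmin (Ideal.span {f}) ⟨f, hf, hlf, rfl⟩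
      rw [hI] at hnlt
      have heq : Ideal.span {f} = Ideal.span {e} := by
        by_contra hne'
        exact hnlt (lt_of_le_of_ne hle2 hne')
      have : e ∈ Ideal.span {f} := by rw [heq]; exact Ideal.subset_span rfl
      obtain ⟨a, ha⟩ := Ideal.mem_span_singleton'.1 this
      calc f = f * e := hfe.symm
        _ = a * (f * f) := by rw [← ha]; ring
        _ = e := by rw [hf, ha]
    intro f hf hfe
    have h01 : l f = 0 ∨ l f = 1 := by
      have := congrArg l hf
      rw [map_mul] at this
      exact IsIdempotentElem.iff_eq_zero_or_one.1 this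
    rcases h01 with h | h
    · left
      have h2 : (e - f) = e := by
        apply key
        · calc (e - f) * (e - f) = e * e - f * e - f * e + f * f := by ring
            _ = e - f := by rw [he, hf, hfe]; ring
        · calc (e - f) * e = e * e - f * e := by ring
            _ = e - f := by rw [he, hfe]
        · rw [map_sub, hle, h, sub_zero]
      have : f = e - (e - f) := by ring
      rw [this, h2, sub_self]
    · right
      exact key f hf hfe h

theorem exists_prim_le (k : Type*) {Z : Type*} [Field k] [IsAlgClosed k] [CommRing Z]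
    [Algebra k Z] [FiniteDimensional k Z] {e : Z} (h0 : e ≠ 0) (h1 : e * e = e) :
    ∃ f : Z, PrimIdem f ∧ f * e = f := by
  obtain ⟨l, hl⟩ := exists_char_of_idem (k := k) h0 h1
  obtain ⟨f, hf, hlf⟩ := exists_prim_of_char l
  refine ⟨f, hf, ?_⟩
  rcases hf.mul_eq h1 with h | h
  · exfalso
    have := congrArg l h
    rw [map_mul, hl, hlf, map_zero, one_mul] at this
    exact one_ne_zero this
  · rw [mul_comm]; exact h

/-- characters of `Z` correspond to primitive idempotents -/
theorem PrimIdem.exists_char {e : Z} (he : PrimIdem e) : ∃ l : Z →ₐ[k] k, l e = 1 :=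
  exists_char_of_idem he.ne_zero he.idem

end

end Pool.Agent.Lib.P0c8ca5
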