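import Mathlib
import Pool.Agent.Lib.P0c8ca5.Basic
import Pool.Agent.Lib.P0c8ca5.CommAlg

/-! Blocks as primitive idempotents of the commutative algebras `fixAlg k K K`. -/

namespace Pool.Agent.Lib.P0c8ca5

open MonoidAlgebra

set_option linter.unusedSectionVars false

variable {p : ℕ} {k : Type*} [Field k] {A : Type*} [Group A]

theorem commute_of {K : Subgroup A} {a b : MonoidAlgebra k A} (ha : SuppIn K a)
    (hb : InvBy K b) : a * b = b * a := by
  ext x
  rw [coeff_mul_apply_left, coeff_mul_apply_right]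
  unfold Finsupp.sum
  refine Finset.sum_congr rfl (fun y hy => ?_)
  have hyK : y ∈ K := ha y (Finsupp.mem_support_iff.1 hy)
  have := hb y hyK (y⁻¹ * x)
  have h2 : y * (y⁻¹ * x) * y⁻¹ = x * y⁻¹ := by group
  rw [h2] at this
  change a.coeff y * b.coeff (y⁻¹ * x) = b.coeff (x * y⁻¹) * a.coeff y
  rw [this, mul_comm]

noncomputable instance fixAlgCommRing (K : Subgroup A) : CommRing (fixAlg k K K) :=
  { (inferInstance : Ring (fixAlg k K K)) with
    mul_comm := fun a b => Subtype.ext
      (commute_of (mem_fixAlg.1 a.2).1 (mem_fixAlg.1 b.2).2) }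

theorem IsBlock.primIdem {K : Subgroup A} {e : MonoidAlgebra k A} (he : IsBlock K e) :
    PrimIdem (⟨e, he.mem⟩ : fixAlg k K K) where
  ne_zero := fun h => he.ne_zero (congrArg Subtype.val h)
  idem := Subtype.ext he.idem
  prim := fun f hf hfe => by
    rcases he.prim f.1 f.2 (congrArg Subtype.val hf) (congrArg Subtype.val hfe) with h | h
    · left; exact Subtype.ext h
    · right; exact Subtype.ext h

theorem isBlock_of_primIdem {K : Subgroup A} {e : fixAlg k K K} (he : PrimIdem e) :
    IsBlock K e.1 where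
  mem := e.2
  ne_zero := fun h => he.ne_zero (Subtype.ext h)
  idem := congrArg Subtype.val he.idem
  prim := fun f hf hff hfe => by
    rcases he.prim ⟨f, hf⟩ (Subtype.ext hff) (Subtype.ext hfe) with h | h
    · left; exact congrArg Subtype.val h
    · right; exact congrArg Subtype.val h

theorem IsBlock.suppIn {K : Subgroup A} {e : MonoidAlgebra k A} (he : IsBlock K e) :
    SuppIn K e := (mem_fixAlg.1 he.mem).1

theorem IsBlock.invBy {K : Subgroup A} {e : MonoidAlgebra k A} (he : IsBlock K e) :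
    InvBy K e := (mem_fixAlg.1 he.mem).2

theorem IsBlock.eq_or_mul_eq_zero {K : Subgroup A} {e e' : MonoidAlgebra k A}
    (he : IsBlock K e) (he' : IsBlock K e') : e = e' ∨ e * e' = 0 := by
  rcases he.primIdem.eq_or_mul_eq_zero he'.primIdem with h | h
  · left; exact congrArg Subtype.val h
  · right; exact congrArg Subtype.val h

theorem IsBlock.mul_eq {K : Subgroup A} {e f : MonoidAlgebra k A}
    (he : IsBlock K e) (hf : f ∈ fixAlg k K K) (hff : f * f = f) : f * e = 0 ∨ f * e = e := by
  rcases he.primIdem.mul_eq (f := ⟨f, hf⟩) (Subtype.ext hff) with h | h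
  · left; exact congrArg Subtype.val h
  · right; exact congrArg Subtype.val h

/-- The set of block idempotents of `kK` is finite. -/
theorem finite_isBlock [Finite A] (K : Subgroup A) :
    {e : MonoidAlgebra k A | IsBlock K e}.Finite := by
  classical
  have hli : LinearIndependent k
      (fun e : {e : MonoidAlgebra k A | IsBlock K e} => (e : MonoidAlgebra k A)) := by
    rw [linearIndependent_iff']
    intro s g hg i hi
    have h1 : (∑ j ∈ s, g j • (j : MonoidAlgebra k A)) * (i : MonoidAlgebra k A)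
        = g i • (i : MonoidAlgebra k A) := by
      rw [Finset.sum_mul, Finset.sum_eq_single i]
      · rw [smul_mul_assoc, i.2.idem]
      · intro j _ hj
        rcases j.2.eq_or_mul_eq_zero i.2 with h | h
        · exact absurd (Subtype.ext h) hj
        · rw [smul_mul_assoc, h, smul_zero]
      · intro h; exact absurd hi h
    rw [hg, zero_mul] at h1
    rcases smul_eq_zero.1 h1.symm with h | h
    · exact h
    · exact absurd h i.2.ne_zero
  exact LinearIndependent.set_finite_of_isNoetherian hli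

theorem charP_fixAlg [CharP k p] (K : Subgroup A) : CharP (fixAlg k K K) p :=
  charP_of_injective_algebraMap (algebraMap k (fixAlg k K K)).injective p

/-- Grading step: a central idempotent of `kK` is supported in the kernel of any homomorphism from
`K` to an abelian `p`-group. -/
theorem supp_in_ker [Fact p.Prime] [CharP k p] {K : Subgroup A} {e : MonoidAlgebra k A}
    (he : e ∈ fixAlg k K K) (hee : e * e = e) {B : Type*} [CommGroup B] [Finite B]
    (φ : K →* B) (n : ℕ) (hn : ∀ b : B, b ^ p ^ n = 1) (x : K) (hx : e.coeff x ≠ 0) :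
    φ x = 1 := by
  classical
  cases nonempty_fintype B
  -- homogeneous components
  let S : B → Set A := fun b => {a | ∃ h : a ∈ K, φ ⟨a, h⟩ = b}
  have hS : ∀ b, resS (S b) e ∈ fixAlg k K K := by
    intro b
    rw [mem_fixAlg]
    refine ⟨?_, ?_⟩
    · intro y hy
      by_contra hyK
      apply hy
      rw [coeff_resS_of_notMem]
      rintro ⟨h, _⟩; exact hyK h
    · intro g hg y
      by_cases hyS : y ∈ S b
      · rw [coeff_resS_of_mem _ hyS, coeff_resS_of_mem]
        · exact (mem_fixAlg.1 he).2 g hg y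
        · obtain ⟨h, h'⟩ := hyS
          refine ⟨K.mul_mem (K.mul_mem hg h) (K.inv_mem hg), ?_⟩
          have : (⟨g * y * g⁻¹, K.mul_mem (K.mul_mem hg h) (K.inv_mem hg)⟩ : K)
            = ⟨g, hg⟩ * ⟨y, h⟩ * ⟨g, hg⟩⁻¹ := rfl
          rw [this, map_mul, map_mul, map_inv, mul_comm, ← mul_assoc, inv_mul_cancel, one_mul]
          exact h'
      · rw [coeff_resS_of_notMem _ hyS, coeff_resS_of_notMem]
        rintro ⟨h, h'⟩
        apply hyS
        have hy : y ∈ K := by
          have := K.mul_mem (K.mul_mem (K.inv_mem hg) h) hg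
          have e2 : g⁻¹ * (g * y * g⁻¹) * g = y := by group
          rwa [e2] at this
        refine ⟨hy, ?_⟩
        have : (⟨g * y * g⁻¹, h⟩ : K) = ⟨g, hg⟩ * ⟨y, hy⟩ * ⟨g, hg⟩⁻¹ := rfl
        rw [this, map_mul, map_mul, map_inv, mul_comm, ← mul_assoc, inv_mul_cancel, one_mul] at h'
        exact h'
  let E : B → fixAlg k K K := fun b => ⟨resS (S b) e, hS b⟩
  have hsum : (⟨e, he⟩ : fixAlg k K K) = ∑ b, E b := by
    apply Subtype.ext
    rw [AddSubmonoidClass.coe_finsetSum]
    ext y
    rw [coeff_sum, Finsupp.finsetSum_apply]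
    by_cases hy : y ∈ K
    · rw [Finset.sum_eq_single (φ ⟨y, hy⟩)]
      · change e.coeff y = (resS _ e).coeff y
        rw [coeff_resS_of_mem]; exact ⟨hy, rfl⟩
      · intro b _ hb
        change (resS _ e).coeff y = 0
        rw [coeff_resS_of_notMem]; rintro ⟨_, h⟩; exact hb h.symm
      · intro h; exact absurd (Finset.mem_univ _) h
    · have h0 : e.coeff y = 0 := by by_contra h; exact hy ((mem_fixAlg.1 he).1 y h)
      rw [h0]
      symm; apply Finset.sum_eq_zero
      intro b _
      change (resS _ e).coeff y = 0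
      rw [coeff_resS_of_notMem]; rintro ⟨h, _⟩; exact hy h
  have hchar : CharP (fixAlg k K K) p := charP_fixAlg K
  have hpow : (⟨e, he⟩ : fixAlg k K K) = ∑ b, (E b) ^ p ^ n := by
    have h1 : (⟨e, he⟩ : fixAlg k K K) ^ p ^ n = ⟨e, he⟩ := by
      apply IsIdempotentElem.pow_eq
      · exact Subtype.ext hee
      · exact (pow_pos (Fact.out : p.Prime).pos n).ne'
    rw [← h1]
    nth_rewrite 1 [hsum]
    exact sum_pow_char_pow p n _ _
  -- each power is supported in the kernel
  have hker : ∀ b : B, ∀ m : ℕ, ∀ y : A, ((E b) ^ m : fixAlg k K K).1.coeff y ≠ 0 →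
      ∃ h : y ∈ K, φ ⟨y, h⟩ = b ^ m := by
    intro b m
    induction m with
    | zero =>
      intro y hy
      have : y = 1 := by
        by_contra hne
        apply hy
        rw [pow_zero]
        change (1 : MonoidAlgebra k A).coeff y = 0
        rw [MonoidAlgebra.one_def, coeff_single, Finsupp.single_apply, if_neg (Ne.symm hne)]
      subst this
      refine ⟨K.one_mem, ?_⟩
      rw [pow_zero]
      exact map_one φ
    | succ m ih =>
      intro y hy
      rw [pow_succ] at hy
      change (((E b) ^ m : fixAlg k K K).1 * (E b).1).coeff y ≠ 0 at hy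
      rw [coeff_mul_apply_left] at hy
      obtain ⟨u, hu, hu'⟩ := Finset.exists_ne_zero_of_sum_ne_zero hy
      obtain ⟨h1, h2⟩ := ih u (left_ne_zero_of_mul hu')
      have h3 := right_ne_zero_of_mul hu'
      have h4 : u⁻¹ * y ∈ S b := by
        by_contra h
        apply h3
        change (resS _ e).coeff _ = 0
        rw [coeff_resS_of_notMem _ h]
      obtain ⟨h5, h6⟩ := h4
      have hyK : y ∈ K := by
        have := K.mul_mem h1 h5
        simpa using this
      refine ⟨hyK, ?_⟩
      have : (⟨y, hyK⟩ : K) = ⟨u, h1⟩ * ⟨u⁻¹ * y, h5⟩ := by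
        apply Subtype.ext; simp
      rw [this, map_mul, h2, h6, pow_succ]
  have h7 := congrArg (fun z : fixAlg k K K => z.1.coeff (x : A)) hpow
  simp only at h7
  rw [AddSubmonoidClass.coe_finsetSum, coeff_sum, Finsupp.finsetSum_apply] at h7
  rw [h7] at hx
  obtain ⟨b, _, hb⟩ := Finset.exists_ne_zero_of_sum_ne_zero hx
  obtain ⟨_, h8⟩ := hker b _ x hb
  rw [hn] at h8
  exact h8

/-- Central idempotents of `kK` are supported in `L` if `K / L` is a `p`-group. -/
theorem supp_in_of_pQuotient [Fact p.Prime] [CharP k p] [Finite A] {L K : Subgroup A}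
    (hLK : L ≤ K) (hn : K ≤ Subgroup.normalizer (L : Set A))
    (hp : ∀ x ∈ K, ∃ n : ℕ, x ^ p ^ n ∈ L) {e : MonoidAlgebra k A}
    (he : e ∈ fixAlg k K K) (hee : e * e = e) : SuppIn L e := by
  classical
  let S : Set (Subgroup A) := {K' | L ≤ K' ∧ K' ≤ K ∧ SuppIn K' e}
  have hne : S.Nonempty := ⟨K, hLK, le_rfl, (mem_fixAlg.1 he).1⟩
  obtain ⟨K', ⟨hLK', hK'K, hsupp⟩, hmin⟩ := WellFounded.has_min
    (wellFounded_lt : WellFounded (fun a b : Subgroup A => a < b)) S hne
  by_cases hKL : K' = L
  · rw [← hKL]; exact hsupp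
  exfalso
  have hnorm : (L.subgroupOf K').Normal :=
    (Subgroup.normal_subgroupOf_iff_le_normalizer hLK').2 (hK'K.trans hn)
  let Q := ↥K' ⧸ L.subgroupOf K'
  have hQp : IsPGroup p Q := by
    intro q
    obtain ⟨x, rfl⟩ := QuotientGroup.mk_surjective q
    obtain ⟨n, hn'⟩ := hp x (hK'K x.2)
    refine ⟨n, ?_⟩
    rw [← QuotientGroup.mk_pow, QuotientGroup.eq_one_iff, Subgroup.mem_subgroupOf]
    simpa using hn'
  have hnontriv : Nontrivial Q := by
    obtain ⟨x, hx, hxL⟩ := SetLike.exists_of_lt (lt_of_le_of_ne hLK' (Ne.symm hKL))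
    refine ⟨⟨QuotientGroup.mk ⟨x, hx⟩, 1, fun h => hxL ?_⟩⟩
    have := (QuotientGroup.eq_one_iff _).1 h
    rwa [Subgroup.mem_subgroupOf] at this
  have hnil : Group.IsNilpotent Q := hQp.isNilpotent
  have hcomm := Group.IsSolvable.commutator_lt_top_of_nontrivial Q
  let B := Abelianization Q
  let φ : K' →* B := (Abelianization.of).comp (QuotientGroup.mk' (L.subgroupOf K'))
  obtain ⟨n, hn⟩ : ∃ n : ℕ, ∀ b : B, b ^ p ^ n = 1 := by
    have hB : IsPGroup p B := hQp.to_quotient _
    obtain ⟨n, hn⟩ := IsPGroup.iff_card.1 hB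
    refine ⟨n, fun b => ?_⟩
    rw [← hn]; exact pow_card_eq_one'
  have he' : e ∈ fixAlg k K' K' := by
    rw [mem_fixAlg]; exact ⟨hsupp, (mem_fixAlg.1 he).2.mono hK'K⟩
  have key := fun (x : K') hx => supp_in_ker he' hee φ n hn x hx
  refine hmin (φ.ker.map K'.subtype) ⟨?_, ?_, ?_⟩ ?_
  · intro x hx
    refine ⟨⟨x, hLK' hx⟩, ?_, rfl⟩
    rw [SetLike.mem_coe, MonoidHom.mem_ker]
    change Abelianization.of (QuotientGroup.mk _) = 1
    rw [(QuotientGroup.eq_one_iff _).2 (by rw [Subgroup.mem_subgroupOf]; exact hx), map_one]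
  · intro x hx
    obtain ⟨y, _, rfl⟩ := hx
    exact hK'K y.2
  · intro x hx
    exact ⟨⟨x, hsupp x hx⟩, MonoidHom.mem_ker.2 (key ⟨x, hsupp x hx⟩ hx), rfl⟩
  · refine lt_of_le_of_ne (fun x hx => by obtain ⟨y, _, rfl⟩ := hx; exact y.2) (fun h => ?_)
    obtain ⟨q, _, hq⟩ := SetLike.exists_of_lt hcomm
    obtain ⟨x, rfl⟩ := QuotientGroup.mk_surjective q
    have hx : (x : A) ∈ φ.ker.map K'.subtype := by rw [h]; exact x.2
    obtain ⟨y, hy, hyx⟩ := hx
    have : y = x := Subtype.ext hyx
    subst this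
    apply hq
    rw [← Abelianization.ker_of, MonoidHom.mem_ker]
    exact hy

end Pool.Agent.Lib.P0c8ca5
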