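import Mathlib

/-! Group-theoretic lemmas: conjugates of subgroups, Sylow subgroups of subgroups. -/

namespace Pool.Agent.Lib.P0c8ca5

open Pointwise

set_option linter.unusedSectionVars false

variable {p : ℕ} {A : Type*} [Group A]

/-- the conjugate `g P g⁻¹` -/
def cg (g : A) (P : Subgroup A) : Subgroup A := P.map (MulAut.conj g).toMonoidHom

theorem mem_cg {g : A} {P : Subgroup A} {x : A} : x ∈ cg g P ↔ g⁻¹ * x * g ∈ P := by
  constructor
  · rintro ⟨y, hy, rfl⟩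
    have : g⁻¹ * ((MulAut.conj g).toMonoidHom y) * g = y := by
      change g⁻¹ * (g * y * g⁻¹) * g = y
      group
    rw [this]; exact hy
  · intro h
    refine ⟨g⁻¹ * x * g, h, ?_⟩
    change g * (g⁻¹ * x * g) * g⁻¹ = x
    group

theorem cg_cg (g h : A) (P : Subgroup A) : cg g (cg h P) = cg (g * h) P := by
  ext x; simp only [mem_cg]
  have : h⁻¹ * (g⁻¹ * x * g) * h = (g * h)⁻¹ * x * (g * h) := by group
  rw [this]

theorem cg_one (P : Subgroup A) : cg 1 P = P := by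
  ext x; simp [mem_cg]

theorem cg_le_cg {g : A} {P Q : Subgroup A} (h : P ≤ Q) : cg g P ≤ cg g Q := by
  intro x; rw [mem_cg, mem_cg]; exact fun hx => h hx

theorem cg_le_iff {g : A} {P Q : Subgroup A} : cg g P ≤ Q ↔ P ≤ cg g⁻¹ Q := by
  constructor
  · intro h
    have := cg_le_cg (g := g⁻¹) h
    rwa [cg_cg, inv_mul_cancel, cg_one] at this
  · intro h
    have := cg_le_cg (g := g) h
    rwa [cg_cg, mul_inv_cancel, cg_one] at this

theorem cg_eq_self_iff {g : A} {P : Subgroup A} :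
    cg g P = P ↔ g ∈ Subgroup.normalizer (P : Set A) := by
  rw [Subgroup.mem_normalizer_iff]
  constructor
  · intro h x
    have : x ∈ P ↔ g * x * g⁻¹ ∈ cg g P := by
      rw [mem_cg]
      have : g⁻¹ * (g * x * g⁻¹) * g = x := by group
      rw [this]
    rw [h] at this
    exact this
  · intro h
    ext x
    rw [mem_cg]
    have := h (g⁻¹ * x * g)
    have e : g * (g⁻¹ * x * g) * g⁻¹ = x := by group
    rw [e] at this
    exact this

theorem isPGroup_cg {g : A} {P : Subgroup A} (h : IsPGroup p P) : IsPGroup p (cg g P) :=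
  h.map _

theorem card_cg (g : A) (P : Subgroup A) : Nat.card (cg g P) = Nat.card P := by
  apply Nat.card_congr
  exact (P.equivMapOfInjective (MulAut.conj g).toMonoidHom (MulAut.conj g).injective).toEquiv.symm

/-- Sylow subgroups of a subgroup, in the ambient group. -/
structure IsSyl (p : ℕ) (C P : Subgroup A) : Prop where
  le : P ≤ C
  isPGroup : IsPGroup p P
  conj : ∀ D : Subgroup A, D ≤ C → IsPGroup p D → ∃ g ∈ C, D ≤ cg g P
  ndvd : ¬ p ∣ P.relIndex C

theorem exists_isSyl [Fact p.Prime] [Finite A] (C : Subgroup A) : ∃ P, IsSyl p C P := by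
  let S : Sylow p C := default
  refine ⟨(S : Subgroup C).map C.subtype, ?_, ?_, ?_, ?_⟩
  · intro x hx
    obtain ⟨y, _, rfl⟩ := hx
    exact y.2
  · exact S.isPGroup'.map _
  · intro D hD hpD
    have h1 : IsPGroup p (D.subgroupOf C) := hpD.comap_of_injective _ C.subtype_injective
    obtain ⟨Q, hQ⟩ := h1.exists_le_sylow
    obtain ⟨g, hg⟩ := MulAction.exists_smul_eq C S Q
    refine ⟨g, g.2, ?_⟩
    intro x hx
    have h2 : (⟨x, hD hx⟩ : C) ∈ Q := hQ (by rw [Subgroup.mem_subgroupOf]; exact hx)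
    rw [← hg] at h2
    have h3 : (⟨x, hD hx⟩ : C) ∈ (MulAut.conj g • (S : Subgroup C)) := h2
    rw [Subgroup.mem_pointwise_smul_iff_inv_smul_mem] at h3
    rw [mem_cg]
    refine ⟨_, h3, ?_⟩
    change ((((MulAut.conj g)⁻¹ : MulAut C) ⟨x, hD hx⟩ : C) : A) = _
    rw [← map_inv, MulAut.conj_apply]
    simp
  · have : ((S : Subgroup C).map C.subtype).relIndex C = (S : Subgroup C).index := by
      rw [Subgroup.relIndex, Subgroup.subgroupOf,
        Subgroup.comap_map_eq_self_of_injective C.subtype_injective]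
    rw [this]
    exact S.not_dvd_index

/-- If `M / L` is a `p`-group then `M = L S` for a Sylow subgroup `S` of `M`. -/
theorem IsSyl.sup_eq [Fact p.Prime] [Finite A] {L M S : Subgroup A} (hS : IsSyl p M S)
    (hLM : L ≤ M) (hn : M ≤ Subgroup.normalizer (L : Set A))
    (hp : ∀ x ∈ M, ∃ n : ℕ, x ^ p ^ n ∈ L) : L ⊔ S = M := by
  have hnorm : (L.subgroupOf M).Normal :=
    (Subgroup.normal_subgroupOf_iff_le_normalizer hLM).2 hn
  have hQp : IsPGroup p (↥M ⧸ L.subgroupOf M) := by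
    intro q
    obtain ⟨x, rfl⟩ := QuotientGroup.mk_surjective q
    obtain ⟨n, hn'⟩ := hp x x.2
    refine ⟨n, ?_⟩
    rw [← QuotientGroup.mk_pow, QuotientGroup.eq_one_iff, Subgroup.mem_subgroupOf]
    simpa using hn'
  obtain ⟨n, hn⟩ := IsPGroup.iff_card.1 hQp
  have h1 : L.relIndex M = p ^ n := hn
  have hle : L ⊔ S ≤ M := sup_le hLM hS.le
  have h2 : (L ⊔ S).relIndex M ∣ p ^ n := by
    rw [← h1]; exact Subgroup.relIndex_dvd_of_le_left M le_sup_left
  have h3 : (L ⊔ S).relIndex M ∣ S.relIndex M := Subgroup.relIndex_dvd_of_le_left M le_sup_right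
  obtain ⟨j, _, hj⟩ := (Nat.dvd_prime_pow Fact.out).1 h2
  have h4 : j = 0 := by
    by_contra hne
    apply hS.ndvd
    refine dvd_trans ?_ h3
    rw [hj]
    exact dvd_pow_self p hne
  rw [h4, pow_zero] at hj
  exact le_antisymm hle (Subgroup.relIndex_eq_one.1 hj)

theorem mem_sup_norm {L D : Subgroup A} (hD : D ≤ Subgroup.normalizer (L : Set A)) {x : A} :
    x ∈ L ⊔ D ↔ ∃ l ∈ L, ∃ d ∈ D, l * d = x := by
  rw [← SetLike.mem_coe, Subgroup.coe_mul_of_right_le_normalizer_left L D hD, Set.mem_mul]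
  rfl

theorem sup_le_normalizer {L D : Subgroup A} (hD : D ≤ Subgroup.normalizer (L : Set A)) :
    L ⊔ D ≤ Subgroup.normalizer (L : Set A) := sup_le Subgroup.le_normalizer hD

theorem pquot_sup {L D : Subgroup A} (hD : D ≤ Subgroup.normalizer (L : Set A))
    (hp : IsPGroup p D) : ∀ x ∈ L ⊔ D, ∃ n : ℕ, x ^ p ^ n ∈ L := by
  intro x hx
  obtain ⟨l, hl, d, hd, rfl⟩ := (mem_sup_norm hD).1 hx
  obtain ⟨n, hn⟩ := hp ⟨d, hd⟩
  refine ⟨n, ?_⟩
  have key : ∀ m : ℕ, (l * d) ^ m * (d ^ m)⁻¹ ∈ L := by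
    intro m
    induction m with
    | zero => simp
    | succ m ih =>
      have h1 : d ^ m * l * (d ^ m)⁻¹ ∈ L :=
        (Subgroup.mem_normalizer_iff.1 (Subgroup.pow_mem _ (hD hd) m) l).1 hl
      have h2 := L.mul_mem ih h1
      have e : (l * d) ^ (m + 1) * (d ^ (m + 1))⁻¹
          = (l * d) ^ m * (d ^ m)⁻¹ * (d ^ m * l * (d ^ m)⁻¹) := by
        rw [pow_succ, pow_succ]; group
      rw [e]; exact h2
  have h := key (p ^ n)
  have h2 : d ^ p ^ n = 1 := by
    have := congrArg Subtype.val hn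
    simpa using this
  rwa [h2, inv_one, mul_one] at h

theorem card_sup_disj [Finite A] {L D : Subgroup A} (hD : D ≤ Subgroup.normalizer (L : Set A))
    (h : L ⊓ D = ⊥) : Nat.card ↥(L ⊔ D) = Nat.card L * Nat.card D := by
  rw [← Nat.card_prod]
  symm
  refine Nat.card_eq_of_bijective
    (fun x : L × D => (⟨x.1 * x.2, (mem_sup_norm hD).2 ⟨x.1, x.1.2, x.2, x.2.2, rfl⟩⟩ :
      ↥(L ⊔ D))) ⟨?_, ?_⟩
  · rintro ⟨a, b⟩ ⟨c, d⟩ hh
    have h1 : (a : A) * b = c * d := congrArg Subtype.val hh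
    have h2 : (c : A)⁻¹ * a = d * (b : A)⁻¹ := by
      calc (c : A)⁻¹ * a = (c : A)⁻¹ * (a * b) * (b : A)⁻¹ := by group
        _ = _ := by rw [h1]; group
    have h3 : (c : A)⁻¹ * a ∈ L ⊓ D := by
      refine Subgroup.mem_inf.2 ⟨L.mul_mem (L.inv_mem c.2) a.2, ?_⟩
      rw [h2]; exact D.mul_mem d.2 (D.inv_mem b.2)
    rw [h, Subgroup.mem_bot] at h3
    have h4 : a = c := Subtype.ext (inv_mul_eq_one.1 h3).symm
    rw [h3] at h2
    have h5 : b = d := Subtype.ext (mul_inv_eq_one.1 h2.symm).symm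
    rw [h4, h5]
  · rintro ⟨x, hx⟩
    obtain ⟨l, hl, d, hd, rfl⟩ := (mem_sup_norm hD).1 hx
    exact ⟨(⟨l, hl⟩, ⟨d, hd⟩), rfl⟩

theorem eq_of_le_of_card [Finite A] {P Q : Subgroup A} (h : P ≤ Q)
    (hc : Nat.card Q ≤ Nat.card P) : P = Q := Subgroup.eq_of_le_of_card_ge h hc

end Pool.Agent.Lib.P0c8ca5
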