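import Mathlib
import Pool.Agent.Lib.P0c8ca5.Blocks
import Pool.Agent.Lib.P0c8ca5.GroupLem

/-! Traces, defect zero. -/

namespace Pool.Agent.Lib.P0c8ca5

open MonoidAlgebra

set_option linter.unusedSectionVars false

variable {p : ℕ} {k : Type*} [Field k] {A : Type*} [Group A]

section trace
variable [Fintype A]

open Classical in
/-- The trace `Σ_{x ∈ K} x a x⁻¹`. -/
noncomputable def trK (K : Subgroup A) (a : MonoidAlgebra k A) : MonoidAlgebra k A :=
  ∑ x ∈ Finset.univ.filter (fun x => x ∈ K), cj x a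

open Classical in
theorem coeff_trK (K : Subgroup A) (a : MonoidAlgebra k A) (y : A) :
    (trK K a).coeff y = ∑ x, if x ∈ K then a.coeff (x⁻¹ * y * x) else 0 := by
  rw [trK, coeff_sum, Finsupp.finsetSum_apply, Finset.sum_filter]
  refine Finset.sum_congr rfl (fun x _ => ?_)
  rw [coeff_cj]

theorem trK_smul (K : Subgroup A) (c : k) (a : MonoidAlgebra k A) :
    trK K (c • a) = c • trK K a := by
  rw [trK, trK, Finset.smul_sum]
  exact Finset.sum_congr rfl (fun x _ => cj_smul x c a)

theorem trK_mul {K : Subgroup A} (a : MonoidAlgebra k A) {z : MonoidAlgebra k A}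
    (hz : InvBy K z) : trK K (a * z) = trK K a * z := by
  classical
  rw [trK, trK, Finset.sum_mul]
  refine Finset.sum_congr rfl (fun x hx => ?_)
  rw [cj_mul, invBy_iff_cj.1 hz x (Finset.mem_filter.1 hx).2]

theorem mul_trK {K : Subgroup A} (a : MonoidAlgebra k A) {z : MonoidAlgebra k A}
    (hz : InvBy K z) : trK K (z * a) = z * trK K a := by
  classical
  rw [trK, trK, Finset.mul_sum]
  refine Finset.sum_congr rfl (fun x hx => ?_)
  rw [cj_mul, invBy_iff_cj.1 hz x (Finset.mem_filter.1 hx).2]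

theorem cj_trK {K : Subgroup A} {g : A} (hg : g ∈ Subgroup.normalizer (K : Set A))
    (a : MonoidAlgebra k A) : cj g (trK K a) = trK K (cj g a) := by
  classical
  ext y
  rw [coeff_cj, coeff_trK, coeff_trK]
  have hg' := Subgroup.mem_normalizer_iff.1 hg
  refine Fintype.sum_equiv (MulAut.conj g).toEquiv _ _ (fun x => ?_)
  change _ = if (g * x * g⁻¹) ∈ K then (cj g a).coeff ((g * x * g⁻¹)⁻¹ * y * (g * x * g⁻¹)) else 0
  by_cases hx : x ∈ K
  · rw [if_pos hx, if_pos ((hg' x).1 hx), coeff_cj]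
    congr 1; group
  · rw [if_neg hx, if_neg (fun h => hx ((hg' x).2 h))]

theorem trK_invBy (K : Subgroup A) (a : MonoidAlgebra k A) : InvBy K (trK K a) := by
  classical
  rw [invBy_iff_cj]
  intro g hg
  ext y
  rw [coeff_cj, coeff_trK, coeff_trK]
  refine Fintype.sum_equiv (Equiv.mulLeft g) _ _ (fun x => ?_)
  change _ = if (g * x) ∈ K then a.coeff ((g * x)⁻¹ * y * (g * x)) else 0
  by_cases hx : x ∈ K
  · rw [if_pos hx, if_pos (K.mul_mem hg hx)]
    congr 1; group
  · rw [if_neg hx, if_neg (fun h => hx ?_)]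
    have := K.mul_mem (K.inv_mem hg) h
    simpa using this

theorem trK_suppIn {K L : Subgroup A} (hK : K ≤ Subgroup.normalizer (L : Set A))
    {a : MonoidAlgebra k A} (ha : SuppIn L a) : SuppIn L (trK K a) := by
  classical
  rw [trK]
  apply SuppIn.sum
  intro x hx
  exact ha.cj (hK (Finset.mem_filter.1 hx).2)

/-- The Brauer map applied to a trace from the trivial group to a complemented subgroup. -/
theorem resS_trK [Fact p.Prime] [CharP k p] {L D : Subgroup A} (hD : IsPGroup p D)
    (hDL : D ≤ Subgroup.normalizer (L : Set A)) {a : MonoidAlgebra k A} (ha : InvBy D a) :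
    resS (Subgroup.centralizer (D : Set A) : Set A) (trK L a)
      = trK (L ⊓ Subgroup.centralizer (D : Set A))
          (resS (Subgroup.centralizer (D : Set A) : Set A) a) := by
  classical
  set C := Subgroup.centralizer (D : Set A) with hC
  ext y
  by_cases hy : y ∈ (C : Set A)
  · rw [coeff_resS_of_mem _ hy, coeff_trK, coeff_trK]
    rw [sum_conj_eq (p := p) hD (fun x => if x ∈ L then a.coeff (x⁻¹ * y * x) else 0) ?_
      (Finset.univ.filter (fun x => x ∈ C)) (fun x => by rw [Finset.mem_filter]; simp [hC])]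
    · rw [Finset.sum_filter]
      refine Finset.sum_congr rfl (fun x _ => ?_)
      by_cases hxC : x ∈ C
      · by_cases hxL : x ∈ L
        · rw [if_pos hxC, if_pos hxL, if_pos (Subgroup.mem_inf.2 ⟨hxL, hxC⟩), coeff_resS_of_mem]
          exact C.mul_mem (C.mul_mem (C.inv_mem hxC) hy) hxC
        · rw [if_pos hxC, if_neg hxL, if_neg (fun h => hxL (Subgroup.mem_inf.1 h).1)]
      · rw [if_neg hxC, if_neg (fun h => hxC (Subgroup.mem_inf.1 h).2)]
    · intro d hd x
      have h1 := Subgroup.mem_normalizer_iff.1 (hDL hd) x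
      by_cases hx : x ∈ L
      · rw [if_pos hx, if_pos (h1.1 hx)]
        have h2 := ha d hd (x⁻¹ * y * x)
        rw [← h2]
        congr 1
        have h3 : y = d * y * d⁻¹ := by
          have := Subgroup.mem_centralizer_iff.1 hy d hd
          rw [this]; group
        calc (d * x * d⁻¹)⁻¹ * y * (d * x * d⁻¹)
            = (d * x * d⁻¹)⁻¹ * (d * y * d⁻¹) * (d * x * d⁻¹) := by rw [← h3]
          _ = d * (x⁻¹ * y * x) * d⁻¹ := by group
      · rw [if_neg hx, if_neg (fun h => hx (h1.2 h))]
  · rw [coeff_resS_of_notMem _ hy, coeff_trK]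
    symm
    apply Finset.sum_eq_zero
    intro x _
    by_cases hx : x ∈ L ⊓ C
    · rw [if_pos hx, coeff_resS_of_notMem]
      intro h
      apply hy
      have := C.mul_mem (C.mul_mem (Subgroup.mem_inf.1 hx).2 h)
        (C.inv_mem (Subgroup.mem_inf.1 hx).2)
      have e : x * (x⁻¹ * y * x) * x⁻¹ = y := by group
      rw [e] at this
      exact this
    · rw [if_neg hx]

end trace

/-- The Brauer map at `P` does not kill `e`. -/
def HasBr (P : Subgroup A) (e : MonoidAlgebra k A) : Prop :=
  ∃ x ∈ Subgroup.centralizer (P : Set A), e.coeff x ≠ 0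

/-- blocks of defect zero -/
structure IsDZ (p : ℕ) (K : Subgroup A) (e : MonoidAlgebra k A) : Prop where
  blk : IsBlock K e
  dz : ∀ P : Subgroup A, P ≤ K → IsPGroup p P → HasBr P e → P = ⊥

theorem IsBlock.hasBr_bot {K : Subgroup A} {e : MonoidAlgebra k A} (he : IsBlock K e) :
    HasBr (⊥ : Subgroup A) e := by
  by_contra h
  apply he.ne_zero
  ext x
  by_contra hx
  apply h
  refine ⟨x, ?_, hx⟩
  rw [Subgroup.mem_centralizer_iff]
  intro y hy
  rw [SetLike.mem_coe, Subgroup.mem_bot] at hy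
  rw [hy, one_mul, mul_one]

theorem isDZ_iff {K : Subgroup A} {e : MonoidAlgebra k A} :
    IsDZ p K e ↔ IsBlock K e ∧ IsDefectGroup p K e ⊥ := by
  constructor
  · intro h
    refine ⟨h.blk, bot_le, IsPGroup.of_bot, h.blk.hasBr_bot, ?_⟩
    intro P hP hpP hbr _
    exact h.dz P hP hpP hbr
  · rintro ⟨h, h'⟩
    exact ⟨h, fun P hP hpP hbr => h'.max P hP hpP hbr bot_le⟩

theorem IsDZ.ndvd [Fact p.Prime] [Finite A] {K : Subgroup A} {e : MonoidAlgebra k A}
    (he : IsDZ p K e) {y : A} (hy : e.coeff y ≠ 0) :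
    ¬ p ∣ Nat.card ↥(K ⊓ Subgroup.centralizer {y}) := by
  intro h
  obtain ⟨x, hx⟩ := exists_prime_orderOf_dvd_card' p h
  have h1 : Subgroup.zpowers (x : A) = ⊥ := by
    apply he.dz
    · rw [Subgroup.zpowers_le]; exact (Subgroup.mem_inf.1 x.2).1
    · apply IsPGroup.of_card (n := 1)
      rw [Nat.card_zpowers, pow_one, Subgroup.orderOf_coe, hx]
    · refine ⟨y, ?_, hy⟩
      rw [Subgroup.mem_centralizer_iff]
      have h2 : Commute (x : A) y := by
        have := Subgroup.mem_centralizer_iff.1 (Subgroup.mem_inf.1 x.2).2 y rfl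
        exact this.symm
      intro z hz
      obtain ⟨n, rfl⟩ := Subgroup.mem_zpowers_iff.1 hz
      exact (h2.zpow_left n).eq
  rw [Subgroup.zpowers_eq_bot] at h1
  have h2 : x = 1 := Subtype.ext h1
  rw [h2, orderOf_one] at hx
  exact (Fact.out : p.Prime).one_lt.ne hx

end Pool.Agent.Lib.P0c8ca5
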