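import Mathlib
import Pool.Agent.Lib.P0c8ca5.Trace

/-! The key lemma on invariant blocks of defect zero. -/

namespace Pool.Agent.Lib.P0c8ca5

open MonoidAlgebra

set_option linter.unusedSectionVars false

variable {p : ℕ} {k : Type*} [Field k] {A : Type*} [Group A]

theorem invBy_sup {L D : Subgroup A} {a : MonoidAlgebra k A} (h1 : InvBy L a)
    (h2 : InvBy D a) : InvBy (L ⊔ D) a := by
  let S : Subgroup A :=
    { carrier := {g | ∀ x, a.coeff (g * x * g⁻¹) = a.coeff x}
      one_mem' := fun x => by simp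
      mul_mem' := fun {g h} hg hh x => by
        have := hg (h * x * h⁻¹)
        rw [hh x] at this
        rw [← this]; congr 1; group
      inv_mem' := fun {g} hg x => by
        have := hg (g⁻¹ * x * g⁻¹⁻¹)
        rw [← this]; congr 1; group }
  have h3 : L ⊔ D ≤ S := sup_le (fun g hg => h1 g hg) (fun g hg => h2 g hg)
  intro g hg
  exact h3 hg

theorem InvBy.cj {M : Subgroup A} {a : MonoidAlgebra k A} (ha : InvBy M a) {g : A}
    (hg : g ∈ Subgroup.normalizer (M : Set A)) : InvBy M (cj g a) := by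
  rw [invBy_iff_cj]
  intro m hm
  have h1 : g⁻¹ * m * g ∈ M := by
    have := (Subgroup.mem_normalizer_iff.1 hg (g⁻¹ * m * g)).2
    apply this
    have e : g * (g⁻¹ * m * g) * g⁻¹ = m := by group
    rw [e]; exact hm
  have h2 := invBy_iff_cj.1 ha _ h1
  rw [cj_cj]
  have e : m * g = g * (g⁻¹ * m * g) := by group
  rw [e, ← cj_cj, h2]

theorem cj_mem_fixAlg {L M : Subgroup A} {a : MonoidAlgebra k A} (ha : a ∈ fixAlg k L M) {g : A}
    (hL : g ∈ Subgroup.normalizer (L : Set A)) (hM : g ∈ Subgroup.normalizer (M : Set A)) :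
    cj g a ∈ fixAlg k L M := by
  rw [mem_fixAlg] at *
  exact ⟨ha.1.cj hL, ha.2.cj hM⟩

/-- conjugation as an algebra homomorphism of the centre of `kL` -/
noncomputable def cjHom {L : Subgroup A} {g : A} (hL : g ∈ Subgroup.normalizer (L : Set A)) :
    fixAlg k L L →ₐ[k] fixAlg k L L where
  toFun z := ⟨cj g z.1, cj_mem_fixAlg z.2 hL hL⟩
  map_one' := Subtype.ext (cj_one g)
  map_mul' a b := Subtype.ext (cj_mul g a.1 b.1)
  map_zero' := Subtype.ext (cj_zero g)
  map_add' a b := Subtype.ext (cj_add g a.1 b.1)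
  commutes' r := by
    apply Subtype.ext
    change cj g ((algebraMap k (fixAlg k L L)) r).1 = ((algebraMap k (fixAlg k L L)) r).1
    have h : ((algebraMap k (fixAlg k L L)) r).1 = r • (1 : MonoidAlgebra k A) := by
      rw [Algebra.algebraMap_eq_smul_one]; rfl
    rw [h, cj_smul, cj_one]

theorem IsBlock.char_cj [Finite A] {L : Subgroup A} {e : MonoidAlgebra k A} (he : IsBlock L e)
    {l : fixAlg k L L →ₐ[k] k} (hl : l ⟨e, he.mem⟩ = 1) {g : A}
    (hL : g ∈ Subgroup.normalizer (L : Set A)) (hge : cj g e = e) (z : fixAlg k L L) :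
    l ⟨cj g z.1, cj_mem_fixAlg z.2 hL hL⟩ = l z := by
  have h : l.comp (cjHom hL) = l := by
    apply he.primIdem.char_unique
    · rw [AlgHom.comp_apply]
      have : cjHom hL ⟨e, he.mem⟩ = (⟨e, he.mem⟩ : fixAlg k L L) := Subtype.ext hge
      rw [this, hl]
    · exact hl
  have := congrArg (fun f : fixAlg k L L →ₐ[k] k => f z) h
  exact this

section classes
variable [Fintype A]

open Classical in
/-- the `L`-class of `y` -/
noncomputable def cls (L : Subgroup A) (y : A) : Finset A :=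
  Finset.univ.filter (fun z => ∃ x ∈ L, z = x * y * x⁻¹)

theorem mem_cls {L : Subgroup A} {y z : A} : z ∈ cls L y ↔ ∃ x ∈ L, z = x * y * x⁻¹ := by
  classical
  rw [cls, Finset.mem_filter]; simp

theorem self_mem_cls (L : Subgroup A) (y : A) : y ∈ cls L y :=
  mem_cls.2 ⟨1, L.one_mem, by simp⟩

theorem cls_eq_of_mem {L : Subgroup A} {y z : A} (h : z ∈ cls L y) : cls L z = cls L y := by
  obtain ⟨x, hx, rfl⟩ := mem_cls.1 h
  ext u
  rw [mem_cls, mem_cls]
  constructor
  · rintro ⟨v, hv, rfl⟩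
    exact ⟨v * x, L.mul_mem hv hx, by group⟩
  · rintro ⟨v, hv, rfl⟩
    exact ⟨v * x⁻¹, L.mul_mem hv (L.inv_mem hx), by group⟩

theorem resS_cls_mem {L : Subgroup A} {e : MonoidAlgebra k A} (he : e ∈ fixAlg k L L) (y : A) :
    resS (cls L y : Set A) e ∈ fixAlg k L L := by
  rw [mem_fixAlg] at *
  refine ⟨?_, ?_⟩
  · intro x hx
    by_cases hxc : x ∈ (cls L y : Set A)
    · rw [coeff_resS_of_mem _ hxc] at hx; exact he.1 x hx
    · rw [coeff_resS_of_notMem _ hxc] at hx; exact absurd rfl hx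
  · intro g hg x
    have key : g * x * g⁻¹ ∈ (cls L y : Set A) ↔ x ∈ (cls L y : Set A) := by
      rw [Finset.mem_coe, Finset.mem_coe, mem_cls, mem_cls]
      constructor
      · rintro ⟨v, hv, h⟩
        refine ⟨g⁻¹ * v, L.mul_mem (L.inv_mem hg) hv, ?_⟩
        calc x = g⁻¹ * (g * x * g⁻¹) * g := by group
          _ = g⁻¹ * v * y * (g⁻¹ * v)⁻¹ := by rw [h]; group
      · rintro ⟨v, hv, h⟩
        exact ⟨g * v, L.mul_mem hg hv, by rw [h]; group⟩
    by_cases hx : x ∈ (cls L y : Set A)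
    · rw [coeff_resS_of_mem _ hx, coeff_resS_of_mem _ (key.2 hx), he.2 g hg]
    · rw [coeff_resS_of_notMem _ hx, coeff_resS_of_notMem _ (fun h => hx (key.1 h))]

theorem exists_class [Fact p.Prime] [CharP k p] {L M : Subgroup A} {e : MonoidAlgebra k A}
    [IsAlgClosed k]
    (he : IsBlock L e) (hinv : InvBy M e) (hLM : L ≤ M)
    (hn : M ≤ Subgroup.normalizer (L : Set A)) (hp : ∀ x ∈ M, ∃ n : ℕ, x ^ p ^ n ∈ L) :
    ∃ y ∈ L, e.coeff y ≠ 0 ∧ (∀ m ∈ M, m * y * m⁻¹ ∈ cls L y) ∧
      ∃ w ∈ fixAlg k L L, resS (cls L y : Set A) e * w * e = e := by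
  classical
  obtain ⟨l, hl⟩ := he.primIdem.exists_char (k := k)
  obtain ⟨S, hS⟩ := exists_isSyl (p := p) M
  have hLS : L ⊔ S = M := hS.sup_eq hLM hn hp
  let lam : MonoidAlgebra k A → k := fun a => if h : a ∈ fixAlg k L L then l ⟨a, h⟩ else 0
  have hlam : ∀ a (h : a ∈ fixAlg k L L), lam a = l ⟨a, h⟩ := fun a h => dif_pos h
  let X : Finset (Finset A) := (Finset.univ.filter (fun y => y ∈ L)).image (cls L)
  have hX : ∀ c, c ∈ X ↔ ∃ y ∈ L, cls L y = c := by
    intro c
    simp only [X, Finset.mem_image, Finset.mem_filter, Finset.mem_univ, true_and]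
  let f : Finset A → k := fun c => if c ∈ X then lam (resS (c : Set A) e) else 0
  -- the sum over all classes is 1
  have hsum : ∑ c, f c = 1 := by
    have h1 : ∑ c, f c = ∑ c ∈ X, lam (resS (c : Set A) e) := by
      rw [← Finset.sum_filter]
      congr 1
      ext c; simp
    have h2 : ∀ c ∈ X, resS (c : Set A) e ∈ fixAlg k L L := by
      intro c hc
      obtain ⟨y, _, rfl⟩ := (hX c).1 hc
      exact resS_cls_mem he.mem y
    have h3 : ∑ c ∈ X.attach, (⟨resS (c.1 : Set A) e, h2 c.1 c.2⟩ : fixAlg k L L)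
        = ⟨e, he.mem⟩ := by
      apply Subtype.ext
      rw [AddSubmonoidClass.coe_finsetSum]
      ext z
      rw [coeff_sum, Finsupp.finsetSum_apply]
      by_cases hz : z ∈ L
      · rw [Finset.sum_eq_single (⟨cls L z, (hX _).2 ⟨z, hz, rfl⟩⟩ : X)]
        · change (resS (cls L z : Set A) e).coeff z = e.coeff z
          rw [coeff_resS_of_mem _ (Finset.mem_coe.2 (self_mem_cls L z))]
        · intro c _ hc
          change (resS (c.1 : Set A) e).coeff z = 0
          apply coeff_resS_of_notMem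
          intro h
          apply hc
          apply Subtype.ext
          obtain ⟨y, _, hy⟩ := (hX c.1).1 c.2
          change c.1 = cls L z
          rw [← hy] at h ⊢
          exact (cls_eq_of_mem (Finset.mem_coe.1 h)).symm
        · intro h; exact absurd (Finset.mem_attach _ _) h
      · have h0 : e.coeff z = 0 := by by_contra h; exact hz (he.suppIn z h)
        rw [h0]
        apply Finset.sum_eq_zero
        intro c _
        change (resS (c.1 : Set A) e).coeff z = 0
        by_cases hzc : z ∈ (c.1 : Set A)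
        · rw [coeff_resS_of_mem _ hzc, h0]
        · exact coeff_resS_of_notMem _ hzc
    rw [h1, ← hl, ← h3, map_sum, ← Finset.sum_attach]
    refine Finset.sum_congr rfl (fun c _ => ?_)
    exact hlam _ (h2 c.1 c.2)
  -- action of S
  have hmem : ∀ (g : A) (c : Finset A) (x : A),
      x ∈ (MulAut.conj g).toEquiv.finsetCongr c ↔ g⁻¹ * x * g ∈ c := by
    intro g c x
    rw [Equiv.finsetCongr_apply, Finset.mem_map_equiv]
    have : (MulAut.conj g).toEquiv.symm x = g⁻¹ * x * g := by
      rw [Equiv.symm_apply_eq]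
      change x = g * (g⁻¹ * x * g) * g⁻¹
      group
    rw [this]
  let φ : S →* Equiv.Perm (Finset A) :=
    { toFun := fun g => (MulAut.conj (g : A)).toEquiv.finsetCongr
      map_one' := by
        ext c x
        rw [hmem]; simp
      map_mul' := fun g h => by
        ext c x
        rw [hmem, Equiv.Perm.mul_apply, hmem, hmem]
        have : (h : A)⁻¹ * ((g : A)⁻¹ * x * g) * h = ((g * h : S) : A)⁻¹ * x * ((g * h : S) : A) := by
          rw [Subgroup.coe_mul]; group
        rw [this] }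
  have hφ : ∀ (g : S) (c : Finset A) (x : A), x ∈ φ g c ↔ (g : A)⁻¹ * x * g ∈ c :=
    fun g c x => hmem g c x
  have hSn : ∀ g : S, (g : A) ∈ Subgroup.normalizer (L : Set A) := fun g => hn (hS.le g.2)
  have hφX' : ∀ (g : S) (c : Finset A), c ∈ X → φ g c ∈ X := by
    intro g c hc
    obtain ⟨y, hy, rfl⟩ := (hX c).1 hc
    rw [hX]
    refine ⟨g * y * (g : A)⁻¹, (Subgroup.mem_normalizer_iff.1 (hSn g) y).1 hy, ?_⟩
    ext x
    rw [hφ, mem_cls, mem_cls]
    constructor
    · rintro ⟨v, hv, rfl⟩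
      refine ⟨(g : A)⁻¹ * v * g, ?_, by group⟩
      apply (Subgroup.mem_normalizer_iff.1 (hSn g) _).2
      have : (g : A) * ((g : A)⁻¹ * v * g) * (g : A)⁻¹ = v := by group
      rw [this]; exact hv
    · rintro ⟨v, hv, h⟩
      refine ⟨(g : A) * v * (g : A)⁻¹, (Subgroup.mem_normalizer_iff.1 (hSn g) v).1 hv, ?_⟩
      calc x = (g : A) * ((g : A)⁻¹ * x * g) * (g : A)⁻¹ := by group
        _ = _ := by rw [h]; group
  have hφX : ∀ (g : S) (c : Finset A), φ g c ∈ X ↔ c ∈ X := by
    intro g c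
    refine ⟨fun h => ?_, hφX' g c⟩
    have := hφX' g⁻¹ _ h
    rw [← Equiv.Perm.mul_apply, ← map_mul, inv_mul_cancel, map_one, Equiv.Perm.one_apply] at this
    exact this
  have hge : ∀ g ∈ M, cj g e = e := invBy_iff_cj.1 hinv
  have hres : ∀ (g : S) (c : Finset A), resS (φ g c : Set A) e = cj (g : A) (resS (c : Set A) e) := by
    intro g c
    ext x
    rw [coeff_cj]
    by_cases hx : x ∈ φ g c
    · rw [coeff_resS_of_mem _ (Finset.mem_coe.2 hx),
        coeff_resS_of_mem _ (Finset.mem_coe.2 ((hφ g c x).1 hx))]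
      have := congrArg (fun b => b.coeff x) (hge g (hS.le g.2))
      simp only [coeff_cj] at this
      exact this.symm
    · rw [coeff_resS_of_notMem _ (fun h => hx (Finset.mem_coe.1 h)),
        coeff_resS_of_notMem _ (fun h => hx ((hφ g c x).2 (Finset.mem_coe.1 h)))]
  have hf : ∀ g c, f (φ g c) = f c := by
    intro g c
    by_cases hc : c ∈ X
    · have hc' := hφX' g c hc
      change (if φ g c ∈ X then lam (resS (φ g c : Set A) e) else 0)
        = if c ∈ X then lam (resS (c : Set A) e) else 0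
      rw [if_pos hc, if_pos hc', hres]
      obtain ⟨y, _, rfl⟩ := (hX c).1 hc
      have h1 := resS_cls_mem he.mem y
      rw [hlam _ h1, hlam _ (cj_mem_fixAlg h1 (hSn g) (hSn g))]
      exact he.char_cj hl (hSn g) (hge g (hS.le g.2)) ⟨_, h1⟩
    · change (if φ g c ∈ X then lam (resS (φ g c : Set A) e) else 0)
        = if c ∈ X then lam (resS (c : Set A) e) else 0
      rw [if_neg hc, if_neg (fun h => hc ((hφX g c).1 h))]
  have hfix := sum_eq_sum_fixed (p := p) hS.isPGroup φ f hf
    (Finset.univ.filter (fun c => ∀ g, φ g c = c)) (fun c => by simp)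
  rw [hsum] at hfix
  have hne : ∑ c ∈ Finset.univ.filter (fun c => ∀ g, φ g c = c), f c ≠ 0 := by
    rw [← hfix]; exact one_ne_zero
  obtain ⟨c, hc, hfc⟩ := Finset.exists_ne_zero_of_sum_ne_zero hne
  have hcfix := (Finset.mem_filter.1 hc).2
  have hcX : c ∈ X := by
    by_contra h
    exact hfc (if_neg h)
  have hfc' : lam (resS (c : Set A) e) ≠ 0 := by
    have : f c = lam (resS (c : Set A) e) := if_pos hcX
    rwa [this] at hfc
  obtain ⟨y, hy, rfl⟩ := (hX c).1 hcX
  have hmemc := resS_cls_mem he.mem y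
  refine ⟨y, hy, ?_, ?_, ?_⟩
  · intro h0
    apply hfc'
    have : resS (cls L y : Set A) e = 0 := by
      ext x
      by_cases hx : x ∈ (cls L y : Set A)
      · rw [coeff_resS_of_mem _ hx]
        obtain ⟨v, hv, rfl⟩ := mem_cls.1 (Finset.mem_coe.1 hx)
        rw [he.invBy v hv, h0]; rfl
      · rw [coeff_resS_of_notMem _ hx]; rfl
    rw [this, hlam 0 (fixAlg k L L).zero_mem]
    exact map_zero l
  · let T : Subgroup A :=
      { carrier := {m | ∀ x, x ∈ cls L y ↔ m * x * m⁻¹ ∈ cls L y}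
        one_mem' := fun x => by simp
        mul_mem' := fun {g h} hg hh x => by
          rw [hh x, hg (h * x * h⁻¹)]
          have : g * (h * x * h⁻¹) * g⁻¹ = g * h * x * (g * h)⁻¹ := by group
          rw [this]
        inv_mem' := fun {g} hg x => by
          have := hg (g⁻¹ * x * g⁻¹⁻¹)
          rw [this]
          have : g * (g⁻¹ * x * g⁻¹⁻¹) * g⁻¹ = x := by group
          rw [this] }
    have hT : M ≤ T := by
      rw [← hLS]
      refine sup_le ?_ ?_
      · intro g hg x
        rw [mem_cls, mem_cls]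
        constructor
        · rintro ⟨v, hv, rfl⟩
          exact ⟨g * v, L.mul_mem hg hv, by group⟩
        · rintro ⟨v, hv, h⟩
          refine ⟨g⁻¹ * v, L.mul_mem (L.inv_mem hg) hv, ?_⟩
          calc x = g⁻¹ * (g * x * g⁻¹) * g := by group
            _ = _ := by rw [h]; group
      · intro g hg x
        have h1 := hcfix ⟨g, hg⟩
        have h2 := hφ ⟨g, hg⟩ (cls L y) (g * x * g⁻¹)
        rw [h1] at h2
        rw [h2]
        have h3 : (g : A)⁻¹ * (g * x * g⁻¹) * g = x := by group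
        change _ ↔ (g : A)⁻¹ * (g * x * g⁻¹) * g ∈ cls L y
        rw [h3]
    intro m hm
    exact (hT hm y).1 (self_mem_cls L y)
  · obtain ⟨w, hw⟩ := he.primIdem.exists_unit l (z := ⟨_, hmemc⟩) hl
      (by rw [← hlam]; exact hfc')
    exact ⟨w.1, w.2, congrArg Subtype.val hw⟩

theorem lemC [Fact p.Prime] [CharP k p] [IsAlgClosed k] {L M : Subgroup A}
    {e : MonoidAlgebra k A}
    (he : IsDZ p L e) (hinv : InvBy M e) (hLM : L ≤ M)
    (hn : M ≤ Subgroup.normalizer (L : Set A)) (hp : ∀ x ∈ M, ∃ n : ℕ, x ^ p ^ n ∈ L) :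
    ∃ (P : Subgroup A) (a : MonoidAlgebra k A), P ≤ M ∧ IsPGroup p P ∧ L ⊔ P = M ∧ L ⊓ P = ⊥ ∧
      HasBr P e ∧ SuppIn L a ∧ InvBy P a ∧ e = trK L a ∧
      ∀ D : Subgroup A, D ≤ M → IsPGroup p D → HasBr D e → ∃ m ∈ M, D ≤ cg m P := by
  classical
  obtain ⟨y, hyL, hey, hcl, w, hw, hwe⟩ := exists_class he.blk hinv hLM hn hp
  -- the class sum
  set K := (e.coeff y)⁻¹ • resS (cls L y : Set A) e with hK
  have hKmem : K ∈ fixAlg k L L := (fixAlg k L L).smul_mem (resS_cls_mem he.blk.mem y) _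
  have hKcoeff : ∀ z, z ∈ cls L y → K.coeff z = 1 := by
    intro z hz
    rw [hK, coeff_smul_apply, coeff_resS_of_mem _ (Finset.mem_coe.2 hz)]
    obtain ⟨v, hv, rfl⟩ := mem_cls.1 hz
    rw [he.blk.invBy v hv, smul_eq_mul, inv_mul_cancel₀ hey]
  have hKcoeff0 : ∀ z, z ∉ cls L y → K.coeff z = 0 := by
    intro z hz
    rw [hK, coeff_smul_apply, coeff_resS_of_notMem _ (fun h => hz (Finset.mem_coe.1 h)), smul_zero]
  have hclM : ∀ m ∈ M, ∀ x, m * x * m⁻¹ ∈ cls L y ↔ x ∈ cls L y := by
    have key : ∀ m ∈ M, ∀ x, x ∈ cls L y → m * x * m⁻¹ ∈ cls L y := by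
      intro m hm x hx
      obtain ⟨v, hv, rfl⟩ := mem_cls.1 hx
      have h1 := hcl m hm
      obtain ⟨u, hu, hu'⟩ := mem_cls.1 h1
      have h2 := (Subgroup.mem_normalizer_iff.1 (hn hm) v).1 hv
      refine mem_cls.2 ⟨(m * v * m⁻¹) * u, L.mul_mem h2 hu, ?_⟩
      calc m * (v * y * v⁻¹) * m⁻¹ = (m * v * m⁻¹) * (m * y * m⁻¹) * (m * v * m⁻¹)⁻¹ := by group
        _ = (m * v * m⁻¹) * (u * y * u⁻¹) * (m * v * m⁻¹)⁻¹ := by rw [hu']
        _ = _ := by group
    intro m hm x
    refine ⟨fun h => ?_, key m hm x⟩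
    have := key m⁻¹ (M.inv_mem hm) _ h
    have e1 : m⁻¹ * (m * x * m⁻¹) * m⁻¹⁻¹ = x := by group
    rwa [e1] at this
  have hKinv : InvBy M K := by
    intro m hm x
    by_cases hx : x ∈ cls L y
    · rw [hKcoeff _ hx, hKcoeff _ ((hclM m hm x).2 hx)]
    · rw [hKcoeff0 _ hx, hKcoeff0 _ (fun h => hx ((hclM m hm x).1 h))]
  -- normalise w
  set w' := (e.coeff y) • (w * e) with hw'
  have hw'mem : w' ∈ fixAlg k L L :=
    (fixAlg k L L).smul_mem ((fixAlg k L L).mul_mem hw he.blk.mem) _
  have hKw : K * w' = e := by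
    rw [hK, hw', smul_mul_smul_comm, inv_mul_cancel₀ hey, one_smul, ← mul_assoc]
    exact hwe
  have hw'e : w' * e = w' := by
    rw [hw', smul_mul_assoc, mul_assoc, he.blk.idem]
  have hcomm : ∀ a ∈ fixAlg k L L, ∀ b ∈ fixAlg k L L, a * b = b * a := fun a ha b hb =>
    commute_of (mem_fixAlg.1 ha).1 (mem_fixAlg.1 hb).2
  have hw'inv : InvBy M w' := by
    rw [invBy_iff_cj]
    intro m hm
    have hge : cj m e = e := invBy_iff_cj.1 hinv m hm
    have hKe : cj m K = K := invBy_iff_cj.1 hKinv m hm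
    have h1 : K * cj m w' = e := by
      calc K * cj m w' = cj m K * cj m w' := by rw [hKe]
        _ = cj m (K * w') := (cj_mul m K w').symm
        _ = e := by rw [hKw, hge]
    have h2 : cj m w' * e = cj m w' := by
      calc cj m w' * e = cj m w' * cj m e := by rw [hge]
        _ = cj m (w' * e) := (cj_mul m w' e).symm
        _ = cj m w' := by rw [hw'e]
    have hm' : cj m w' ∈ fixAlg k L L := cj_mem_fixAlg hw'mem (hn hm) (hn hm)
    calc cj m w' = cj m w' * e := h2.symm
      _ = cj m w' * (K * w') := by rw [hKw]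
      _ = (K * cj m w') * w' := by rw [← mul_assoc, hcomm _ hm' _ hKmem]
      _ = w' * e := by rw [h1, hcomm _ he.blk.mem _ hw'mem]
      _ = w' := hw'e
  -- the p-subgroup
  obtain ⟨P, hP⟩ := exists_isSyl (p := p) (M ⊓ Subgroup.centralizer {y})
  have hPM : P ≤ M := hP.le.trans inf_le_left
  have hyP : y ∈ Subgroup.centralizer (P : Set A) := by
    rw [Subgroup.mem_centralizer_iff]
    intro h hh
    have := Subgroup.mem_centralizer_iff.1 (Subgroup.mem_inf.1 (hP.le hh)).2 y rfl
    exact this.symm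
  have hM1 : L ⊔ (M ⊓ Subgroup.centralizer {y}) = M := by
    refine le_antisymm (sup_le hLM inf_le_left) (fun m hm => ?_)
    obtain ⟨x, hx, hxy⟩ := mem_cls.1 (hcl m hm)
    have h1 : x⁻¹ * m ∈ M ⊓ Subgroup.centralizer {y} := by
      refine Subgroup.mem_inf.2 ⟨M.mul_mem (M.inv_mem (hLM hx)) hm, ?_⟩
      rw [Subgroup.mem_centralizer_iff]
      intro z hz
      rw [Set.mem_singleton_iff] at hz
      subst hz
      calc z * (x⁻¹ * m) = x⁻¹ * (x * z * x⁻¹) * m := by group
        _ = x⁻¹ * (m * z * m⁻¹) * m := by rw [hxy]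
        _ = x⁻¹ * m * z := by group
    have h2 := Subgroup.mul_mem_sup hx h1
    have h3 : x * (x⁻¹ * m) = m := by group
    rwa [h3] at h2
  have hM2 : (L ⊓ Subgroup.centralizer {y}) ⊔ P = M ⊓ Subgroup.centralizer {y} := by
    refine hP.sup_eq (inf_le_inf_right _ hLM) ?_ ?_
    · intro g hg
      rw [Subgroup.mem_normalizer_iff]
      intro h
      have h1 := Subgroup.mem_normalizer_iff.1 (hn (Subgroup.mem_inf.1 hg).1) h
      have hgc := (Subgroup.mem_inf.1 hg).2
      constructor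
      · intro hh
        refine Subgroup.mem_inf.2 ⟨h1.1 (Subgroup.mem_inf.1 hh).1, ?_⟩
        exact Subgroup.mul_mem _ (Subgroup.mul_mem _ hgc (Subgroup.mem_inf.1 hh).2)
          (Subgroup.inv_mem _ hgc)
      · intro hh
        refine Subgroup.mem_inf.2 ⟨h1.2 (Subgroup.mem_inf.1 hh).1, ?_⟩
        have := Subgroup.mul_mem _ (Subgroup.mul_mem _ (Subgroup.inv_mem _ hgc)
          (Subgroup.mem_inf.1 hh).2) hgc
        have e1 : g⁻¹ * (g * h * g⁻¹) * g = h := by group
        rwa [e1] at this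
    · intro x hx
      obtain ⟨n, hn'⟩ := hp x (Subgroup.mem_inf.1 hx).1
      exact ⟨n, Subgroup.mem_inf.2 ⟨hn', Subgroup.pow_mem _ (Subgroup.mem_inf.1 hx).2 _⟩⟩
  have hLP : L ⊔ P = M := by
    refine le_antisymm (sup_le hLM hPM) ?_
    rw [← hM1, ← hM2]
    refine sup_le le_sup_left (sup_le ?_ le_sup_right)
    exact inf_le_left.trans le_sup_left
  have hBrP : HasBr P e := ⟨y, hyP, hey⟩
  have hLPbot : L ⊓ P = ⊥ := by
    apply he.dz _ inf_le_left (hP.isPGroup.to_le inf_le_right)
    refine ⟨y, ?_, hey⟩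
    exact Subgroup.centralizer_le (by exact_mod_cast (inf_le_right : L ⊓ P ≤ P)) hyP
  -- the trace
  have hcard : ((Nat.card ↥(L ⊓ Subgroup.centralizer {y}) : ℕ) : k) ≠ 0 := by
    intro h
    exact he.ndvd hey ((CharP.cast_eq_zero_iff k p _).1 h)
  have htr : trK L (single y (1 : k)) = ((Nat.card ↥(L ⊓ Subgroup.centralizer {y}) : ℕ) : k) • K := by
    ext z
    rw [coeff_smul_apply, coeff_trK]
    by_cases hz : z ∈ cls L y
    · rw [hKcoeff z hz, smul_eq_mul, mul_one]
      obtain ⟨x₀, hx₀, rfl⟩ := mem_cls.1 hz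
      have h1 : ∀ x : A, (if x ∈ L then (single y (1:k)).coeff (x⁻¹ * (x₀ * y * x₀⁻¹) * x) else 0)
          = if x₀⁻¹ * x ∈ L ⊓ Subgroup.centralizer {y} then 1 else 0 := by
        intro x
        by_cases hx : x ∈ L
        · rw [if_pos hx, coeff_single, Finsupp.single_apply]
          have h3 : x₀⁻¹ * x ∈ L := L.mul_mem (L.inv_mem hx₀) hx
          by_cases hc : x₀⁻¹ * x ∈ L ⊓ Subgroup.centralizer {y}
          · rw [if_pos hc, if_pos]
            have := Subgroup.mem_centralizer_iff.1 (Subgroup.mem_inf.1 hc).2 y rfl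
            calc y = (x₀⁻¹ * x)⁻¹ * ((x₀⁻¹ * x) * y) := by group
              _ = (x₀⁻¹ * x)⁻¹ * (y * (x₀⁻¹ * x)) := by rw [this]
              _ = _ := by group
          · rw [if_neg hc, if_neg]
            intro h
            apply hc
            refine Subgroup.mem_inf.2 ⟨h3, ?_⟩
            rw [Subgroup.mem_centralizer_iff]
            intro t ht
            rw [Set.mem_singleton_iff] at ht
            subst ht
            calc t * (x₀⁻¹ * x) = x₀⁻¹ * x * (x⁻¹ * (x₀ * t * x₀⁻¹) * x) := by group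
              _ = x₀⁻¹ * x * t := by rw [← h]
        · rw [if_neg hx, if_neg]
          intro h
          apply hx
          have := L.mul_mem hx₀ (Subgroup.mem_inf.1 h).1
          have e1 : x₀ * (x₀⁻¹ * x) = x := by group
          rwa [e1] at this
      rw [Finset.sum_congr rfl (fun x _ => h1 x),
        Fintype.sum_equiv (Equiv.mulLeft x₀⁻¹) (fun x => if x₀⁻¹ * x ∈ L ⊓ Subgroup.centralizer {y}
          then (1:k) else 0) (fun x => if x ∈ L ⊓ Subgroup.centralizer {y} then (1:k) else 0)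
          (fun x => rfl), Finset.sum_boole, Nat.card_eq_fintype_card, Fintype.card_subtype]
    · rw [hKcoeff0 z hz, smul_zero]
      apply Finset.sum_eq_zero
      intro x _
      by_cases hx : x ∈ L
      · rw [if_pos hx, coeff_single, Finsupp.single_apply, if_neg]
        intro h
        apply hz
        refine mem_cls.2 ⟨x, hx, ?_⟩
        calc z = x * (x⁻¹ * z * x) * x⁻¹ := by group
          _ = x * y * x⁻¹ := by rw [← h]
      · rw [if_neg hx]
  refine ⟨P, ((Nat.card ↥(L ⊓ Subgroup.centralizer {y}) : ℕ) : k)⁻¹ • (single y 1 * w'), hPM,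
    hP.isPGroup, hLP, hLPbot, hBrP, ?_, ?_, ?_, ?_⟩
  · intro x hx
    rw [coeff_smul_apply] at hx
    have h1 : (single y (1:k) * w').coeff x ≠ 0 := by
      intro h; rw [h, smul_zero] at hx; exact hx rfl
    rw [coeff_single_mul_apply, one_mul] at h1
    have h2 := (mem_fixAlg.1 hw'mem).1 _ h1
    have := L.mul_mem hyL h2
    simpa using this
  · have h1 : InvBy P (single y (1:k)) := by
      rw [invBy_iff_commute]
      intro g hg
      have h2 := Subgroup.mem_centralizer_iff.1 hyP g hg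
      change single g 1 * single y 1 = single y 1 * single g 1
      rw [single_mul_single, single_mul_single, h2]
    have h2 : InvBy P (single y (1:k) * w') := by
      rw [invBy_iff_commute] at h1 ⊢
      intro g hg
      exact (h1 g hg).mul_right (invBy_iff_commute.1 (hw'inv.mono hPM) g hg)
    intro g hg x
    rw [coeff_smul_apply, coeff_smul_apply, h2 g hg]
  · rw [trK_smul, trK_mul _ (mem_fixAlg.1 hw'mem).2, htr, smul_mul_assoc, smul_smul,
      inv_mul_cancel₀ hcard, one_smul, hKw]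
  · intro D hDM hD hbr
    obtain ⟨z, hz, hez⟩ := hbr
    have h1 : (resS (Subgroup.centralizer (D : Set A) : Set A) (K * w')).coeff z ≠ 0 := by
      rw [hKw, coeff_resS_of_mem _ hz]; exact hez
    rw [resS_mul hD (hKinv.mono hDM) (hw'inv.mono hDM), coeff_mul_fin] at h1
    obtain ⟨u, _, hu⟩ := Finset.exists_ne_zero_of_sum_ne_zero h1
    have hu1 := left_ne_zero_of_mul hu
    have hu2 : u ∈ (Subgroup.centralizer (D : Set A) : Set A) := by
      by_contra h; exact hu1 (coeff_resS_of_notMem _ h)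
    rw [coeff_resS_of_mem _ hu2] at hu1
    have hu3 : u ∈ cls L y := by
      by_contra h; exact hu1 (hKcoeff0 _ h)
    obtain ⟨x, hx, rfl⟩ := mem_cls.1 hu3
    have h2 : cg x⁻¹ D ≤ M ⊓ Subgroup.centralizer {y} := by
      intro v hv
      rw [mem_cg, inv_inv] at hv
      have hxM := hLM hx
      refine Subgroup.mem_inf.2 ⟨?_, ?_⟩
      · have := M.mul_mem (M.mul_mem (M.inv_mem hxM) (hDM hv)) hxM
        have e1 : x⁻¹ * (x * v * x⁻¹) * x = v := by group
        rwa [e1] at this
      · rw [Subgroup.mem_centralizer_iff]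
        intro t ht
        rw [Set.mem_singleton_iff] at ht
        subst ht
        have := Subgroup.mem_centralizer_iff.1 hu2 _ hv
        calc t * v = x⁻¹ * ((x * t * x⁻¹) * (x * v * x⁻¹)) * x := by group
          _ = x⁻¹ * ((x * v * x⁻¹) * (x * t * x⁻¹)) * x := by rw [← this]
          _ = v * t := by group
    obtain ⟨g, hg, hgD⟩ := hP.conj _ h2 (isPGroup_cg hD)
    refine ⟨x * g, M.mul_mem (hLM hx) (Subgroup.mem_inf.1 hg).1, ?_⟩
    rw [cg_le_iff, inv_inv, cg_cg] at hgD
    exact hgD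

end classes

end Pool.Agent.Lib.P0c8ca5
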