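import Mathlib
import Pool.Agent.Lib.P0c8ca5.LemC

/-! The correspondence between invariant defect-zero blocks of `L` and
defect-zero blocks of `C_L(D)`. -/

namespace Pool.Agent.Lib.P0c8ca5

open MonoidAlgebra

set_option linter.unusedSectionVars false

variable {p : ℕ} {k : Type*} [Field k] {A : Type*} [Group A]

theorem suppIn_cg {L : Subgroup A} {a : MonoidAlgebra k A} (ha : SuppIn L a) (g : A) :
    SuppIn (cg g L) (cj g a) := by
  intro x hx
  rw [coeff_cj] at hx
  exact mem_cg.2 (ha _ hx)

theorem invBy_cg {M : Subgroup A} {a : MonoidAlgebra k A} (ha : InvBy M a) (g : A) :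
    InvBy (cg g M) (cj g a) := by
  rw [invBy_iff_cj] at ha ⊢
  intro x hx
  rw [mem_cg] at hx
  rw [cj_cj]
  have e1 : x * g = g * (g⁻¹ * x * g) := by group
  rw [e1, ← cj_cj, ha _ hx]

theorem cj_mem_cg {L M : Subgroup A} {a : MonoidAlgebra k A} (ha : a ∈ fixAlg k L M) (g : A) :
    cj g a ∈ fixAlg k (cg g L) (cg g M) := by
  rw [mem_fixAlg] at *
  exact ⟨suppIn_cg ha.1 g, invBy_cg ha.2 g⟩

theorem cj_inv_cj (g : A) (a : MonoidAlgebra k A) : cj g⁻¹ (cj g a) = a := by
  rw [cj_cj, inv_mul_cancel, cj_one_left]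

theorem cj_cj_inv (g : A) (a : MonoidAlgebra k A) : cj g (cj g⁻¹ a) = a := by
  rw [cj_cj, mul_inv_cancel, cj_one_left]

theorem isBlock_cg {L : Subgroup A} {e : MonoidAlgebra k A} (he : IsBlock L e) (g : A) :
    IsBlock (cg g L) (cj g e) where
  mem := cj_mem_cg he.mem g
  idem := by rw [← cj_mul, he.idem]
  ne_zero := fun h => he.ne_zero (by rw [← cj_inv_cj g e, h, cj_zero])
  prim := fun f hf hff hfe => by
    have h1 := cj_mem_cg hf g⁻¹
    rw [cg_cg, inv_mul_cancel, cg_one] at h1
    have h2 : cj g⁻¹ f * cj g⁻¹ f = cj g⁻¹ f := by rw [← cj_mul, hff]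
    have h3 : cj g⁻¹ f * e = cj g⁻¹ f := by
      calc cj g⁻¹ f * e = cj g⁻¹ f * cj g⁻¹ (cj g e) := by rw [cj_inv_cj]
        _ = cj g⁻¹ f := by rw [← cj_mul, hfe]
    rcases he.prim _ h1 h2 h3 with h | h
    · left; rw [← cj_cj_inv g f, h, cj_zero]
    · right; rw [← cj_cj_inv g f, h]

theorem hasBr_cg {P : Subgroup A} {e : MonoidAlgebra k A} (h : HasBr P e) (g : A) :
    HasBr (cg g P) (cj g e) := by
  obtain ⟨x, hx, hex⟩ := h
  refine ⟨g * x * g⁻¹, ?_, ?_⟩
  · rw [Subgroup.mem_centralizer_iff] at hx ⊢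
    intro y hy
    have h1 := hx _ (mem_cg.1 hy)
    calc y * (g * x * g⁻¹) = g * ((g⁻¹ * y * g) * x) * g⁻¹ := by group
      _ = g * (x * (g⁻¹ * y * g)) * g⁻¹ := by rw [h1]
      _ = _ := by group
  · rw [coeff_cj]
    have e1 : g⁻¹ * (g * x * g⁻¹) * g = x := by group
    rw [e1]; exact hex

theorem isDZ_cg {L : Subgroup A} {e : MonoidAlgebra k A} (he : IsDZ p L e) (g : A) :
    IsDZ p (cg g L) (cj g e) where
  blk := isBlock_cg he.blk g
  dz := fun P hP hpP hbr => by
    have h1 : cg g⁻¹ P ≤ L := by rw [cg_le_iff, inv_inv]; exact hP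
    have h2 := hasBr_cg hbr g⁻¹
    rw [cj_inv_cj] at h2
    have h3 := he.dz _ h1 (isPGroup_cg hpP) h2
    rw [eq_bot_iff] at h3 ⊢
    intro x hx
    have h4 : g⁻¹ * x * g ∈ cg g⁻¹ P := by
      rw [mem_cg, inv_inv]
      have e1 : g * (g⁻¹ * x * g) * g⁻¹ = x := by group
      rw [e1]; exact hx
    have h5 := Subgroup.mem_bot.1 (h3 h4)
    rw [Subgroup.mem_bot]
    calc x = g * (g⁻¹ * x * g) * g⁻¹ := by group
      _ = 1 := by rw [h5]; group

theorem cg_of_mem_normalizer {L : Subgroup A} {g : A}
    (hg : g ∈ Subgroup.normalizer (L : Set A)) : cg g L = L := cg_eq_self_iff.2 hg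

/-- elements supported in the centralizer of `D` are `D`-invariant -/
theorem invBy_of_supp {D : Subgroup A} {a : MonoidAlgebra k A}
    (ha : SuppIn (Subgroup.centralizer (D : Set A)) a) : InvBy D a := by
  intro g hg x
  by_cases h : x ∈ Subgroup.centralizer (D : Set A)
  · have := Subgroup.mem_centralizer_iff.1 h g hg
    rw [this]; congr 1; group
  · have h1 : a.coeff x = 0 := by by_contra h'; exact h (ha x h')
    have h2 : a.coeff (g * x * g⁻¹) = 0 := by
      by_contra h'
      apply h
      have h3 := ha _ h'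
      have h4 := Subgroup.mem_centralizer_iff.1 h3 g hg
      have h5 : g * x * g⁻¹ = x := by
        calc g * x * g⁻¹ = g⁻¹ * (g * (g * x * g⁻¹)) := by group
          _ = g⁻¹ * (g * x * g⁻¹ * g) := by rw [h4]
          _ = x := by group
      rwa [h5] at h3
    rw [h1, h2]

theorem resS_eq_self {C : Subgroup A} {a : MonoidAlgebra k A} (ha : SuppIn C a) :
    resS (C : Set A) a = a := by
  ext x
  by_cases h : x ∈ (C : Set A)
  · rw [coeff_resS_of_mem _ h]
  · rw [coeff_resS_of_notMem _ h]
    by_contra h'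
    exact h (ha x (Ne.symm h'))

theorem resS_suppIn {C : Subgroup A} {a : MonoidAlgebra k A} : SuppIn C (resS (C : Set A) a) := by
  intro x hx
  by_contra h
  exact hx (coeff_resS_of_notMem _ h)

theorem resS_suppIn' {L C : Subgroup A} {a : MonoidAlgebra k A} (ha : SuppIn L a) :
    SuppIn (L ⊓ C) (resS (C : Set A) a) := by
  intro x hx
  by_cases h : x ∈ (C : Set A)
  · rw [coeff_resS_of_mem _ h] at hx
    exact Subgroup.mem_inf.2 ⟨ha x hx, h⟩
  · exact absurd (coeff_resS_of_notMem _ h) hx

theorem resS_invBy {K C : Subgroup A} {a : MonoidAlgebra k A}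
    (hK : K ≤ Subgroup.normalizer (C : Set A)) (ha : InvBy K a) :
    InvBy K (resS (C : Set A) a) := by
  intro g hg x
  have h := Subgroup.mem_normalizer_iff.1 (hK hg) x
  by_cases hx : x ∈ C
  · rw [coeff_resS_of_mem _ (SetLike.mem_coe.2 hx),
      coeff_resS_of_mem _ (SetLike.mem_coe.2 (h.1 hx)), ha g hg]
  · rw [coeff_resS_of_notMem _ (fun h' => hx (SetLike.mem_coe.1 h')),
      coeff_resS_of_notMem _ (fun h' => hx (h.2 (SetLike.mem_coe.1 h')))]

section
variable [Fintype A] [Fact p.Prime] [CharP k p] [IsAlgClosed k]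

/-- for `D` itself, an invariant defect-zero block is a trace of a `D`-invariant element -/
theorem dgn_tr {L D : Subgroup A} (hD : IsPGroup p D)
    (hDL : D ≤ Subgroup.normalizer (L : Set A)) (hLD : L ⊓ D = ⊥) {e : MonoidAlgebra k A}
    (he : IsDZ p L e) (heD : InvBy D e) (hbr : HasBr D e) :
    (∃ a : MonoidAlgebra k A, SuppIn L a ∧ InvBy D a ∧ e = trK L a) ∧
    ∀ D' : Subgroup A, D' ≤ L ⊔ D → IsPGroup p D' → HasBr D' e → ∃ m ∈ L ⊔ D, D' ≤ cg m D := by
  have hinv : InvBy (L ⊔ D) e := invBy_sup he.blk.invBy heD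
  obtain ⟨P, a, hPM, hP, hLP, hLPb, hbrP, haL, haP, heq, hconj⟩ :=
    lemC he hinv le_sup_left (sup_le_normalizer hDL) (pquot_sup hDL hD)
  obtain ⟨m, hm, hmD⟩ := hconj D le_sup_right hD hbr
  have hPn : P ≤ Subgroup.normalizer (L : Set A) := hPM.trans (sup_le_normalizer hDL)
  have hc1 := card_sup_disj hPn hLPb
  have hc2 := card_sup_disj hDL hLD
  rw [hLP, hc2] at hc1
  have hc3 : Nat.card D = Nat.card P := Nat.eq_of_mul_eq_mul_left Nat.card_pos hc1
  have hDP : D = cg m P := eq_of_le_of_card hmD (by rw [card_cg, hc3])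
  have hmn : m ∈ Subgroup.normalizer (L : Set A) := sup_le_normalizer hDL hm
  refine ⟨⟨cj m a, haL.cj hmn, ?_, ?_⟩, ?_⟩
  · rw [hDP]
    rw [invBy_iff_cj] at haP ⊢
    intro g hg
    rw [mem_cg] at hg
    have := haP _ hg
    rw [cj_cj]
    have e1 : g * m = m * (m⁻¹ * g * m) := by group
    rw [e1, ← cj_cj, this]
  · rw [← cj_trK hmn, ← heq]
    exact (invBy_iff_cj.1 hinv m hm).symm
  · intro D' hD' hpD' hbr'
    obtain ⟨m', hm', h⟩ := hconj D' hD' hpD' hbr'
    refine ⟨m' * m⁻¹, (L ⊔ D).mul_mem hm' ((L ⊔ D).inv_mem hm), ?_⟩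
    rw [hDP, cg_cg]
    have e1 : m' * m⁻¹ * m = m' := by group
    rw [e1]; exact h

theorem dgn_a {L D : Subgroup A} (hD : IsPGroup p D)
    (hDL : D ≤ Subgroup.normalizer (L : Set A)) (hLD : L ⊓ D = ⊥) {e : MonoidAlgebra k A}
    (he : IsDZ p L e) (heD : InvBy D e) (hbr : HasBr D e) :
    IsDZ p (L ⊓ Subgroup.centralizer (D : Set A))
      (resS (Subgroup.centralizer (D : Set A) : Set A) e) := by
  obtain ⟨⟨a, haL, haD, hea⟩, hconj⟩ := dgn_tr hD hDL hLD he heD hbr
  set CD := Subgroup.centralizer (D : Set A) with hCD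
  set C := L ⊓ CD with hC
  set f := resS (CD : Set A) e with hf
  have hfa : f = trK C (resS (CD : Set A) a) := by rw [hf, hea, resS_trK hD hDL haD]
  have hfsupp : SuppIn C f := resS_suppIn' he.blk.suppIn
  have hfinv : InvBy C f := by
    apply resS_invBy _ (he.blk.invBy.mono inf_le_left)
    exact inf_le_right.trans Subgroup.le_normalizer
  have hfidem : f * f = f := by
    rw [hf, ← resS_mul hD heD heD, he.blk.idem]
  refine ⟨⟨mem_fixAlg.2 ⟨hfsupp, hfinv⟩, hfidem, ?_, ?_⟩, ?_⟩
  · intro h0
    obtain ⟨x, hx, hex⟩ := hbr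
    have := congrArg (fun b => b.coeff x) h0
    simp only [hf] at this
    rw [coeff_resS_of_mem _ hx] at this
    exact hex this
  · intro f₁ hf₁ hf₁₁ hf₁f
    rw [mem_fixAlg] at hf₁
    set s := f₁ * resS (CD : Set A) a with hs
    have hsC : SuppIn C s := hf₁.1.mul (resS_suppIn' haL)
    have hsD : InvBy D s := invBy_of_supp (hsC.mono inf_le_right)
    set t := trK L s with ht
    have hresf₁ : resS (CD : Set A) f₁ = f₁ := resS_eq_self (hf₁.1.mono inf_le_right)
    have hress : resS (CD : Set A) s = s := resS_eq_self (hsC.mono inf_le_right)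
    have hrest : resS (CD : Set A) t = f₁ := by
      rw [ht, resS_trK hD hDL hsD, hress, hs, mul_trK _ hf₁.2, ← hfa, hf₁f]
    have htL : t ∈ fixAlg k L L :=
      mem_fixAlg.2 ⟨trK_suppIn Subgroup.le_normalizer (hsC.mono inf_le_left), trK_invBy L s⟩
    have htD : InvBy D t := by
      rw [invBy_iff_cj]
      intro g hg
      rw [ht, cj_trK (hDL hg), invBy_iff_cj.1 hsD g hg]
    have hteD : InvBy D (t * e) := by
      rw [invBy_iff_commute] at htD heD ⊢
      exact fun g hg => (htD g hg).mul_right (heD g hg)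
    have hreste : resS (CD : Set A) (t * e) = f₁ := by
      rw [resS_mul hD htD heD, hrest, ← hf, hf₁f]
    have hA : IsArtinianRing (fixAlg k L L) := IsArtinianRing.of_finite k _
    rcases he.blk.primIdem.nilp_or_unit ⟨t, htL⟩ with ⟨n, hn⟩ | ⟨w, hw⟩
    · left
      have h1 : (t * e) ^ n = 0 := congrArg Subtype.val hn
      have h2 : ∀ m : ℕ, InvBy D ((t * e) ^ m) ∧ resS (CD : Set A) ((t * e) ^ (m + 1)) = f₁ := by
        intro m
        induction m with
        | zero =>
          refine ⟨?_, ?_⟩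
          · rw [pow_zero, invBy_iff_commute]
            intro g _; exact Commute.one_right _
          · rw [zero_add, pow_one, hreste]
        | succ m ih =>
          have h3 : InvBy D ((t * e) ^ (m + 1)) := by
            rw [invBy_iff_commute] at hteD ⊢
            exact fun g hg => (hteD g hg).pow_right _
          refine ⟨h3, ?_⟩
          rw [pow_succ, resS_mul hD h3 hteD, ih.2, hreste, hf₁₁]
      have h3 : (t * e) ^ (n + 1) = 0 := by rw [pow_succ, h1, zero_mul]
      rw [← (h2 n).2, h3, resS_zero]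
    · right
      have hw' : t * w.1 * e = e := congrArg Subtype.val hw
      set v := w.1 * e with hv
      have htv : t * v = e := by rw [hv, ← mul_assoc, hw']
      have hve : v * e = v := by rw [hv, mul_assoc, he.blk.idem]
      have hvL : v ∈ fixAlg k L L := (fixAlg k L L).mul_mem w.2 he.blk.mem
      have hcomm : ∀ a ∈ fixAlg k L L, ∀ b ∈ fixAlg k L L, a * b = b * a := fun a ha b hb =>
        commute_of (mem_fixAlg.1 ha).1 (mem_fixAlg.1 hb).2
      have hvD : InvBy D v := by
        rw [invBy_iff_cj]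
        intro g hg
        have hge : cj g e = e := invBy_iff_cj.1 heD g hg
        have hgt : cj g t = t := invBy_iff_cj.1 htD g hg
        have hgv : cj g v ∈ fixAlg k L L := cj_mem_fixAlg hvL (hDL hg) (hDL hg)
        have h1 : t * cj g v = e := by
          calc t * cj g v = cj g t * cj g v := by rw [hgt]
            _ = cj g (t * v) := (cj_mul g t v).symm
            _ = e := by rw [htv, hge]
        have h2 : cj g v * e = cj g v := by
          calc cj g v * e = cj g v * cj g e := by rw [hge]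
            _ = cj g (v * e) := (cj_mul g v e).symm
            _ = cj g v := by rw [hve]
        calc cj g v = cj g v * e := h2.symm
          _ = cj g v * (t * v) := by rw [htv]
          _ = (t * cj g v) * v := by rw [← mul_assoc, hcomm _ hgv _ htL]
          _ = v * e := by rw [h1, hcomm _ he.blk.mem _ hvL]
          _ = v := hve
      have h3 : f₁ * resS (CD : Set A) v = f := by
        rw [← hrest, ← resS_mul hD htD hvD, htv]
      calc f₁ = f₁ * f := hf₁f.symm
        _ = f₁ * (f₁ * resS (CD : Set A) v) := by rw [h3]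
        _ = f := by rw [← mul_assoc, hf₁₁, h3]
  · intro P hPC hP hbrP
    obtain ⟨x, hx, hfx⟩ := hbrP
    have hxCD : x ∈ (CD : Set A) := by
      by_contra h; exact hfx (coeff_resS_of_notMem _ h)
    rw [hf, coeff_resS_of_mem _ hxCD] at hfx
    have hPD : P ≤ Subgroup.normalizer (D : Set A) := by
      refine (hPC.trans inf_le_right).trans ?_
      rw [hCD]; exact Subgroup.centralizer_le_normalizer _
    have hPDp : IsPGroup p ↥(P ⊔ D) := hP.to_sup_of_normal_right' hD hPD
    obtain ⟨m, _, hm⟩ := hconj (P ⊔ D)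
      (sup_le (hPC.trans (inf_le_left.trans le_sup_left)) le_sup_right) hPDp
      ⟨x, by
        rw [Subgroup.mem_centralizer_iff]
        intro h hh
        have h1 : P ⊔ D ≤ Subgroup.centralizer {x} := by
          refine sup_le ?_ ?_
          · intro y hy
            rw [Subgroup.mem_centralizer_iff]
            intro z hz
            rw [Set.mem_singleton_iff] at hz; subst hz
            exact (Subgroup.mem_centralizer_iff.1 hx y hy).symm
          · intro y hy
            rw [Subgroup.mem_centralizer_iff]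
            intro z hz
            rw [Set.mem_singleton_iff] at hz; subst hz
            exact (Subgroup.mem_centralizer_iff.1 hxCD y hy).symm
        exact (Subgroup.mem_centralizer_iff.1 (h1 hh) x rfl).symm, hfx⟩
    have h1 : D = P ⊔ D := by
      apply eq_of_le_of_card le_sup_right
      rw [← card_cg m D]
      exact Subgroup.card_le_of_le hm
    have h2 : P ≤ D := by rw [h1]; exact le_sup_left
    have h3 : P ≤ L ⊓ D := le_inf (hPC.trans inf_le_left) h2
    rw [hLD] at h3
    exact le_bot_iff.1 h3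

theorem dgn_inj {L D : Subgroup A} (hD : IsPGroup p D) {e e' : MonoidAlgebra k A}
    (he : IsBlock L e) (he' : IsBlock L e') (heD : InvBy D e) (he'D : InvBy D e')
    (hbr : HasBr D e)
    (h : resS (Subgroup.centralizer (D : Set A) : Set A) e
      = resS (Subgroup.centralizer (D : Set A) : Set A) e') : e = e' := by
  rcases he.eq_or_mul_eq_zero he' with h1 | h1
  · exact h1
  · exfalso
    obtain ⟨x, hx, hex⟩ := hbr
    have h2 := resS_mul hD heD he'D
    rw [h1, resS_zero, ← h, ← resS_mul hD heD heD, he.idem] at h2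
    have h3 := congrArg (fun b : MonoidAlgebra k A => b.coeff x) h2
    change (0 : MonoidAlgebra k A).coeff x = (resS _ e).coeff x at h3
    rw [coeff_resS_of_mem _ hx] at h3
    exact hex h3.symm

/-- a trace from the trivial subgroup vanishes at elements centralized by nontrivial p-subgroups -/
theorem coeff_trK_eq_zero {L P : Subgroup A} (hP : IsPGroup p P) (hPL : P ≤ L) (hne : P ≠ ⊥)
    (a : MonoidAlgebra k A) {x : A} (hx : x ∈ Subgroup.centralizer (P : Set A)) :
    (trK L a).coeff x = 0 := by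
  classical
  rw [coeff_trK]
  obtain ⟨h, hh, hh1⟩ := (Subgroup.ne_bot_iff_exists_ne_one.1 hne : ∃ a : P, a ≠ 1) |>.elim
    (fun a ha => (⟨a.1, a.2, fun h => ha (Subtype.ext h)⟩ : ∃ h, h ∈ P ∧ h ≠ 1))
  rw [sum_eq_sum_fixed (p := p) hP (((MulAction.toPermHom A A)).comp P.subtype)
    (fun g => if g ∈ L then a.coeff (g⁻¹ * x * g) else 0) ?_ ∅ ?_, Finset.sum_empty]
  · intro u g
    change (if (u : A) * g ∈ L then a.coeff (((u : A) * g)⁻¹ * x * ((u : A) * g)) else 0) = _
    by_cases hg : g ∈ L
    · rw [if_pos hg, if_pos (L.mul_mem (hPL u.2) hg)]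
      congr 1
      have := Subgroup.mem_centralizer_iff.1 hx u u.2
      calc ((u : A) * g)⁻¹ * x * ((u : A) * g) = g⁻¹ * (u : A)⁻¹ * (x * u) * g := by group
        _ = g⁻¹ * (u : A)⁻¹ * (u * x) * g := by rw [← this]
        _ = g⁻¹ * x * g := by group
    · rw [if_neg hg, if_neg]
      intro h'
      apply hg
      have := L.mul_mem (L.inv_mem (hPL u.2)) h'
      have e1 : (u : A)⁻¹ * (u * g) = g := by group
      rwa [e1] at this
  · intro g
    constructor
    · intro h'; exact absurd h' (Finset.notMem_empty g)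
    · intro h'
      exfalso
      apply hh1
      have h2 : h * g = g := h' ⟨h, hh⟩
      exact mul_eq_right.1 h2

theorem dgn_surj {L D : Subgroup A} (hD : IsPGroup p D)
    (hDL : D ≤ Subgroup.normalizer (L : Set A)) (hLD : L ⊓ D = ⊥) {f : MonoidAlgebra k A}
    (hf : IsDZ p (L ⊓ Subgroup.centralizer (D : Set A)) f) :
    ∃ e : MonoidAlgebra k A, IsDZ p L e ∧ InvBy D e ∧ HasBr D e ∧
      resS (Subgroup.centralizer (D : Set A) : Set A) e = f := by
  classical
  set CD := Subgroup.centralizer (D : Set A) with hCD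
  set C := L ⊓ CD with hC
  -- lift f
  obtain ⟨P, a, -, -, -, -, -, haC, -, hfa, -⟩ := lemC (M := C) hf hf.blk.invBy le_rfl
    Subgroup.le_normalizer (fun x hx => ⟨0, by simpa using hx⟩)
  have haD : InvBy D a := invBy_of_supp (haC.mono inf_le_right)
  set t := trK L a with ht
  have hrest : resS (CD : Set A) t = f := by
    rw [ht, resS_trK hD hDL haD, resS_eq_self (haC.mono inf_le_right), hfa]
  have htL : t ∈ fixAlg k L L :=
    mem_fixAlg.2 ⟨trK_suppIn Subgroup.le_normalizer (haC.mono inf_le_left), trK_invBy L a⟩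
  have htD : InvBy D t := by
    rw [invBy_iff_cj]
    intro g hg
    rw [ht, cj_trK (hDL hg), invBy_iff_cj.1 haD g hg]
  obtain ⟨μ, hμ⟩ := hf.blk.primIdem.exists_char (k := k)
  -- the Brauer map on the D-fixed points of Z(kL)
  let S : Subalgebra k (fixAlg k L L) :=
    { carrier := {z | InvBy D z.1}
      mul_mem' := fun {a b} ha hb => by
        have ha' := invBy_iff_commute.1 ha
        have hb' := invBy_iff_commute.1 hb
        exact invBy_iff_commute.2 (fun g hg => (ha' g hg).mul_right (hb' g hg))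
      add_mem' := fun {a b} ha hb => by
        have ha' := invBy_iff_commute.1 ha
        have hb' := invBy_iff_commute.1 hb
        exact invBy_iff_commute.2 (fun g hg => (ha' g hg).add_right (hb' g hg))
      algebraMap_mem' := fun r => by
        apply invBy_iff_commute.2
        intro g _
        exact (Algebra.commutes r (single g (1:k))).symm }
  have hbrmem : ∀ z : S, resS (CD : Set A) z.1.1 ∈ fixAlg k C C := by
    intro z
    rw [mem_fixAlg]
    refine ⟨resS_suppIn' (mem_fixAlg.1 z.1.2).1, ?_⟩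
    apply resS_invBy _ ((mem_fixAlg.1 z.1.2).2.mono inf_le_left)
    exact inf_le_right.trans Subgroup.le_normalizer
  let B : S →ₐ[k] fixAlg k C C :=
    { toFun := fun z => ⟨resS (CD : Set A) z.1.1, hbrmem z⟩
      map_one' := by
        apply Subtype.ext
        change resS (CD : Set A) (1 : MonoidAlgebra k A) = 1
        apply resS_eq_self
        intro x hx
        have : x = 1 := by
          by_contra hne
          apply hx
          rw [MonoidAlgebra.one_def, coeff_single, Finsupp.single_apply, if_neg (Ne.symm hne)]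
        rw [this]; exact CD.one_mem
      map_mul' := fun z w => Subtype.ext (resS_mul hD z.2 w.2)
      map_zero' := Subtype.ext (resS_zero _)
      map_add' := fun z w => Subtype.ext (resS_add _ _ _)
      commutes' := fun r => by
        apply Subtype.ext
        have h1 : ∀ K : Subgroup A, ((algebraMap k (fixAlg k K K)) r).1
            = r • (1 : MonoidAlgebra k A) := by
          intro K; rw [Algebra.algebraMap_eq_smul_one]; rfl
        change resS (CD : Set A) ((algebraMap k (fixAlg k L L)) r).1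
          = ((algebraMap k (fixAlg k C C)) r).1
        rw [h1, h1, resS_smul]
        congr 1
        apply resS_eq_self
        intro x hx
        have : x = 1 := by
          by_contra hne
          apply hx
          rw [MonoidAlgebra.one_def, coeff_single, Finsupp.single_apply, if_neg (Ne.symm hne)]
        rw [this]; exact CD.one_mem }
  obtain ⟨ε, hε, hνε⟩ := exists_prim_of_char (μ.comp B)
  have hε0 : ε.1 ≠ 0 := fun h => hε.ne_zero (Subtype.ext h)
  have hεε : ε.1 * ε.1 = ε.1 := congrArg Subtype.val hε.idem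
  obtain ⟨e₁, he₁, he₁ε⟩ := exists_prim_le k hε0 hεε
  have hblk₁ : IsBlock L e₁.1 := isBlock_of_primIdem he₁
  have he₁ε' : e₁.1 * ε.1.1 = e₁.1 := congrArg Subtype.val he₁ε
  have hcommL : ∀ a ∈ fixAlg k L L, ∀ b ∈ fixAlg k L L, a * b = b * a := fun a ha b hb =>
    commute_of (mem_fixAlg.1 ha).1 (mem_fixAlg.1 hb).2
  -- conjugates of e₁
  have hcjblk : ∀ g ∈ D, IsBlock L (cj g e₁.1) := by
    intro g hg
    have := isBlock_cg hblk₁ g
    rwa [cg_of_mem_normalizer (hDL hg)] at this
  -- e₁ is D-invariant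
  have he₁D : InvBy D e₁.1 := by
    rw [invBy_iff_cj]
    by_contra hcon
    push Not at hcon
    obtain ⟨g₀, hg₀, hne₀⟩ := hcon
    let O : Finset (MonoidAlgebra k A) := Finset.univ.image (fun g : ↥D => cj (g : A) e₁.1)
    have hO : ∀ z, z ∈ O ↔ ∃ g ∈ D, cj g e₁.1 = z := by
      intro z
      constructor
      · intro h
        obtain ⟨g, _, hg⟩ := Finset.mem_image.1 h
        exact ⟨g, g.2, hg⟩
      · rintro ⟨g, hg, h⟩
        exact Finset.mem_image.2 ⟨⟨g, hg⟩, Finset.mem_univ _, h⟩
    have hOblk : ∀ z ∈ O, IsBlock L z := by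
      intro z hz
      obtain ⟨g, hg, rfl⟩ := (hO z).1 hz
      exact hcjblk g hg
    have hOcj : ∀ g ∈ D, ∀ z ∈ O, cj g z ∈ O := by
      intro g hg z hz
      obtain ⟨h, hh, rfl⟩ := (hO z).1 hz
      rw [cj_cj]
      exact (hO _).2 ⟨g * h, D.mul_mem hg hh, rfl⟩
    have he₁O : e₁.1 ∈ O := (hO _).2 ⟨1, D.one_mem, cj_one_left _⟩
    set E : MonoidAlgebra k A := ∑ z ∈ O, z with hE
    have hmulO : ∀ z ∈ O, E * z = z := by
      intro z hz
      rw [hE, Finset.sum_mul, Finset.sum_eq_single z]
      · exact (hOblk z hz).idem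
      · intro w hw hwz
        rcases (hOblk w hw).eq_or_mul_eq_zero (hOblk z hz) with h | h
        · exact absurd h hwz
        · exact h
      · intro h; exact absurd hz h
    have hEE : E * E = E := by
      calc E * E = ∑ z ∈ O, E * z := by rw [← Finset.mul_sum]
        _ = ∑ z ∈ O, z := Finset.sum_congr rfl (fun z hz => hmulO z hz)
    have hEL : E ∈ fixAlg k L L := (fixAlg k L L).sum_mem (fun z hz => (hOblk z hz).mem)
    have hED : InvBy D E := by
      rw [invBy_iff_cj]
      intro g hg
      rw [hE, cj_sum]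
      refine Finset.sum_bij' (fun z _ => cj g z) (fun z _ => cj g⁻¹ z) ?_ ?_ ?_ ?_ ?_
      · intro z hz; exact hOcj g hg z hz
      · intro z hz; exact hOcj g⁻¹ (D.inv_mem hg) z hz
      · intro z _; exact cj_inv_cj g z
      · intro z _; exact cj_cj_inv g z
      · intro z _; rfl
    have hEε : E * ε.1.1 = E := by
      rw [hE, Finset.sum_mul]
      refine Finset.sum_congr rfl (fun z hz => ?_)
      obtain ⟨g, hg, rfl⟩ := (hO z).1 hz
      calc cj g e₁.1 * ε.1.1 = cj g e₁.1 * cj g ε.1.1 := by rw [invBy_iff_cj.1 ε.2 g hg]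
        _ = cj g e₁.1 := by rw [← cj_mul, he₁ε']
    have hE0 : E ≠ 0 := by
      intro h
      have := hmulO _ he₁O
      rw [h, zero_mul] at this
      exact hblk₁.ne_zero this.symm
    have hEeq : E = ε.1.1 := by
      rcases hε.prim ⟨⟨E, hEL⟩, hED⟩ (Subtype.ext (Subtype.ext hEE))
        (Subtype.ext (Subtype.ext hEε)) with h | h
      · exact absurd (congrArg (fun z : S => z.1.1) h) hE0
      · exact congrArg (fun z : S => z.1.1) h
    have hzero : resS (CD : Set A) E = 0 := by
      ext x
      by_cases hx : x ∈ (CD : Set A)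
      · rw [coeff_resS_of_mem _ hx, hE, coeff_sum, Finsupp.finsetSum_apply, ← Finset.sum_coe_sort]
        let inst : MulAction D O :=
          { smul := fun g z => ⟨cj (g : A) z.1, hOcj g g.2 z.1 z.2⟩
            one_smul := fun z => Subtype.ext (cj_one_left z.1)
            mul_smul := fun g h z => Subtype.ext (cj_cj (g : A) h z.1).symm }
        have h1 : ∑ z : O, z.1.coeff x = ∑ z ∈ (∅ : Finset O), z.1.coeff x := by
          refine sum_eq_sum_fixed (p := p) hD (MulAction.toPermHom D O)
            (fun z => z.1.coeff x) ?_ ∅ ?_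
          · intro g z
            change (cj (g : A) z.1).coeff x = z.1.coeff x
            rw [coeff_cj]
            have := Subgroup.mem_centralizer_iff.1 hx g g.2
            have e1 : (g : A)⁻¹ * x * g = x := by
              rw [mul_assoc, ← this]; group
            rw [e1]
          · intro z
            constructor
            · intro h; exact absurd h (Finset.notMem_empty z)
            · intro h
              exfalso
              apply hne₀
              obtain ⟨g, hg, hgz⟩ := (hO z.1).1 z.2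
              have hfix : ∀ u ∈ D, cj u z.1 = z.1 := fun u hu => congrArg Subtype.val (h ⟨u, hu⟩)
              have h2 : e₁.1 = z.1 := by
                rw [← cj_inv_cj g e₁.1, hgz]; exact hfix _ (D.inv_mem hg)
              rw [h2]; exact hfix g₀ hg₀
        rw [h1, Finset.sum_empty]; rfl
      · rw [coeff_resS_of_notMem _ hx]; rfl
    have h2 : B ε = 0 := by
      apply Subtype.ext
      change resS (CD : Set A) ε.1.1 = 0
      rw [← hEeq, hzero]
    rw [AlgHom.comp_apply, h2, map_zero] at hνε
    exact zero_ne_one hνε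
  have heε : e₁ = ε.1 := by
    rcases hε.prim ⟨e₁, he₁D⟩ (Subtype.ext he₁.idem) (Subtype.ext he₁ε) with h | h
    · exact absurd (congrArg Subtype.val h) he₁.ne_zero
    · exact congrArg Subtype.val h
  have hμe : μ (B ⟨e₁, he₁D⟩) = 1 := by
    have : (⟨e₁, he₁D⟩ : S) = ε := Subtype.ext heε
    rw [this]; exact hνε
  -- e₁ is a trace
  have hA : IsArtinianRing (fixAlg k L L) := IsArtinianRing.of_finite k _
  have hunit : ∃ w, (⟨t, htL⟩ : fixAlg k L L) * w * e₁ = e₁ := by
    rcases he₁.nilp_or_unit ⟨t, htL⟩ with ⟨n, hn⟩ | h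
    · exfalso
      have h1 : ((⟨⟨t, htL⟩, htD⟩ : S) * ⟨e₁, he₁D⟩) ^ n = 0 := Subtype.ext hn
      have h2 := congrArg (fun z => μ (B z)) h1
      simp only [map_pow, map_mul, map_zero, hμe, mul_one] at h2
      have h3 : B ⟨⟨t, htL⟩, htD⟩ = ⟨f, hf.blk.mem⟩ := Subtype.ext hrest
      rw [h3, hμ, one_pow] at h2
      exact one_ne_zero h2
    · exact h
  obtain ⟨w, hw⟩ := hunit
  have hw' : t * w.1 * e₁.1 = e₁.1 := congrArg Subtype.val hw
  have htrace : e₁.1 = trK L (a * (w.1 * e₁.1)) := by
    rw [trK_mul a (mem_fixAlg.1 ((fixAlg k L L).mul_mem w.2 e₁.2)).2, ← ht, ← mul_assoc]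
    exact hw'.symm
  have hdz : IsDZ p L e₁.1 := by
    refine ⟨hblk₁, fun P hPL hP hbrP => ?_⟩
    by_contra hne
    obtain ⟨x, hx, hex⟩ := hbrP
    rw [htrace] at hex
    exact hex (coeff_trK_eq_zero hP hPL hne _ hx)
  have hbr₁ : HasBr D e₁.1 := by
    by_contra hcon
    have h0 : B ⟨e₁, he₁D⟩ = 0 := by
      apply Subtype.ext
      change resS (CD : Set A) e₁.1 = 0
      ext x
      by_cases hx : x ∈ (CD : Set A)
      · rw [coeff_resS_of_mem _ hx]
        by_contra h
        exact hcon ⟨x, hx, h⟩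
      · rw [coeff_resS_of_notMem _ hx]; rfl
    rw [h0, map_zero] at hμe
    exact zero_ne_one hμe
  refine ⟨e₁.1, hdz, he₁D, hbr₁, ?_⟩
  have h1 := dgn_a hD hDL hLD hdz he₁D hbr₁
  rcases h1.blk.eq_or_mul_eq_zero hf.blk with h | h
  · exact h
  · exfalso
    have h2 : B ⟨e₁, he₁D⟩ * (⟨f, hf.blk.mem⟩ : fixAlg k C C) = 0 := Subtype.ext h
    have h3 := congrArg μ h2
    rw [map_mul, hμe, hμ, one_mul, map_zero] at h3
    exact one_ne_zero h3

end

end Pool.Agent.Lib.P0c8ca5
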