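import Mathlib
import Pool.Agent.Lib.P0c8ca5.DGN

/-! Defect-zero blocks and normal subgroups of `p`-power index. -/

namespace Pool.Agent.Lib.P0c8ca5

open MonoidAlgebra

set_option linter.unusedSectionVars false

variable {p : ℕ} {k : Type*} [Field k] {A : Type*} [Group A]

section
variable [Fintype A]

open Classical in
/-- the orbit of `e` under conjugation with `K` -/
noncomputable def orb (K : Subgroup A) (e : MonoidAlgebra k A) : Finset (MonoidAlgebra k A) :=
  Finset.univ.image (fun g : ↥K => cj (g : A) e)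

theorem mem_orb {K : Subgroup A} {e z : MonoidAlgebra k A} :
    z ∈ orb K e ↔ ∃ g ∈ K, cj g e = z := by
  classical
  constructor
  · intro h
    obtain ⟨g, _, hg⟩ := Finset.mem_image.1 h
    exact ⟨g, g.2, hg⟩
  · rintro ⟨g, hg, h⟩
    exact Finset.mem_image.2 ⟨⟨g, hg⟩, Finset.mem_univ _, h⟩

theorem self_mem_orb (K : Subgroup A) (e : MonoidAlgebra k A) : e ∈ orb K e :=
  mem_orb.2 ⟨1, K.one_mem, cj_one_left _⟩

theorem orb_cj {K : Subgroup A} {e z : MonoidAlgebra k A} {g : A} (hg : g ∈ K)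
    (hz : z ∈ orb K e) : cj g z ∈ orb K e := by
  obtain ⟨h, hh, rfl⟩ := mem_orb.1 hz
  rw [cj_cj]
  exact mem_orb.2 ⟨g * h, K.mul_mem hg hh, rfl⟩

/-- the orbit sum -/
noncomputable def orbSum (K : Subgroup A) (e : MonoidAlgebra k A) : MonoidAlgebra k A :=
  ∑ z ∈ orb K e, z

theorem orb_isBlock {L K : Subgroup A} (hK : K ≤ Subgroup.normalizer (L : Set A))
    {e : MonoidAlgebra k A} (he : IsBlock L e) : ∀ z ∈ orb K e, IsBlock L z := by
  intro z hz
  obtain ⟨g, hg, rfl⟩ := mem_orb.1 hz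
  have := isBlock_cg he g
  rwa [cg_of_mem_normalizer (hK hg)] at this

theorem orb_isDZ {L K : Subgroup A} (hK : K ≤ Subgroup.normalizer (L : Set A))
    {e : MonoidAlgebra k A} (he : IsDZ p L e) : ∀ z ∈ orb K e, IsDZ p L z := by
  intro z hz
  obtain ⟨g, hg, rfl⟩ := mem_orb.1 hz
  have := isDZ_cg he g
  rwa [cg_of_mem_normalizer (hK hg)] at this

theorem orbSum_mul {L K : Subgroup A} (hK : K ≤ Subgroup.normalizer (L : Set A))
    {e : MonoidAlgebra k A} (he : IsBlock L e) : ∀ z ∈ orb K e, orbSum K e * z = z := by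
  classical
  intro z hz
  have hb := orb_isBlock hK he
  rw [orbSum, Finset.sum_mul, Finset.sum_eq_single z]
  · exact (hb z hz).idem
  · intro w hw hwz
    rcases (hb w hw).eq_or_mul_eq_zero (hb z hz) with h | h
    · exact absurd h hwz
    · exact h
  · intro h; exact absurd hz h

theorem orbSum_idem {L K : Subgroup A} (hK : K ≤ Subgroup.normalizer (L : Set A))
    {e : MonoidAlgebra k A} (he : IsBlock L e) : orbSum K e * orbSum K e = orbSum K e := by
  have h := orbSum_mul hK he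
  calc orbSum K e * orbSum K e = ∑ z ∈ orb K e, orbSum K e * z := by rw [← Finset.mul_sum]; rfl
    _ = ∑ z ∈ orb K e, z := Finset.sum_congr rfl (fun z hz => h z hz)

theorem orbSum_mem {L K : Subgroup A} (hK : K ≤ Subgroup.normalizer (L : Set A))
    {e : MonoidAlgebra k A} (he : IsBlock L e) : orbSum K e ∈ fixAlg k L L :=
  (fixAlg k L L).sum_mem (fun z hz => (orb_isBlock hK he z hz).mem)

theorem orbSum_invBy (K : Subgroup A) (e : MonoidAlgebra k A) : InvBy K (orbSum K e) := by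
  rw [invBy_iff_cj]
  intro g hg
  rw [orbSum, cj_sum]
  refine Finset.sum_bij' (fun z _ => cj g z) (fun z _ => cj g⁻¹ z) ?_ ?_ ?_ ?_ ?_
  · intro z hz; exact orb_cj hg hz
  · intro z hz; exact orb_cj (K.inv_mem hg) hz
  · intro z _; exact cj_inv_cj g z
  · intro z _; exact cj_cj_inv g z
  · intro z _; rfl

theorem orbSum_ne_zero {L K : Subgroup A} (hK : K ≤ Subgroup.normalizer (L : Set A))
    {e : MonoidAlgebra k A} (he : IsBlock L e) : orbSum K e ≠ 0 := by
  intro h
  have := orbSum_mul hK he e (self_mem_orb K e)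
  rw [h, zero_mul] at this
  exact he.ne_zero this.symm

theorem orbSum_prim {L K : Subgroup A} (_hK : K ≤ Subgroup.normalizer (L : Set A))
    {e : MonoidAlgebra k A} (he : IsBlock L e) {g : MonoidAlgebra k A}
    (hg : g ∈ fixAlg k L L) (hgK : InvBy K g) (hgg : g * g = g) (hgE : g * orbSum K e = g) :
    g = 0 ∨ g = orbSum K e := by
  rcases he.mul_eq hg hgg with h | h
  · left
    rw [← hgE, orbSum, Finset.mul_sum]
    apply Finset.sum_eq_zero
    intro z hz
    obtain ⟨x, hx, rfl⟩ := mem_orb.1 hz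
    calc g * cj x e = cj x g * cj x e := by rw [invBy_iff_cj.1 hgK x hx]
      _ = 0 := by rw [← cj_mul, h, cj_zero]
  · right
    rw [← hgE]
    conv_rhs => rw [orbSum]
    rw [orbSum, Finset.mul_sum]
    refine Finset.sum_congr rfl (fun z hz => ?_)
    obtain ⟨x, hx, rfl⟩ := mem_orb.1 hz
    calc g * cj x e = cj x g * cj x e := by rw [invBy_iff_cj.1 hgK x hx]
      _ = cj x e := by rw [← cj_mul, h]

theorem card_orb {K : Subgroup A} {e : MonoidAlgebra k A} {C : Subgroup A}
    (hst : ∀ x ∈ K, cj x e = e ↔ x ∈ C) : (orb K e).card = C.relIndex K := by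
  classical
  let inst : MulAction K (MonoidAlgebra k A) :=
    { smul := fun g z => cj (g : A) z
      one_smul := fun z => cj_one_left z
      mul_smul := fun g h z => (cj_cj (g : A) h z).symm }
  have h1 : (orb K e : Set (MonoidAlgebra k A)) = MulAction.orbit K e := by
    ext z
    rw [Finset.mem_coe, mem_orb, MulAction.mem_orbit_iff]
    constructor
    · rintro ⟨g, hg, h⟩; exact ⟨⟨g, hg⟩, h⟩
    · rintro ⟨g, h⟩; exact ⟨g, g.2, h⟩
  have h2 : MulAction.stabilizer K e = C.subgroupOf K := by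
    ext x
    rw [MulAction.mem_stabilizer_iff, Subgroup.mem_subgroupOf]
    exact hst x x.2
  have h3 : (orb K e).card = Nat.card (MulAction.orbit K e) := by
    rw [← h1, Nat.card_eq_fintype_card]
    simp
  rw [h3, Nat.card_congr (MulAction.orbitEquivQuotientStabilizer K e), h2]
  rfl

theorem sup_of_class [Fact p.Prime] {L M : Subgroup A} (hLM : L ≤ M)
    (hn : M ≤ Subgroup.normalizer (L : Set A)) (hp : ∀ x ∈ M, ∃ n : ℕ, x ^ p ^ n ∈ L)
    {y : A} (hcl : ∀ m ∈ M, m * y * m⁻¹ ∈ cls L y) {P : Subgroup A}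
    (hP : IsSyl p (M ⊓ Subgroup.centralizer {y}) P) : L ⊔ P = M := by
  have hPM : P ≤ M := hP.le.trans inf_le_left
  have hM1 : L ⊔ (M ⊓ Subgroup.centralizer {y}) = M := by
    refine le_antisymm (sup_le hLM inf_le_left) (fun m hm => ?_)
    obtain ⟨x, hx, hxy⟩ := mem_cls.1 (hcl m hm)
    have h1 : x⁻¹ * m ∈ M ⊓ Subgroup.centralizer {y} := by
      refine Subgroup.mem_inf.2 ⟨M.mul_mem (M.inv_mem (hLM hx)) hm, ?_⟩
      rw [Subgroup.mem_centralizer_iff]
      intro z hz
      rw [Set.mem_singleton_iff] at hz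
      subst hz
      calc z * (x⁻¹ * m) = x⁻¹ * (x * z * x⁻¹) * m := by group
        _ = x⁻¹ * (m * z * m⁻¹) * m := by rw [hxy]
        _ = x⁻¹ * m * z := by group
    have h2 := Subgroup.mul_mem_sup hx h1
    have h3 : x * (x⁻¹ * m) = m := by group
    rwa [h3] at h2
  have hM2 : (L ⊓ Subgroup.centralizer {y}) ⊔ P = M ⊓ Subgroup.centralizer {y} := by
    refine hP.sup_eq (inf_le_inf_right _ hLM) ?_ ?_
    · intro g hg
      rw [Subgroup.mem_normalizer_iff]
      intro h
      have h1 := Subgroup.mem_normalizer_iff.1 (hn (Subgroup.mem_inf.1 hg).1) h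
      have hgc := (Subgroup.mem_inf.1 hg).2
      constructor
      · intro hh
        refine Subgroup.mem_inf.2 ⟨h1.1 (Subgroup.mem_inf.1 hh).1, ?_⟩
        exact Subgroup.mul_mem _ (Subgroup.mul_mem _ hgc (Subgroup.mem_inf.1 hh).2)
          (Subgroup.inv_mem _ hgc)
      · intro hh
        refine Subgroup.mem_inf.2 ⟨h1.2 (Subgroup.mem_inf.1 hh).1, ?_⟩
        have := Subgroup.mul_mem _ (Subgroup.mul_mem _ (Subgroup.inv_mem _ hgc)
          (Subgroup.mem_inf.1 hh).2) hgc
        have e1 : g⁻¹ * (g * h * g⁻¹) * g = h := by group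
        rwa [e1] at this
    · intro x hx
      obtain ⟨n, hn'⟩ := hp x (Subgroup.mem_inf.1 hx).1
      exact ⟨n, Subgroup.mem_inf.2 ⟨hn', Subgroup.pow_mem _ (Subgroup.mem_inf.1 hx).2 _⟩⟩
  refine le_antisymm (sup_le hLM hPM) ?_
  rw [← hM1, ← hM2]
  refine sup_le le_sup_left (sup_le ?_ le_sup_right)
  exact inf_le_left.trans le_sup_left

theorem exists_br_sup [Fact p.Prime] [CharP k p] [IsAlgClosed k] {L M : Subgroup A}
    {e : MonoidAlgebra k A}
    (he : IsBlock L e) (hinv : InvBy M e) (hLM : L ≤ M)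
    (hn : M ≤ Subgroup.normalizer (L : Set A)) (hp : ∀ x ∈ M, ∃ n : ℕ, x ^ p ^ n ∈ L) :
    ∃ P : Subgroup A, P ≤ M ∧ IsPGroup p P ∧ L ⊔ P = M ∧ HasBr P e := by
  obtain ⟨y, hyL, hey, hcl, -⟩ := exists_class he hinv hLM hn hp
  obtain ⟨P, hP⟩ := exists_isSyl (p := p) (M ⊓ Subgroup.centralizer {y})
  refine ⟨P, hP.le.trans inf_le_left, hP.isPGroup, sup_of_class hLM hn hp hcl hP, y, ?_, hey⟩
  rw [Subgroup.mem_centralizer_iff]
  intro h hh
  have := Subgroup.mem_centralizer_iff.1 (Subgroup.mem_inf.1 (hP.le hh)).2 y rfl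
  exact this.symm

variable [Fact p.Prime] [CharP k p] [IsAlgClosed k]

/-- If `P` fixes `f'` and `f`, and `f' f = f'`, then `HasBr P f'` implies `HasBr P f`. -/
theorem hasBr_of_mul {P : Subgroup A} (hP : IsPGroup p P) {f' f : MonoidAlgebra k A}
    (h1 : InvBy P f') (h2 : InvBy P f) (hmul : f' * f = f') (hbr : HasBr P f') :
    HasBr P f := by
  by_contra hcon
  obtain ⟨x, hx, hfx⟩ := hbr
  have h3 := resS_mul hP h1 h2
  have h4 : resS (Subgroup.centralizer (P : Set A) : Set A) f = 0 := by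
    ext y
    by_cases hy : y ∈ (Subgroup.centralizer (P : Set A) : Set A)
    · rw [coeff_resS_of_mem _ hy]
      by_contra h
      exact hcon ⟨y, hy, h⟩
    · rw [coeff_resS_of_notMem _ hy]; rfl
  rw [hmul, h4, mul_zero] at h3
  have h5 := congrArg (fun b : MonoidAlgebra k A => b.coeff x) h3
  change (resS _ f').coeff x = (0 : MonoidAlgebra k A).coeff x at h5
  rw [coeff_resS_of_mem _ hx] at h5
  exact hfx h5

/-- the orbit sum of a defect-zero block with stabilizer `C` is a defect-zero block of `K` -/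
theorem isDZ_orbSum {C K : Subgroup A} (hCK : C ≤ K)
    (hn : K ≤ Subgroup.normalizer (C : Set A)) (hp : ∀ x ∈ K, ∃ n : ℕ, x ^ p ^ n ∈ C)
    {f' : MonoidAlgebra k A} (hf' : IsDZ p C f') (hst : ∀ x ∈ K, cj x f' = f' → x ∈ C) :
    IsDZ p K (orbSum K f') := by
  classical
  have hmem : orbSum K f' ∈ fixAlg k K K :=
    mem_fixAlg.2 ⟨(mem_fixAlg.1 (orbSum_mem hn hf'.blk)).1.mono hCK, orbSum_invBy K f'⟩
  refine ⟨⟨hmem, orbSum_idem hn hf'.blk, orbSum_ne_zero hn hf'.blk, ?_⟩, ?_⟩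
  · intro g hg hgg hgE
    have h1 : SuppIn C g := supp_in_of_pQuotient hCK hn hp hg hgg
    have h2 : g ∈ fixAlg k C C := mem_fixAlg.2 ⟨h1, (mem_fixAlg.1 hg).2.mono hCK⟩
    exact orbSum_prim hn hf'.blk h2 (mem_fixAlg.1 hg).2 hgg hgE
  · intro P hPK hP hbr
    obtain ⟨x, hx, hfx⟩ := hbr
    have hO : ∀ g ∈ P, ∀ z ∈ orb K f', cj g z ∈ orb K f' := fun g hg z hz => orb_cj (hPK hg) hz
    let inst : MulAction P (orb K f') :=
      { smul := fun g z => ⟨cj (g : A) z.1, hO g g.2 z.1 z.2⟩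
        one_smul := fun z => Subtype.ext (cj_one_left z.1)
        mul_smul := fun g h z => Subtype.ext (cj_cj (g : A) h z.1).symm }
    have h1 : ∑ z : orb K f', z.1.coeff x
        = ∑ z ∈ Finset.univ.filter (fun z : orb K f' => ∀ g : P, cj (g : A) z.1 = z.1),
          z.1.coeff x := by
      refine sum_eq_sum_fixed (p := p) hP (MulAction.toPermHom P (orb K f'))
        (fun z => z.1.coeff x) ?_ _ ?_
      · intro g z
        change (cj (g : A) z.1).coeff x = z.1.coeff x
        rw [coeff_cj]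
        have := Subgroup.mem_centralizer_iff.1 hx g g.2
        have e1 : (g : A)⁻¹ * x * g = x := by
          rw [mul_assoc, ← this]; group
        rw [e1]
      · intro z
        rw [Finset.mem_filter]
        constructor
        · rintro ⟨_, h⟩ g; exact Subtype.ext (h g)
        · intro h; exact ⟨Finset.mem_univ _, fun g => congrArg Subtype.val (h g)⟩
    have h2 : ∑ z : orb K f', z.1.coeff x ≠ 0 := by
      rw [Finset.sum_coe_sort (orb K f') (fun z => z.coeff x)]
      rw [orbSum, coeff_sum, Finsupp.finsetSum_apply] at hfx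
      exact hfx
    rw [h1] at h2
    obtain ⟨z, hz, hzx⟩ := Finset.exists_ne_zero_of_sum_ne_zero h2
    have hzfix := (Finset.mem_filter.1 hz).2
    obtain ⟨g, hg, hgz⟩ := mem_orb.1 z.2
    have hzdz := orb_isDZ hn hf' z.1 z.2
    apply hzdz.dz P _ hP ⟨x, hx, hzx⟩
    intro u hu
    have h3 := hzfix ⟨u, hu⟩
    have h4 : cj (g⁻¹ * u * g) f' = f' := by
      rw [← cj_cj, ← cj_cj, hgz]
      rw [h3, ← hgz, cj_inv_cj]
    have h5 := hst _ (K.mul_mem (K.mul_mem (K.inv_mem hg) (hPK hu)) hg) h4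
    have h6 := (Subgroup.mem_normalizer_iff.1 (hn hg) _).1 h5
    have e1 : g * (g⁻¹ * u * g) * g⁻¹ = u := by group
    rwa [e1] at h6

/-- every defect-zero block of `K` is the orbit sum of a defect-zero block of `C` with
stabilizer `C` -/
theorem exists_isDZ_orbSum {C K : Subgroup A} (hCK : C ≤ K)
    (hn : K ≤ Subgroup.normalizer (C : Set A)) (hp : ∀ x ∈ K, ∃ n : ℕ, x ^ p ^ n ∈ C)
    {f : MonoidAlgebra k A} (hf : IsDZ p K f) :
    ∃ f' : MonoidAlgebra k A, IsDZ p C f' ∧ (∀ x ∈ K, cj x f' = f' → x ∈ C) ∧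
      orbSum K f' = f := by
  have hfC : SuppIn C f := supp_in_of_pQuotient hCK hn hp hf.blk.mem hf.blk.idem
  have hfK : InvBy K f := hf.blk.invBy
  have hfmem : f ∈ fixAlg k C C := mem_fixAlg.2 ⟨hfC, hfK.mono hCK⟩
  obtain ⟨g, hg, hgf⟩ := exists_prim_le k (Z := fixAlg k C C) (e := ⟨f, hfmem⟩)
    (fun h => hf.blk.ne_zero (congrArg Subtype.val h)) (Subtype.ext hf.blk.idem)
  have hf' : IsBlock C g.1 := isBlock_of_primIdem hg
  have hf'f : g.1 * f = g.1 := congrArg Subtype.val hgf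
  set f' := g.1 with hf'def
  have hE : orbSum K f' = f := by
    have h1 : orbSum K f' * f = orbSum K f' := by
      rw [orbSum, Finset.sum_mul]
      refine Finset.sum_congr rfl (fun z hz => ?_)
      obtain ⟨x, hx, rfl⟩ := mem_orb.1 hz
      calc cj x f' * f = cj x f' * cj x f := by rw [invBy_iff_cj.1 hfK x hx]
        _ = cj x f' := by rw [← cj_mul, hf'f]
    have hmem : orbSum K f' ∈ fixAlg k K K :=
      mem_fixAlg.2 ⟨(mem_fixAlg.1 (orbSum_mem hn hf')).1.mono hCK, orbSum_invBy K f'⟩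
    rcases hf.blk.prim _ hmem (orbSum_idem hn hf') h1 with h | h
    · exact absurd h (orbSum_ne_zero hn hf')
    · exact h
  -- the stabilizer
  let T : Subgroup A :=
    { carrier := {x | x ∈ K ∧ cj x f' = f'}
      one_mem' := ⟨K.one_mem, cj_one_left _⟩
      mul_mem' := fun {a b} ha hb => ⟨K.mul_mem ha.1 hb.1, by rw [← cj_cj, hb.2, ha.2]⟩
      inv_mem' := fun {a} ha => ⟨K.inv_mem ha.1, by
        conv_lhs => rw [← ha.2]
        exact cj_inv_cj a f'⟩ }
  have hCT : C ≤ T := fun x hx => ⟨hCK hx, invBy_iff_cj.1 hf'.invBy x hx⟩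
  have hTK : T ≤ K := fun x hx => hx.1
  have hf'T : InvBy T f' := invBy_iff_cj.2 (fun x hx => hx.2)
  have hTC : T ≤ C := by
    obtain ⟨P, hPT, hP, hCP, hbr⟩ := exists_br_sup (p := p) hf' hf'T hCT (hTK.trans hn)
      (fun x hx => hp x (hTK hx))
    have h1 : HasBr P f := hasBr_of_mul hP (hf'T.mono hPT) (hfK.mono (hPT.trans hTK)) hf'f hbr
    have h2 := hf.dz P (hPT.trans hTK) hP h1
    rw [h2, sup_bot_eq] at hCP
    exact hCP.ge
  refine ⟨f', ⟨hf', fun P hPC hP hbr => ?_⟩, fun x hx h => hTC ⟨hx, h⟩, hE⟩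
  exact hf.dz P (hPC.trans hCK) hP
    (hasBr_of_mul hP (hf'.invBy.mono hPC) (hfK.mono (hPC.trans hCK)) hf'f hbr)

/-- Counting: defect-zero blocks of `C` with stabilizer `C` in `K`. -/
theorem card_reg {C K : Subgroup A} (hCK : C ≤ K)
    (hn : K ≤ Subgroup.normalizer (C : Set A)) (hp : ∀ x ∈ K, ∃ n : ℕ, x ^ p ^ n ∈ C)
    {ε : MonoidAlgebra k A} (hε : InvBy K ε) :
    Nat.card {f' : MonoidAlgebra k A | IsDZ p C f' ∧ f' * ε = f' ∧
        ∀ x ∈ K, cj x f' = f' → x ∈ C}
      = C.relIndex K * Nat.card {f : MonoidAlgebra k A | IsDZ p K f ∧ f * ε = f} := by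
  classical
  set S' := {f' : MonoidAlgebra k A | IsDZ p C f' ∧ f' * ε = f' ∧
        ∀ x ∈ K, cj x f' = f' → x ∈ C} with hS'
  set S := {f : MonoidAlgebra k A | IsDZ p K f ∧ f * ε = f} with hS
  have hS'fin : S'.Finite := (finite_isBlock C).subset (fun f hf => hf.1.blk)
  have hSfin : S.Finite := (finite_isBlock K).subset (fun f hf => hf.1.blk)
  rw [Nat.card_coe_set_eq, Nat.card_coe_set_eq, Set.ncard_eq_toFinset_card _ hS'fin,
    Set.ncard_eq_toFinset_card _ hSfin]
  have hmaps : ∀ f' ∈ hS'fin.toFinset, orbSum K f' ∈ hSfin.toFinset := by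
    intro f' hf'
    rw [Set.Finite.mem_toFinset] at hf' ⊢
    obtain ⟨h1, h2, h3⟩ := hf'
    refine ⟨isDZ_orbSum hCK hn hp h1 h3, ?_⟩
    rw [orbSum, Finset.sum_mul]
    refine Finset.sum_congr rfl (fun z hz => ?_)
    obtain ⟨x, hx, rfl⟩ := mem_orb.1 hz
    calc cj x f' * ε = cj x f' * cj x ε := by rw [invBy_iff_cj.1 hε x hx]
      _ = cj x f' := by rw [← cj_mul, h2]
  rw [Finset.card_eq_sum_card_fiberwise hmaps, Finset.sum_const_nat (m := C.relIndex K), mul_comm]
  intro f hf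
  rw [Set.Finite.mem_toFinset] at hf
  obtain ⟨hf1, hf2⟩ := hf
  obtain ⟨f', hf', hst, hE⟩ := exists_isDZ_orbSum hCK hn hp hf1
  have hf'f : f' * f = f' := by
    have h1 := orbSum_mul hn hf'.blk f' (self_mem_orb K f')
    have hmemf : f ∈ fixAlg k C C := by rw [← hE]; exact orbSum_mem hn hf'.blk
    rw [hE] at h1
    rw [commute_of (mem_fixAlg.1 hf'.blk.mem).1 (mem_fixAlg.1 hmemf).2, h1]
  have hfib : hS'fin.toFinset.filter (fun g => orbSum K g = f) = orb K f' := by
    ext g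
    rw [Finset.mem_filter, Set.Finite.mem_toFinset]
    constructor
    · rintro ⟨⟨hg1, hg2, hg3⟩, hgE⟩
      by_contra hcon
      have h1 : orbSum K f' * g = 0 := by
        rw [orbSum, Finset.sum_mul]
        apply Finset.sum_eq_zero
        intro z hz
        rcases (orb_isBlock hn hf'.blk z hz).eq_or_mul_eq_zero hg1.blk with h | h
        · rw [h] at hz; exact absurd hz hcon
        · exact h
      rw [hE, ← hgE, orbSum_mul hn hg1.blk g (self_mem_orb K g)] at h1
      exact hg1.blk.ne_zero h1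
    · intro hg
      obtain ⟨x, hx, rfl⟩ := mem_orb.1 hg
      refine ⟨⟨orb_isDZ hn hf' _ hg, ?_, ?_⟩, ?_⟩
      · have h1 : f' * ε = f' := by
          calc f' * ε = f' * f * ε := by rw [hf'f]
            _ = f' := by rw [mul_assoc, hf2, hf'f]
        calc cj x f' * ε = cj x f' * cj x ε := by rw [invBy_iff_cj.1 hε x hx]
          _ = cj x f' := by rw [← cj_mul, h1]
      · intro y hy hyf
        have h4 : cj (x⁻¹ * y * x) f' = f' := by
          rw [← cj_cj, ← cj_cj, hyf, cj_inv_cj]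
        have h5 := hst _ (K.mul_mem (K.mul_mem (K.inv_mem hx) hy) hx) h4
        have h6 := (Subgroup.mem_normalizer_iff.1 (hn hx) _).1 h5
        have e1 : x * (x⁻¹ * y * x) * x⁻¹ = y := by group
        rwa [e1] at h6
      · rw [← hE]
        have : orb K (cj x f') = orb K f' := by
          ext z
          rw [mem_orb, mem_orb]
          constructor
          · rintro ⟨g, hg, h⟩; exact ⟨g * x, K.mul_mem hg hx, by rw [← cj_cj]; exact h⟩
          · rintro ⟨g, hg, h⟩
            refine ⟨g * x⁻¹, K.mul_mem hg (K.inv_mem hx), ?_⟩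
            rw [cj_cj]
            have e1 : g * x⁻¹ * x = g := by group
            rw [e1]; exact h
        rw [orbSum, this]; rfl
  rw [hfib]
  apply card_orb
  intro x hx
  exact ⟨hst x hx, fun h => invBy_iff_cj.1 hf'.blk.invBy x h⟩

end

end Pool.Agent.Lib.P0c8ca5
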