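import Mathlib
import Pool.Agent.Lib.P0c8ca5.Reg

/-! Transport of elements supported on a subgroup along an isomorphism of subgroups. -/

namespace Pool.Agent.Lib.P0c8ca5

open MonoidAlgebra

set_option linter.unusedSectionVars false

variable {p : ℕ} {k : Type*} [Field k] {A₁ A₂ : Type*} [Group A₁] [Group A₂]

/-- transport along `ψ : C₁ ≃* C₂` -/
noncomputable def tr {C₁ : Subgroup A₁} {C₂ : Subgroup A₂} (ψ : C₁ ≃* C₂)
    (a : MonoidAlgebra k A₁) : MonoidAlgebra k A₂ :=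
  MonoidAlgebra.mapDomain (fun x : C₁ => ((ψ x : C₂) : A₂))
    (MonoidAlgebra.comapDomain Subtype.val Subtype.val_injective a)

variable {C₁ : Subgroup A₁} {C₂ : Subgroup A₂} (ψ : C₁ ≃* C₂)

theorem tr_inj_fun : Function.Injective (fun x : C₁ => ((ψ x : C₂) : A₂)) :=
  Subtype.val_injective.comp ψ.injective

theorem coeff_tr (a : MonoidAlgebra k A₁) (x : C₁) :
    (tr ψ a).coeff (ψ x : C₂) = a.coeff x := by
  change (Finsupp.mapDomain (fun x : C₁ => ((ψ x : C₂) : A₂)) _) ((fun x : C₁ => ((ψ x : C₂) : A₂)) x) = _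
  rw [Finsupp.mapDomain_apply (tr_inj_fun ψ)]
  rfl

theorem coeff_tr_of_notMem (a : MonoidAlgebra k A₁) {y : A₂} (hy : y ∉ C₂) :
    (tr ψ a).coeff y = 0 := by
  apply Finsupp.mapDomain_of_notMem_range
  rintro ⟨x, hx⟩
  exact hy (by rw [← hx]; exact (ψ x).2)

theorem coeff_tr' (a : MonoidAlgebra k A₁) {y : A₂} (hy : y ∈ C₂) :
    (tr ψ a).coeff y = a.coeff (ψ.symm ⟨y, hy⟩ : C₁) := by
  rw [← coeff_tr ψ a, MulEquiv.apply_symm_apply]

theorem tr_suppIn (a : MonoidAlgebra k A₁) : SuppIn C₂ (tr ψ a) := by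
  intro y hy
  by_contra h
  exact hy (coeff_tr_of_notMem ψ a h)

theorem tr_symm_tr {a : MonoidAlgebra k A₁} (ha : SuppIn C₁ a) : tr ψ.symm (tr ψ a) = a := by
  ext x
  by_cases hx : x ∈ C₁
  · rw [coeff_tr' ψ.symm _ hx]
    simp only [MulEquiv.symm_symm]
    rw [coeff_tr]
  · rw [coeff_tr_of_notMem _ _ hx]
    by_contra h
    exact hx (ha x (Ne.symm h))

theorem tr_tr_symm {a : MonoidAlgebra k A₂} (ha : SuppIn C₂ a) : tr ψ (tr ψ.symm a) = a := by
  have := tr_symm_tr ψ.symm ha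
  simpa using this

theorem tr_mul {a b : MonoidAlgebra k A₁} (ha : SuppIn C₁ a) (hb : SuppIn C₁ b) :
    tr ψ (a * b) = tr ψ a * tr ψ b := by
  have hmap : ∀ c : MonoidAlgebra k A₁, SuppIn C₁ c →
      MonoidAlgebra.mapDomain (C₁.subtype)
        (MonoidAlgebra.comapDomain Subtype.val Subtype.val_injective c) = c := by
    intro c hc
    apply MonoidAlgebra.mapDomain_comapDomain
    intro x hx
    exact ⟨⟨x, hc x (Finsupp.mem_support_iff.1 (Finset.mem_coe.1 hx))⟩, rfl⟩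
  have hcomap : ∀ c : MonoidAlgebra k C₁,
      MonoidAlgebra.comapDomain Subtype.val Subtype.val_injective
        (MonoidAlgebra.mapDomain (C₁.subtype) c) = c := by
    intro c
    ext x
    change (Finsupp.mapDomain _ c.coeff) (C₁.subtype x) = _
    rw [Finsupp.mapDomain_apply C₁.subtype_injective]
  have h1 : MonoidAlgebra.comapDomain (M := C₁) Subtype.val Subtype.val_injective (a * b)
      = MonoidAlgebra.comapDomain Subtype.val Subtype.val_injective a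
        * MonoidAlgebra.comapDomain Subtype.val Subtype.val_injective b := by
    rw [← hcomap (MonoidAlgebra.comapDomain Subtype.val Subtype.val_injective a
        * MonoidAlgebra.comapDomain Subtype.val Subtype.val_injective b),
      MonoidAlgebra.mapDomain_mul, hmap a ha, hmap b hb]
  have h2 : ∀ c : MonoidAlgebra k A₁, tr ψ c = MonoidAlgebra.mapDomain
      ((C₂.subtype).comp ψ.toMonoidHom)
      (MonoidAlgebra.comapDomain Subtype.val Subtype.val_injective c) := fun c => rfl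
  rw [h2, h2, h2, h1, MonoidAlgebra.mapDomain_mul]

theorem tr_zero : tr ψ (0 : MonoidAlgebra k A₁) = 0 := by
  ext y
  by_cases hy : y ∈ C₂
  · rw [coeff_tr' ψ _ hy]; rfl
  · rw [coeff_tr_of_notMem _ _ hy]; rfl

theorem tr_injOn {a b : MonoidAlgebra k A₁} (ha : SuppIn C₁ a) (hb : SuppIn C₁ b)
    (h : tr ψ a = tr ψ b) : a = b := by
  rw [← tr_symm_tr ψ ha, h, tr_symm_tr ψ hb]

/-- equivariance of transport -/
theorem tr_cj {g₁ : A₁} {g₂ : A₂} (hg₁ : g₁ ∈ Subgroup.normalizer (C₁ : Set A₁))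
    (hg₂ : g₂ ∈ Subgroup.normalizer (C₂ : Set A₂))
    (hcomp : ∀ (c : C₁) (c' : C₁), (c' : A₁) = g₁ * c * g₁⁻¹ →
      ((ψ c' : C₂) : A₂) = g₂ * ψ c * g₂⁻¹)
    (a : MonoidAlgebra k A₁) : tr ψ (cj g₁ a) = cj g₂ (tr ψ a) := by
  ext y
  rw [coeff_cj]
  by_cases hy : y ∈ C₂
  · have hy' : g₂⁻¹ * y * g₂ ∈ C₂ := by
      apply (Subgroup.mem_normalizer_iff.1 hg₂ _).2
      have e1 : g₂ * (g₂⁻¹ * y * g₂) * g₂⁻¹ = y := by group
      rw [e1]; exact hy
    rw [coeff_tr' ψ _ hy, coeff_tr' ψ _ hy', coeff_cj]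
    congr 1
    -- c := ψ.symm ⟨g₂⁻¹ y g₂⟩
    set c := ψ.symm ⟨g₂⁻¹ * y * g₂, hy'⟩ with hc
    have hc1 : g₁ * (c : A₁) * g₁⁻¹ ∈ C₁ := (Subgroup.mem_normalizer_iff.1 hg₁ c).1 c.2
    have h1 := hcomp c ⟨g₁ * c * g₁⁻¹, hc1⟩ rfl
    have h0 : ψ c = ⟨g₂⁻¹ * y * g₂, hy'⟩ := by rw [hc, MulEquiv.apply_symm_apply]
    have h2 : (ψ ⟨g₁ * c * g₁⁻¹, hc1⟩ : C₂) = ⟨y, hy⟩ := by
      apply Subtype.ext
      rw [h1, h0]
      change g₂ * (g₂⁻¹ * y * g₂) * g₂⁻¹ = y
      group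
    rw [← h2, MulEquiv.symm_apply_apply]
    change g₁⁻¹ * (g₁ * c * g₁⁻¹) * g₁ = c
    group
  · have hy' : g₂⁻¹ * y * g₂ ∉ C₂ := by
      intro h
      apply hy
      have := (Subgroup.mem_normalizer_iff.1 hg₂ _).1 h
      have e1 : g₂ * (g₂⁻¹ * y * g₂) * g₂⁻¹ = y := by group
      rwa [e1] at this
    rw [coeff_tr_of_notMem _ _ hy, coeff_tr_of_notMem _ _ hy']

theorem tr_cj_mem (g : C₁) (a : MonoidAlgebra k A₁) :
    tr ψ (cj (g : A₁) a) = cj ((ψ g : C₂) : A₂) (tr ψ a) := by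
  apply tr_cj ψ (Subgroup.le_normalizer g.2) (Subgroup.le_normalizer (ψ g).2)
  intro c c' hc'
  have : c' = g * c * g⁻¹ := Subtype.ext hc'
  rw [this, map_mul, map_mul, map_inv]
  rfl

theorem tr_mem_fixAlg {a : MonoidAlgebra k A₁} (ha : a ∈ fixAlg k C₁ C₁) :
    tr ψ a ∈ fixAlg k C₂ C₂ := by
  rw [mem_fixAlg] at *
  refine ⟨tr_suppIn ψ a, ?_⟩
  rw [invBy_iff_cj]
  intro g hg
  have h1 := tr_cj_mem ψ (ψ.symm ⟨g, hg⟩) a
  rw [MulEquiv.apply_symm_apply] at h1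
  rw [← h1, invBy_iff_cj.1 ha.2 _ (ψ.symm ⟨g, hg⟩).2]

theorem tr_isBlock {e : MonoidAlgebra k A₁} (he : IsBlock C₁ e) : IsBlock C₂ (tr ψ e) where
  mem := tr_mem_fixAlg ψ he.mem
  idem := by rw [← tr_mul ψ he.suppIn he.suppIn, he.idem]
  ne_zero := fun h => he.ne_zero (by rw [← tr_symm_tr ψ he.suppIn, h, tr_zero])
  prim := fun f hf hff hfe => by
    have hfs : SuppIn C₂ f := (mem_fixAlg.1 hf).1
    have h1 := tr_mem_fixAlg ψ.symm hf
    have h2 : tr ψ.symm f * tr ψ.symm f = tr ψ.symm f := by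
      rw [← tr_mul ψ.symm hfs hfs, hff]
    have h3 : tr ψ.symm f * e = tr ψ.symm f := by
      calc tr ψ.symm f * e = tr ψ.symm f * tr ψ.symm (tr ψ e) := by rw [tr_symm_tr ψ he.suppIn]
        _ = tr ψ.symm f := by rw [← tr_mul ψ.symm hfs (tr_suppIn ψ e), hfe]
    rcases he.prim _ h1 h2 h3 with h | h
    · left; rw [← tr_tr_symm ψ hfs, h, tr_zero]
    · right; rw [← tr_tr_symm ψ hfs, h]

theorem tr_isDZ {e : MonoidAlgebra k A₁} (he : IsDZ p C₁ e) : IsDZ p C₂ (tr ψ e) where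
  blk := tr_isBlock ψ he.blk
  dz := fun P hP hpP hbr => by
    obtain ⟨y, hy, hey⟩ := hbr
    have hyC : y ∈ C₂ := tr_suppIn ψ e y hey
    rw [coeff_tr' ψ _ hyC] at hey
    -- the preimage of P
    let P' : Subgroup A₁ := ((P.subgroupOf C₂).comap ψ.toMonoidHom).map C₁.subtype
    have hP'mem : ∀ x : C₁, (x : A₁) ∈ P' ↔ ((ψ x : C₂) : A₂) ∈ P := by
      intro x
      constructor
      · rintro ⟨z, hz, hzx⟩
        have : z = x := Subtype.ext hzx
        subst this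
        exact hz
      · intro h
        exact ⟨x, h, rfl⟩
    have hP'le : P' ≤ C₁ := by
      rintro x ⟨z, _, rfl⟩; exact z.2
    have hP'p : IsPGroup p P' := by
      apply IsPGroup.map
      exact (hpP.comap_of_injective C₂.subtype C₂.subtype_injective).comap_of_injective
        ψ.toMonoidHom ψ.injective
    have h1 : P' = ⊥ := by
      apply he.dz P' hP'le hP'p
      refine ⟨_, ?_, hey⟩
      rw [Subgroup.mem_centralizer_iff]
      intro h hh
      have hhC : h ∈ C₁ := hP'le hh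
      have h2 := (hP'mem ⟨h, hhC⟩).1 hh
      have h3 := Subgroup.mem_centralizer_iff.1 hy _ h2
      have h4 : (⟨h, hhC⟩ : C₁) * ψ.symm ⟨y, hyC⟩ = ψ.symm ⟨y, hyC⟩ * ⟨h, hhC⟩ := by
        apply ψ.injective
        rw [map_mul, map_mul, MulEquiv.apply_symm_apply]
        exact Subtype.ext h3
      exact congrArg Subtype.val h4
    rw [eq_bot_iff]
    intro z hz
    have hzC : z ∈ C₂ := hP hz
    have h2 : ((ψ.symm ⟨z, hzC⟩ : C₁) : A₁) ∈ P' := by
      rw [hP'mem, MulEquiv.apply_symm_apply]; exact hz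
    rw [h1, Subgroup.mem_bot] at h2
    have h3 : ψ.symm ⟨z, hzC⟩ = 1 := Subtype.ext h2
    have h4 : (⟨z, hzC⟩ : C₂) = 1 := by
      rw [← ψ.apply_symm_apply ⟨z, hzC⟩, h3, map_one]
    rw [Subgroup.mem_bot]
    exact congrArg Subtype.val h4

/-- construct an isomorphism between ranges of two homomorphisms with the same kernel -/
theorem exists_iso_of_ker {K₀ : Type*} [Group K₀] (α : K₀ →* A₁) (β : K₀ →* A₂)
    (hker : ∀ x, α x = 1 ↔ β x = 1) (h₁ : α.range = C₁) (h₂ : β.range = C₂) :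
    ∃ ψ : C₁ ≃* C₂, ∀ (x : K₀) (c : C₁), (c : A₁) = α x → ((ψ c : C₂) : A₂) = β x := by
  subst h₁ h₂
  have hk : α.ker = β.ker := by
    ext x; rw [MonoidHom.mem_ker, MonoidHom.mem_ker]; exact hker x
  let ψ := (QuotientGroup.quotientKerEquivRange α).symm.trans
    ((QuotientGroup.quotientMulEquivOfEq hk).trans (QuotientGroup.quotientKerEquivRange β))
  refine ⟨ψ, ?_⟩
  intro x c hc
  have h1 : c = QuotientGroup.quotientKerEquivRange α (QuotientGroup.mk x) := Subtype.ext hc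
  rw [h1]
  change ((QuotientGroup.quotientKerEquivRange β) ((QuotientGroup.quotientMulEquivOfEq hk)
    ((QuotientGroup.quotientKerEquivRange α).symm (QuotientGroup.quotientKerEquivRange α
      (QuotientGroup.mk x)))) : A₂) = β x
  rw [MulEquiv.symm_apply_apply]
  rfl

end Pool.Agent.Lib.P0c8ca5
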