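import Mathlib
import Pool.Agent.Lib.P0c8ca5.Transport

/-! Sections `N_A(R)/R` and the projections of group algebra elements. -/

namespace Pool.Agent.Lib.P0c8ca5

open MonoidAlgebra

set_option linter.unusedSectionVars false

variable {p : ℕ} {k : Type*} [Field k] {A : Type*} [Group A]

/-- the class in `N_A(R)/R` of an element `x` of `N_A(R)` -/
def qm (R : Subgroup A) (x : A) (hx : x ∈ Subgroup.normalizer (R : Set A)) : NQ R :=
  QuotientGroup.mk ⟨x, hx⟩

theorem qm_mul {R : Subgroup A} {x y : A} (hx hy) (hxy) :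
    qm R (x * y) hxy = qm R x hx * qm R y hy := rfl

theorem qm_inv {R : Subgroup A} {x : A} (hx) (hx') : qm R x⁻¹ hx' = (qm R x hx)⁻¹ := rfl

theorem qm_surj {R : Subgroup A} (w : NQ R) : ∃ x hx, w = qm R x hx := by
  obtain ⟨⟨x, hx⟩, rfl⟩ := QuotientGroup.mk_surjective w
  exact ⟨x, hx, rfl⟩

theorem qm_eq_iff {R : Subgroup A} {x y : A} {hx hy} : qm R x hx = qm R y hy ↔ x⁻¹ * y ∈ R := by
  unfold qm
  rw [QuotientGroup.eq, Subgroup.mem_subgroupOf]
  rfl

theorem qm_eq_one_iff {R : Subgroup A} {x : A} {hx} : qm R x hx = 1 ↔ x ∈ R := by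
  unfold qm
  rw [QuotientGroup.eq_one_iff, Subgroup.mem_subgroupOf]

theorem mem_sec {H R : Subgroup A} {w : NQ R} :
    w ∈ sec H R ↔ ∃ x ∈ H, ∃ hx, w = qm R x hx := by
  constructor
  · rintro ⟨⟨x, hx⟩, hxH, rfl⟩
    exact ⟨x, hxH, hx, rfl⟩
  · rintro ⟨x, hxH, hx, rfl⟩
    exact ⟨⟨x, hx⟩, hxH, rfl⟩

theorem qm_mem_sec {H R : Subgroup A} {x : A} (hx) (hxH : x ∈ H) : qm R x hx ∈ sec H R :=
  mem_sec.2 ⟨x, hxH, hx, rfl⟩

theorem qm_mem_sec_iff {H R : Subgroup A} (hRH : R ≤ H) {x : A} {hx} :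
    qm R x hx ∈ sec H R ↔ x ∈ H := by
  rw [mem_sec]
  constructor
  · rintro ⟨y, hy, hy', h⟩
    rw [qm_eq_iff] at h
    have h2 := H.mul_mem hy (H.inv_mem (hRH h))
    have e1 : y * (x⁻¹ * y)⁻¹ = x := by group
    rwa [e1] at h2
  · intro h; exact ⟨x, h, hx, rfl⟩

section
variable [Fintype A]

open Classical in
theorem coeff_proj {R : Subgroup A} (a : MonoidAlgebra k A) {n : A} (hn) :
    (proj R a).coeff (qm R n hn) = ∑ x, if n⁻¹ * x ∈ R then a.coeff x else 0 := by
  have h1 : (proj R a).coeff (qm R n hn) = (Finsupp.mapDomain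
    (fun x : ↥(Subgroup.normalizer (R : Set A)) => (QuotientGroup.mk x : NQ R))
    (a.coeff.comapDomain Subtype.val Subtype.val_injective.injOn))
    ((fun x : ↥(Subgroup.normalizer (R : Set A)) => (QuotientGroup.mk x : NQ R)) ⟨n, hn⟩) := rfl
  rw [h1, Finsupp.mapDomain_apply_eq_sum]
  rw [← Finset.sum_filter]
  have hR : ∀ x, n⁻¹ * x ∈ R → x ∈ Subgroup.normalizer (R : Set A) := by
    intro x hx
    have := (Subgroup.normalizer (R : Set A)).mul_mem hn (Subgroup.le_normalizer hx)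
    have e1 : n * (n⁻¹ * x) = x := by group
    rwa [e1] at this
  symm
  rw [← Finset.sum_filter_ne_zero]
  refine Finset.sum_bij' (fun x hx => (⟨x, hR x (by
      rw [Finset.mem_filter, Finset.mem_filter] at hx; exact hx.1.2)⟩ :
      ↥(Subgroup.normalizer (R : Set A)))) (fun y _ => (y : A)) ?_ ?_ ?_ ?_ ?_
  · intro x hx
    rw [Finset.mem_filter, Finset.mem_filter] at hx
    rw [Finset.mem_filter, Finsupp.mem_support_iff]
    refine ⟨hx.2, ?_⟩
    exact (qm_eq_iff.2 hx.1.2).symm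
  · intro y hy
    rw [Finset.mem_filter, Finsupp.mem_support_iff] at hy
    rw [Finset.mem_filter, Finset.mem_filter]
    exact ⟨⟨Finset.mem_univ _, qm_eq_iff.1 hy.2.symm⟩, hy.1⟩
  · intro x _; rfl
  · intro y _; rfl
  · intro x _; rfl

open Classical in
theorem sum_qm {R : Subgroup A} (a : MonoidAlgebra k A) (X : NQ R → k) :
    ∑ u, (proj R a).coeff u * X u
      = ∑ y : ↥(Subgroup.normalizer (R : Set A)), a.coeff y * X (qm R y y.2) := by
  have h1 : ∑ u, (proj R a).coeff u * X u = (Finsupp.mapDomain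
    (fun x : ↥(Subgroup.normalizer (R : Set A)) => (QuotientGroup.mk x : NQ R))
    (a.coeff.comapDomain Subtype.val Subtype.val_injective.injOn)).sum (fun u r => r * X u) := by
    rw [Finsupp.sum_fintype]
    · rfl
    · intro u; rw [zero_mul]
  rw [h1, Finsupp.sum_mapDomain_index (fun u => by rw [zero_mul])
    (fun u r s => by rw [add_mul]), Finsupp.sum_fintype]
  · rfl
  · intro u; rw [zero_mul]

/-- projection is multiplicative on `R`-invariant elements -/
theorem proj_mul [Fact p.Prime] [CharP k p] {R : Subgroup A} (hR : IsPGroup p R)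
    {a b : MonoidAlgebra k A} (ha : InvBy R a) (hb : InvBy R b) :
    proj R (a * b) = proj R a * proj R b := by
  classical
  ext w
  obtain ⟨n, hn, rfl⟩ := qm_surj w
  have hn' := Subgroup.mem_normalizer_iff.1 hn
  let F : A × A → k := fun y => if n⁻¹ * (y.1 * y.2) ∈ R then a.coeff y.1 * b.coeff y.2 else 0
  let F' : A × A → k := fun y =>
    if y.1 ∈ Subgroup.normalizer (R : Set A) ∧ n⁻¹ * (y.1 * y.2) ∈ R
      then a.coeff y.1 * b.coeff y.2 else 0
  have h1 : (proj R (a * b)).coeff (qm R n hn) = ∑ y : A × A, F y := by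
    rw [coeff_proj, Fintype.sum_prod_type]
    have : ∀ x, (if n⁻¹ * x ∈ R then (a * b).coeff x else 0)
        = ∑ y, if n⁻¹ * x ∈ R then a.coeff y * b.coeff (y⁻¹ * x) else 0 := by
      intro x
      by_cases hx : n⁻¹ * x ∈ R
      · rw [if_pos hx, coeff_mul_fin]
        exact Finset.sum_congr rfl (fun y _ => by rw [if_pos hx])
      · rw [if_neg hx]
        symm
        exact Finset.sum_eq_zero (fun y _ => by rw [if_neg hx])
    rw [Finset.sum_congr rfl (fun x _ => this x), Finset.sum_comm]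
    refine Finset.sum_congr rfl (fun y _ => ?_)
    refine Fintype.sum_equiv (Equiv.mulLeft y⁻¹) _ _ (fun x => ?_)
    change (if n⁻¹ * x ∈ R then a.coeff y * b.coeff (y⁻¹ * x) else 0)
      = if n⁻¹ * (y * (y⁻¹ * x)) ∈ R then a.coeff y * b.coeff (y⁻¹ * x) else 0
    have e1 : y * (y⁻¹ * x) = x := by group
    rw [e1]
  have h2 : (proj R a * proj R b).coeff (qm R n hn) = ∑ y : A × A, F' y := by
    rw [coeff_mul_fin, sum_qm a (fun u => (proj R b).coeff (u⁻¹ * qm R n hn)),
      Fintype.sum_prod_type]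
    have h3 : ∀ y : ↥(Subgroup.normalizer (R : Set A)),
        a.coeff y * (proj R b).coeff ((qm R y y.2)⁻¹ * qm R n hn)
          = ∑ z, if n⁻¹ * ((y : A) * z) ∈ R then a.coeff y * b.coeff z else 0 := by
      intro y
      have e1 : (qm R y y.2)⁻¹ * qm R n hn = qm R ((y : A)⁻¹ * n)
          ((Subgroup.normalizer (R : Set A)).mul_mem
            ((Subgroup.normalizer (R : Set A)).inv_mem y.2) hn) := rfl
      rw [e1, coeff_proj, Finset.mul_sum]
      refine Finset.sum_congr rfl (fun z _ => ?_)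
      have e2 : ((y : A)⁻¹ * n)⁻¹ * z = n⁻¹ * ((y : A) * z) := by group
      rw [e2, mul_ite, mul_zero]
    rw [Finset.sum_congr rfl (fun y _ => h3 y)]
    have h4 : ∀ y : A, (∑ z, F' (y, z)) = if y ∈ Subgroup.normalizer (R : Set A) then
        (∑ z, if n⁻¹ * ((y : A) * z) ∈ R then a.coeff y * b.coeff z else 0) else 0 := by
      intro y
      by_cases hy : y ∈ Subgroup.normalizer (R : Set A)
      · rw [if_pos hy]
        refine Finset.sum_congr rfl (fun z _ => ?_)
        by_cases hz : n⁻¹ * (y * z) ∈ R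
        · rw [if_pos hz]; exact if_pos ⟨hy, hz⟩
        · rw [if_neg hz]; exact if_neg (fun h => hz h.2)
      · rw [if_neg hy]
        exact Finset.sum_eq_zero (fun z _ => if_neg (fun h => hy h.1))
    rw [Finset.sum_congr rfl (fun y _ => h4 y), ← Finset.sum_filter]
    symm
    apply Finset.sum_subtype
    intro x; simp
  rw [h1, h2]
  let φ : R →* Equiv.Perm (A × A) :=
    { toFun := fun r => Equiv.prodCongr (MulAut.conj (r : A)).toEquiv (MulAut.conj (r : A)).toEquiv
      map_one' := by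
        ext y <;> simp
      map_mul' := fun r s => by
        ext y <;> simp }
  have hφ : ∀ (r : R) (y : A × A),
      φ r y = ((r : A) * y.1 * (r : A)⁻¹, (r : A) * y.2 * (r : A)⁻¹) := fun r y => rfl
  have hcond : ∀ (r : R) (y : A × A),
      n⁻¹ * ((r : A) * y.1 * (r : A)⁻¹ * ((r : A) * y.2 * (r : A)⁻¹)) ∈ R
        ↔ n⁻¹ * (y.1 * y.2) ∈ R := by
    intro r y
    have e1 : n⁻¹ * ((r : A) * y.1 * (r : A)⁻¹ * ((r : A) * y.2 * (r : A)⁻¹))
      = (n⁻¹ * r * n) * (n⁻¹ * (y.1 * y.2)) * (r : A)⁻¹ := by group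
    have h5 : n⁻¹ * r * n ∈ R := by
      apply (hn' _).2
      have e2 : n * (n⁻¹ * r * n) * n⁻¹ = r := by group
      rw [e2]; exact r.2
    rw [e1, R.mul_mem_cancel_right (R.inv_mem r.2), R.mul_mem_cancel_left h5]
  have hFinv : ∀ r y, F (φ r y) = F y := by
    intro r y
    rw [hφ]
    change (if n⁻¹ * ((r : A) * y.1 * (r : A)⁻¹ * ((r : A) * y.2 * (r : A)⁻¹)) ∈ R
      then a.coeff ((r : A) * y.1 * (r : A)⁻¹) * b.coeff ((r : A) * y.2 * (r : A)⁻¹) else 0) = _
    rw [ha r r.2, hb r r.2]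
    by_cases h : n⁻¹ * (y.1 * y.2) ∈ R
    · rw [if_pos ((hcond r y).2 h)]; exact (if_pos h).symm
    · rw [if_neg (fun h' => h ((hcond r y).1 h'))]; exact (if_neg h).symm
  have hF'inv : ∀ r y, F' (φ r y) = F' y := by
    intro r y
    rw [hφ]
    change (if (r : A) * y.1 * (r : A)⁻¹ ∈ Subgroup.normalizer (R : Set A) ∧
        n⁻¹ * ((r : A) * y.1 * (r : A)⁻¹ * ((r : A) * y.2 * (r : A)⁻¹)) ∈ R
      then a.coeff ((r : A) * y.1 * (r : A)⁻¹) * b.coeff ((r : A) * y.2 * (r : A)⁻¹) else 0) = _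
    rw [ha r r.2, hb r r.2]
    have hrn : (r : A) ∈ Subgroup.normalizer (R : Set A) := Subgroup.le_normalizer r.2
    have h6 : (r : A) * y.1 * (r : A)⁻¹ ∈ Subgroup.normalizer (R : Set A)
        ↔ y.1 ∈ Subgroup.normalizer (R : Set A) := by
      rw [Subgroup.mul_mem_cancel_right _ ((Subgroup.normalizer (R : Set A)).inv_mem hrn),
        Subgroup.mul_mem_cancel_left _ hrn]
    by_cases h : y.1 ∈ Subgroup.normalizer (R : Set A) ∧ n⁻¹ * (y.1 * y.2) ∈ R
    · rw [if_pos ⟨h6.2 h.1, (hcond r y).2 h.2⟩]; exact (if_pos h).symm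
    · rw [if_neg (fun h' => h ⟨h6.1 h'.1, (hcond r y).1 h'.2⟩)]; exact (if_neg h).symm
  let S : Finset (A × A) := Finset.univ.filter (fun y =>
    y.1 ∈ Subgroup.centralizer (R : Set A) ∧ y.2 ∈ Subgroup.centralizer (R : Set A))
  have hS : ∀ y, y ∈ S ↔ ∀ r : R, φ r y = y := by
    intro y
    rw [Finset.mem_filter]
    have hc : ∀ z : A, z ∈ Subgroup.centralizer (R : Set A) ↔ ∀ r : R, (r : A) * z * (r : A)⁻¹ = z := by
      intro z
      rw [Subgroup.mem_centralizer_iff]
      constructor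
      · intro h r; rw [h r r.2]; group
      · intro h r hr
        have := h ⟨r, hr⟩
        calc r * z = (r * z * r⁻¹) * r := by group
          _ = z * r := by rw [this]
    rw [hc, hc]
    constructor
    · rintro ⟨_, h1, h2⟩ r
      rw [hφ, h1 r, h2 r]
    · intro h
      refine ⟨Finset.mem_univ _, fun r => ?_, fun r => ?_⟩
      · exact congrArg Prod.fst (h r)
      · exact congrArg Prod.snd (h r)
  rw [sum_eq_sum_fixed (p := p) hR φ F hFinv S hS, sum_eq_sum_fixed (p := p) hR φ F' hF'inv S hS]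
  refine Finset.sum_congr rfl (fun y hy => ?_)
  have hy1 := (Finset.mem_filter.1 hy).2.1
  have hyn : y.1 ∈ Subgroup.normalizer (R : Set A) := Subgroup.centralizer_le_normalizer _ hy1
  by_cases h : n⁻¹ * (y.1 * y.2) ∈ R
  · exact (if_pos h).trans (if_pos ⟨hyn, h⟩).symm
  · exact (if_neg h).trans (if_neg (fun h' => h h'.2)).symm

end

end Pool.Agent.Lib.P0c8ca5
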