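import Mathlib
import Pool.Agent.Lib.P0c8ca5.Sect

/-! Comparison of the sections of `R = Q ∩ G` and of `Q`. -/

namespace Pool.Agent.Lib.P0c8ca5

open MonoidAlgebra

set_option linter.unusedSectionVars false

variable {p : ℕ} {k : Type*} [Field k] {A : Type*} [Group A]

section proj
variable [Fintype A] {G : Subgroup A}

theorem proj_suppIn {e : MonoidAlgebra k A} (he : SuppIn G e) (R : Subgroup A) :
    SuppIn (sec G R) (proj R e) := by
  classical
  intro w hw
  obtain ⟨n, hn, rfl⟩ := qm_surj w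
  rw [coeff_proj] at hw
  obtain ⟨x, _, hx⟩ := Finset.exists_ne_zero_of_sum_ne_zero hw
  by_cases h : n⁻¹ * x ∈ R
  · rw [if_pos h] at hx
    have hxn : x ∈ Subgroup.normalizer (R : Set A) := by
      have := (Subgroup.normalizer (R : Set A)).mul_mem hn (Subgroup.le_normalizer h)
      have e1 : n * (n⁻¹ * x) = x := by group
      rwa [e1] at this
    exact mem_sec.2 ⟨x, he x hx, hxn, qm_eq_iff.2 h⟩
  · rw [if_neg h] at hx; exact absurd rfl hx

theorem proj_invBy {e : MonoidAlgebra k A} (he : InvBy ⊤ e) (R : Subgroup A) :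
    InvBy ⊤ (proj R e) := by
  classical
  intro g _ w
  obtain ⟨x, hx, rfl⟩ := qm_surj g
  obtain ⟨n, hn, rfl⟩ := qm_surj w
  have hx' := Subgroup.mem_normalizer_iff.1 hx
  have e1 : qm R x hx * qm R n hn * (qm R x hx)⁻¹ = qm R (x * n * x⁻¹)
      ((Subgroup.normalizer (R : Set A)).mul_mem
        ((Subgroup.normalizer (R : Set A)).mul_mem hx hn)
        ((Subgroup.normalizer (R : Set A)).inv_mem hx)) := rfl
  rw [e1, coeff_proj, coeff_proj]
  refine (Fintype.sum_equiv (MulAut.conj x).toEquiv _ _ (fun y => ?_)).symm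
  change (if n⁻¹ * y ∈ R then e.coeff y else 0)
    = if (x * n * x⁻¹)⁻¹ * (x * y * x⁻¹) ∈ R then e.coeff (x * y * x⁻¹) else 0
  have e2 : (x * n * x⁻¹)⁻¹ * (x * y * x⁻¹) = x * (n⁻¹ * y) * x⁻¹ := by group
  rw [e2, he x (Subgroup.mem_top x)]
  by_cases h : n⁻¹ * y ∈ R
  · rw [if_pos h, if_pos ((hx' _).1 h)]
  · rw [if_neg h, if_neg (fun h' => h ((hx' _).2 h'))]

theorem proj_idem [Fact p.Prime] [CharP k p] {e : MonoidAlgebra k A} (he : InvBy ⊤ e)
    (hee : e * e = e) {R : Subgroup A} (hR : IsPGroup p R) :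
    proj R e * proj R e = proj R e := by
  have h := he.mono (le_top : R ≤ ⊤)
  rw [← proj_mul hR h h, hee]

end proj

section iso
variable {G Q R : Subgroup A}

theorem normalizer_le_of_inf [hG : G.Normal] (hQR : Q ⊓ G = R) :
    Subgroup.normalizer (Q : Set A) ≤ Subgroup.normalizer (R : Set A) := by
  intro n hn
  rw [Subgroup.mem_normalizer_iff] at hn ⊢
  intro h
  rw [← hQR, Subgroup.mem_inf, Subgroup.mem_inf, ← hn h]
  have h1 : h ∈ G ↔ n * h * n⁻¹ ∈ G := by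
    constructor
    · intro hh; exact hG.conj_mem h hh n
    · intro hh
      have := hG.conj_mem _ hh n⁻¹
      have e1 : n⁻¹ * (n * h * n⁻¹) * n⁻¹⁻¹ = h := by group
      rwa [e1] at this
  rw [h1]

theorem le_normalizer_of_inf [hG : G.Normal] (hQR : Q ⊓ G = R) :
    Q ≤ Subgroup.normalizer (R : Set A) := Subgroup.le_normalizer.trans (normalizer_le_of_inf hQR)

theorem R_le_Q (hQR : Q ⊓ G = R) : R ≤ Q := by rw [← hQR]; exact inf_le_left
theorem R_le_G (hQR : Q ⊓ G = R) : R ≤ G := by rw [← hQR]; exact inf_le_right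

/-- the centralizer of the image of `Q` -/
theorem mem_centralizer_sec [Finite A] [hG : G.Normal] (hQR : Q ⊓ G = R) {g : A} (hgG : g ∈ G)
    (hg : g ∈ Subgroup.normalizer (R : Set A)) :
    qm R g hg ∈ Subgroup.centralizer (sec Q R : Set (NQ R))
      ↔ g ∈ Subgroup.normalizer (Q : Set A) := by
  have hQn := le_normalizer_of_inf hQR
  constructor
  · intro h
    rw [Subgroup.mem_centralizer_iff] at h
    have h1 : ∀ q ∈ Q, g * q * g⁻¹ ∈ Q := by
      intro q hq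
      have h2 := h (qm R q (hQn hq)) (qm_mem_sec _ hq)
      have h3 : qm R (q * g) ((Subgroup.normalizer (R : Set A)).mul_mem (hQn hq) hg)
          = qm R (g * q) ((Subgroup.normalizer (R : Set A)).mul_mem hg (hQn hq)) := h2
      rw [qm_eq_iff] at h3
      have h4 : (q * g)⁻¹ * (g * q) ∈ Q := R_le_Q hQR h3
      have h5 : (q * g)⁻¹ * (g * q) = g⁻¹ * (q⁻¹ * (g * q * g⁻¹)) * g := by group
      -- normality of R under g
      have h6 : g * ((q * g)⁻¹ * (g * q)) * g⁻¹ ∈ R :=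
        (Subgroup.mem_normalizer_iff.1 hg _).1 h3
      have h7 : g * ((q * g)⁻¹ * (g * q)) * g⁻¹ = q⁻¹ * (g * q * g⁻¹) := by group
      rw [h7] at h6
      have h8 := Q.mul_mem hq (R_le_Q hQR h6)
      have e1 : q * (q⁻¹ * (g * q * g⁻¹)) = g * q * g⁻¹ := by group
      rwa [e1] at h8
    have h2 : cg g Q ≤ Q := by
      intro x hx
      rw [mem_cg] at hx
      have := h1 _ hx
      have e1 : g * (g⁻¹ * x * g) * g⁻¹ = x := by group
      rwa [e1] at this
    rw [← cg_eq_self_iff]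
    exact eq_of_le_of_card h2 (by rw [card_cg])
  · intro h
    rw [Subgroup.mem_centralizer_iff]
    intro w hw
    obtain ⟨q, hq, hq', rfl⟩ := mem_sec.1 hw
    change qm R (q * g) ((Subgroup.normalizer (R : Set A)).mul_mem hq' hg)
          = qm R (g * q) ((Subgroup.normalizer (R : Set A)).mul_mem hg hq')
    rw [qm_eq_iff, ← hQR]
    refine Subgroup.mem_inf.2 ⟨?_, ?_⟩
    · have h1 := (Subgroup.mem_normalizer_iff.1 ((Subgroup.normalizer (Q : Set A)).inv_mem h) q⁻¹).1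
        (Q.inv_mem hq)
      have h2 := Q.mul_mem h1 hq
      have e1 : g⁻¹ * q⁻¹ * g⁻¹⁻¹ * q = (q * g)⁻¹ * (g * q) := by group
      rwa [e1] at h2
    · have h1 := hG.conj_mem g hgG q⁻¹
      have h2 := G.mul_mem (G.inv_mem hgG) h1
      have e1 : g⁻¹ * (q⁻¹ * g * q⁻¹⁻¹) = (q * g)⁻¹ * (g * q) := by group
      rwa [e1] at h2

theorem exists_iso [Finite A] [hG : G.Normal] (hQR : Q ⊓ G = R) :
    ∃ ψ : ↥(sec G R ⊓ Subgroup.centralizer (sec Q R : Set (NQ R))) ≃* ↥(sec G Q),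
      ∀ (n : A) (hnR : n ∈ Subgroup.normalizer (R : Set A))
        (hnQ : n ∈ Subgroup.normalizer (Q : Set A)) (_ : n ∈ G)
        (c : ↥(sec G R ⊓ Subgroup.centralizer (sec Q R : Set (NQ R)))),
        (c : NQ R) = qm R n hnR → ((ψ c : ↥(sec G Q)) : NQ Q) = qm Q n hnQ := by
  have hKR : G ⊓ Subgroup.normalizer (Q : Set A) ≤ Subgroup.normalizer (R : Set A) :=
    inf_le_right.trans (normalizer_le_of_inf hQR)
  let α : ↥(G ⊓ Subgroup.normalizer (Q : Set A)) →* NQ R :=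
    (QuotientGroup.mk' _).comp (Subgroup.inclusion hKR)
  let β : ↥(G ⊓ Subgroup.normalizer (Q : Set A)) →* NQ Q :=
    (QuotientGroup.mk' _).comp (Subgroup.inclusion inf_le_right)
  have hα : ∀ x, α x = qm R x (hKR x.2) := fun x => rfl
  have hβ : ∀ x, β x = qm Q x (Subgroup.mem_inf.1 x.2).2 := fun x => rfl
  obtain ⟨ψ, hψ⟩ := exists_iso_of_ker (C₁ := sec G R ⊓ Subgroup.centralizer (sec Q R : Set (NQ R)))
    (C₂ := sec G Q) α β
    (fun x => by
      rw [hα, hβ, qm_eq_one_iff, qm_eq_one_iff, ← hQR, Subgroup.mem_inf]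
      exact ⟨fun h => h.1, fun h => ⟨h, (Subgroup.mem_inf.1 x.2).1⟩⟩)
    (by
      ext w
      rw [MonoidHom.mem_range, Subgroup.mem_inf]
      constructor
      · rintro ⟨x, rfl⟩
        rw [hα]
        exact ⟨qm_mem_sec _ (Subgroup.mem_inf.1 x.2).1,
          (mem_centralizer_sec hQR (Subgroup.mem_inf.1 x.2).1 _).2 (Subgroup.mem_inf.1 x.2).2⟩
      · rintro ⟨h1, h2⟩
        obtain ⟨g, hg, hg', rfl⟩ := mem_sec.1 h1
        exact ⟨⟨g, Subgroup.mem_inf.2 ⟨hg, (mem_centralizer_sec hQR hg hg').1 h2⟩⟩, rfl⟩)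
    (by
      ext w
      rw [MonoidHom.mem_range, mem_sec]
      constructor
      · rintro ⟨x, rfl⟩
        exact ⟨x, (Subgroup.mem_inf.1 x.2).1, (Subgroup.mem_inf.1 x.2).2, rfl⟩
      · rintro ⟨g, hg, hg', rfl⟩
        exact ⟨⟨g, Subgroup.mem_inf.2 ⟨hg, hg'⟩⟩, rfl⟩)
  refine ⟨ψ, fun n hnR hnQ hnG c hc => ?_⟩
  exact hψ ⟨n, Subgroup.mem_inf.2 ⟨hnG, hnQ⟩⟩ c hc

end iso

end Pool.Agent.Lib.P0c8ca5
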