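import Mathlib
import Pool.Agent.Lib.P0c8ca5.Weights

/-! The map from invariant defect-zero blocks of the section of `R = Q ∩ G` to the defect-zero
blocks of the section of `Q`. -/

namespace Pool.Agent.Lib.P0c8ca5

open MonoidAlgebra

set_option linter.unusedSectionVars false

variable {p : ℕ} {k : Type*} [Field k] {A : Type*} [Group A]

section
variable [Fintype A] {G Q R : Subgroup A} [hG : G.Normal]

theorem sec_normal (G R : Subgroup A) [hG : G.Normal] (w : NQ R) :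
    w ∈ Subgroup.normalizer (sec G R : Set (NQ R)) := by
  rw [Subgroup.mem_normalizer_iff]
  obtain ⟨x, hx, rfl⟩ := qm_surj w
  intro h
  obtain ⟨y, hy, rfl⟩ := qm_surj h
  have key : ∀ (x : A) (hx : x ∈ Subgroup.normalizer (R : Set A)) (u : NQ R), u ∈ sec G R →
      qm R x hx * u * (qm R x hx)⁻¹ ∈ sec G R := by
    intro x hx u hu
    obtain ⟨z, hz, hz', rfl⟩ := mem_sec.1 hu
    exact qm_mem_sec (x := x * z * x⁻¹) ((Subgroup.normalizer (R : Set A)).mul_mem
        ((Subgroup.normalizer (R : Set A)).mul_mem hx hz')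
        ((Subgroup.normalizer (R : Set A)).inv_mem hx)) (hG.conj_mem z hz x)
  constructor
  · exact key x hx _
  · intro hh
    have h1 := key x⁻¹ ((Subgroup.normalizer (R : Set A)).inv_mem hx) _ hh
    have e1 : qm R x⁻¹ ((Subgroup.normalizer (R : Set A)).inv_mem hx)
      * (qm R x hx * qm R y hy * (qm R x hx)⁻¹)
      * (qm R x⁻¹ ((Subgroup.normalizer (R : Set A)).inv_mem hx))⁻¹ = qm R y hy := by
      rw [qm_inv (hx := hx)]; group
    rwa [e1] at h1

theorem sec_le_normalizer (G R K : Subgroup A) [hG : G.Normal] :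
    sec K R ≤ Subgroup.normalizer (sec G R : Set (NQ R)) := fun w _ => sec_normal G R w

theorem isPGroup_sec {Q R : Subgroup A} (hQ : IsPGroup p Q) : IsPGroup p (sec Q R) :=
  (hQ.comap_of_injective _ (Subgroup.subtype_injective _)).map _

theorem sec_inf_eq_bot (hQR : Q ⊓ G = R) : sec G R ⊓ sec Q R = ⊥ := by
  rw [eq_bot_iff]
  intro w hw
  obtain ⟨h1, h2⟩ := Subgroup.mem_inf.1 hw
  obtain ⟨x, hx, hx', rfl⟩ := mem_sec.1 h2
  have h3 := (qm_mem_sec_iff (R_le_G hQR)).1 h1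
  rw [Subgroup.mem_bot, qm_eq_one_iff, ← hQR]
  exact ⟨hx, h3⟩

theorem tr_proj (hQR : Q ⊓ G = R) {e : MonoidAlgebra k A} (heG : SuppIn G e)
    {ψ : ↥(sec G R ⊓ Subgroup.centralizer (sec Q R : Set (NQ R))) ≃* ↥(sec G Q)}
    (hψ : ∀ (n : A) (hnR : n ∈ Subgroup.normalizer (R : Set A))
        (hnQ : n ∈ Subgroup.normalizer (Q : Set A)) (_ : n ∈ G)
        (c : ↥(sec G R ⊓ Subgroup.centralizer (sec Q R : Set (NQ R)))),
        (c : NQ R) = qm R n hnR → ((ψ c : ↥(sec G Q)) : NQ Q) = qm Q n hnQ) :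
    tr ψ (resS (Subgroup.centralizer (sec Q R : Set (NQ R)) : Set (NQ R)) (proj R e))
      = proj Q e := by
  classical
  ext y
  by_cases hy : y ∈ sec G Q
  · obtain ⟨n, hn, hn', rfl⟩ := mem_sec.1 hy
    have hnR := normalizer_le_of_inf hQR hn'
    have hc : qm R n hnR ∈ sec G R ⊓ Subgroup.centralizer (sec Q R : Set (NQ R)) :=
      Subgroup.mem_inf.2 ⟨qm_mem_sec _ hn, (mem_centralizer_sec hQR hn hnR).2 hn'⟩
    have h1 := hψ n hnR hn' hn ⟨_, hc⟩ rfl
    rw [← h1, coeff_tr, coeff_resS_of_mem _ (Subgroup.mem_inf.1 hc).2, h1, coeff_proj, coeff_proj]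
    refine Finset.sum_congr rfl (fun x _ => ?_)
    by_cases hx : x ∈ G
    · have : n⁻¹ * x ∈ R ↔ n⁻¹ * x ∈ Q := by
        rw [← hQR, Subgroup.mem_inf]
        exact ⟨fun h => h.1, fun h => ⟨h, G.mul_mem (G.inv_mem hn) hx⟩⟩
      simp only [this]
    · have : e.coeff x = 0 := by
        by_contra h; exact hx (heG x h)
      rw [this]; simp
  · rw [coeff_tr_of_notMem _ _ hy]
    by_contra h
    exact hy (proj_suppIn heG Q y (Ne.symm h))

theorem mem_normalizer_sec_of {h : A} (hQ : h ∈ Subgroup.normalizer (Q : Set A))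
    (hR : h ∈ Subgroup.normalizer (R : Set A)) :
    qm R h hR ∈ Subgroup.normalizer (sec Q R : Set (NQ R)) := by
  have key : ∀ (x : A) (_ : x ∈ Subgroup.normalizer (Q : Set A))
      (hx : x ∈ Subgroup.normalizer (R : Set A)) (u : NQ R), u ∈ sec Q R →
      qm R x hx * u * (qm R x hx)⁻¹ ∈ sec Q R := by
    intro x hxQ hx u hu
    obtain ⟨z, hz, hz', rfl⟩ := mem_sec.1 hu
    exact qm_mem_sec (x := x * z * x⁻¹) ((Subgroup.normalizer (R : Set A)).mul_mem
        ((Subgroup.normalizer (R : Set A)).mul_mem hx hz')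
        ((Subgroup.normalizer (R : Set A)).inv_mem hx))
        ((Subgroup.mem_normalizer_iff.1 hxQ z).1 hz)
  rw [Subgroup.mem_normalizer_iff]
  intro u
  constructor
  · exact key h hQ hR u
  · intro hh
    have h1 := key h⁻¹ ((Subgroup.normalizer (Q : Set A)).inv_mem hQ)
      ((Subgroup.normalizer (R : Set A)).inv_mem hR) _ hh
    have e1 : qm R h⁻¹ ((Subgroup.normalizer (R : Set A)).inv_mem hR)
      * (qm R h hR * u * (qm R h hR)⁻¹)
      * (qm R h⁻¹ ((Subgroup.normalizer (R : Set A)).inv_mem hR))⁻¹ = u := by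
      rw [qm_inv (hx := hR)]; group
    rwa [e1] at h1

theorem mem_normalizer_centralizer {B : Type*} [Group B] {D : Subgroup B} {g : B}
    (hg : g ∈ Subgroup.normalizer (D : Set B)) :
    g ∈ Subgroup.normalizer ((Subgroup.centralizer (D : Set B) : Subgroup B) : Set B) := by
  have key : ∀ g : B, g ∈ Subgroup.normalizer (D : Set B) → ∀ c ∈ Subgroup.centralizer (D : Set B),
      g * c * g⁻¹ ∈ Subgroup.centralizer (D : Set B) := by
    intro g hg c hc
    rw [Subgroup.mem_centralizer_iff] at hc ⊢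
    intro d hd
    have h1 : g⁻¹ * d * g ∈ D := by
      apply (Subgroup.mem_normalizer_iff.1 hg _).2
      have e1 : g * (g⁻¹ * d * g) * g⁻¹ = d := by group
      rw [e1]; exact hd
    have h2 := hc _ h1
    calc d * (g * c * g⁻¹) = g * ((g⁻¹ * d * g) * c) * g⁻¹ := by group
      _ = g * (c * (g⁻¹ * d * g)) * g⁻¹ := by rw [h2]
      _ = g * c * g⁻¹ * d := by group
  rw [Subgroup.mem_normalizer_iff]
  intro c
  constructor
  · exact key g hg c
  · intro h
    have h1 := key g⁻¹ ((Subgroup.normalizer (D : Set B)).inv_mem hg) _ h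
    have e1 : g⁻¹ * (g * c * g⁻¹) * g⁻¹⁻¹ = c := by group
    rwa [e1] at h1

theorem resS_cj {B : Type*} [Group B] {C : Subgroup B} {g : B}
    (hg : g ∈ Subgroup.normalizer (C : Set B)) (a : MonoidAlgebra k B) :
    resS (C : Set B) (cj g a) = cj g (resS (C : Set B) a) := by
  classical
  ext y
  rw [coeff_cj, coeff_resS, coeff_resS, coeff_cj]
  have h1 : y ∈ (C : Set B) ↔ g⁻¹ * y * g ∈ (C : Set B) := by
    have := Subgroup.mem_normalizer_iff.1 hg (g⁻¹ * y * g)
    have e1 : g * (g⁻¹ * y * g) * g⁻¹ = y := by group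
    rw [e1] at this
    exact this.symm
  simp only [h1]

theorem F_cj (hQR : Q ⊓ G = R)
    {ψ : ↥(sec G R ⊓ Subgroup.centralizer (sec Q R : Set (NQ R))) ≃* ↥(sec G Q)}
    (hψ : ∀ (n : A) (hnR : n ∈ Subgroup.normalizer (R : Set A))
        (hnQ : n ∈ Subgroup.normalizer (Q : Set A)) (_ : n ∈ G)
        (c : ↥(sec G R ⊓ Subgroup.centralizer (sec Q R : Set (NQ R)))),
        (c : NQ R) = qm R n hnR → ((ψ c : ↥(sec G Q)) : NQ Q) = qm Q n hnQ)
    {h : A} (hhR : h ∈ Subgroup.normalizer (R : Set A))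
    (hhQ : h ∈ Subgroup.normalizer (Q : Set A)) (φ : MonoidAlgebra k (NQ R)) :
    tr ψ (resS (Subgroup.centralizer (sec Q R : Set (NQ R)) : Set (NQ R)) (cj (qm R h hhR) φ))
      = cj (qm Q h hhQ)
        (tr ψ (resS (Subgroup.centralizer (sec Q R : Set (NQ R)) : Set (NQ R)) φ)) := by
  have hn : qm R h hhR ∈ Subgroup.normalizer
      ((Subgroup.centralizer (sec Q R : Set (NQ R)) : Subgroup (NQ R)) : Set (NQ R)) :=
    mem_normalizer_centralizer (mem_normalizer_sec_of hhQ hhR)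
  rw [resS_cj hn]
  apply tr_cj
  · rw [Subgroup.mem_normalizer_iff]
    intro u
    have h1 := Subgroup.mem_normalizer_iff.1 (sec_normal G R (qm R h hhR)) u
    have h2 := Subgroup.mem_normalizer_iff.1 hn u
    exact and_congr h1 h2
  · exact sec_normal G Q _
  · rintro ⟨c, hc⟩ ⟨c', hc'⟩ hcc
    obtain ⟨hc1, hc2⟩ := Subgroup.mem_inf.1 hc
    obtain ⟨n, hn, hn', rfl⟩ := mem_sec.1 hc1
    have hnQ := (mem_centralizer_sec hQR hn hn').1 hc2
    have h1 := hψ n hn' hnQ hn ⟨_, hc⟩ rfl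
    have h2 := hψ (h * n * h⁻¹) ((Subgroup.normalizer (R : Set A)).mul_mem
        ((Subgroup.normalizer (R : Set A)).mul_mem hhR hn')
        ((Subgroup.normalizer (R : Set A)).inv_mem hhR)) ((Subgroup.normalizer (Q : Set A)).mul_mem
        ((Subgroup.normalizer (Q : Set A)).mul_mem hhQ hnQ)
        ((Subgroup.normalizer (Q : Set A)).inv_mem hhQ)) (hG.conj_mem n hn h) ⟨c', hc'⟩ hcc
    rw [h1, h2]
    rfl

variable [Fact p.Prime] [CharP k p] [IsAlgClosed k]

theorem exists_F (hQR : Q ⊓ G = R) (hQ : IsPGroup p Q) {e : MonoidAlgebra k A}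
    (heG : SuppIn G e) (he : InvBy ⊤ e) (hee : e * e = e) :
    ∃ F : MonoidAlgebra k (NQ R) → MonoidAlgebra k (NQ Q),
      (∀ φ, IsDZ p (sec G R) φ → InvBy (sec Q R) φ → HasBr (sec Q R) φ →
        IsDZ p (sec G Q) (F φ) ∧ (φ * proj R e = φ ↔ F φ * proj Q e = F φ)) ∧
      (∀ φ φ', IsDZ p (sec G R) φ → InvBy (sec Q R) φ → HasBr (sec Q R) φ →
        IsDZ p (sec G R) φ' → InvBy (sec Q R) φ' → F φ = F φ' → φ = φ') ∧
      (∀ f, IsDZ p (sec G Q) f → ∃ φ, IsDZ p (sec G R) φ ∧ InvBy (sec Q R) φ ∧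
        HasBr (sec Q R) φ ∧ F φ = f) ∧
      (∀ h hhR hhQ φ, F (cj (qm R h hhR) φ) = cj (qm Q h hhQ) (F φ)) := by
  classical
  have : Fintype (NQ R) := Fintype.ofFinite _
  have : Fintype (NQ Q) := Fintype.ofFinite _
  obtain ⟨ψ, hψ⟩ := exists_iso (G := G) hQR
  have hR : IsPGroup p R := hQ.to_le (R_le_Q hQR)
  have hD : IsPGroup p (sec Q R) := isPGroup_sec hQ
  have hDL := sec_le_normalizer G R Q
  have hLD := sec_inf_eq_bot hQR
  refine ⟨fun φ => tr ψ (resS (Subgroup.centralizer (sec Q R : Set (NQ R)) : Set (NQ R)) φ),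
    ?_, ?_, ?_, ?_⟩
  · intro φ h1 h2 h3
    have h4 := dgn_a hD hDL hLD h1 h2 h3
    refine ⟨tr_isDZ ψ h4, ?_⟩
    have hpe : InvBy (sec Q R) (proj R e) := (proj_invBy he R).mono le_top
    have hps : SuppIn (sec G R) (proj R e) := proj_suppIn heG R
    have hpi : proj R e * proj R e = proj R e := proj_idem he hee hR
    have hmul : tr ψ (resS (Subgroup.centralizer (sec Q R : Set (NQ R)) : Set (NQ R))
        (φ * proj R e)) = tr ψ (resS (Subgroup.centralizer (sec Q R : Set (NQ R)) : Set (NQ R)) φ)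
        * proj Q e := by
      rw [resS_mul hD h2 hpe, tr_mul ψ (resS_suppIn' h1.blk.suppIn) (resS_suppIn' hps),
        tr_proj hQR heG hψ]
    constructor
    · intro h
      rw [← hmul, h]
    · intro h
      have hcomm : φ * proj R e = proj R e * φ :=
        commute_of h1.blk.suppIn ((proj_invBy he R).mono le_top)
      rcases h1.blk.mul_eq (mem_fixAlg.2 ⟨hps, (proj_invBy he R).mono le_top⟩) hpi with h5 | h5
      · exfalso
        rw [← hmul, hcomm, h5, resS_zero, tr_zero] at h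
        apply h4.blk.ne_zero
        apply tr_injOn ψ h4.blk.suppIn suppIn_zero
        rw [tr_zero]; exact h.symm
      · rw [hcomm, h5]
  · intro φ φ' h1 h2 h3 h1' h2' h
    have h4 := tr_injOn ψ (resS_suppIn' h1.blk.suppIn) (resS_suppIn' h1'.blk.suppIn) h
    exact dgn_inj hD h1.blk h1'.blk h2 h2' h3 h4
  · intro f hf
    obtain ⟨φ, h1, h2, h3, h4⟩ := dgn_surj hD hDL hLD (tr_isDZ ψ.symm hf)
    refine ⟨φ, h1, h2, h3, ?_⟩
    change tr ψ (resS _ φ) = f
    rw [h4, tr_tr_symm ψ hf.blk.suppIn]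
  · intro h hhR hhQ φ
    exact F_cj hQR hψ hhR hhQ φ

end

end Pool.Agent.Lib.P0c8ca5
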