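import Mathlib
import Pool.Agent.Lib.P0c8ca5.WeightsB

/-! The relation between defect-zero blocks of sections of `G` and `p`-subgroups of `H`. -/

namespace Pool.Agent.Lib.P0c8ca5

open MonoidAlgebra

set_option linter.unusedSectionVars false

variable {p : ℕ} {k : Type*} [Field k] {A : Type*} [Group A]

/-- the stabilizer in `A` of `φ` -/
def st (R : Subgroup A) (φ : MonoidAlgebra k (NQ R)) : Subgroup A where
  carrier := {x | ∃ hx : x ∈ Subgroup.normalizer (R : Set A), cj (qm R x hx) φ = φ}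
  mul_mem' := by
    rintro x y ⟨hx, hx'⟩ ⟨hy, hy'⟩
    refine ⟨(Subgroup.normalizer (R : Set A)).mul_mem hx hy, ?_⟩
    rw [qm_mul hx hy, ← cj_cj, hy', hx']
  one_mem' := ⟨(Subgroup.normalizer (R : Set A)).one_mem, cj_one_left φ⟩
  inv_mem' := by
    rintro x ⟨hx, hx'⟩
    refine ⟨(Subgroup.normalizer (R : Set A)).inv_mem hx, ?_⟩
    rw [qm_inv hx]
    nth_rewrite 1 [← hx']
    rw [cj_inv_cj]

theorem mem_st {R : Subgroup A} {φ : MonoidAlgebra k (NQ R)} {x : A} :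
    x ∈ st R φ ↔ ∃ hx : x ∈ Subgroup.normalizer (R : Set A), cj (qm R x hx) φ = φ := Iff.rfl

theorem st_le {R : Subgroup A} {φ : MonoidAlgebra k (NQ R)} :
    st R φ ≤ Subgroup.normalizer (R : Set A) := fun _ ⟨hx, _⟩ => hx

theorem R_le_st {R : Subgroup A} {φ : MonoidAlgebra k (NQ R)} : R ≤ st R φ := by
  intro x hx
  refine ⟨Subgroup.le_normalizer hx, ?_⟩
  rw [qm_eq_one_iff.2 hx, cj_one_left]

/-- the preimage in `N_A(R)` of a subgroup of `N_A(R)/R` -/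
def pre (R : Subgroup A) (P : Subgroup (NQ R)) : Subgroup A :=
  (P.comap (QuotientGroup.mk' _)).map (Subgroup.normalizer (R : Set A)).subtype

theorem mem_pre {R : Subgroup A} {P : Subgroup (NQ R)} {x : A} :
    x ∈ pre R P ↔ ∃ hx, qm R x hx ∈ P := by
  constructor
  · rintro ⟨⟨y, hy⟩, hyP, rfl⟩
    exact ⟨hy, hyP⟩
  · rintro ⟨hx, hxP⟩
    exact ⟨⟨x, hx⟩, hxP, rfl⟩

theorem sec_pre {R : Subgroup A} (P : Subgroup (NQ R)) : sec (pre R P) R = P := by
  ext w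
  rw [mem_sec]
  constructor
  · rintro ⟨x, hx, hx', rfl⟩
    exact (mem_pre.1 hx).2
  · intro hw
    obtain ⟨x, hx, rfl⟩ := qm_surj w
    exact ⟨x, mem_pre.2 ⟨hx, hw⟩, hx, rfl⟩

theorem le_pre {R : Subgroup A} (P : Subgroup (NQ R)) : R ≤ pre R P := by
  intro x hx
  refine mem_pre.2 ⟨Subgroup.le_normalizer hx, ?_⟩
  rw [qm_eq_one_iff.2 hx]; exact P.one_mem

theorem qm_pow {R : Subgroup A} {x : A} (hx) (n : ℕ) (hx') :
    qm R (x ^ n) hx' = (qm R x hx) ^ n := rfl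

theorem isPGroup_pre {R : Subgroup A} (hR : IsPGroup p R) {P : Subgroup (NQ R)}
    (hP : IsPGroup p P) : IsPGroup p (pre R P) := by
  rintro ⟨x, hx⟩
  obtain ⟨hx1, hx2⟩ := mem_pre.1 hx
  obtain ⟨n, hn⟩ := hP ⟨_, hx2⟩
  have h1 : (qm R x hx1) ^ p ^ n = 1 := congrArg Subtype.val hn
  have h2 : x ^ p ^ n ∈ R := by
    rw [← qm_pow hx1 _ ((Subgroup.normalizer (R : Set A)).pow_mem hx1 _), qm_eq_one_iff] at h1
    exact h1
  obtain ⟨m, hm⟩ := hR ⟨_, h2⟩
  refine ⟨n + m, ?_⟩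
  apply Subtype.ext
  have h3 : (x ^ p ^ n) ^ p ^ m = 1 := congrArg Subtype.val hm
  change x ^ p ^ (n + m) = 1
  rw [pow_add, pow_mul, h3]

theorem sec_mono {H K R : Subgroup A} (h : H ≤ K) : sec H R ≤ sec K R := by
  intro w hw
  obtain ⟨x, hx, hx', rfl⟩ := mem_sec.1 hw
  exact qm_mem_sec _ (h hx)

theorem invBy_st {R : Subgroup A} {φ : MonoidAlgebra k (NQ R)} {M : Subgroup A}
    (hM : M ≤ st R φ) : InvBy (sec M R) φ := by
  rw [invBy_iff_cj]
  intro g hg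
  obtain ⟨x, hx, hx', rfl⟩ := mem_sec.1 hg
  exact (hM hx).2

theorem le_st_iff {R : Subgroup A} {φ : MonoidAlgebra k (NQ R)} {M : Subgroup A}
    (hM : M ≤ Subgroup.normalizer (R : Set A)) : M ≤ st R φ ↔ InvBy (sec M R) φ := by
  constructor
  · exact invBy_st
  · intro h x hx
    exact ⟨hM hx, invBy_iff_cj.1 h _ (qm_mem_sec _ hx)⟩

theorem GN_le_st {G R : Subgroup A} {φ : MonoidAlgebra k (NQ R)} (hφ : InvBy (sec G R) φ) :
    G ⊓ Subgroup.normalizer (R : Set A) ≤ st R φ := by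
  rintro x ⟨hx, hx'⟩
  exact ⟨hx', invBy_iff_cj.1 hφ _ (qm_mem_sec _ hx)⟩

section
variable [Fintype A] [Fact p.Prime] [CharP k p] [IsAlgClosed k] {G H R : Subgroup A}
  [hG : G.Normal]

theorem exists_P (hGH : G ≤ H) (hp : ∀ x : A, ∃ n : ℕ, x ^ p ^ n ∈ G) (hR : IsPGroup p R)
    (hRG : R ≤ G) {φ : MonoidAlgebra k (NQ R)} (hφ : IsDZ p (sec G R) φ) :
    ∃ P : Subgroup A, P ≤ H ⊓ st R φ ∧ IsPGroup p P ∧ P ⊓ G = R ∧
      (G ⊓ Subgroup.normalizer (R : Set A)) ⊔ P = H ⊓ st R φ ∧ HasBr (sec P R) φ ∧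
      ∀ Q ≤ H ⊓ st R φ, IsPGroup p Q → HasBr (sec Q R) φ → ∃ m ∈ H ⊓ st R φ, Q ≤ cg m P := by
  classical
  have : Fintype (NQ R) := Fintype.ofFinite _
  set M := H ⊓ st R φ with hM
  have hMst : M ≤ st R φ := inf_le_right
  have hRM : R ≤ M := le_inf (hRG.trans hGH) R_le_st
  have hLM' : G ⊓ Subgroup.normalizer (R : Set A) ≤ M :=
    le_inf (inf_le_left.trans hGH) (GN_le_st hφ.blk.invBy)
  have hMR : M ≤ Subgroup.normalizer (R : Set A) := hMst.trans st_le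
  have hLM : sec G R ≤ sec M R := by
    intro w hw
    obtain ⟨x, hx, hx', rfl⟩ := mem_sec.1 hw
    exact qm_mem_sec _ (hLM' ⟨hx, hx'⟩)
  obtain ⟨P, _, hP1, hP2, hP3, hP4, hP5, _, _, _, hP6⟩ := lemC hφ (invBy_st hMst) hLM
    (sec_le_normalizer G R M) (by
      intro w _
      obtain ⟨x, hx, rfl⟩ := qm_surj w
      obtain ⟨n, hn⟩ := hp x
      refine ⟨n, ?_⟩
      rw [← qm_pow hx _ ((Subgroup.normalizer (R : Set A)).pow_mem hx _)]
      exact qm_mem_sec _ hn)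
  have hPM : pre R P ≤ M := by
    intro x hx
    obtain ⟨hx1, hx2⟩ := mem_pre.1 hx
    exact (qm_mem_sec_iff hRM).1 (hP1 hx2)
  refine ⟨pre R P, hPM, isPGroup_pre hR hP2, ?_, ?_, ?_, ?_⟩
  · apply le_antisymm
    · rintro x ⟨hx, hxG⟩
      obtain ⟨hx1, hx2⟩ := mem_pre.1 hx
      have h1 : qm R x hx1 ∈ sec G R ⊓ P := ⟨qm_mem_sec _ hxG, hx2⟩
      rw [hP4, Subgroup.mem_bot, qm_eq_one_iff] at h1
      exact h1
    · exact le_inf (le_pre P) hRG
  · apply le_antisymm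
    · exact sup_le hLM' hPM
    · intro x hx
      have h1 : qm R x (hMR hx) ∈ sec M R := qm_mem_sec _ hx
      rw [← hP3, mem_sup_norm (fun w _ => sec_normal G R w)] at h1
      obtain ⟨l, hl, d, hd, hld⟩ := h1
      obtain ⟨y, hy, hy', rfl⟩ := mem_sec.1 hl
      obtain ⟨z, hz, rfl⟩ := qm_surj d
      have h2 : qm R (y * z) ((Subgroup.normalizer (R : Set A)).mul_mem hy' hz)
        = qm R x (hMR hx) := hld
      rw [qm_eq_iff] at h2
      have h3 : z * ((y * z)⁻¹ * x) ∈ pre R P :=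
        (pre R P).mul_mem (mem_pre.2 ⟨hz, hd⟩) (le_pre P h2)
      have h4 : y ∈ G ⊓ Subgroup.normalizer (R : Set A) := ⟨hy, hy'⟩
      have h5 := Subgroup.mul_mem_sup h4 h3
      have e1 : y * (z * ((y * z)⁻¹ * x)) = x := by group
      rwa [e1] at h5
  · rw [sec_pre]; exact hP5
  · intro Q hQM hQp hQb
    obtain ⟨m, hm, hQm⟩ := hP6 (sec Q R) (sec_mono hQM) (isPGroup_sec hQp) hQb
    obtain ⟨x, hx, hx', rfl⟩ := mem_sec.1 hm
    refine ⟨x, hx, ?_⟩
    intro q hq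
    have hq' := hMR (hQM hq)
    have h1 := hQm (qm_mem_sec hq' hq)
    rw [mem_cg] at h1
    rw [mem_cg, mem_pre]
    exact ⟨(Subgroup.normalizer (R : Set A)).mul_mem ((Subgroup.normalizer (R : Set A)).mul_mem
      ((Subgroup.normalizer (R : Set A)).inv_mem hx') hq') hx', h1⟩

end

/-- the relation between `φ` and `Q` -/
structure Rel (p : ℕ) (G H R : Subgroup A) (φ : MonoidAlgebra k (NQ R)) (Q : Subgroup A) :
    Prop where
  pgrp : IsPGroup p Q
  inf : Q ⊓ G = R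
  le : Q ≤ H ⊓ st R φ
  sup : (G ⊓ Subgroup.normalizer (R : Set A)) ⊔ Q = H ⊓ st R φ
  br : HasBr (sec Q R) φ

theorem cg_inf (g : A) (P Q : Subgroup A) : cg g (P ⊓ Q) = cg g P ⊓ cg g Q := by
  ext x; rw [mem_cg, Subgroup.mem_inf, Subgroup.mem_inf, mem_cg, mem_cg]

theorem cg_sup (g : A) (P Q : Subgroup A) : cg g (P ⊔ Q) = cg g P ⊔ cg g Q :=
  Subgroup.map_sup P Q _

theorem cg_normal (g : A) (G : Subgroup A) [hG : G.Normal] : cg g G = G := by
  rw [cg_eq_self_iff, Subgroup.normalizer_eq_top]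
  exact Subgroup.mem_top g

theorem cg_of_mem {g : A} {M : Subgroup A} (h : g ∈ M) : cg g M = M :=
  cg_eq_self_iff.2 (Subgroup.le_normalizer h)

theorem cg_normalizer (g : A) (P : Subgroup A) :
    cg g (Subgroup.normalizer (P : Set A)) = Subgroup.normalizer (cg g P : Set A) := by
  ext x
  rw [mem_cg, ← cg_eq_self_iff, ← cg_eq_self_iff, cg_cg]
  constructor
  · intro h
    have h1 := congrArg (cg g) h
    rw [cg_cg] at h1
    have e1 : g * (g⁻¹ * x * g) = x * g := by group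
    rwa [e1] at h1
  · intro h
    have h1 := congrArg (cg g⁻¹) h
    rw [cg_cg, cg_cg, inv_mul_cancel, cg_one] at h1
    rw [← mul_assoc] at h1
    exact h1

theorem sec_cg {R : Subgroup A} {m : A} (hm : m ∈ Subgroup.normalizer (R : Set A))
    (Q : Subgroup A) : sec (cg m Q) R = cg (qm R m hm) (sec Q R) := by
  ext w
  rw [mem_cg]
  obtain ⟨x, hx, rfl⟩ := qm_surj w
  have h0 : m⁻¹ * x * m ∈ Subgroup.normalizer (R : Set A) :=
    (Subgroup.normalizer (R : Set A)).mul_mem ((Subgroup.normalizer (R : Set A)).mul_mem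
      ((Subgroup.normalizer (R : Set A)).inv_mem hm) hx) hm
  have e0 : (qm R m hm)⁻¹ * qm R x hx * qm R m hm = qm R (m⁻¹ * x * m) h0 := rfl
  rw [e0, mem_sec, mem_sec]
  constructor
  · rintro ⟨y, hy, hy', h⟩
    rw [mem_cg] at hy
    refine ⟨m⁻¹ * y * m, hy, (Subgroup.normalizer (R : Set A)).mul_mem
      ((Subgroup.normalizer (R : Set A)).mul_mem
      ((Subgroup.normalizer (R : Set A)).inv_mem hm) hy') hm, ?_⟩
    rw [qm_eq_iff] at h ⊢
    have h1 := (Subgroup.mem_normalizer_iff.1 ((Subgroup.normalizer (R : Set A)).inv_mem hm) _).1 h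
    have e1 : m⁻¹ * (x⁻¹ * y) * m⁻¹⁻¹ = (m⁻¹ * x * m)⁻¹ * (m⁻¹ * y * m) := by group
    rwa [e1] at h1
  · rintro ⟨y, hy, hy', h⟩
    refine ⟨m * y * m⁻¹, ?_, (Subgroup.normalizer (R : Set A)).mul_mem
      ((Subgroup.normalizer (R : Set A)).mul_mem hm hy')
      ((Subgroup.normalizer (R : Set A)).inv_mem hm), ?_⟩
    · rw [mem_cg]
      have e1 : m⁻¹ * (m * y * m⁻¹) * m = y := by group
      rw [e1]; exact hy
    · rw [qm_eq_iff] at h ⊢
      have h1 := (Subgroup.mem_normalizer_iff.1 hm _).1 h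
      have e1 : m * ((m⁻¹ * x * m)⁻¹ * y) * m⁻¹ = x⁻¹ * (m * y * m⁻¹) := by group
      rwa [e1] at h1

section
variable {G H R : Subgroup A} [hG : G.Normal] {φ : MonoidAlgebra k (NQ R)} {P : Subgroup A}

theorem rel_iff (hP : Rel p G H R φ P)
    (hconj : ∀ Q ≤ H ⊓ st R φ, IsPGroup p Q → HasBr (sec Q R) φ → ∃ m ∈ H ⊓ st R φ, Q ≤ cg m P)
    (Q : Subgroup A) : Rel p G H R φ Q ↔ ∃ m ∈ H ⊓ st R φ, Q = cg m P := by
  have hfwd : ∀ m ∈ H ⊓ st R φ, Rel p G H R φ (cg m P) := by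
    intro m hm
    have hmN : m ∈ Subgroup.normalizer (R : Set A) := st_le hm.2
    refine ⟨isPGroup_cg hP.pgrp, ?_, ?_, ?_, ?_⟩
    · calc cg m P ⊓ G = cg m P ⊓ cg m G := by rw [cg_normal m G]
        _ = R := by rw [← cg_inf, hP.inf, cg_eq_self_iff.2 hmN]
    · have := cg_le_cg (g := m) hP.le
      rwa [cg_of_mem hm] at this
    · have := congrArg (cg m) hP.sup
      rw [cg_of_mem hm, cg_sup, cg_inf, cg_normal, cg_normalizer, cg_eq_self_iff.2 hmN] at this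
      exact this
    · rw [sec_cg hmN]
      have h1 := hasBr_cg hP.br (qm R m hmN)
      rwa [hm.2.2] at h1
  constructor
  · intro hQ
    obtain ⟨m, hm, hQm⟩ := hconj Q hQ.le hQ.pgrp hQ.br
    refine ⟨m, hm, le_antisymm hQm ?_⟩
    have h1 := hfwd m hm
    intro x hx
    have hxM := h1.le hx
    rw [← hQ.sup, mem_sup_norm (fun y hy => by
      have h2 := (le_normalizer_of_inf hQ.inf) hy
      rw [← cg_eq_self_iff, cg_inf, cg_normal, cg_normalizer, cg_eq_self_iff.2 h2])] at hxM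
    obtain ⟨l, hl, q, hq, rfl⟩ := hxM
    have h2 : l ∈ cg m P ⊓ G := by
      refine ⟨?_, hl.1⟩
      have := (cg m P).mul_mem hx ((cg m P).inv_mem (hQm hq))
      have e1 : l * q * q⁻¹ = l := by group
      rwa [e1] at this
    rw [h1.inf] at h2
    exact Q.mul_mem (R_le_Q hQ.inf h2) hq
  · rintro ⟨m, hm, rfl⟩
    exact hfwd m hm

theorem Rel.mem_sup {Q : Subgroup A} (hQ : Q ⊓ G = R) {x : A} :
    x ∈ (G ⊓ Subgroup.normalizer (R : Set A)) ⊔ Q ↔
      ∃ l ∈ G ⊓ Subgroup.normalizer (R : Set A), ∃ q ∈ Q, l * q = x := by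
  apply mem_sup_norm
  intro y hy
  have h2 := (le_normalizer_of_inf hQ) hy
  rw [← cg_eq_self_iff, cg_inf, cg_normal, cg_normalizer, cg_eq_self_iff.2 h2]

theorem mem_GNQ_sup {Q : Subgroup A} {x : A} :
    x ∈ (G ⊓ Subgroup.normalizer (Q : Set A)) ⊔ Q ↔
      ∃ l ∈ G ⊓ Subgroup.normalizer (Q : Set A), ∃ q ∈ Q, l * q = x := by
  apply mem_sup_norm
  intro y hy
  have h2 := (Subgroup.le_normalizer : Q ≤ Subgroup.normalizer (Q : Set A)) hy
  rw [← cg_eq_self_iff, cg_inf, cg_normal, cg_of_mem h2]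

theorem Rel.norm {Q : Subgroup A} (hQ : Rel p G H R φ Q) :
    (H ⊓ st R φ) ⊓ Subgroup.normalizer (Q : Set A)
      = (G ⊓ Subgroup.normalizer (Q : Set A)) ⊔ Q := by
  apply le_antisymm
  · intro x hx
    obtain ⟨hx, hxN⟩ := Subgroup.mem_inf.1 hx
    rw [← hQ.sup, Rel.mem_sup hQ.inf] at hx
    obtain ⟨l, hl, q, hq, rfl⟩ := hx
    rw [mem_GNQ_sup]
    refine ⟨l, ⟨hl.1, ?_⟩, q, hq, rfl⟩
    have := (Subgroup.normalizer (Q : Set A)).mul_mem hxN
      ((Subgroup.normalizer (Q : Set A)).inv_mem (Subgroup.le_normalizer hq))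
    have e1 : l * q * q⁻¹ = l := by group
    rwa [e1] at this
  · apply sup_le
    · refine le_inf ?_ inf_le_right
      rw [← hQ.sup]
      exact le_trans (inf_le_inf_left G (normalizer_le_of_inf hQ.inf)) le_sup_left
    · exact le_inf hQ.le Subgroup.le_normalizer

theorem exists_norm_growth [Fact p.Prime] [Finite A] {P Q : Subgroup A} (hP : IsPGroup p P)
    (hQP : Q ≤ P) (hne : Q ≠ P) : ∃ x ∈ P, x ∈ Subgroup.normalizer (Q : Set A) ∧ x ∉ Q := by
  have hnil : Group.IsNilpotent P := hP.isNilpotent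
  have hnc := Group.normalizerCondition_of_isNilpotent (G := P)
  have h1 : Q.subgroupOf P < ⊤ := by
    rw [lt_top_iff_ne_top]
    intro h
    apply hne
    exact le_antisymm hQP (Subgroup.subgroupOf_eq_top.1 h)
  have h2 := hnc _ h1
  obtain ⟨y, hy, hy'⟩ := SetLike.exists_of_lt h2
  refine ⟨y, y.2, ?_, ?_⟩
  · rw [Subgroup.mem_normalizer_iff] at hy ⊢
    intro z
    constructor
    · intro hz
      exact (hy ⟨z, hQP hz⟩).1 hz
    · intro hz
      have h3 : z ∈ P := by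
        have := P.mul_mem (P.mul_mem (P.inv_mem y.2) (hQP hz)) y.2
        have e1 : (y : A)⁻¹ * (y * z * (y : A)⁻¹) * y = z := by group
        rwa [e1] at this
      exact (hy ⟨z, h3⟩).2 hz
  · intro h
    exact hy' h

theorem rel_of_norm [Fact p.Prime] [Finite A] (hP : Rel p G H R φ P)
    (hconj : ∀ Q ≤ H ⊓ st R φ, IsPGroup p Q → HasBr (sec Q R) φ → ∃ m ∈ H ⊓ st R φ, Q ≤ cg m P)
    {Q : Subgroup A} (hQp : IsPGroup p Q) (hQR : Q ⊓ G = R) (hQ : Q ≤ H ⊓ st R φ)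
    (hbr : HasBr (sec Q R) φ)
    (hn : (H ⊓ st R φ) ⊓ Subgroup.normalizer (Q : Set A)
      ≤ (G ⊓ Subgroup.normalizer (Q : Set A)) ⊔ Q) : Rel p G H R φ Q := by
  obtain ⟨m, hm, hQm⟩ := hconj Q hQ hQp hbr
  have h1 : Rel p G H R φ (cg m P) := (rel_iff hP hconj _).2 ⟨m, hm, rfl⟩
  by_cases hne : Q = cg m P
  · rw [hne]; exact h1
  · exfalso
    obtain ⟨x, hx, hxN, hxQ⟩ := exists_norm_growth h1.pgrp hQm hne
    have h2 := hn ⟨h1.le hx, hxN⟩
    rw [mem_GNQ_sup] at h2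
    obtain ⟨l, hl, q, hq, rfl⟩ := h2
    have h2 : l ∈ cg m P ⊓ G := by
      refine ⟨?_, hl.1⟩
      have := (cg m P).mul_mem hx ((cg m P).inv_mem (hQm hq))
      have e1 : l * q * q⁻¹ = l := by group
      rwa [e1] at this
    rw [h1.inf] at h2
    exact hxQ (Q.mul_mem (R_le_Q hQR h2) hq)

end

theorem sum_class [Finite A] (M P : Subgroup A) (S : Finset (Subgroup A))
    (hS : ∀ Q, Q ∈ S ↔ ∃ m ∈ M, Q = cg m P) :
    ∑ Q ∈ S, Nat.card ↥(M ⊓ Subgroup.normalizer (Q : Set A)) = Nat.card M := by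
  classical
  have : Fintype A := Fintype.ofFinite A
  have hcard : ∀ K : Subgroup A, Nat.card K = (Finset.univ.filter (fun x => x ∈ K)).card := by
    intro K
    rw [Nat.card_eq_fintype_card, Fintype.card_subtype]
  rw [hcard M, Finset.card_eq_sum_card_fiberwise (f := fun m => cg m P) (t := S)]
  · refine Finset.sum_congr rfl (fun Q hQ => ?_)
    obtain ⟨m₀, hm₀, rfl⟩ := (hS Q).1 hQ
    rw [hcard]
    refine Finset.card_bij' (fun x _ => x * m₀) (fun m _ => m * m₀⁻¹) ?_ ?_ ?_ ?_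
    · intro x hx
      rw [Finset.mem_filter] at hx
      obtain ⟨_, h1, h2⟩ := hx
      rw [Finset.mem_filter, Finset.mem_filter]
      refine ⟨⟨Finset.mem_univ _, M.mul_mem h1 hm₀⟩, ?_⟩
      rw [← cg_cg, cg_eq_self_iff.2 h2]
    · intro m hm
      rw [Finset.mem_filter, Finset.mem_filter] at hm
      obtain ⟨⟨_, h1⟩, h2⟩ := hm
      rw [Finset.mem_filter]
      refine ⟨Finset.mem_univ _, Subgroup.mem_inf.2 ⟨M.mul_mem h1 (M.inv_mem hm₀), ?_⟩⟩
      rw [← cg_eq_self_iff, cg_cg, inv_mul_cancel_right]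
      exact h2
    · intro x _; group
    · intro x _; group
  · intro m hm
    rw [Finset.mem_coe, Finset.mem_filter] at hm
    exact (hS _).2 ⟨m, hm.2, rfl⟩

end Pool.Agent.Lib.P0c8ca5
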