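import Mathlib
import Pool.Agent.Lib.P0c8ca5.WeightsC

/-! The weighted count of weights as a count of defect-zero blocks of sections of `G`. -/

namespace Pool.Agent.Lib.P0c8ca5

open MonoidAlgebra

set_option linter.unusedSectionVars false

variable {p : ℕ} {k : Type*} [Field k] {A : Type*} [Group A]

/-- the count attached to a family of subgroups -/
noncomputable def cnt {X : Type*} [Fintype X] (s : X → Subgroup A) (N H : Subgroup A) : ℕ := by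
  classical
  exact ∑ x, if N ⊔ (H ⊓ s x) = H then Nat.card ↥(H ⊓ s x) else 0

open Classical in
theorem cnt_def {X : Type*} [Fintype X] (s : X → Subgroup A) (N H : Subgroup A) :
    cnt s N H = ∑ x, if N ⊔ (H ⊓ s x) = H then Nat.card ↥(H ⊓ s x) else 0 := rfl

theorem card_sec [Finite A] {H Q : Subgroup A} (hQH : Q ≤ H) :
    Nat.card (sec H Q) * Nat.card Q = Nat.card ↥(H ⊓ Subgroup.normalizer (Q : Set A)) := by
  let α : ↥(H ⊓ Subgroup.normalizer (Q : Set A)) →* NQ Q :=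
    (QuotientGroup.mk' _).comp (Subgroup.inclusion inf_le_right)
  have hα : ∀ x, α x = qm Q x (Subgroup.mem_inf.1 x.2).2 := fun x => rfl
  have h1 : α.range = sec H Q := by
    ext w
    rw [MonoidHom.mem_range, mem_sec]
    constructor
    · rintro ⟨x, rfl⟩
      exact ⟨x, (Subgroup.mem_inf.1 x.2).1, (Subgroup.mem_inf.1 x.2).2, rfl⟩
    · rintro ⟨g, hg, hg', rfl⟩
      exact ⟨⟨g, Subgroup.mem_inf.2 ⟨hg, hg'⟩⟩, rfl⟩
  have h2 : α.ker = Q.subgroupOf (H ⊓ Subgroup.normalizer (Q : Set A)) := by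
    ext x
    rw [MonoidHom.mem_ker, hα, qm_eq_one_iff, Subgroup.mem_subgroupOf]
  have h3 := Subgroup.card_eq_card_quotient_mul_card_subgroup α.ker
  rw [h3, Nat.card_congr (QuotientGroup.quotientKerEquivRange α).toEquiv, h1, h2,
    Nat.card_congr (Subgroup.subgroupOfEquivOfLe
      (le_inf hQH (Subgroup.le_normalizer : Q ≤ Subgroup.normalizer (Q : Set A)))).toEquiv]

theorem sec_GNQ {G Q : Subgroup A} :
    sec ((G ⊓ Subgroup.normalizer (Q : Set A)) ⊔ Q) Q = sec G Q := by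
  apply le_antisymm
  · intro w hw
    obtain ⟨x, hx, hx', rfl⟩ := mem_sec.1 hw
    have key : (G ⊓ Subgroup.normalizer (Q : Set A)) ⊔ Q ≤ pre Q (sec G Q) := by
      apply sup_le
      · rintro y ⟨hy, hy'⟩
        exact mem_pre.2 ⟨hy', qm_mem_sec _ hy⟩
      · exact le_pre _
    exact (mem_pre.1 (key hx)).2
  · intro w hw
    obtain ⟨x, hx, hx', rfl⟩ := mem_sec.1 hw
    exact qm_mem_sec _ ((le_sup_left : _ ≤ (G ⊓ Subgroup.normalizer (Q : Set A)) ⊔ Q) ⟨hx, hx'⟩)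

theorem relIndex_sec [Finite A] {G H Q : Subgroup A} (hGH : G ≤ H) (hQH : Q ≤ H) :
    (sec G Q).relIndex (sec H Q) * Nat.card ↥((G ⊓ Subgroup.normalizer (Q : Set A)) ⊔ Q)
      = Nat.card ↥(H ⊓ Subgroup.normalizer (Q : Set A)) := by
  have h1 := card_sec hQH
  have h2 := card_sec (H := (G ⊓ Subgroup.normalizer (Q : Set A)) ⊔ Q) (Q := Q) le_sup_right
  rw [sec_GNQ] at h2
  have h3 : ((G ⊓ Subgroup.normalizer (Q : Set A)) ⊔ Q) ⊓ Subgroup.normalizer (Q : Set A)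
      = (G ⊓ Subgroup.normalizer (Q : Set A)) ⊔ Q :=
    inf_eq_left.2 (sup_le inf_le_right Subgroup.le_normalizer)
  rw [h3] at h2
  have h4 := Subgroup.relIndex_mul_relIndex ⊥ (sec G Q) (sec H Q) bot_le (sec_mono hGH)
  rw [Subgroup.relIndex_bot_left, Subgroup.relIndex_bot_left] at h4
  rw [← h1, ← h2, ← h4]
  ring

section
variable [Fintype A] [Fact p.Prime] [CharP k p] [IsAlgClosed k] {G H R : Subgroup A}
  [hG : G.Normal]

theorem sum_rel (hGH : G ≤ H) (hp : ∀ x : A, ∃ n : ℕ, x ^ p ^ n ∈ G) (hR : IsPGroup p R)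
    (hRG : R ≤ G) {φ : MonoidAlgebra k (NQ R)} (hφ : IsDZ p (sec G R) φ)
    (S : Finset (Subgroup A)) (hS : ∀ Q, Q ∈ S ↔ Rel p G H R φ Q) :
    ∑ Q ∈ S, Nat.card ↥((G ⊓ Subgroup.normalizer (Q : Set A)) ⊔ Q)
      = Nat.card ↥(H ⊓ st R φ) := by
  obtain ⟨P, h1, h2, h3, h4, h5, h6⟩ := exists_P hGH hp hR hRG hφ
  have hP : Rel p G H R φ P := ⟨h2, h3, h1, h4, h5⟩
  rw [← sum_class (H ⊓ st R φ) P S (fun Q => by rw [hS, rel_iff hP h6])]
  refine Finset.sum_congr rfl (fun Q hQ => ?_)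
  rw [Rel.norm ((hS Q).1 hQ)]

theorem card_rel (hGH : G ≤ H) (hp : ∀ x : A, ∃ n : ℕ, x ^ p ^ n ∈ G) {Q : Subgroup A}
    (hQ : IsPGroup p Q) (hQH : Q ≤ H) (hQR : Q ⊓ G = R) {e : MonoidAlgebra k A}
    (heG : SuppIn G e) (he : InvBy ⊤ e) (hee : e * e = e) :
    Nat.card {φ : MonoidAlgebra k (NQ R) |
        (IsDZ p (sec G R) φ ∧ φ * proj R e = φ) ∧ Rel p G H R φ Q}
        * Nat.card ↥((G ⊓ Subgroup.normalizer (Q : Set A)) ⊔ Q)
      = Nat.card ↥(H ⊓ Subgroup.normalizer (Q : Set A))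
        * Nat.card {f : MonoidAlgebra k (NQ Q) | IsDZ p (sec H Q) f ∧ f * proj Q e = f} := by
  classical
  have : Fintype (NQ R) := Fintype.ofFinite _
  have : Fintype (NQ Q) := Fintype.ofFinite _
  obtain ⟨F, hF1, hF2, hF3, hF4⟩ := exists_F (k := k) hQR hQ heG he hee
  have hR : IsPGroup p R := hQ.to_le (R_le_Q hQR)
  have hRG : R ≤ G := R_le_G hQR
  have hQnR := le_normalizer_of_inf hQR
  have hreg := card_reg (p := p) (C := sec G Q) (K := sec H Q) (sec_mono hGH)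
    (sec_le_normalizer G Q H) (fun x _ => by
      obtain ⟨y, hy, rfl⟩ := qm_surj x
      obtain ⟨n, hn⟩ := hp y
      refine ⟨n, ?_⟩
      rw [← qm_pow hy _ ((Subgroup.normalizer (Q : Set A)).pow_mem hy _)]
      exact qm_mem_sec _ hn) ((proj_invBy he Q).mono le_top)
  have hbij : Nat.card {φ : MonoidAlgebra k (NQ R) |
        (IsDZ p (sec G R) φ ∧ φ * proj R e = φ) ∧ Rel p G H R φ Q}
      = Nat.card {f' : MonoidAlgebra k (NQ Q) | IsDZ p (sec G Q) f' ∧ f' * proj Q e = f' ∧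
          ∀ x ∈ sec H Q, cj x f' = f' → x ∈ sec G Q} := by
    apply Nat.card_congr
    apply Set.BijOn.equiv F
    refine ⟨?_, ?_, ?_⟩
    · rintro φ ⟨⟨h1, h2⟩, h3⟩
      have hinv : InvBy (sec Q R) φ := invBy_st (h3.le.trans inf_le_right)
      obtain ⟨h4, h5⟩ := hF1 φ h1 hinv h3.br
      refine ⟨h4, h5.1 h2, ?_⟩
      intro w hw hwf
      obtain ⟨h, hh, hhQ, rfl⟩ := mem_sec.1 hw
      have hhR := normalizer_le_of_inf hQR hhQ
      rw [← hF4 h hhR hhQ] at hwf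
      have h6 : IsDZ p (sec G R) (cj (qm R h hhR) φ) := by
        have := isDZ_cg h1 (qm R h hhR)
        rwa [cg_of_mem_normalizer (sec_normal G R _)] at this
      have h7 : InvBy (sec Q R) (cj (qm R h hhR) φ) :=
        hinv.cj (mem_normalizer_sec_of hhQ hhR)
      have h8 := hF2 φ _ h1 hinv h3.br h6 h7 hwf.symm
      have h9 : h ∈ (H ⊓ st R φ) ⊓ Subgroup.normalizer (Q : Set A) :=
        ⟨⟨hh, hhR, h8.symm⟩, hhQ⟩
      rw [h3.norm, mem_GNQ_sup] at h9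
      obtain ⟨l, hl, q, hq, rfl⟩ := h9
      have h10 : qm Q (l * q) hhQ = qm Q l hl.2 := by
        rw [qm_eq_iff]
        have e1 : (l * q)⁻¹ * l = q⁻¹ := by group
        rw [e1]; exact Q.inv_mem hq
      rw [h10]
      exact qm_mem_sec _ hl.1
    · rintro φ ⟨⟨h1, _⟩, h3⟩ φ' ⟨⟨h1', _⟩, h3'⟩ h
      exact hF2 φ φ' h1 (invBy_st (h3.le.trans inf_le_right)) h3.br h1'
        (invBy_st (h3'.le.trans inf_le_right)) h
    · rintro f ⟨h1, h2, h3⟩
      obtain ⟨φ, h4, h5, h6, rfl⟩ := hF3 f h1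
      obtain ⟨P, g1, g2, g3, g4, g5, g6⟩ := exists_P hGH hp hR hRG h4
      have hP : Rel p G H R φ P := ⟨g2, g3, g1, g4, g5⟩
      have hQst : Q ≤ H ⊓ st R φ := le_inf hQH ((le_st_iff hQnR).2 h5)
      refine ⟨φ, ⟨⟨h4, ((hF1 φ h4 h5 h6).2).2 h2⟩, ?_⟩, rfl⟩
      apply rel_of_norm hP g6 hQ hQR hQst h6
      rintro x hx
      obtain ⟨hx1, hxQ⟩ := Subgroup.mem_inf.1 hx
      obtain ⟨hxH, hxR, hxφ⟩ := hx1
      have h7 := h3 (qm Q x hxQ) (qm_mem_sec _ hxH) (by rw [← hF4 x hxR hxQ, hxφ])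
      obtain ⟨y, hy, hy', h8⟩ := mem_sec.1 h7
      rw [qm_eq_iff] at h8
      rw [mem_GNQ_sup]
      refine ⟨y, ⟨hy, hy'⟩, (x⁻¹ * y)⁻¹, Q.inv_mem h8, ?_⟩
      group
  rw [hbij, hreg, ← relIndex_sec hGH hQH]
  ring

open Classical in
theorem sum_fixedR {N : Subgroup A} (hGN : G ≤ N) (hGH : G ≤ H)
    (hp : ∀ x : A, ∃ n : ℕ, x ^ p ^ n ∈ G)
    (hR : IsPGroup p R) (hRG : R ≤ G) {e : MonoidAlgebra k A}
    (heG : SuppIn G e) (he : InvBy ⊤ e) (hee : e * e = e)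
    (T : Finset (MonoidAlgebra k (NQ R)))
    (hT : ∀ φ, φ ∈ T ↔ IsDZ p (sec G R) φ ∧ φ * proj R e = φ)
    (S : Finset (Subgroup A))
    (hS : ∀ Q, Q ∈ S ↔ Q ≤ H ∧ IsPGroup p Q ∧ Q ⊓ G = R ∧ N ⊔ Q = H) :
    ∑ φ ∈ T, (if N ⊔ (H ⊓ st R φ) = H then Nat.card ↥(H ⊓ st R φ) else 0)
      = ∑ Q ∈ S, Nat.card ↥(H ⊓ Subgroup.normalizer (Q : Set A))
        * Nat.card {f : MonoidAlgebra k (NQ Q) | IsDZ p (sec H Q) f ∧ f * proj Q e = f} := by
  have hNsup : ∀ φ Q, Rel p G H R φ Q → N ⊔ (H ⊓ st R (φ : MonoidAlgebra k (NQ R))) = N ⊔ Q := by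
    intro φ Q h
    rw [← h.sup, ← sup_assoc, sup_eq_left.2 (inf_le_left.trans hGN)]
  have h1 : ∀ φ ∈ T, (if N ⊔ (H ⊓ st R φ) = H then Nat.card ↥(H ⊓ st R φ) else 0)
      = ∑ Q ∈ S, if Rel p G H R φ Q then
          Nat.card ↥((G ⊓ Subgroup.normalizer (Q : Set A)) ⊔ Q) else 0 := by
    intro φ hφ
    rw [← Finset.sum_filter]
    by_cases h : N ⊔ (H ⊓ st R φ) = H
    · rw [if_pos h, sum_rel hGH hp hR hRG ((hT φ).1 hφ).1]
      intro Q
      rw [Finset.mem_filter, hS]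
      constructor
      · exact fun hh => hh.2
      · intro hh
        exact ⟨⟨hh.le.trans inf_le_left, hh.pgrp, hh.inf, by rw [← hNsup φ Q hh, h]⟩, hh⟩
    · rw [if_neg h]
      symm
      apply Finset.sum_eq_zero
      intro Q hQ
      rw [Finset.mem_filter, hS] at hQ
      exfalso
      apply h
      rw [hNsup φ Q hQ.2]
      exact hQ.1.2.2.2
  rw [Finset.sum_congr rfl h1, Finset.sum_comm]
  refine Finset.sum_congr rfl (fun Q hQ => ?_)
  obtain ⟨h2, h3, h4, h5⟩ := (hS Q).1 hQ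
  rw [← card_rel hGH hp h3 h2 h4 heG he hee, ← Finset.sum_filter, Finset.sum_const, smul_eq_mul]
  congr 1
  rw [← Set.ncard_coe_finset, ← Nat.card_coe_set_eq]
  congr 2
  ext φ
  rw [Finset.mem_coe, Finset.mem_filter, hT]
  rfl

end

/-- the pairs `(R, φ)` -/
def PT (p : ℕ) (G : Subgroup A) (e : MonoidAlgebra k A) : Type _ :=
  Σ R : {R : Subgroup A // R ≤ G ∧ IsPGroup p R},
    {φ : MonoidAlgebra k (NQ R.1) // IsDZ p (sec G R.1) φ ∧ φ * proj R.1 e = φ}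

instance [Finite A] (p : ℕ) (G : Subgroup A) (e : MonoidAlgebra k A) : Finite (PT p G e) := by
  have h : ∀ R : {R : Subgroup A // R ≤ G ∧ IsPGroup p R},
      Finite {φ : MonoidAlgebra k (NQ R.1) // IsDZ p (sec G R.1) φ ∧ φ * proj R.1 e = φ} := by
    intro R
    have h1 := finite_isBlock (k := k) (sec G R.1)
    exact (h1.subset (fun φ (hφ : IsDZ p (sec G R.1) φ ∧ φ * proj R.1 e = φ) =>
      hφ.1.blk)).to_subtype
  unfold PT
  infer_instance

/-- stabilizers of the pairs -/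
def stP (p : ℕ) (G : Subgroup A) (e : MonoidAlgebra k A) (x : PT p G e) : Subgroup A :=
  st x.1.1 x.2.1

section
variable [Fintype A] [Fact p.Prime] [CharP k p] [IsAlgClosed k] {G H : Subgroup A}
  [hG : G.Normal]

theorem cnt_stP {N : Subgroup A} (hGN : G ≤ N) (hGH : G ≤ H)
    (hp : ∀ x : A, ∃ n : ℕ, x ^ p ^ n ∈ G) {e : MonoidAlgebra k A}
    (heG : SuppIn G e) (he : InvBy ⊤ e) (hee : e * e = e) [Fintype (PT p G e)]
    (S : Finset (Subgroup A))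
    (hS : ∀ Q, Q ∈ S ↔ Q ≤ H ∧ IsPGroup p Q ∧ N ⊔ Q = H) :
    cnt (stP p G e) N H
      = ∑ Q ∈ S, Nat.card ↥(H ⊓ Subgroup.normalizer (Q : Set A))
        * Nat.card {f : MonoidAlgebra k (NQ Q) | IsDZ p (sec H Q) f ∧ f * proj Q e = f} := by
  classical
  have : Fintype (Subgroup A) := Fintype.ofFinite _
  rw [cnt_def]
  have hfin : ∀ R : {R : Subgroup A // R ≤ G ∧ IsPGroup p R},
      Finite {φ : MonoidAlgebra k (NQ R.1) // IsDZ p (sec G R.1) φ ∧ φ * proj R.1 e = φ} := by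
    intro R
    have h1 := finite_isBlock (k := k) (sec G R.1)
    exact (h1.subset (fun φ (hφ : IsDZ p (sec G R.1) φ ∧ φ * proj R.1 e = φ) =>
      hφ.1.blk)).to_subtype
  let inst1 : Fintype {R : Subgroup A // R ≤ G ∧ IsPGroup p R} := Fintype.ofFinite _
  let inst2 : ∀ R : {R : Subgroup A // R ≤ G ∧ IsPGroup p R},
      Fintype {φ : MonoidAlgebra k (NQ R.1) // IsDZ p (sec G R.1) φ ∧ φ * proj R.1 e = φ} :=
    fun R => Fintype.ofFinite _
  have h1 : (∑ x : PT p G e, if N ⊔ (H ⊓ stP p G e x) = H then Nat.card ↥(H ⊓ stP p G e x) else 0)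
      = ∑ R : {R : Subgroup A // R ≤ G ∧ IsPGroup p R},
          ∑ φ : {φ : MonoidAlgebra k (NQ R.1) // IsDZ p (sec G R.1) φ ∧ φ * proj R.1 e = φ},
            if N ⊔ (H ⊓ st R.1 φ.1) = H then Nat.card ↥(H ⊓ st R.1 φ.1) else 0 := by
    let E : PT p G e ≃ (Σ R : {R : Subgroup A // R ≤ G ∧ IsPGroup p R},
      {φ : MonoidAlgebra k (NQ R.1) // IsDZ p (sec G R.1) φ ∧ φ * proj R.1 e = φ}) := Equiv.refl _
    refine (Fintype.sum_equiv E _ (fun x => if N ⊔ (H ⊓ st x.1.1 x.2.1) = H then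
      Nat.card ↥(H ⊓ st x.1.1 x.2.1) else 0) (fun x => rfl)).trans ?_
    rw [Fintype.sum_sigma]
  rw [h1]
  have h2 : ∀ R : {R : Subgroup A // R ≤ G ∧ IsPGroup p R},
      (∑ φ : {φ : MonoidAlgebra k (NQ R.1) // IsDZ p (sec G R.1) φ ∧ φ * proj R.1 e = φ},
            if N ⊔ (H ⊓ st R.1 φ.1) = H then Nat.card ↥(H ⊓ st R.1 φ.1) else 0)
      = ∑ Q ∈ S, if Q ⊓ G = R.1 then Nat.card ↥(H ⊓ Subgroup.normalizer (Q : Set A))
        * Nat.card {f : MonoidAlgebra k (NQ Q) | IsDZ p (sec H Q) f ∧ f * proj Q e = f}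
        else 0 := by
    intro R
    have hfs : {φ : MonoidAlgebra k (NQ R.1) |
        IsDZ p (sec G R.1) φ ∧ φ * proj R.1 e = φ}.Finite :=
      (finite_isBlock (k := k) (sec G R.1)).subset (fun φ hφ => hφ.1.blk)
    have h4 := sum_fixedR hGN hGH hp R.2.2 R.2.1 heG he hee hfs.toFinset
      (fun φ => by rw [Set.Finite.mem_toFinset]; rfl) (S.filter (fun Q => Q ⊓ G = R.1))
      (fun Q => by rw [Finset.mem_filter, hS]; tauto)
    rw [Finset.sum_filter] at h4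
    rw [← h4]
    symm
    apply Finset.sum_subtype (f := fun φ => if N ⊔ (H ⊓ st R.1 φ) = H then
      Nat.card ↥(H ⊓ st R.1 φ) else 0)
    intro φ
    rw [Set.Finite.mem_toFinset]; rfl
  rw [Fintype.sum_congr _ _ h2, Finset.sum_comm]
  refine Finset.sum_congr rfl (fun Q hQ => ?_)
  have h3 : Q ⊓ G ≤ G ∧ IsPGroup p ↥(Q ⊓ G) :=
    ⟨inf_le_right, ((hS Q).1 hQ).2.1.to_le inf_le_left⟩
  rw [Finset.sum_eq_single (⟨Q ⊓ G, h3⟩ : {R : Subgroup A // R ≤ G ∧ IsPGroup p R})]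
  · exact if_pos rfl
  · intro R _ hR
    apply if_neg
    intro h
    exact hR (Subtype.ext h.symm)
  · intro h
    exact absurd (Finset.mem_univ _) h

end

end Pool.Agent.Lib.P0c8ca5
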