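import Mathlib
import Pool.Agent.Lib.P0c8ca5.WeightsD

/-! Conjugation of sections. -/

namespace Pool.Agent.Lib.P0c8ca5

open MonoidAlgebra

set_option linter.unusedSectionVars false

variable {p : ℕ} {k : Type*} [Field k] {A : Type*} [Group A]

theorem conj_mem_normalizer {R : Subgroup A} (a : A) {x : A}
    (hx : x ∈ Subgroup.normalizer (R : Set A)) :
    a * x * a⁻¹ ∈ Subgroup.normalizer (cg a R : Set A) := by
  rw [← cg_normalizer, mem_cg]
  have e1 : a⁻¹ * (a * x * a⁻¹) * a = x := by group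
  rw [e1]; exact hx

theorem conj_mem_cg {R : Subgroup A} {a x : A} : a * x * a⁻¹ ∈ cg a R ↔ x ∈ R := by
  rw [mem_cg]
  have e1 : a⁻¹ * (a * x * a⁻¹) * a = x := by group
  rw [e1]

theorem exists_conj_iso (a : A) (H R : Subgroup A) :
    ∃ ψ : ↥(sec H R) ≃* ↥(sec (cg a H) (cg a R)),
      ∀ (x : A) (hx : x ∈ Subgroup.normalizer (R : Set A))
        (hx' : a * x * a⁻¹ ∈ Subgroup.normalizer (cg a R : Set A)) (_ : x ∈ H)
        (c : ↥(sec H R)), (c : NQ R) = qm R x hx →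
        ((ψ c : ↥(sec (cg a H) (cg a R))) : NQ (cg a R)) = qm (cg a R) (a * x * a⁻¹) hx' := by
  let α : ↥(H ⊓ Subgroup.normalizer (R : Set A)) →* NQ R :=
    (QuotientGroup.mk' _).comp (Subgroup.inclusion inf_le_right)
  let cj₀ : ↥(H ⊓ Subgroup.normalizer (R : Set A)) →*
      ↥(Subgroup.normalizer (cg a R : Set A)) :=
    { toFun := fun x => ⟨a * x * a⁻¹, conj_mem_normalizer a (Subgroup.mem_inf.1 x.2).2⟩
      map_one' := Subtype.ext (by change a * 1 * a⁻¹ = 1; group)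
      map_mul' := fun x y => Subtype.ext (by
        change a * (x * y) * a⁻¹ = a * x * a⁻¹ * (a * y * a⁻¹); group) }
  let β : ↥(H ⊓ Subgroup.normalizer (R : Set A)) →* NQ (cg a R) :=
    (QuotientGroup.mk' _).comp cj₀
  have hα : ∀ x, α x = qm R x (Subgroup.mem_inf.1 x.2).2 := fun x => rfl
  have hβ : ∀ x, β x = qm (cg a R) (a * x * a⁻¹)
      (conj_mem_normalizer a (Subgroup.mem_inf.1 x.2).2) := fun x => rfl
  obtain ⟨ψ, hψ⟩ := exists_iso_of_ker (C₁ := sec H R) (C₂ := sec (cg a H) (cg a R)) α β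
    (fun x => by
      rw [hα, hβ, qm_eq_one_iff, qm_eq_one_iff, conj_mem_cg])
    (by
      ext w
      rw [MonoidHom.mem_range, mem_sec]
      constructor
      · rintro ⟨x, rfl⟩
        exact ⟨x, (Subgroup.mem_inf.1 x.2).1, (Subgroup.mem_inf.1 x.2).2, rfl⟩
      · rintro ⟨g, hg, hg', rfl⟩
        exact ⟨⟨g, Subgroup.mem_inf.2 ⟨hg, hg'⟩⟩, rfl⟩)
    (by
      ext w
      rw [MonoidHom.mem_range, mem_sec]
      constructor
      · rintro ⟨x, rfl⟩
        exact ⟨a * x * a⁻¹, conj_mem_cg.2 (Subgroup.mem_inf.1 x.2).1,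
          conj_mem_normalizer a (Subgroup.mem_inf.1 x.2).2, rfl⟩
      · rintro ⟨g, hg, hg', rfl⟩
        rw [mem_cg] at hg
        have hg'' := hg'
        rw [← cg_normalizer, mem_cg] at hg''
        refine ⟨⟨a⁻¹ * g * a, Subgroup.mem_inf.2 ⟨hg, hg''⟩⟩, ?_⟩
        rw [hβ, qm_eq_iff]
        have e1 : (a * (a⁻¹ * g * a) * a⁻¹)⁻¹ * g = 1 := by group
        change (a * (a⁻¹ * g * a) * a⁻¹)⁻¹ * g ∈ cg a R
        rw [e1]; exact (cg a R).one_mem)
  exact ⟨ψ, fun x hx hx' hxH c hc => hψ ⟨x, Subgroup.mem_inf.2 ⟨hxH, hx⟩⟩ c hc⟩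

variable [Fintype A]

/-- conjugation of the data `(R, φ)` -/
theorem conj_DZ (a : A) {H R : Subgroup A} {e : MonoidAlgebra k A} (heH : SuppIn H e)
    {φ : MonoidAlgebra k (NQ R)} (h1 : IsDZ p (sec H R) φ) (h2 : φ * proj R e = φ) :
    ∃ φ' : MonoidAlgebra k (NQ (cg a R)), IsDZ p (sec (cg a H) (cg a R)) φ' ∧
      φ' * proj (cg a R) (cj a e) = φ' ∧
      ∀ (x : A) (hx : x ∈ Subgroup.normalizer (R : Set A))
        (hx' : a * x * a⁻¹ ∈ Subgroup.normalizer (cg a R : Set A)),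
        φ'.coeff (qm (cg a R) (a * x * a⁻¹) hx') = φ.coeff (qm R x hx) := by
  classical
  obtain ⟨ψ, hψ⟩ := exists_conj_iso a H R
  have hcoef : ∀ (χ : MonoidAlgebra k (NQ R)), SuppIn (sec H R) χ →
      ∀ (x : A) (hx : x ∈ Subgroup.normalizer (R : Set A))
        (hx' : a * x * a⁻¹ ∈ Subgroup.normalizer (cg a R : Set A)),
        (tr ψ χ).coeff (qm (cg a R) (a * x * a⁻¹) hx') = χ.coeff (qm R x hx) := by
    intro χ hχ x hx hx'
    by_cases hxs : qm R x hx ∈ sec H R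
    · obtain ⟨y, hy, hy', hxy⟩ := mem_sec.1 hxs
      have h3 := hψ y hy' (conj_mem_normalizer a hy') hy ⟨_, hxs⟩ hxy
      have h4 : qm (cg a R) (a * x * a⁻¹) hx'
          = qm (cg a R) (a * y * a⁻¹) (conj_mem_normalizer a hy') := by
        rw [qm_eq_iff] at hxy ⊢
        have e1 : (a * x * a⁻¹)⁻¹ * (a * y * a⁻¹) = a * (x⁻¹ * y) * a⁻¹ := by group
        rw [e1, conj_mem_cg]
        exact hxy
      rw [h4, ← h3, coeff_tr]
    · have h3 : qm (cg a R) (a * x * a⁻¹) hx' ∉ sec (cg a H) (cg a R) := by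
        intro h
        apply hxs
        obtain ⟨y, hy, hy', hxy⟩ := mem_sec.1 h
        rw [mem_cg] at hy
        have hy'' := hy'
        rw [← cg_normalizer, mem_cg] at hy''
        rw [mem_sec]
        refine ⟨a⁻¹ * y * a, hy, hy'', ?_⟩
        rw [qm_eq_iff] at hxy ⊢
        rw [mem_cg] at hxy
        have e1 : a⁻¹ * ((a * x * a⁻¹)⁻¹ * y) * a = x⁻¹ * (a⁻¹ * y * a) := by group
        rwa [e1] at hxy
      rw [coeff_tr_of_notMem _ _ h3]
      by_contra h
      exact hxs (hχ _ (Ne.symm h))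
  have hproj : tr ψ (proj R e) = proj (cg a R) (cj a e) := by
    ext w
    obtain ⟨y, hy, rfl⟩ := qm_surj w
    obtain ⟨x, rfl⟩ : ∃ x, y = a * x * a⁻¹ := ⟨a⁻¹ * y * a, by group⟩
    have hx : x ∈ Subgroup.normalizer (R : Set A) := by
      have := hy
      rw [← cg_normalizer, conj_mem_cg] at this
      exact this
    rw [hcoef _ (proj_suppIn heH R) x hx, coeff_proj, coeff_proj]
    refine Fintype.sum_equiv (MulAut.conj a).toEquiv _ _ (fun z => ?_)
    change _ = if (a * x * a⁻¹)⁻¹ * (a * z * a⁻¹) ∈ cg a R then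
      (cj a e).coeff (a * z * a⁻¹) else 0
    have e1 : (a * x * a⁻¹)⁻¹ * (a * z * a⁻¹) = a * (x⁻¹ * z) * a⁻¹ := by group
    have e2 : a⁻¹ * (a * z * a⁻¹) * a = z := by group
    rw [e1, coeff_cj, e2]
    simp only [conj_mem_cg]
  refine ⟨tr ψ φ, tr_isDZ ψ h1, ?_, hcoef φ h1.blk.suppIn⟩
  rw [← hproj, ← tr_mul ψ h1.blk.suppIn (proj_suppIn heH R), h2]

theorem conj_card_le (a : A) {H R : Subgroup A} {e : MonoidAlgebra k A} (heH : SuppIn H e) :
    Nat.card {f : MonoidAlgebra k (NQ R) | IsDZ p (sec H R) f ∧ f * proj R e = f}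
      ≤ Nat.card {f : MonoidAlgebra k (NQ (cg a R)) |
          IsDZ p (sec (cg a H) (cg a R)) f ∧ f * proj (cg a R) (cj a e) = f} := by
  have hfin : Finite {f : MonoidAlgebra k (NQ (cg a R)) |
      IsDZ p (sec (cg a H) (cg a R)) f ∧ f * proj (cg a R) (cj a e) = f} :=
    ((finite_isBlock (k := k) (sec (cg a H) (cg a R))).subset (fun φ hφ => hφ.1.blk)).to_subtype
  choose F hF1 hF2 hF3 using
    fun (x : {f : MonoidAlgebra k (NQ R) | IsDZ p (sec H R) f ∧ f * proj R e = f}) =>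
      conj_DZ a heH x.2.1 x.2.2
  apply Nat.card_le_card_of_injective (fun x => (⟨F x, hF1 x, hF2 x⟩ :
    {f : MonoidAlgebra k (NQ (cg a R)) |
          IsDZ p (sec (cg a H) (cg a R)) f ∧ f * proj (cg a R) (cj a e) = f}))
  intro x y hxy
  have h1 : F x = F y := congrArg Subtype.val hxy
  apply Subtype.ext
  ext w
  obtain ⟨z, hz, rfl⟩ := qm_surj w
  rw [← hF3 x z hz (conj_mem_normalizer a hz), ← hF3 y z hz (conj_mem_normalizer a hz), h1]

theorem conj_card (a : A) {H R : Subgroup A} {e : MonoidAlgebra k A} (heH : SuppIn H e) :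
    Nat.card {f : MonoidAlgebra k (NQ R) | IsDZ p (sec H R) f ∧ f * proj R e = f}
      = Nat.card {f : MonoidAlgebra k (NQ (cg a R)) |
          IsDZ p (sec (cg a H) (cg a R)) f ∧ f * proj (cg a R) (cj a e) = f} := by
  apply le_antisymm (conj_card_le a heH)
  have h1 := conj_card_le (p := p) (k := k) a⁻¹ (H := cg a H) (R := cg a R) (e := cj a e)
    (suppIn_cg heH a)
  have h2 : ∀ (H' R' : Subgroup A), H' = H → R' = R →
      Nat.card {f : MonoidAlgebra k (NQ R') | IsDZ p (sec H' R') f ∧ f * proj R' e = f}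
        = Nat.card {f : MonoidAlgebra k (NQ R) | IsDZ p (sec H R) f ∧ f * proj R e = f} := by
    rintro _ _ rfl rfl; rfl
  rw [cj_inv_cj, h2 _ _ (by rw [cg_cg, inv_mul_cancel, cg_one])
    (by rw [cg_cg, inv_mul_cancel, cg_one])] at h1
  exact h1

/-- for `h ∈ H` the number of weights is constant -/
theorem card_cg_eq {H Q : Subgroup A} {e : MonoidAlgebra k A} (heH : SuppIn H e)
    (he : InvBy H e) {h : A} (hh : h ∈ H) :
    Nat.card {f : MonoidAlgebra k (NQ (cg h Q)) |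
          IsDZ p (sec H (cg h Q)) f ∧ f * proj (cg h Q) e = f}
      = Nat.card {f : MonoidAlgebra k (NQ Q) | IsDZ p (sec H Q) f ∧ f * proj Q e = f} := by
  have h1 := conj_card (p := p) (k := k) h (H := H) (R := Q) (e := e) heH
  rw [cg_of_mem hh, invBy_iff_cj.1 he h hh] at h1
  exact h1.symm

end Pool.Agent.Lib.P0c8ca5
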