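import Mathlib
import Pool.Agent.Lib.P0c8ca5.WeightsD

/-! Irreducible representations: elementary facts. -/

namespace Pool.Agent.Lib.P0c8ca5

open MonoidAlgebra

set_option linter.unusedSectionVars false

variable {p : ℕ} {k : Type*} [Field k] {A : Type*} [Group A]

/-- elementary form of irreducibility -/
structure Irr' {N : Type*} [Group N] {V : Type*} [AddCommGroup V] [Module k V]
    (ρ : Representation k N V) : Prop where
  nontriv : Nontrivial V
  sub : ∀ W : Submodule k V, (∀ g, ∀ w ∈ W, ρ g w ∈ W) → W = ⊥ ∨ W = ⊤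

section
variable {N : Type*} [Group N] {V : Type*} [AddCommGroup V] [Module k V]
  {ρ : Representation k N V}

theorem irr_iff : ρ.IsIrreducible ↔ Irr' ρ := by
  constructor
  · intro h
    refine ⟨?_, ?_⟩
    · by_contra hV
      rw [not_nontrivial_iff_subsingleton] at hV
      have h1 : (⊥ : Subrepresentation ρ) ≠ ⊤ := bot_ne_top
      apply h1
      apply Subrepresentation.toSubmodule_injective
      exact Subsingleton.elim _ _
    · intro W hW
      rcases IsSimpleOrder.eq_bot_or_eq_top (⟨W, fun g v hv => hW g v hv⟩ : Subrepresentation ρ)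
        with h1 | h1
      · left; exact congrArg Subrepresentation.toSubmodule h1
      · right; exact congrArg Subrepresentation.toSubmodule h1
  · rintro ⟨h1, h2⟩
    have : Nontrivial (Subrepresentation ρ) := by
      refine ⟨⟨⊥, ⊤, ?_⟩⟩
      intro h
      have h3 : (⊥ : Submodule k V) = ⊤ := congrArg Subrepresentation.toSubmodule h
      exact bot_ne_top h3
    refine { eq_bot_or_eq_top := ?_ }
    intro W
    rcases h2 W.toSubmodule (fun g w hw => W.apply_mem_toSubmodule g hw) with h3 | h3
    · left; exact Subrepresentation.toSubmodule_injective h3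
    · right; exact Subrepresentation.toSubmodule_injective h3

theorem Irr'.injective (hV : Irr' ρ) {V' : Type*} [AddCommGroup V'] [Module k V']
    (f : V →ₗ[k] V') (hf : f ≠ 0) (h : ∀ g v, f v = 0 → f (ρ g v) = 0) :
    Function.Injective f := by
  rcases hV.sub (LinearMap.ker f) (fun g w hw => h g w hw) with h1 | h1
  · exact LinearMap.ker_eq_bot.1 h1
  · exact absurd (LinearMap.ker_eq_top.1 h1) hf

theorem Irr'.surjective (hV : Irr' ρ) {V' : Type*} [AddCommGroup V'] [Module k V']
    (f : V' →ₗ[k] V) (hf : f ≠ 0) (h : ∀ g v, ∃ w, f w = ρ g (f v)) :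
    Function.Surjective f := by
  rcases hV.sub (LinearMap.range f) (fun g w hw => by
    obtain ⟨v, rfl⟩ := hw
    exact h g v) with h1 | h1
  · exact absurd (LinearMap.range_eq_bot.1 h1) hf
  · exact LinearMap.range_eq_top.1 h1

/-- subrepresentation -/
def subRep (ρ : Representation k N V) (W : Submodule k V) (hW : ∀ g, ∀ w ∈ W, ρ g w ∈ W) :
    Representation k N W where
  toFun g := (ρ g).restrict (hW g)
  map_one' := by ext; simp
  map_mul' x y := by ext; simp

/-- quotient representation -/
def quotRep (ρ : Representation k N V) (W : Submodule k V) (hW : ∀ g, ∀ w ∈ W, ρ g w ∈ W) :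
    Representation k N (V ⧸ W) where
  toFun g := W.mapQ W (ρ g) (hW g)
  map_one' := by ext; simp
  map_mul' x y := by ext; simp

/-- transport -/
def trRep {V' : Type*} [AddCommGroup V'] [Module k V'] (ρ : Representation k N V)
    (E : V ≃ₗ[k] V') : Representation k N V' where
  toFun g := E.toLinearMap ∘ₗ ρ g ∘ₗ E.symm.toLinearMap
  map_one' := by ext; simp
  map_mul' x y := by ext; simp

theorem trRep_apply {V' : Type*} [AddCommGroup V'] [Module k V'] (ρ : Representation k N V)
    (E : V ≃ₗ[k] V') (g : N) (v : V) : trRep ρ E g (E v) = E (ρ g v) := by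
  change E (ρ g (E.symm (E v))) = _
  rw [LinearEquiv.symm_apply_apply]

theorem Irr'.trRep {V' : Type*} [AddCommGroup V'] [Module k V'] (hρ : Irr' ρ)
    (E : V ≃ₗ[k] V') : Irr' (trRep ρ E) where
  nontriv := by
    have := hρ.nontriv
    exact E.symm.toEquiv.nontrivial
  sub := fun W hW => by
    have h1 : ∀ g, ∀ w ∈ W.comap E.toLinearMap, ρ g w ∈ W.comap E.toLinearMap := by
      intro g w hw
      have h2 := hW g (E w) hw
      rw [trRep_apply] at h2
      exact h2
    rcases hρ.sub _ h1 with h2 | h2
    · left
      rw [eq_bot_iff]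
      intro w hw
      have h3 : E.symm w ∈ W.comap E.toLinearMap := by
        change E (E.symm w) ∈ W
        rw [LinearEquiv.apply_symm_apply]; exact hw
      rw [h2, Submodule.mem_bot] at h3
      rw [Submodule.mem_bot, ← E.apply_symm_apply w, h3, map_zero]
    · right
      rw [eq_top_iff]
      intro w _
      have h3 : E.symm w ∈ W.comap E.toLinearMap := by rw [h2]; exact Submodule.mem_top
      have h4 : E (E.symm w) ∈ W := h3
      rwa [LinearEquiv.apply_symm_apply] at h4

/-- existence of an irreducible subrepresentation -/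
theorem exists_irr_sub (ρ : Representation k N V) [Module.Finite k V] [Nontrivial V] :
    ∃ (W : Submodule k V) (hW : ∀ g, ∀ w ∈ W, ρ g w ∈ W), Irr' (subRep ρ W hW) := by
  let S : Set (Submodule k V) := {W | W ≠ ⊥ ∧ ∀ g, ∀ w ∈ W, ρ g w ∈ W}
  have hS : S.Nonempty := ⟨⊤, top_ne_bot, fun _ _ _ => Submodule.mem_top⟩
  obtain ⟨W, ⟨hW0, hW⟩, hmin⟩ := (wellFounded_lt (α := Submodule k V)).has_min S hS
  refine ⟨W, hW, ?_, ?_⟩
  · rw [Submodule.nontrivial_iff_ne_bot]; exact hW0
  · intro U hU
    by_cases h0 : U = ⊥
    · exact Or.inl h0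
    · right
      have h1 : U.map W.subtype ∈ S := by
        refine ⟨?_, ?_⟩
        · intro h
          apply h0
          exact (Submodule.map_injective_of_injective W.injective_subtype)
            (h.trans (Submodule.map_bot _).symm)
        · rintro g _ ⟨w, hw, rfl⟩
          exact ⟨_, hU g w hw, rfl⟩
      have h2 : ¬ U.map W.subtype < W := hmin _ h1
      have h3 : U.map W.subtype = W := by
        rcases (Submodule.map_subtype_le W U).lt_or_eq with h | h
        · exact absurd h h2
        · exact h
      rw [eq_top_iff]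
      intro w _
      have h4 : (w : V) ∈ U.map W.subtype := by rw [h3]; exact w.2
      obtain ⟨u, hu, huw⟩ := h4
      have : u = w := Subtype.ext huw
      rwa [this] at hu

/-- existence of an irreducible quotient -/
theorem exists_irr_quot (ρ : Representation k N V) [Module.Finite k V] [Nontrivial V] :
    ∃ (W : Submodule k V) (hW : ∀ g, ∀ w ∈ W, ρ g w ∈ W), Irr' (quotRep ρ W hW) := by
  let S : Set (Submodule k V) := {W | W ≠ ⊤ ∧ ∀ g, ∀ w ∈ W, ρ g w ∈ W}
  have hS : S.Nonempty := ⟨⊥, bot_ne_top, fun g w hw => by
    rw [Submodule.mem_bot] at *; rw [hw, map_zero]⟩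
  obtain ⟨W, ⟨hW0, hW⟩, hmax⟩ := (wellFounded_gt (α := Submodule k V)).has_min S hS
  refine ⟨W, hW, ?_, ?_⟩
  · exact Submodule.Quotient.nontrivial_iff.2 hW0
  · intro U hU
    by_cases h0 : U = ⊤
    · exact Or.inr h0
    · left
      have h1 : U.comap W.mkQ ∈ S := by
        refine ⟨?_, ?_⟩
        · intro h
          apply h0
          rw [eq_top_iff]
          intro u _
          obtain ⟨v, rfl⟩ := Submodule.mkQ_surjective W u
          have : v ∈ U.comap W.mkQ := by rw [h]; exact Submodule.mem_top
          exact this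
        · intro g w hw
          exact hU g _ hw
      have h2 := hmax _ h1
      have h3 : W ≤ U.comap W.mkQ := by
        intro w hw
        rw [Submodule.mem_comap, Submodule.mkQ_apply, (Submodule.Quotient.mk_eq_zero W).2 hw]
        exact U.zero_mem
      have h4 : U.comap W.mkQ = W := by
        rcases h3.lt_or_eq with h | h
        · exact absurd h h2
        · exact h.symm
      rw [eq_bot_iff]
      intro u hu
      obtain ⟨v, rfl⟩ := Submodule.mkQ_surjective W u
      have h5 : v ∈ U.comap W.mkQ := hu
      rw [h4] at h5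
      rw [Submodule.mem_bot, Submodule.mkQ_apply]
      exact (Submodule.Quotient.mk_eq_zero W).2 h5

end

end Pool.Agent.Lib.P0c8ca5
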