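import Mathlib
import Pool.Agent.Lib.P0c8ca5.Rep

/-! Clifford theory for normal subgroups of `p`-power index. -/

namespace Pool.Agent.Lib.P0c8ca5

open MonoidAlgebra

set_option linter.unusedSectionVars false

variable {p : ℕ} {k : Type*} [Field k] {A : Type*} [Group A]

theorem finite_closure [Fact p.Prime] {E : Type*} [AddCommGroup E] [Module (ZMod p) E]
    {S : Set E} (hS : S.Finite) : Finite (AddSubgroup.closure S) := by
  have h1 : Module.Finite (ZMod p) (Submodule.span (ZMod p) S) :=
    Module.Finite.span_of_finite (ZMod p) hS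
  have h2 : Finite (Submodule.span (ZMod p) S) := Module.finite_of_finite (ZMod p)
  have h4 : AddSubgroup.closure S ≤ (Submodule.span (ZMod p) S).toAddSubgroup := by
    rw [AddSubgroup.closure_le]
    exact Submodule.subset_span
  exact Set.Finite.subset (Set.toFinite (Submodule.span (ZMod p) S : Set E)) h4

/-- A `p`-group acting linearly in characteristic `p` fixes a nonzero vector. -/
theorem exists_fixed [Fact p.Prime] [CharP k p] {P : Type*} [Group P] [Finite P]
    (hP : IsPGroup p P) {E : Type*} [AddCommGroup E] [Module k E] (T : P →* Module.End k E)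
    (x : E) (hx : x ≠ 0) :
    ∃ y : E, y ≠ 0 ∧ (∀ g, T g y = y) ∧ y ∈ AddSubgroup.closure (Set.range (fun g => T g x)) := by
  have hp0 : ∀ z : E, p • z = 0 := by
    intro z
    rw [← Nat.cast_smul_eq_nsmul k, CharP.cast_eq_zero, zero_smul]
  let W : AddSubgroup E := AddSubgroup.closure (Set.range (fun g => T g x))
  have hWfin : Finite W :=
    @finite_closure p _ E _ (AddCommGroup.zmodModule hp0) _ (Set.finite_range _)
  have hWT : ∀ (g : P), ∀ w ∈ W, T g w ∈ W := by
    intro g w hw
    induction hw using AddSubgroup.closure_induction with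
    | mem w hw =>
      obtain ⟨h, rfl⟩ := hw
      apply AddSubgroup.subset_closure
      refine ⟨g * h, ?_⟩
      change T (g * h) x = T g (T h x)
      rw [map_mul]; rfl
    | zero => rw [map_zero]; exact W.zero_mem
    | add a b _ _ ha hb => rw [map_add]; exact W.add_mem ha hb
    | neg a _ ha => rw [map_neg]; exact W.neg_mem ha
  let act : MulAction P W :=
    { smul := fun g w => ⟨T g w, hWT g w w.2⟩
      one_smul := fun w => Subtype.ext (by change T 1 (w : E) = w; rw [map_one]; rfl)
      mul_smul := fun g h w => Subtype.ext (by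
        change T (g * h) (w : E) = T g (T h w); rw [map_mul]; rfl) }
  have hxW : x ∈ W := by
    apply AddSubgroup.subset_closure
    exact ⟨1, by change T 1 x = x; rw [map_one]; rfl⟩
  have hpW : p ∣ Nat.card W := by
    have h1 : addOrderOf (⟨x, hxW⟩ : W) = p := by
      apply addOrderOf_eq_prime
      · apply Subtype.ext
        change p • x = 0
        exact hp0 x
      · intro h
        exact hx (congrArg Subtype.val h)
    rw [← h1]
    exact addOrderOf_dvd_natCard _
  obtain ⟨y, hy, hy0⟩ := hP.exists_fixed_point_of_prime_dvd_card_of_fixed_point W hpW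
    (a := (0 : W)) (fun g => Subtype.ext (by change T g (0 : E) = 0; rw [map_zero]))
  refine ⟨y, ?_, ?_, y.2⟩
  · intro h
    exact hy0 (Subtype.ext h.symm)
  · intro g
    exact congrArg Subtype.val (hy g)

/-- `ρ` lies over `σ` -/
def Over {G N : Subgroup A} (hGN : G ≤ N) {V S : Type*} [AddCommGroup V] [Module k V]
    [AddCommGroup S] [Module k S] (ρ : Representation k N V) (σ : Representation k G S) : Prop :=
  ∃ π : V →ₗ[k] S, π ≠ 0 ∧ ∀ (g : G) (v : V), π (ρ (Subgroup.inclusion hGN g) v) = σ g (π v)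

section
variable {G N : Subgroup A} {V V' S S' : Type*} [AddCommGroup V] [Module k V]
  [AddCommGroup V'] [Module k V'] [AddCommGroup S] [Module k S] [AddCommGroup S'] [Module k S']

theorem exists_twist_iso (hGN : G ≤ N) (hn : N ≤ Subgroup.normalizer (G : Set A))
    {ρ : Representation k N V} {σ : Representation k G S} (hρ : Irr' ρ) (hσ : Irr' σ)
    (π : V →ₗ[k] S) (hπ0 : π ≠ 0)
    (hπ : ∀ (g : G) (v : V), π (ρ (Subgroup.inclusion hGN g) v) = σ g (π v))
    {U : Type*} [AddCommGroup U] [Module k U] {τ : Representation k G U} (hτ : Irr' τ)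
    (j : U →ₗ[k] V) (hj : Function.Injective j)
    (hj' : ∀ (g : G) (u : U), j (τ g u) = ρ (Subgroup.inclusion hGN g) (j u)) :
    ∃ n : N, Function.Bijective (π ∘ₗ ρ n ∘ₗ j) := by
  have hex : ∃ n : N, π ∘ₗ ρ n ∘ₗ j ≠ 0 := by
    by_contra hcon
    push Not at hcon
    let W : Submodule k V := ⨆ n : N, (LinearMap.range j).map (ρ n)
    have hW : ∀ g, ∀ w ∈ W, ρ g w ∈ W := by
      intro g w hw
      have h1 : W ≤ W.comap (ρ g) := by
        apply iSup_le
        intro n
        rw [Submodule.map_le_iff_le_comap]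
        intro v hv
        change ρ g (ρ n v) ∈ W
        have h2 : (LinearMap.range j).map (ρ (g * n)) ≤ W :=
          le_iSup (fun n : N => (LinearMap.range j).map (ρ n)) (g * n)
        apply h2
        refine ⟨v, hv, ?_⟩
        rw [map_mul]; rfl
      exact h1 hw
    have hWker : W ≤ LinearMap.ker π := by
      apply iSup_le
      intro n
      rw [Submodule.map_le_iff_le_comap]
      rintro _ ⟨u, rfl⟩
      exact LinearMap.congr_fun (hcon n) u
    rcases hρ.sub W hW with h | h
    · have := hτ.nontriv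
      obtain ⟨u, hu⟩ := exists_ne (0 : U)
      have h1 : (LinearMap.range j).map (ρ 1) ≤ W :=
        le_iSup (fun n : N => (LinearMap.range j).map (ρ n)) 1
      have h2 : j u ∈ W := h1 ⟨j u, ⟨u, rfl⟩, by rw [map_one]; rfl⟩
      rw [h, Submodule.mem_bot] at h2
      exact hu (hj (by rw [h2, map_zero]))
    · rw [h] at hWker
      apply hπ0
      ext v
      exact hWker Submodule.mem_top
  obtain ⟨n, hn0⟩ := hex
  refine ⟨n, ?_, ?_⟩
  · apply hτ.injective _ hn0
    intro g v hv
    have hg : (n : A) * g * (n : A)⁻¹ ∈ G := (Subgroup.mem_normalizer_iff.1 (hn n.2) g).1 g.2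
    have e1 : n * Subgroup.inclusion hGN g = Subgroup.inclusion hGN ⟨_, hg⟩ * n := by
      apply Subtype.ext
      change (n : A) * g = (n : A) * g * (n : A)⁻¹ * n
      group
    change π (ρ n (j (τ g v))) = 0
    rw [hj']
    have e2 : ρ n (ρ (Subgroup.inclusion hGN g) (j v))
        = ρ (Subgroup.inclusion hGN ⟨_, hg⟩) (ρ n (j v)) := by
      rw [← Module.End.mul_apply, ← Module.End.mul_apply, ← map_mul, ← map_mul, e1]
    rw [e2, hπ]
    have h3 : π (ρ n (j v)) = 0 := hv
    rw [h3, map_zero]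
  · apply hσ.surjective _ hn0
    intro g v
    have hg : (n : A)⁻¹ * g * n ∈ G := by
      apply (Subgroup.mem_normalizer_iff.1 (hn n.2) _).2
      have e0 : (n : A) * ((n : A)⁻¹ * g * n) * (n : A)⁻¹ = g := by group
      rw [e0]; exact g.2
    refine ⟨τ ⟨_, hg⟩ v, ?_⟩
    change π (ρ n (j (τ ⟨_, hg⟩ v))) = σ g (π (ρ n (j v)))
    rw [hj', ← hπ]
    congr 1
    rw [← Module.End.mul_apply, ← Module.End.mul_apply, ← map_mul, ← map_mul]
    congr 2
    apply Subtype.ext
    change (n : A) * ((n : A)⁻¹ * g * n) = g * n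
    group

theorem over_hom (hGN : G ≤ N) (hn : N ≤ Subgroup.normalizer (G : Set A)) [Module.Finite k V']
    {ρ : Representation k N V} {ρ' : Representation k N V'} {σ : Representation k G S}
    (hρ' : Irr' ρ') (hσ : Irr' σ) (h : Over hGN ρ σ) (h' : Over hGN ρ' σ) :
    ∃ f : V →ₗ[k] V', f ≠ 0 ∧ ∀ (g : G) (v : V),
      f (ρ (Subgroup.inclusion hGN g) v) = ρ' (Subgroup.inclusion hGN g) (f v) := by
  obtain ⟨π, hπ0, hπ⟩ := h
  obtain ⟨π', hπ'0, hπ'⟩ := h'
  have := hρ'.nontriv
  obtain ⟨U, hU, hUirr⟩ := exists_irr_sub (ρ'.comp (Subgroup.inclusion hGN))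
  obtain ⟨n, hbij⟩ := exists_twist_iso hGN hn hρ' hσ π' hπ'0 hπ' hUirr U.subtype
    U.injective_subtype (fun g u => rfl)
  let θ : U ≃ₗ[k] S := LinearEquiv.ofBijective _ hbij
  have hθ : ∀ u : U, θ u = π' (ρ' n u) := fun u => rfl
  refine ⟨ρ' n ∘ₗ U.subtype ∘ₗ θ.symm.toLinearMap ∘ₗ π, ?_, ?_⟩
  · intro h0
    apply hπ0
    ext v
    have h1 := LinearMap.congr_fun h0 v
    change ρ' n (θ.symm (π v) : U) = 0 at h1
    have h2 : θ (θ.symm (π v)) = 0 := by rw [hθ, h1, map_zero]
    rw [LinearEquiv.apply_symm_apply] at h2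
    rw [h2]; rfl
  · intro g v
    have hg : (n : A)⁻¹ * g * n ∈ G := by
      apply (Subgroup.mem_normalizer_iff.1 (hn n.2) _).2
      have e0 : (n : A) * ((n : A)⁻¹ * g * n) * (n : A)⁻¹ = g := by group
      rw [e0]; exact g.2
    change ρ' n (θ.symm (π (ρ (Subgroup.inclusion hGN g) v)) : U)
      = ρ' (Subgroup.inclusion hGN g) (ρ' n (θ.symm (π v) : U))
    have h1 : θ.symm (π (ρ (Subgroup.inclusion hGN g) v))
        = subRep (ρ'.comp (Subgroup.inclusion hGN)) U hU ⟨_, hg⟩ (θ.symm (π v)) := by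
      apply θ.injective
      rw [LinearEquiv.apply_symm_apply, hπ, hθ]
      change _ = π' (ρ' n (ρ' (Subgroup.inclusion hGN ⟨_, hg⟩) (θ.symm (π v) : U)))
      rw [← Module.End.mul_apply (ρ' n), ← map_mul]
      have e1 : n * Subgroup.inclusion hGN ⟨_, hg⟩ = Subgroup.inclusion hGN g * n := by
        apply Subtype.ext
        change (n : A) * ((n : A)⁻¹ * g * n) = g * n
        group
      rw [e1, map_mul, Module.End.mul_apply, hπ', ← hθ, LinearEquiv.apply_symm_apply]
    rw [h1]
    change ρ' n (ρ' (Subgroup.inclusion hGN ⟨_, hg⟩) (θ.symm (π v) : U)) = _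
    rw [← Module.End.mul_apply, ← Module.End.mul_apply, ← map_mul, ← map_mul]
    congr 2
    apply Subtype.ext
    change (n : A) * ((n : A)⁻¹ * g * n) = g * n
    group

theorem over_unique [Fact p.Prime] [CharP k p] [Finite A] (hGN : G ≤ N)
    (hn : N ≤ Subgroup.normalizer (G : Set A)) (hp : ∀ x ∈ N, ∃ n : ℕ, x ^ p ^ n ∈ G)
    [Module.Finite k V']
    {ρ : Representation k N V} {ρ' : Representation k N V'} {σ : Representation k G S}
    (hρ : Irr' ρ) (hρ' : Irr' ρ') (hσ : Irr' σ) (h : Over hGN ρ σ) (h' : Over hGN ρ' σ) :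
    ∃ P : V ≃ₗ[k] V', ∀ (x : N) (v : V), P (ρ x v) = ρ' x (P v) := by
  obtain ⟨f, hf0, hf⟩ := over_hom hGN hn hρ' hσ h h'
  obtain ⟨P, hP⟩ := exists_isSyl (p := p) N
  have hsup := hP.sup_eq hGN hn hp
  -- the action of `N` on linear maps
  let T : N →* Module.End k (V →ₗ[k] V') :=
    { toFun := fun x =>
        { toFun := fun f => ρ' x ∘ₗ f ∘ₗ ρ x⁻¹
          map_add' := fun a b => by ext v; simp
          map_smul' := fun c a => by ext v; simp }
      map_one' := by ext f v; simp
      map_mul' := fun x y => by ext f v; simp }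
  have hT : ∀ (x : N) (f : V →ₗ[k] V') (v : V), T x f v = ρ' x (f (ρ x⁻¹ v)) := fun _ _ _ => rfl
  have hPN : IsPGroup p P := hP.isPGroup
  obtain ⟨y, hy0, hy, hycl⟩ := exists_fixed hPN (T.comp (Subgroup.inclusion hP.le)) f hf0
  -- elements of the closure are `G`-maps
  have hGmap : ∀ f' ∈ AddSubgroup.closure
      (Set.range (fun g => (T.comp (Subgroup.inclusion hP.le)) g f)), ∀ (g : G),
      T (Subgroup.inclusion hGN g) f' = f' := by
    intro f' hf' g
    induction hf' using AddSubgroup.closure_induction with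
    | mem w hw =>
      obtain ⟨h, rfl⟩ := hw
      have hg : (h : A)⁻¹ * g * h ∈ G := by
        apply (Subgroup.mem_normalizer_iff.1 (hn (hP.le h.2)) _).2
        have e0 : (h : A) * ((h : A)⁻¹ * g * h) * (h : A)⁻¹ = g := by group
        rw [e0]; exact g.2
      change T (Subgroup.inclusion hGN g) (T (Subgroup.inclusion hP.le h) f)
        = T (Subgroup.inclusion hP.le h) f
      have e1 : Subgroup.inclusion hGN g * Subgroup.inclusion hP.le h
          = Subgroup.inclusion hP.le h * Subgroup.inclusion hGN ⟨_, hg⟩ := by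
        apply Subtype.ext
        change (g : A) * h = h * ((h : A)⁻¹ * g * h)
        group
      rw [← Module.End.mul_apply, ← map_mul, e1, map_mul, Module.End.mul_apply]
      congr 1
      ext v
      rw [hT]
      have e2 : (Subgroup.inclusion hGN ⟨_, hg⟩)⁻¹ = Subgroup.inclusion hGN (⟨_, hg⟩ : G)⁻¹ := rfl
      rw [e2, hf, ← Module.End.mul_apply, ← map_mul, ← map_mul, mul_inv_cancel, map_one, map_one]
      rfl
    | zero => rw [map_zero]
    | add a b _ _ ha hb => rw [map_add, ha, hb]
    | neg a _ ha => rw [map_neg, ha]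
  have hall : ∀ x : N, T x y = y := by
    rintro ⟨x, hx⟩
    have hx' : x ∈ G ⊔ P := by rw [hsup]; exact hx
    rw [mem_sup_norm (hP.le.trans hn)] at hx'
    obtain ⟨l, hl, d, hd, rfl⟩ := hx'
    have e1 : (⟨l * d, hx⟩ : N) = Subgroup.inclusion hGN ⟨l, hl⟩ *
        Subgroup.inclusion hP.le ⟨d, hd⟩ := rfl
    have h1 := hy ⟨d, hd⟩
    change T (Subgroup.inclusion hP.le ⟨d, hd⟩) y = y at h1
    rw [e1, map_mul, Module.End.mul_apply, h1]
    exact hGmap y hycl ⟨l, hl⟩
  have hcomm : ∀ (x : N) (v : V), y (ρ x v) = ρ' x (y v) := by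
    intro x v
    have h1 := LinearMap.congr_fun (hall x) (ρ x v)
    rw [hT, ← Module.End.mul_apply, ← map_mul, inv_mul_cancel, map_one] at h1
    exact h1.symm
  have hinj : Function.Injective y :=
    hρ.injective y hy0 (fun g v hv => by rw [hcomm, hv, map_zero])
  have hsurj : Function.Surjective y :=
    hρ'.surjective y hy0 (fun g v => ⟨ρ g v, hcomm g v⟩)
  exact ⟨LinearEquiv.ofBijective y ⟨hinj, hsurj⟩, fun x v => hcomm x v⟩

end

end Pool.Agent.Lib.P0c8ca5
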