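import Mathlib
import Pool.Agent.Lib.P0c8ca5.Cliff

/-! Clifford theory, continued: existence, conjugacy, twists and blocks. -/

namespace Pool.Agent.Lib.P0c8ca5

open MonoidAlgebra

set_option linter.unusedSectionVars false

variable {p : ℕ} {k : Type*} [Field k] {A : Type*} [Group A]

section
variable {G N : Subgroup A} {V V' S S' : Type*} [AddCommGroup V] [Module k V]
  [AddCommGroup V'] [Module k V'] [AddCommGroup S] [Module k S] [AddCommGroup S'] [Module k S']

/-- the coinduced space -/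
def coind (hGN : G ≤ N) (σ : Representation k G S) : Submodule k (N → S) where
  carrier := {φ | ∀ (g : G) (x : N), φ (Subgroup.inclusion hGN g * x) = σ g (φ x)}
  add_mem' := fun {a b} ha hb g x => by
    change a _ + b _ = σ g (a x + b x)
    rw [ha g x, hb g x, map_add]
  zero_mem' := fun g x => by
    change (0 : S) = σ g 0
    rw [map_zero]
  smul_mem' := fun c a ha g x => by
    change c • a _ = σ g (c • a x)
    rw [ha g x, map_smul]

/-- the coinduced representation -/
def coindRep (hGN : G ≤ N) (σ : Representation k G S) :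
    Representation k N (coind hGN σ) where
  toFun n :=
    { toFun := fun φ => ⟨fun x => φ.1 (x * n), fun g x => by
        change φ.1 (Subgroup.inclusion hGN g * x * n) = σ g (φ.1 (x * n))
        rw [mul_assoc]; exact φ.2 g (x * n)⟩
      map_add' := fun a b => rfl
      map_smul' := fun c a => rfl }
  map_one' := by
    ext φ x
    change φ.1 (x * 1) = φ.1 x
    rw [mul_one]
  map_mul' n m := by
    ext φ x
    change φ.1 (x * (n * m)) = φ.1 (x * n * m)
    rw [mul_assoc]

theorem exists_irr_sub_fin {N : Type*} [Group N] (ρ : Representation k N V) [Module.Finite k V]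
    [Nontrivial V] :
    ∃ (W : Submodule k V) (hW : ∀ g, ∀ w ∈ W, ρ g w ∈ W) (n : ℕ)
      (σ : Representation k N (Fin n → k)) (E : W ≃ₗ[k] (Fin n → k)), Irr' (subRep ρ W hW) ∧
      Irr' σ ∧ ∀ g w, σ g (E w) = E (subRep ρ W hW g w) := by
  obtain ⟨W, hW, hWirr⟩ := exists_irr_sub ρ
  let E : W ≃ₗ[k] (Fin (Module.finrank k W) → k) := (Module.finBasis k W).equivFun
  exact ⟨W, hW, _, trRep (subRep ρ W hW) E, E, hWirr, hWirr.trRep E,
    fun g w => trRep_apply _ _ _ _⟩

theorem exists_over [Finite A] (hGN : G ≤ N) [Module.Finite k S]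
    {σ : Representation k G S} (hσ : Irr' σ) :
    ∃ (n : ℕ) (ρ : Representation k N (Fin n → k)), Irr' ρ ∧ Over hGN ρ σ := by
  classical
  have hfin : Module.Finite k (coind hGN σ) := by
    have : Module.Finite k (N → S) := Module.Finite.pi
    infer_instance
  have := hσ.nontriv
  obtain ⟨s, hs⟩ := exists_ne (0 : S)
  -- a nonzero element
  let φ₀ : N → S := fun x => if hx : (x : A) ∈ G then σ ⟨x, hx⟩ s else 0
  have hφ₀ : φ₀ ∈ coind hGN σ := by
    intro g x
    by_cases hx : (x : A) ∈ G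
    · have hgx : ((Subgroup.inclusion hGN g * x : N) : A) ∈ G := G.mul_mem g.2 hx
      change dite _ _ _ = σ g (dite _ _ _)
      rw [dif_pos hgx, dif_pos hx]
      have e1 : (⟨((Subgroup.inclusion hGN g * x : N) : A), hgx⟩ : G) = g * ⟨x, hx⟩ := rfl
      rw [e1, map_mul, Module.End.mul_apply]
    · have hgx : ((Subgroup.inclusion hGN g * x : N) : A) ∉ G := by
        intro h
        apply hx
        have := G.mul_mem (G.inv_mem g.2) h
        have e1 : (g : A)⁻¹ * ((Subgroup.inclusion hGN g * x : N) : A) = x := by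
          change (g : A)⁻¹ * (g * x) = x
          group
        rwa [e1] at this
      change dite _ _ _ = σ g (dite _ _ _)
      rw [dif_neg hgx, dif_neg hx, map_zero]
  have hnt : Nontrivial (coind hGN σ) := by
    refine ⟨⟨⟨φ₀, hφ₀⟩, 0, ?_⟩⟩
    intro h
    have h1 : φ₀ 1 = 0 := congrFun (congrArg Subtype.val h) 1
    have h2 : φ₀ 1 = s := by
      change dite _ _ _ = s
      rw [dif_pos (by exact G.one_mem)]
      have e1 : (⟨((1 : N) : A), G.one_mem⟩ : G) = 1 := rfl
      rw [e1, map_one]; rfl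
    exact hs (h2.symm.trans h1)
  obtain ⟨W, hW, n, ρ, E, hWirr, hρirr, hE⟩ := exists_irr_sub_fin (coindRep hGN σ)
  -- evaluation at one
  let ev : W →ₗ[k] S :=
    { toFun := fun φ => φ.1.1 1
      map_add' := fun a b => rfl
      map_smul' := fun c a => rfl }
  refine ⟨n, ρ, hρirr, ev ∘ₗ E.symm.toLinearMap, ?_, ?_⟩
  · intro h0
    have := hWirr.nontriv
    obtain ⟨w, hw⟩ := exists_ne (0 : W)
    have hex : ∃ x : N, w.1.1 x ≠ 0 := by
      by_contra hcon
      push Not at hcon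
      apply hw
      apply Subtype.ext
      apply Subtype.ext
      funext x
      exact hcon x
    obtain ⟨x, hx⟩ := hex
    have h1 := LinearMap.congr_fun h0 (E (subRep _ W hW x w))
    change ev (E.symm (E (subRep _ W hW x w))) = 0 at h1
    rw [LinearEquiv.symm_apply_apply] at h1
    have h2 : ev (subRep _ W hW x w) = w.1.1 (1 * x) := rfl
    rw [h2, one_mul] at h1
    exact hx h1
  · intro g v
    obtain ⟨w, rfl⟩ := E.surjective v
    rw [hE]
    change ev (E.symm (E _)) = σ g (ev (E.symm (E w)))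
    rw [LinearEquiv.symm_apply_apply, LinearEquiv.symm_apply_apply]
    have h1 : ev (subRep _ W hW (Subgroup.inclusion hGN g) w)
        = w.1.1 (1 * Subgroup.inclusion hGN g) := rfl
    rw [h1, one_mul]
    have h2 := w.1.2 g 1
    rw [mul_one] at h2
    exact h2

theorem exists_under (hGN : G ≤ N) [Module.Finite k V] {ρ : Representation k N V}
    (hρ : Irr' ρ) :
    ∃ (n : ℕ) (σ : Representation k G (Fin n → k)), Irr' σ ∧ Over hGN ρ σ := by
  have := hρ.nontriv
  obtain ⟨W, hW, hWirr⟩ := exists_irr_quot (ρ.comp (Subgroup.inclusion hGN))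
  let E : (V ⧸ W) ≃ₗ[k] (Fin (Module.finrank k (V ⧸ W)) → k) :=
    (Module.finBasis k (V ⧸ W)).equivFun
  refine ⟨Module.finrank k (V ⧸ W), trRep (quotRep _ W hW) E, hWirr.trRep E,
    E.toLinearMap ∘ₗ W.mkQ, ?_, ?_⟩
  · intro h0
    have := hWirr.nontriv
    obtain ⟨w, hw⟩ := exists_ne (0 : V ⧸ W)
    obtain ⟨v, rfl⟩ := Submodule.mkQ_surjective W w
    have h1 : E (W.mkQ v) = 0 := LinearMap.congr_fun h0 v
    exact hw (E.injective (h1.trans (map_zero E).symm))
  · intro g v
    change E (W.mkQ (ρ (Subgroup.inclusion hGN g) v)) = trRep (quotRep _ W hW) E g (E (W.mkQ v))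
    rw [trRep_apply]
    rfl

/-- conjugation by `h⁻¹` on `N` -/
def cjN {N : Subgroup A} {h : A} (hN : h ∈ Subgroup.normalizer (N : Set A)) : N →* N where
  toFun x := ⟨h⁻¹ * x * h, by
    apply (Subgroup.mem_normalizer_iff.1 hN _).2
    have e1 : h * (h⁻¹ * (x : A) * h) * h⁻¹ = x := by group
    rw [e1]; exact x.2⟩
  map_one' := Subtype.ext (by change h⁻¹ * 1 * h = 1; group)
  map_mul' x y := Subtype.ext (by
    change h⁻¹ * (x * y) * h = h⁻¹ * x * h * (h⁻¹ * y * h); group)

theorem coe_cjN {h : A} (hN : h ∈ Subgroup.normalizer (N : Set A)) (x : N) :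
    (cjN hN x : A) = h⁻¹ * x * h := rfl

/-- the twist of a representation: `(tw h ρ) x = ρ (h⁻¹ x h)` -/
def tw {h : A} (hN : h ∈ Subgroup.normalizer (N : Set A)) (ρ : Representation k N V) :
    Representation k N V := ρ.comp (cjN hN)

theorem tw_apply {h : A} (hN : h ∈ Subgroup.normalizer (N : Set A)) (ρ : Representation k N V)
    (x : N) : tw hN ρ x = ρ (cjN hN x) := rfl

theorem cjN_surj {h : A} (hN : h ∈ Subgroup.normalizer (N : Set A)) (x : N) :
    ∃ y, cjN hN y = x := by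
  refine ⟨⟨h * x * h⁻¹, (Subgroup.mem_normalizer_iff.1 hN _).1 x.2⟩, ?_⟩
  apply Subtype.ext
  change h⁻¹ * (h * x * h⁻¹) * h = x
  group

theorem Irr'.tw {h : A} (hN : h ∈ Subgroup.normalizer (N : Set A)) {ρ : Representation k N V}
    (hρ : Irr' ρ) : Irr' (tw hN ρ) where
  nontriv := hρ.nontriv
  sub := fun W hW => hρ.sub W (fun g w hw => by
    obtain ⟨y, rfl⟩ := cjN_surj hN g
    exact hW y w hw)

/-- isomorphism -/
def Iso {N : Subgroup A} {V V' : Type*} [AddCommGroup V] [Module k V]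
    [AddCommGroup V'] [Module k V'] (ρ : Representation k N V) (ρ' : Representation k N V') :
    Prop := ∃ P : V ≃ₗ[k] V', ∀ (x : N) (v : V), P (ρ x v) = ρ' x (P v)

theorem Iso.refl (ρ : Representation k N V) : Iso ρ ρ := ⟨LinearEquiv.refl k V, fun _ _ => rfl⟩

theorem Iso.symm {ρ : Representation k N V} {ρ' : Representation k N V'} (h : Iso ρ ρ') :
    Iso ρ' ρ := by
  obtain ⟨P, hP⟩ := h
  refine ⟨P.symm, fun x v => ?_⟩
  apply P.injective
  rw [hP, LinearEquiv.apply_symm_apply, LinearEquiv.apply_symm_apply]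

theorem Iso.trans {V'' : Type*} [AddCommGroup V''] [Module k V''] {ρ : Representation k N V}
    {ρ' : Representation k N V'} {ρ'' : Representation k N V''} (h : Iso ρ ρ')
    (h' : Iso ρ' ρ'') : Iso ρ ρ'' := by
  obtain ⟨P, hP⟩ := h
  obtain ⟨P', hP'⟩ := h'
  exact ⟨P.trans P', fun x v => by
    rw [LinearEquiv.trans_apply, LinearEquiv.trans_apply, hP, hP']⟩

theorem Iso.tw {h : A} (hN : h ∈ Subgroup.normalizer (N : Set A)) {ρ : Representation k N V}
    {ρ' : Representation k N V'} (hh : Iso ρ ρ') : Iso (tw hN ρ) (tw hN ρ') := by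
  obtain ⟨P, hP⟩ := hh
  exact ⟨P, fun x v => hP _ v⟩

theorem tw_tw {h h' : A} (hN : h ∈ Subgroup.normalizer (N : Set A))
    (hN' : h' ∈ Subgroup.normalizer (N : Set A))
    (hN'' : h * h' ∈ Subgroup.normalizer (N : Set A)) (ρ : Representation k N V) :
    tw hN (tw hN' ρ) = tw hN'' ρ := by
  ext x v
  rw [tw_apply, tw_apply, tw_apply]
  congr 2
  apply Subtype.ext
  rw [coe_cjN, coe_cjN, coe_cjN]
  group

theorem tw_one (hN : (1 : A) ∈ Subgroup.normalizer (N : Set A)) (ρ : Representation k N V) :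
    tw hN ρ = ρ := by
  ext x v
  rw [tw_apply]
  congr 2
  apply Subtype.ext
  rw [coe_cjN]
  group

theorem iso_tw_of_mem {h : A} (hN : h ∈ Subgroup.normalizer (N : Set A)) (hh : h ∈ N)
    (ρ : Representation k N V) : Iso (tw hN ρ) ρ := by
  refine ⟨LinearEquiv.ofLinearMap (ρ ⟨h, hh⟩) (ρ ⟨h, hh⟩⁻¹) ?_ ?_, ?_⟩
  · rw [← Module.End.mul_eq_comp, ← map_mul, mul_inv_cancel, map_one]; rfl
  · rw [← Module.End.mul_eq_comp, ← map_mul, inv_mul_cancel, map_one]; rfl
  · intro x v
    change ρ ⟨h, hh⟩ (ρ (cjN hN x) v) = ρ x (ρ ⟨h, hh⟩ v)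
    rw [← Module.End.mul_apply, ← Module.End.mul_apply, ← map_mul, ← map_mul]
    congr 2
    apply Subtype.ext
    change h * (h⁻¹ * (x : A) * h) = x * h
    group

theorem Over.congr_left {hGN : G ≤ N} {ρ : Representation k N V} {ρ' : Representation k N V'}
    {σ : Representation k G S} (h : Over hGN ρ σ) (hi : Iso ρ ρ') : Over hGN ρ' σ := by
  obtain ⟨π, h0, hπ⟩ := h
  obtain ⟨P, hP⟩ := hi.symm
  refine ⟨π ∘ₗ P.toLinearMap, ?_, ?_⟩
  · intro h1
    apply h0
    ext v
    obtain ⟨w, rfl⟩ := P.surjective v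
    exact LinearMap.congr_fun h1 w
  · intro g v
    change π (P (ρ' _ v)) = σ g (π (P v))
    rw [hP, hπ]

theorem Over.congr_right {hGN : G ≤ N} {ρ : Representation k N V}
    {σ : Representation k G S} {σ' : Representation k G S'} (h : Over hGN ρ σ)
    (hi : Iso σ σ') : Over hGN ρ σ' := by
  obtain ⟨π, h0, hπ⟩ := h
  obtain ⟨P, hP⟩ := hi
  refine ⟨P.toLinearMap ∘ₗ π, ?_, ?_⟩
  · intro h1
    apply h0
    ext v
    have h2 : P (π v) = 0 := LinearMap.congr_fun h1 v
    exact P.injective (h2.trans (map_zero P).symm)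
  · intro g v
    change P (π (ρ _ v)) = σ' g (P (π v))
    rw [hπ, hP]

theorem Over.tw {hGN : G ≤ N} {ρ : Representation k N V} {σ : Representation k G S}
    (hh : Over hGN ρ σ) {h : A} (hN : h ∈ Subgroup.normalizer (N : Set A))
    (hG : h ∈ Subgroup.normalizer (G : Set A)) : Over hGN (tw hN ρ) (tw hG σ) := by
  obtain ⟨π, h0, hπ⟩ := hh
  refine ⟨π, h0, fun g v => ?_⟩
  rw [tw_apply, tw_apply, ← hπ]
  rfl

theorem under_conj_aux (hGN : G ≤ N) (hn : N ≤ Subgroup.normalizer (G : Set A))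
    {ρ : Representation k N V} {σ : Representation k G S}
    (hρ : Irr' ρ) (hσ : Irr' σ) (h : Over hGN ρ σ) (U : Submodule k V)
    (hU : ∀ g, ∀ w ∈ U, (ρ.comp (Subgroup.inclusion hGN)) g w ∈ U)
    (hUirr : Irr' (subRep (ρ.comp (Subgroup.inclusion hGN)) U hU)) :
    ∃ (n : A) (hnN : n ∈ N),
      Iso (tw (hn hnN) (subRep (ρ.comp (Subgroup.inclusion hGN)) U hU)) σ := by
  obtain ⟨π, hπ0, hπ⟩ := h
  obtain ⟨n, hbij⟩ := exists_twist_iso hGN hn hρ hσ π hπ0 hπ hUirr U.subtype
    U.injective_subtype (fun g u => rfl)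
  refine ⟨n, n.2, LinearEquiv.ofBijective _ hbij, fun x v => ?_⟩
  change π (ρ n (ρ (Subgroup.inclusion hGN (cjN (hn n.2) x)) v)) = σ x (π (ρ n v))
  rw [← hπ, ← Module.End.mul_apply, ← Module.End.mul_apply, ← map_mul, ← map_mul]
  congr 3
  apply Subtype.ext
  change (n : A) * ((n : A)⁻¹ * x * n) = x * n
  group

theorem under_conj (hGN : G ≤ N) (hn : N ≤ Subgroup.normalizer (G : Set A)) [Module.Finite k V]
    {ρ : Representation k N V} {σ : Representation k G S} {σ' : Representation k G S'}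
    (hρ : Irr' ρ) (hσ : Irr' σ) (hσ' : Irr' σ') (h : Over hGN ρ σ) (h' : Over hGN ρ σ') :
    ∃ (n : A) (hnN : n ∈ N), Iso (tw (hn hnN) σ) σ' := by
  have := hρ.nontriv
  obtain ⟨U, hU, hUirr⟩ := exists_irr_sub (ρ.comp (Subgroup.inclusion hGN))
  obtain ⟨n, hn1, h1⟩ := under_conj_aux hGN hn hρ hσ h U hU hUirr
  obtain ⟨n', hn2, h2⟩ := under_conj_aux hGN hn hρ hσ' h' U hU hUirr
  have hm : n' * n⁻¹ ∈ N := N.mul_mem hn2 (N.inv_mem hn1)
  refine ⟨n' * n⁻¹, hm, ?_⟩
  have h3 := h1.symm.tw (hn hm)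
  rw [tw_tw (hn hm) (hn hn1) (by rw [inv_mul_cancel_right]; exact hn hn2)] at h3
  refine h3.trans (Iso.trans ?_ h2)
  have e1 : n' * n⁻¹ * n = n' := by group
  simp only [e1]
  exact Iso.refl _

end

end Pool.Agent.Lib.P0c8ca5
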