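import Mathlib
import Pool.Agent.Lib.P0c8ca5.CliffB

/-! Action of block idempotents; finiteness of the number of irreducible representations. -/

namespace Pool.Agent.Lib.P0c8ca5

open MonoidAlgebra

set_option linter.unusedSectionVars false

variable {p : ℕ} {k : Type*} [Field k] {A : Type*} [Group A]

section act
variable {G N : Subgroup A} {V V' S S' : Type*} [AddCommGroup V] [Module k V]
  [AddCommGroup V'] [Module k V'] [AddCommGroup S] [Module k S] [AddCommGroup S'] [Module k S']

/-- the action of an element of the group algebra -/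
noncomputable def act (ρ : Representation k N V) (e : MonoidAlgebra k A) : V →ₗ[k] V :=
  ∑ᶠ x : N, e.coeff (x : A) • ρ x

theorem act_apply [Fintype N] (ρ : Representation k N V) (e : MonoidAlgebra k A) (v : V) :
    act ρ e v = ∑ x : N, e.coeff (x : A) • ρ x v := by
  rw [act, finsum_eq_sum_of_fintype, LinearMap.sum_apply]
  rfl

variable [Finite A]

theorem act_mul (ρ : Representation k N V) {a b : MonoidAlgebra k A} (ha : SuppIn N a) :
    act ρ (a * b) = act ρ a * act ρ b := by
  classical
  have : Fintype N := Fintype.ofFinite N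
  have : Fintype A := Fintype.ofFinite A
  ext v
  rw [Module.End.mul_apply, act_apply, act_apply ρ b, act_apply ρ a]
  have h1 : ∀ z : A, (a * b).coeff z = ∑ y : N, a.coeff y * b.coeff ((y : A)⁻¹ * z) := by
    intro z
    rw [coeff_mul_fin]
    symm
    apply Fintype.sum_of_injective (fun y : N => (y : A)) Subtype.val_injective
    · intro y hy
      have : a.coeff y = 0 := by
        by_contra h
        exact hy ⟨⟨y, ha y h⟩, rfl⟩
      rw [this, zero_mul]
    · intro y; rfl
  have h2 : ∀ z : N, (a * b).coeff (z : A) • ρ z v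
      = ∑ y : N, (a.coeff y * b.coeff ((y : A)⁻¹ * z)) • ρ z v := by
    intro z; rw [h1, Finset.sum_smul]
  rw [Finset.sum_congr rfl (fun z _ => h2 z), Finset.sum_comm]
  refine Finset.sum_congr rfl (fun y _ => ?_)
  rw [map_sum, Finset.smul_sum]
  refine Fintype.sum_equiv (Equiv.mulLeft y⁻¹) _ _ (fun z => ?_)
  change (a.coeff y * b.coeff ((y : A)⁻¹ * z)) • ρ z v
    = a.coeff y • ρ y (b.coeff ((y⁻¹ * z : N) : A) • ρ (y⁻¹ * z) v)
  rw [map_smul, ← Module.End.mul_apply (ρ y), ← map_mul, mul_inv_cancel_left, smul_smul]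
  rfl

theorem act_comm (ρ : Representation k N V) {e : MonoidAlgebra k A} (he : InvBy N e) (g : N)
    (v : V) : act ρ e (ρ g v) = ρ g (act ρ e v) := by
  have : Fintype N := Fintype.ofFinite N
  rw [act_apply, act_apply, map_sum]
  refine Fintype.sum_equiv (MulAut.conj g⁻¹).toEquiv _ _ (fun x => ?_)
  change e.coeff (x : A) • ρ x (ρ g v)
    = ρ g (e.coeff ((g⁻¹ * x * g⁻¹⁻¹ : N) : A) • ρ (g⁻¹ * x * g⁻¹⁻¹) v)
  rw [map_smul, ← Module.End.mul_apply, ← Module.End.mul_apply, ← map_mul, ← map_mul]
  have e1 : g * (g⁻¹ * x * g⁻¹⁻¹) = x * g := by group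
  have e2 : e.coeff ((g⁻¹ * x * g⁻¹⁻¹ : N) : A) = e.coeff (x : A) :=
    he (g⁻¹ : A) (N.inv_mem g.2) x
  rw [e1, e2]

theorem act_zero_or_one {ρ : Representation k N V} (hρ : Irr' ρ) {e : MonoidAlgebra k A}
    (heN : SuppIn N e) (he : InvBy N e) (hee : e * e = e) : act ρ e = 0 ∨ act ρ e = 1 := by
  rcases hρ.sub (LinearMap.ker (act ρ e)) (fun g w hw => by
    rw [LinearMap.mem_ker, act_comm ρ he, LinearMap.mem_ker.1 hw, map_zero]) with h | h
  · right
    ext v
    apply LinearMap.ker_eq_bot.1 h
    rw [← Module.End.mul_apply, ← act_mul ρ heN, hee]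
    rfl
  · left
    exact LinearMap.ker_eq_top.1 h

theorem act_over (hGN : G ≤ N) {ρ : Representation k N V} {σ : Representation k G S}
    (π : V →ₗ[k] S)
    (hπ : ∀ (g : G) (v : V), π (ρ (Subgroup.inclusion hGN g) v) = σ g (π v))
    {e : MonoidAlgebra k A} (heG : SuppIn G e) (v : V) :
    π (act ρ e v) = act σ e (π v) := by
  classical
  have : Fintype N := Fintype.ofFinite N
  have : Fintype G := Fintype.ofFinite G
  rw [act_apply, act_apply, map_sum]
  symm
  apply Fintype.sum_of_injective (fun g : G => Subgroup.inclusion hGN g)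
    (Subgroup.inclusion_injective hGN)
  · intro x hx
    have : e.coeff (x : A) = 0 := by
      by_contra h
      exact hx ⟨⟨x, heG x h⟩, rfl⟩
    rw [this, zero_smul, map_zero]
  · intro g
    rw [map_smul, hπ]
    rfl

theorem over_blk {hGN : G ≤ N} {ρ : Representation k N V} {σ : Representation k G S}
    (hρ : Irr' ρ) (hσ : Irr' σ) (h : Over hGN ρ σ) {e : MonoidAlgebra k A}
    (heG : SuppIn G e) (he : InvBy N e) (hee : e * e = e) : act ρ e = 1 ↔ act σ e = 1 := by
  obtain ⟨π, h0, hπ⟩ := h
  have key := act_over hGN π hπ heG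
  constructor
  · intro h1
    have hsurj : Function.Surjective π := hσ.surjective π h0 (fun g v => ⟨_, hπ g v⟩)
    ext s
    obtain ⟨v, rfl⟩ := hsurj s
    rw [← key, h1]
    rfl
  · intro h1
    rcases act_zero_or_one hρ (heG.mono hGN) he hee with h2 | h2
    · exfalso
      apply h0
      ext v
      have h3 := key v
      rw [h2, h1] at h3
      change π 0 = π v at h3
      rw [← h3, map_zero]
      rfl
    · exact h2

theorem act_tw {h : A} (hN : h ∈ Subgroup.normalizer (N : Set A)) (ρ : Representation k N V)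
    {e : MonoidAlgebra k A} (he : InvBy ⊤ e) : act (tw hN ρ) e = act ρ e := by
  have : Fintype N := Fintype.ofFinite N
  ext v
  rw [act_apply, act_apply]
  have hbij : Function.Bijective (cjN hN) := by
    rw [Nat.bijective_iff_surjective_and_card]
    exact ⟨fun x => cjN_surj hN x, rfl⟩
  refine Fintype.sum_bijective (cjN hN) hbij _ _ (fun x => ?_)
  rw [tw_apply, coe_cjN]
  congr 1
  have h1 := he h⁻¹ (Subgroup.mem_top _) x
  rw [inv_inv] at h1
  exact h1.symm

theorem act_iso {ρ : Representation k N V} {ρ' : Representation k N V'} (h : Iso ρ ρ')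
    {e : MonoidAlgebra k A} (h1 : act ρ e = 1) : act ρ' e = 1 := by
  have : Fintype N := Fintype.ofFinite N
  obtain ⟨P, hP⟩ := h
  ext v
  obtain ⟨w, rfl⟩ := P.surjective v
  rw [act_apply]
  have h2 : ∀ x : N, e.coeff (x : A) • ρ' x (P w) = P (e.coeff (x : A) • ρ x w) := by
    intro x; rw [map_smul, hP]
  rw [Finset.sum_congr rfl (fun x _ => h2 x), ← map_sum, ← act_apply, h1]
  rfl

end act

section fin
variable {N : Type*} [Group N] [Fintype N]

/-- evaluation of the regular representation at a vector -/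
noncomputable def evl {V : Type*} [AddCommGroup V] [Module k V] (ρ : Representation k N V)
    (v : V) : (N → k) →ₗ[k] V where
  toFun a := ∑ x, a x • ρ x v
  map_add' a b := by
    rw [← Finset.sum_add_distrib]
    exact Finset.sum_congr rfl (fun x _ => by rw [Pi.add_apply, add_smul])
  map_smul' c a := by
    rw [Finset.smul_sum]
    exact Finset.sum_congr rfl (fun x _ => by
      rw [Pi.smul_apply, smul_eq_mul, mul_smul]; rfl)

theorem evl_apply {V : Type*} [AddCommGroup V] [Module k V] (ρ : Representation k N V)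
    (v : V) (a : N → k) : evl ρ v a = ∑ x, a x • ρ x v := rfl

/-- left-translation invariance -/
def LInv (K : Submodule k (N → k)) : Prop := ∀ (g : N), ∀ a ∈ K, (fun x => a (g⁻¹ * x)) ∈ K

theorem evl_trans {V : Type*} [AddCommGroup V] [Module k V] (ρ : Representation k N V)
    (v : V) (g : N) (a : N → k) : evl ρ v (fun x => a (g⁻¹ * x)) = ρ g (evl ρ v a) := by
  rw [evl_apply, evl_apply, map_sum]
  refine Fintype.sum_equiv (Equiv.mulLeft g⁻¹) _ _ (fun x => ?_)
  change a (g⁻¹ * x) • ρ x v = ρ g (a (g⁻¹ * x) • ρ (g⁻¹ * x) v)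
  rw [map_smul, ← Module.End.mul_apply, ← map_mul, mul_inv_cancel_left]

theorem lInv_ker {V : Type*} [AddCommGroup V] [Module k V] (ρ : Representation k N V)
    (v : V) : LInv (LinearMap.ker (evl ρ v)) := by
  intro g a ha
  rw [LinearMap.mem_ker, evl_trans, LinearMap.mem_ker.1 ha, map_zero]

theorem lInv_inf {K K' : Submodule k (N → k)} (h : LInv K) (h' : LInv K') : LInv (K ⊓ K') :=
  fun g a ha => ⟨h g a ha.1, h' g a ha.2⟩

theorem iso_of_inf {V V' : Type*} [AddCommGroup V] [Module k V] [AddCommGroup V'] [Module k V']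
    {ρ : Representation k N V} {ρ' : Representation k N V'} (hρ : Irr' ρ) (hρ' : Irr' ρ')
    {v : V} {v' : V'} {K : Submodule k (N → k)} (hK : LInv K)
    (h1 : K ⊓ LinearMap.ker (evl ρ' v') ≤ LinearMap.ker (evl ρ v))
    (h2 : ¬ K ≤ LinearMap.ker (evl ρ v)) :
    ∃ P : V' ≃ₗ[k] V, ∀ (x : N) (v : V'), P (ρ' x v) = ρ x (P v) := by
  let α : K →ₗ[k] V := (evl ρ v).comp K.subtype
  let α' : K →ₗ[k] V' := (evl ρ' v').comp K.subtype
  have hα0 : α ≠ 0 := by
    intro h
    apply h2
    intro a ha
    exact LinearMap.congr_fun h ⟨a, ha⟩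
  have hα'0 : α' ≠ 0 := by
    intro h
    apply h2
    intro a ha
    exact h1 ⟨ha, LinearMap.congr_fun h ⟨a, ha⟩⟩
  have hα' : Function.Surjective α' := by
    apply hρ'.surjective α' hα'0
    intro g a
    exact ⟨⟨_, hK g a a.2⟩, evl_trans ρ' v' g a⟩
  have hker : LinearMap.ker α' ≤ LinearMap.ker α := by
    intro a ha
    exact h1 ⟨a.2, ha⟩
  let f : V' →ₗ[k] V := (LinearMap.ker α').liftQ α hker ∘ₗ
    (α'.quotKerEquivOfSurjective hα').symm.toLinearMap
  have hf : ∀ a : K, f (α' a) = α a := by
    intro a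
    change (LinearMap.ker α').liftQ α hker ((α'.quotKerEquivOfSurjective hα').symm (α' a)) = α a
    have : (α'.quotKerEquivOfSurjective hα').symm (α' a) = (LinearMap.ker α').mkQ a := by
      rw [LinearEquiv.symm_apply_eq]
      rfl
    rw [this]
    exact Submodule.liftQ_apply _ _ _
  have hf0 : f ≠ 0 := by
    intro h
    apply hα0
    ext a
    rw [← hf, h]
    rfl
  have hcomm : ∀ (x : N) (w : V'), f (ρ' x w) = ρ x (f w) := by
    intro x w
    obtain ⟨a, rfl⟩ := hα' w
    have e1 : ρ' x (α' a) = α' ⟨_, hK x a a.2⟩ := (evl_trans ρ' v' x a).symm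
    rw [e1, hf, hf]
    exact evl_trans ρ v x a
  exact ⟨LinearEquiv.ofBijective f ⟨hρ'.injective f hf0 (fun g w hw => by
      rw [hcomm, hw, map_zero]), hρ.surjective f hf0 (fun g w => ⟨_, hcomm g w⟩)⟩,
    fun x w => hcomm x w⟩

end fin

theorem iso_iff {N : Subgroup A} {V V' : Type*} [AddCommGroup V] [Module k V]
    [AddCommGroup V'] [Module k V'] {ρ : Representation k N V} {ρ' : Representation k N V'} :
    Iso ρ ρ' ↔ Nonempty (ρ.Equiv ρ') := by
  constructor
  · rintro ⟨P, hP⟩
    exact ⟨Representation.Equiv.mk P (fun g => LinearMap.ext (fun v => hP g v))⟩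
  · rintro ⟨P⟩
    refine ⟨P.toLinearEquiv, fun x v => ?_⟩
    have h := P.toIntertwiningMap.isIntertwining' x
    exact LinearMap.congr_fun h v

theorem act_iff [Finite A] {N : Subgroup A} {n : ℕ} {ρ : Rp k N n} {e : MonoidAlgebra k A} :
    act ρ e = 1 ↔ InBlock e ρ := by
  have : Fintype N := Fintype.ofFinite N
  have h : ∀ v : Fin n → k, act ρ e v = ∑ᶠ x : N, e.coeff (x : A) • app ρ x v := by
    intro v
    rw [act_apply, finsum_eq_sum_of_fintype]
    rfl
  constructor
  · intro h1 v
    rw [← h, h1]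
    rfl
  · intro h1
    apply LinearMap.ext
    intro v
    rw [h, h1]
    rfl

theorem finite_classes [Finite A] (N H : Subgroup A) (e : MonoidAlgebra k A) :
    Finite (Quotient (irrInvSetoid N H e)) := by
  classical
  have : Fintype N := Fintype.ofFinite N
  by_contra hinf
  rw [not_finite_iff_infinite] at hinf
  let q : ℕ ↪ Quotient (irrInvSetoid N H e) := Infinite.natEmbedding _
  let c : ℕ → IrrInv N H e := fun i => (q i).out
  have hc : ∀ i, (⟦c i⟧ : Quotient (irrInvSetoid N H e)) = q i := fun i => Quotient.out_eq _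
  have hirr : ∀ i, Irr' (c i).ρ := fun i => irr_iff.1 (c i).irr
  have hex : ∀ i, ∃ v : Fin (c i).n → k, v ≠ 0 := by
    intro i
    have := (hirr i).nontriv
    exact exists_ne 0
  choose v hv using hex
  let L : ℕ → Submodule k (N → k) := fun i => LinearMap.ker (evl (c i).ρ (v i))
  let K : ℕ → Submodule k (N → k) := fun n => Nat.rec ⊤ (fun n K => K ⊓ L n) n
  have hK0 : K 0 = ⊤ := rfl
  have hKs : ∀ n, K (n + 1) = K n ⊓ L n := fun n => rfl
  have hKinv : ∀ n, LInv (K n) := by
    intro n
    induction n with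
    | zero => intro g a _; exact Submodule.mem_top
    | succ n ih => rw [hKs]; exact lInv_inf ih (lInv_ker _ _)
  have key : ∀ n m, K n ≤ L m → ∃ i < n, q i = q m := by
    intro n m
    induction n with
    | zero =>
      intro h
      exfalso
      have h1 : (Pi.single 1 1 : N → k) ∈ L m := h Submodule.mem_top
      have h2 : evl (c m).ρ (v m) (Pi.single 1 1) = 0 := h1
      rw [evl_apply, Finset.sum_eq_single 1] at h2
      · rw [Pi.single_eq_same, one_smul, map_one] at h2
        exact hv m h2
      · intro b _ hb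
        rw [Pi.single_eq_of_ne hb, zero_smul]
      · intro h; exact absurd (Finset.mem_univ _) h
    | succ n ih =>
      intro h
      rcases Classical.em (K n ≤ L m) with h1 | h1
      · obtain ⟨i, hi, hq⟩ := ih h1
        exact ⟨i, Nat.lt_succ_of_lt hi, hq⟩
      · rw [hKs] at h
        obtain ⟨P, hP⟩ := iso_of_inf (hirr m) (hirr n) (hKinv n) h h1
        refine ⟨n, Nat.lt_succ_self n, ?_⟩
        rw [← hc n, ← hc m]
        exact Quotient.sound (iso_iff.1 ⟨P, hP⟩)
  have hanti : StrictAnti K := by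
    apply strictAnti_nat_of_succ_lt
    intro n
    rw [hKs]
    apply lt_of_le_of_ne inf_le_left
    intro h
    have h1 : K n ≤ L n := by
      rw [← h]; exact inf_le_right
    obtain ⟨i, hi, hq⟩ := key n n h1
    exact absurd (q.injective hq) (by omega)
  exact not_strictAnti_of_wellFoundedLT K hanti

end Pool.Agent.Lib.P0c8ca5
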