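import Mathlib
import Pool.Agent.Lib.P0c8ca5.CliffC

/-! The count of invariant irreducible representations. -/

namespace Pool.Agent.Lib.P0c8ca5

open MonoidAlgebra

set_option linter.unusedSectionVars false

variable {p : ℕ} {k : Type*} [Field k] {A : Type*} [Group A]

theorem mem_norm_of_normal (G : Subgroup A) [hG : G.Normal] (a : A) :
    a ∈ Subgroup.normalizer (G : Set A) := by
  rw [Subgroup.normalizer_eq_top]
  exact Subgroup.mem_top a

section abstract_count
variable {X : Type*} [MulAction A X] [Finite A]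

theorem sum_orbit (H : Subgroup A) (x₀ : X) (S : Finset X)
    (hS : ∀ x, x ∈ S ↔ ∃ h ∈ H, x = h • x₀) :
    ∑ x ∈ S, Nat.card ↥(H ⊓ MulAction.stabilizer A x) = Nat.card H := by
  classical
  have : Fintype A := Fintype.ofFinite A
  have hcard : ∀ K : Subgroup A, Nat.card K = (Finset.univ.filter (fun x => x ∈ K)).card := by
    intro K
    rw [Nat.card_eq_fintype_card, Fintype.card_subtype]
  rw [hcard H, Finset.card_eq_sum_card_fiberwise (f := fun m => m • x₀) (t := S)]
  · refine Finset.sum_congr rfl (fun x hx => ?_)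
    obtain ⟨m₀, hm₀, rfl⟩ := (hS x).1 hx
    rw [hcard]
    refine Finset.card_bij' (fun x _ => x * m₀) (fun m _ => m * m₀⁻¹) ?_ ?_ ?_ ?_
    · intro x hx
      rw [Finset.mem_filter] at hx
      obtain ⟨_, h1, h2⟩ := hx
      rw [Finset.mem_filter, Finset.mem_filter]
      refine ⟨⟨Finset.mem_univ _, H.mul_mem h1 hm₀⟩, ?_⟩
      rw [mul_smul]
      exact h2
    · intro m hm
      rw [Finset.mem_filter, Finset.mem_filter] at hm
      obtain ⟨⟨_, h1⟩, h2⟩ := hm
      rw [Finset.mem_filter]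
      refine ⟨Finset.mem_univ _, Subgroup.mem_inf.2 ⟨H.mul_mem h1 (H.inv_mem hm₀), ?_⟩⟩
      rw [MulAction.mem_stabilizer_iff, smul_smul, inv_mul_cancel_right]
      exact h2
    · intro x _; group
    · intro x _; group
  · intro m hm
    rw [Finset.mem_coe, Finset.mem_filter] at hm
    exact (hS _).2 ⟨m, hm.2, rfl⟩

theorem cnt_eq [Fintype X] {N H : Subgroup A} (hNH : N ≤ H)
    (hn : H ≤ Subgroup.normalizer (N : Set A)) {C : Type*} [Finite C] (Rl : X → C → Prop)
    (ha : ∀ c, ∃ x, Rl x c) (hb : ∀ x y c, Rl x c → (Rl y c ↔ ∃ n ∈ N, y = n • x))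
    (hc : ∀ x c c', Rl x c → Rl x c' → c = c')
    (hd : ∀ x, (∃ c, Rl x c) ↔ N ⊔ (H ⊓ MulAction.stabilizer A x) = H) :
    cnt (fun x : X => MulAction.stabilizer A x) N H = Nat.card H * Nat.card C := by
  classical
  have : Fintype C := Fintype.ofFinite C
  rw [cnt_def]
  have h1 : ∀ x : X, (if N ⊔ (H ⊓ MulAction.stabilizer A x) = H then
      Nat.card ↥(H ⊓ MulAction.stabilizer A x) else 0)
      = ∑ c : C, if Rl x c then Nat.card ↥(H ⊓ MulAction.stabilizer A x) else 0 := by
    intro x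
    by_cases h : N ⊔ (H ⊓ MulAction.stabilizer A x) = H
    · rw [if_pos h]
      obtain ⟨c, hxc⟩ := (hd x).2 h
      rw [Finset.sum_eq_single c]
      · rw [if_pos hxc]
      · intro c' _ hcc'
        rw [if_neg]
        intro h'
        exact hcc' (hc x c' c h' hxc)
      · intro h'; exact absurd (Finset.mem_univ _) h'
    · rw [if_neg h]
      symm
      apply Finset.sum_eq_zero
      intro c _
      rw [if_neg]
      intro h'
      exact h ((hd x).1 ⟨c, h'⟩)
  rw [Finset.sum_congr rfl (fun x _ => h1 x), Finset.sum_comm]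
  have h2 : ∀ c : C, (∑ x : X, if Rl x c then Nat.card ↥(H ⊓ MulAction.stabilizer A x) else 0)
      = Nat.card H := by
    intro c
    obtain ⟨x₀, hx₀⟩ := ha c
    rw [← Finset.sum_filter]
    apply sum_orbit H x₀
    intro y
    rw [Finset.mem_filter]
    constructor
    · rintro ⟨_, hy⟩
      obtain ⟨n, hn', rfl⟩ := (hb x₀ y c hx₀).1 hy
      exact ⟨n, hNH hn', rfl⟩
    · rintro ⟨h, hh, rfl⟩
      refine ⟨Finset.mem_univ _, ?_⟩
      rw [hb x₀ _ c hx₀]
      have h3 := (hd x₀).1 ⟨c, hx₀⟩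
      rw [← h3, mem_sup_norm (inf_le_left.trans hn)] at hh
      obtain ⟨n, hn', s, hs, rfl⟩ := hh
      refine ⟨n, hn', ?_⟩
      rw [mul_smul, MulAction.mem_stabilizer_iff.1 (Subgroup.mem_inf.1 hs).2]
  rw [Finset.sum_congr rfl (fun c _ => h2 c), Finset.sum_const, Finset.card_univ,
    smul_eq_mul, mul_comm, Nat.card_eq_fintype_card (α := C)]

end abstract_count

section reps

theorem inv_iff {N H : Subgroup A} (hH : H ≤ Subgroup.normalizer (N : Set A)) {n : ℕ}
    (ρ : Rp k N n) :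
    (∀ h ∈ H, ∀ σ : Rp k N n, IsConjRep h ρ σ → Nonempty (ρ.Equiv σ)) ↔
      ∀ (h : A) (hh : h ∈ H), Iso (tw (hH hh) ρ) ρ := by
  constructor
  · intro hP h hh
    apply Iso.symm
    rw [iso_iff]
    apply hP h hh
    intro x y v hxy
    change tw (hH hh) ρ y v = ρ x v
    rw [tw_apply]
    have e1 : cjN (hH hh) y = x := by
      apply Subtype.ext
      rw [coe_cjN, hxy]
      group
    rw [e1]
  · intro hI h hh σ hσ
    have e1 : σ = tw (hH hh) ρ := by
      apply MonoidHom.ext
      intro y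
      apply LinearMap.ext
      intro v
      rw [tw_apply]
      exact hσ (cjN (hH hh) y) y v (by rw [coe_cjN]; group)
    rw [e1, ← iso_iff]
    exact (hI h hh).symm

/-- irreducible representations in the block `e`, up to equivalence -/
abbrev IrX (G : Subgroup A) (e : MonoidAlgebra k A) : Type _ := Quotient (irrInvSetoid G ⊥ e)

/-- constructor -/
def mkIrr [Finite A] {G : Subgroup A} {e : MonoidAlgebra k A} {n : ℕ} (ρ : Representation k G (Fin n → k))
    (h1 : Irr' ρ) (h2 : act ρ e = 1) : IrrInv G ⊥ e where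
  n := n
  ρ := ρ
  irr := irr_iff.2 h1
  blk := act_iff.1 h2
  inv := (inv_iff (bot_le) ρ).2 (by
    intro h hh
    have : h = 1 := hh
    subst this
    rw [tw_one]
    exact Iso.refl ρ)

variable {G : Subgroup A} [hG : G.Normal] {e : MonoidAlgebra k A}

theorem mk_eq_mk {N H : Subgroup A} {a b : IrrInv N H e} :
    (⟦a⟧ : Quotient (irrInvSetoid N H e)) = ⟦b⟧ ↔ Iso a.ρ b.ρ := Quotient.eq.trans iso_iff.symm

/-- the twisting action -/
@[reducible] def actX [Finite A] (he : InvBy ⊤ e) : MulAction A (IrX G e) where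
  smul a := Quotient.map (fun σ => mkIrr (tw (mem_norm_of_normal G a) σ.ρ)
      ((irr_iff.1 σ.irr).tw _) (by rw [act_tw _ _ he]; exact act_iff.2 σ.blk))
    (fun σ σ' h => iso_iff.1 (Iso.tw (mem_norm_of_normal G a) (iso_iff.2 h)))
  one_smul := by
    intro x
    induction x using Quotient.inductionOn with
    | _ σ =>
      apply mk_eq_mk.2
      change Iso (tw (mem_norm_of_normal G 1) σ.ρ) σ.ρ
      rw [tw_one]
      exact Iso.refl _
  mul_smul := by
    intro a b x
    induction x using Quotient.inductionOn with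
    | _ σ =>
      apply mk_eq_mk.2
      change Iso (tw (mem_norm_of_normal G (a * b)) σ.ρ)
        (tw (mem_norm_of_normal G a) (tw (mem_norm_of_normal G b) σ.ρ))
      rw [tw_tw]
      exact Iso.refl _

/-- stabilizers -/
def stX [Finite A] (he : InvBy ⊤ e) (x : IrX G e) : Subgroup A :=
  letI := actX (G := G) he
  MulAction.stabilizer A x

instance instFiniteIrX [Finite A] (G : Subgroup A) (e : MonoidAlgebra k A) : Finite (IrX G e) :=
  finite_classes G ⊥ e

theorem cnt_stX [Finite A] [Fact p.Prime] [CharP k p] {N H : Subgroup A} (hGN : G ≤ N)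
    (hNH : N ≤ H)
    (hn : H ≤ Subgroup.normalizer (N : Set A)) (hp : ∀ x : A, ∃ n : ℕ, x ^ p ^ n ∈ G)
    (heG : SuppIn G e) (he : InvBy ⊤ e) (hee : e * e = e) [Fintype (IrX G e)] :
    cnt (stX (G := G) he) N H = Nat.card H * Nat.card (Quotient (irrInvSetoid N H e)) := by
  let _ := actX (G := G) he
  have hsm : ∀ (a : A) (σ : IrrInv G ⊥ e) (σ' : IrrInv G ⊥ e),
      (⟦σ'⟧ : IrX G e) = a • (⟦σ⟧ : IrX G e) ↔ Iso (tw (mem_norm_of_normal G a) σ.ρ) σ'.ρ := by
    intro a σ σ'
    constructor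
    · intro h; exact mk_eq_mk.1 h.symm
    · intro h; exact (mk_eq_mk.2 h).symm
  have hnG : N ≤ Subgroup.normalizer (G : Set A) := fun x _ => mem_norm_of_normal G x
  have heN : InvBy N e := he.mono le_top
  have hfin := finite_classes N H e
  let Rl : IrX G e → Quotient (irrInvSetoid N H e) → Prop := fun x c =>
    ∃ (σ : IrrInv G ⊥ e) (ρ : IrrInv N H e), ⟦σ⟧ = x ∧ ⟦ρ⟧ = c ∧ Over hGN ρ.ρ σ.ρ
  have hRl : ∀ (σ : IrrInv G ⊥ e) (ρ : IrrInv N H e), Rl ⟦σ⟧ ⟦ρ⟧ ↔ Over hGN ρ.ρ σ.ρ := by
    intro σ ρ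
    constructor
    · rintro ⟨σ', ρ', h1, h2, h3⟩
      exact (h3.congr_right (mk_eq_mk.1 h1)).congr_left (mk_eq_mk.1 h2)
    · intro h; exact ⟨σ, ρ, rfl, rfl, h⟩
  have hinv : ∀ (ρ : IrrInv N H e) (h : A) (hh : h ∈ H), Iso (tw (hn hh) ρ.ρ) ρ.ρ :=
    fun ρ => (inv_iff hn ρ.ρ).1 ρ.inv
  have hRb : ∀ x y c, Rl x c → (Rl y c ↔ ∃ n ∈ N, y = n • x) := by
    intro x y c
    induction x using Quotient.inductionOn with
    | _ σ =>
    induction y using Quotient.inductionOn with
    | _ σ' =>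
    induction c using Quotient.inductionOn with
    | _ ρ =>
    intro h
    rw [hRl] at h ⊢
    constructor
    · intro h'
      obtain ⟨n, hnN, hiso⟩ := under_conj hGN hnG (irr_iff.1 ρ.irr) (irr_iff.1 σ.irr)
        (irr_iff.1 σ'.irr) h h'
      exact ⟨n, hnN, (hsm _ _ _).2 hiso⟩
    · rintro ⟨n, hnN, hy⟩
      rw [hsm] at hy
      have h1 := h.tw (Subgroup.le_normalizer hnN) (mem_norm_of_normal G n)
      exact (h1.congr_right hy).congr_left (iso_tw_of_mem _ hnN _)
  apply cnt_eq hNH hn Rl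
  · intro c
    induction c using Quotient.inductionOn with
    | _ ρ =>
    obtain ⟨m, σ, h1, h2⟩ := exists_under hGN (irr_iff.1 ρ.irr)
    have h3 := (over_blk (irr_iff.1 ρ.irr) h1 h2 heG heN hee).1 (act_iff.2 ρ.blk)
    exact ⟨⟦mkIrr σ h1 h3⟧, (hRl _ _).2 h2⟩
  · exact hRb
  · intro x c c'
    induction x using Quotient.inductionOn with
    | _ σ =>
    induction c using Quotient.inductionOn with
    | _ ρ =>
    induction c' using Quotient.inductionOn with
    | _ ρ' =>
    intro h h'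
    rw [hRl] at h h'
    apply mk_eq_mk.2
    exact over_unique hGN hnG (fun x _ => hp x) (irr_iff.1 ρ.irr) (irr_iff.1 ρ'.irr)
      (irr_iff.1 σ.irr) h h'
  · intro x
    constructor
    · rintro ⟨c, hxc⟩
      apply le_antisymm (sup_le hNH inf_le_left)
      intro h hh
      have h1 : Rl (h • x) c := by
        induction x using Quotient.inductionOn with
        | _ σ =>
        induction c using Quotient.inductionOn with
        | _ ρ =>
        rw [hRl] at hxc
        have h2 := hxc.tw (hn hh) (mem_norm_of_normal G h)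
        refine ⟨_, ρ, rfl, rfl, ?_⟩
        exact h2.congr_left (hinv ρ h hh)
      obtain ⟨n, hnN, hy⟩ := (hRb x _ c hxc).1 h1
      have h3 : n⁻¹ * h ∈ H ⊓ MulAction.stabilizer A x := by
        refine Subgroup.mem_inf.2 ⟨H.mul_mem (H.inv_mem (hNH hnN)) hh, ?_⟩
        rw [MulAction.mem_stabilizer_iff, mul_smul, hy, inv_smul_smul]
      have h4 := Subgroup.mul_mem_sup hnN h3
      rwa [mul_inv_cancel_left] at h4
    · intro hx
      induction x using Quotient.inductionOn with
      | _ σ =>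
      obtain ⟨m, ρ, h1, h2⟩ := exists_over hGN (irr_iff.1 σ.irr)
      have h3 := (over_blk h1 (irr_iff.1 σ.irr) h2 heG heN hee).2 (act_iff.2 σ.blk)
      have hI : ∀ (h : A) (hh : h ∈ H), Iso (tw (hn hh) ρ) ρ := by
        intro h hh
        have hh' := hh
        rw [← hx, mem_sup_norm (inf_le_left.trans hn)] at hh'
        obtain ⟨n, hnN, s, hs, rfl⟩ := hh'
        obtain ⟨hsH, hst⟩ := Subgroup.mem_inf.1 hs
        have h4 : Iso (tw (mem_norm_of_normal G s) σ.ρ) σ.ρ := by
          rw [← hsm]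
          exact (MulAction.mem_stabilizer_iff.1 hst).symm
        have h5 : Iso (tw (hn hsH) ρ) ρ := by
          have h6 := (h2.tw (hn hsH) (mem_norm_of_normal G s)).congr_right h4
          exact over_unique hGN hnG (fun x _ => hp x) (h1.tw _) h1 (irr_iff.1 σ.irr) h6 h2
        have h7 := iso_tw_of_mem (Subgroup.le_normalizer hnN) hnN (tw (hn hsH) ρ)
        rw [tw_tw (Subgroup.le_normalizer hnN) (hn hsH) (hn hh)] at h7
        exact h7.trans h5
      refine ⟨⟦⟨m, ρ, irr_iff.2 h1, act_iff.1 h3, (inv_iff hn ρ).2 hI⟩⟧, ?_⟩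
      rw [hRl]
      exact h2

end reps

end Pool.Agent.Lib.P0c8ca5
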