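import Mathlib
import Pool.Agent.Lib.P0c8ca5.WeightsD

/-! The combinatorial reduction. -/

namespace Pool.Agent.Lib.P0c8ca5

set_option linter.unusedSectionVars false

variable {p : ℕ} {A : Type*} [Group A]

theorem card_mul_rel {H K : Subgroup A} (h : H ≤ K) :
    Nat.card H * H.relIndex K = Nat.card K := by
  have h4 := Subgroup.relIndex_mul_relIndex ⊥ H K bot_le h
  rwa [Subgroup.relIndex_bot_left, Subgroup.relIndex_bot_left] at h4

theorem card_sup_mul {L D : Subgroup A} (hD : D ≤ Subgroup.normalizer (L : Set A)) :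
    Nat.card ↥(L ⊔ D) * Nat.card ↥(L ⊓ D) = Nat.card L * Nat.card D := by
  have h1 := card_mul_rel (le_sup_left : L ≤ L ⊔ D)
  have h2 := card_mul_rel (inf_le_right : L ⊓ D ≤ D)
  rw [Subgroup.inf_relIndex_right] at h2
  have h3 : L.relIndex D = L.relIndex (L ⊔ D) := by
    let _ := Subgroup.normal_subgroupOf_of_le_normalizer hD
    let _ := Subgroup.normal_subgroupOf_sup_of_le_normalizer hD
    have := Nat.card_congr (QuotientGroup.quotientInfEquivProdNormalizerQuotient D L hD).toEquiv
    rw [sup_comm L D]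
    exact this
  rw [← h1, ← h2, h3]
  ring

section
variable [Finite A] {s N N₁ H U : Subgroup A}

theorem modular_inf (hNU : N ≤ U) (hUH : U ≤ H) (hn : H ≤ Subgroup.normalizer (N : Set A)) :
    N ⊔ (U ⊓ s) = U ⊓ (N ⊔ (H ⊓ s)) := by
  apply le_antisymm
  · apply sup_le (le_inf hNU le_sup_left)
    exact le_inf inf_le_left ((inf_le_inf_right s hUH).trans le_sup_right)
  · intro x hx
    obtain ⟨hxU, hx2⟩ := Subgroup.mem_inf.1 hx
    rw [mem_sup_norm (inf_le_left.trans hn)] at hx2
    obtain ⟨l, hl, d, hd, rfl⟩ := hx2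
    have h1 : d ∈ U := by
      have := U.mul_mem (U.inv_mem (hNU hl)) hxU
      rwa [inv_mul_cancel_left] at this
    exact Subgroup.mul_mem_sup hl ⟨h1, hd.2⟩

open Classical in
/-- the contribution of a subgroup `s` -/
noncomputable def fc (s N H : Subgroup A) : ℕ :=
  if N ⊔ (H ⊓ s) = H then Nat.card ↥(H ⊓ s) else 0

open Classical in
theorem fc_low (hNU : N ≤ U) (hUH : U ≤ H) (hn : H ≤ Subgroup.normalizer (N : Set A)) :
    Nat.card N * fc s N U
      = if U ≤ N ⊔ (H ⊓ s) then Nat.card U * Nat.card ↥(N ⊓ s) else 0 := by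
  have h1 := modular_inf (s := s) hNU hUH hn
  have h2 : N ⊔ (U ⊓ s) = U ↔ U ≤ N ⊔ (H ⊓ s) := by
    rw [h1, inf_eq_left]
  unfold fc
  by_cases h : U ≤ N ⊔ (H ⊓ s)
  · rw [if_pos (h2.2 h), if_pos h]
    have h3 := card_sup_mul (L := N) (D := U ⊓ s) ((inf_le_left.trans hUH).trans hn)
    rw [h2.2 h, ← inf_assoc, inf_eq_left.2 hNU] at h3
    exact h3.symm
  · rw [if_neg (fun h' => h (h2.1 h')), if_neg h, mul_zero]

open Classical in
theorem fc_high (hNN : N ≤ N₁) (hNH : N ≤ H) (hn : H ≤ Subgroup.normalizer (N : Set A)) :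
    Nat.card N * fc s N₁ H
      = if N₁ ⊔ (N ⊔ (H ⊓ s)) = H then
          Nat.card ↥(N ⊔ (H ⊓ s)) * Nat.card ↥(N ⊓ s) else 0 := by
  have h1 : N₁ ⊔ (N ⊔ (H ⊓ s)) = N₁ ⊔ (H ⊓ s) := by
    rw [← sup_assoc, sup_eq_left.2 hNN]
  unfold fc
  rw [h1]
  by_cases h : N₁ ⊔ (H ⊓ s) = H
  · rw [if_pos h, if_pos h]
    have h3 := card_sup_mul (L := N) (D := H ⊓ s) (inf_le_left.trans hn)
    rw [← inf_assoc, inf_eq_left.2 hNH] at h3
    exact h3.symm
  · rw [if_neg h, if_neg h, mul_zero]

/-- the subgroups of index `p` in `H` that contain `N` but not `v` -/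
def hyp (p : ℕ) (N H : Subgroup A) (v : A) : Set (Subgroup A) :=
  {U | N ≤ U ∧ U ≤ H ∧ U.relIndex H = p ∧ v ∉ U}

theorem prime_index_max [Fact p.Prime] (hU : U.relIndex H = p) {K : Subgroup A}
    (hUK : U ≤ K) (hKH : K ≤ H) : K = U ∨ K = H := by
  have h1 := Subgroup.relIndex_mul_relIndex U K H hUK hKH
  rw [hU] at h1
  rcases (Nat.dvd_prime (Fact.out : p.Prime)).1 ⟨_, h1.symm⟩ with h | h
  · left; exact le_antisymm (Subgroup.relIndex_eq_one.1 h) hUK
  · right
    rw [h] at h1
    have h2 : K.relIndex H = 1 := by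
      have hp := (Fact.out : p.Prime).pos
      exact Nat.eq_of_mul_eq_mul_left hp (by rw [h1, mul_one])
    exact le_antisymm hKH (Subgroup.relIndex_eq_one.1 h2)

/-- identity (B) -/
theorem fc_identity [Fact p.Prime] (hNH : N ≤ H) (hn : H ≤ Subgroup.normalizer (N : Set A))
    {v : A} (hvH : v ∈ H) (hv : N.relIndex (N ⊔ Subgroup.zpowers v) = p)
    (hn₁ : H ≤ Subgroup.normalizer ((N ⊔ Subgroup.zpowers v : Subgroup A) : Set A))
    (T : Finset (Subgroup A)) (hT : ∀ U, U ∈ T ↔ U ∈ hyp p N H v) :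
    p * fc s (N ⊔ Subgroup.zpowers v) H + T.card * fc s N H
      = p * fc s N H + ∑ U ∈ T, p * fc s N U := by
  classical
  set N₁ := N ⊔ Subgroup.zpowers v with hN₁
  set K := N ⊔ (H ⊓ s) with hK
  have hNpos : 0 < Nat.card N := Nat.card_pos
  have hN₁H : N₁ ≤ H := sup_le hNH ((Subgroup.zpowers_le).2 hvH)
  have hvN₁ : v ∈ N₁ := (le_sup_right : Subgroup.zpowers v ≤ N₁) (Subgroup.mem_zpowers v)
  have hKH : K ≤ H := sup_le hNH inf_le_left
  have hNK : N ≤ K := le_sup_left
  apply Nat.eq_of_mul_eq_mul_left hNpos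
  have e1 : Nat.card N * fc s N₁ H = _ := fc_high (s := s) (le_sup_left : N ≤ N₁) hNH hn
  have e2 : Nat.card N * fc s N H = _ := fc_low (s := s) hNH (le_refl H) hn
  have e3 : ∀ U ∈ T, Nat.card N * fc s N U = _ := fun U hU =>
    fc_low (s := s) ((hT U).1 hU).1 ((hT U).1 hU).2.1 hn
  have e4 : Nat.card N * (p * fc s N₁ H + T.card * fc s N H)
      = p * (Nat.card N * fc s N₁ H) + T.card * (Nat.card N * fc s N H) := by ring
  have e5 : Nat.card N * (p * fc s N H + ∑ U ∈ T, p * fc s N U)
      = p * (Nat.card N * fc s N H) + ∑ U ∈ T, p * (Nat.card N * fc s N U) := by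
    rw [mul_add, Finset.mul_sum]
    congr 1
    · ring
    · exact Finset.sum_congr rfl (fun U _ => by ring)
  rw [e4, e5, e1, e2, Finset.sum_congr rfl (fun U hU => by rw [e3 U hU]), ← hK]
  by_cases h1 : H ≤ K
  · have hKH' : K = H := le_antisymm hKH h1
    rw [if_pos h1, if_pos (by rw [hKH', sup_eq_right.2 hN₁H]), hKH']
    have e6 : ∀ U ∈ T, p * (if U ≤ H then Nat.card U * Nat.card ↥(N ⊓ s) else 0)
        = Nat.card H * Nat.card ↥(N ⊓ s) := by
      intro U hU
      obtain ⟨_, h3, h4, _⟩ := (hT U).1 hU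
      have h5 := card_mul_rel h3
      rw [if_pos h3, ← h5, h4]
      ring
    rw [Finset.sum_congr rfl e6, Finset.sum_const, smul_eq_mul]
  · rw [if_neg h1, mul_zero, mul_zero, add_zero, zero_add]
    by_cases h2 : N₁ ⊔ K = H
    · rw [if_pos h2]
      -- `K` has index `p`
      have hvK : v ∉ K := by
        intro h
        apply h1
        rw [← h2]
        exact sup_le (sup_le hNK ((Subgroup.zpowers_le).2 h)) (le_refl K)
      have hKidx : K.relIndex H = p := by
        have h3 := card_sup_mul (L := N₁) (D := K) (hKH.trans hn₁)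
        rw [h2] at h3
        have h4 := card_mul_rel hKH
        have h5 : N₁ ⊓ K = N := by
          have h6 := Subgroup.relIndex_mul_relIndex N (N₁ ⊓ K) N₁
            (le_inf le_sup_left hNK) inf_le_left
          rw [hv] at h6
          rcases (Nat.dvd_prime (Fact.out : p.Prime)).1 ⟨_, h6.symm⟩ with h | h
          · exact le_antisymm (Subgroup.relIndex_eq_one.1 h) (le_inf le_sup_left hNK)
          · exfalso
            rw [h] at h6
            have h7 : (N₁ ⊓ K).relIndex N₁ = 1 :=
              Nat.eq_of_mul_eq_mul_left (Fact.out : p.Prime).pos (by rw [h6, mul_one])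
            exact hvK ((Subgroup.relIndex_eq_one.1 h7) hvN₁).2
        rw [h5, ← card_mul_rel (le_sup_left : N ≤ N₁), hv, ← h4] at h3
        have h6 : Nat.card K * Nat.card N * K.relIndex H = Nat.card K * Nat.card N * p := by
          rw [show Nat.card K * Nat.card N * K.relIndex H
            = Nat.card K * K.relIndex H * Nat.card N by ring, h3]
          ring
        exact Nat.eq_of_mul_eq_mul_left (Nat.mul_pos Nat.card_pos Nat.card_pos) h6
      have hKT : K ∈ T := (hT K).2 ⟨hNK, hKH, hKidx, hvK⟩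
      rw [Finset.sum_eq_single K]
      · rw [if_pos (le_refl K)]
      · intro U hU hne
        rw [if_neg, mul_zero]
        intro h
        obtain ⟨_, h3, h4, _⟩ := (hT U).1 hU
        rcases prime_index_max h4 h hKH with h5 | h5
        · exact hne h5.symm
        · exact h1 (by rw [h5])
      · intro h; exact absurd hKT h
    · rw [if_neg h2, mul_zero]
      symm
      apply Finset.sum_eq_zero
      intro U hU
      rw [if_neg, mul_zero]
      intro h
      obtain ⟨h6, h3, h4, h5⟩ := (hT U).1 hU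
      rcases prime_index_max h4 h hKH with h7 | h7
      · apply h2
        rw [h7]
        have h8 : U ≤ N₁ ⊔ U := le_sup_right
        rcases prime_index_max h4 h8 (sup_le hN₁H h3) with h9 | h9
        · exfalso
          apply h5
          rw [← h9]
          exact (le_sup_left : N₁ ≤ N₁ ⊔ U) hvN₁
        · exact h9
      · exact h1 (by rw [h7])

/-- the case of index `p` -/
theorem fc_index_p [Fact p.Prime] (hNH : N ≤ H) (hn : H ≤ Subgroup.normalizer (N : Set A))
    (hidx : N.relIndex H = p) :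
    p * fc s H H + fc s N H = p * fc s N H + p * fc s N N := by
  classical
  set K := N ⊔ (H ⊓ s) with hK
  have hNpos : 0 < Nat.card N := Nat.card_pos
  have hKH : K ≤ H := sup_le hNH inf_le_left
  have hNK : N ≤ K := le_sup_left
  apply Nat.eq_of_mul_eq_mul_left hNpos
  have e1 : Nat.card N * fc s H H = _ := fc_high (s := s) hNH hNH hn
  have e2 : Nat.card N * fc s N H = _ := fc_low (s := s) hNH (le_refl H) hn
  have e3 : Nat.card N * fc s N N = _ := fc_low (s := s) (le_refl N) hNH hn
  have e4 : Nat.card N * (p * fc s H H + fc s N H)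
      = p * (Nat.card N * fc s H H) + (Nat.card N * fc s N H) := by ring
  have e5 : Nat.card N * (p * fc s N H + p * fc s N N)
      = p * (Nat.card N * fc s N H) + p * (Nat.card N * fc s N N) := by ring
  have hc := card_mul_rel hNH
  rw [hidx] at hc
  rw [e4, e5, e1, e2, e3, ← hK, if_pos (sup_eq_left.2 hKH), if_pos hNK]
  rcases prime_index_max hidx hNK hKH with h | h
  · have h1 : ¬ H ≤ K := by
      intro h'
      have h2 : N = H := le_antisymm hNH (by rw [← h]; exact h')
      rw [h2, Subgroup.relIndex_self] at hidx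
      exact (Fact.out : p.Prime).one_lt.ne hidx
    rw [if_neg h1, h]
    ring
  · rw [if_pos (by rw [h]), h, ← hc]
    ring

/-- the case of an element of `s` outside `N` -/
theorem fc_central [Fact p.Prime] (hNH : N ≤ H) (hn : H ≤ Subgroup.normalizer (N : Set A))
    {c : A} (hcH : c ∈ H) (hcs : c ∈ s) (hU : U ∈ hyp p N H c) :
    fc s N H = p * fc s N U := by
  classical
  set K := N ⊔ (H ⊓ s) with hK
  have hNpos : 0 < Nat.card N := Nat.card_pos
  have hKH : K ≤ H := sup_le hNH inf_le_left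
  obtain ⟨h6, h3, h4, h5⟩ := hU
  have hcK : c ∈ K := (le_sup_right : H ⊓ s ≤ K) ⟨hcH, hcs⟩
  apply Nat.eq_of_mul_eq_mul_left hNpos
  have e2 : Nat.card N * fc s N H = _ := fc_low (s := s) hNH (le_refl H) hn
  have e3 : Nat.card N * fc s N U = _ := fc_low (s := s) h6 h3 hn
  have e4 : Nat.card N * (p * fc s N U) = p * (Nat.card N * fc s N U) := by ring
  rw [e4, e2, e3, ← hK]
  by_cases h1 : H ≤ K
  · rw [if_pos h1, if_pos (h3.trans h1), ← card_mul_rel h3, h4]
    ring
  · rw [if_neg h1, if_neg, mul_zero]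
    intro h
    rcases prime_index_max h4 h hKH with h7 | h7
    · exact h5 (by rw [← h7]; exact hcK)
    · exact h1 (by rw [h7])

end

end Pool.Agent.Lib.P0c8ca5
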