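import Mathlib
import Pool.Agent.Lib.P0c8ca5.Comb

/-! Counting hyperplanes. -/

namespace Pool.Agent.Lib.P0c8ca5

set_option linter.unusedSectionVars false

variable {p : ℕ} {A : Type*} [Group A]

theorem card_dual_fiber [Fact p.Prime] {V : Type*} [AddCommGroup V] [Module (ZMod p) V] [Finite V]
    (v : V) (hv : v ≠ 0) :
    p * Nat.card {f : Module.Dual (ZMod p) V // f v = 1} = Nat.card V := by
  classical
  have hfinV : Module.Finite (ZMod p) V := inferInstance
  have h1 : Nat.card (Module.Dual (ZMod p) V) = Nat.card V := by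
    rw [Module.natCard_eq_pow_finrank (K := ZMod p) (V := V),
      Module.natCard_eq_pow_finrank (K := ZMod p) (V := Module.Dual (ZMod p) V),
      Subspace.dual_finrank_eq]
  obtain ⟨g, hg⟩ : ∃ g : Module.Dual (ZMod p) V, g v ≠ 0 := by
    by_contra hcon
    push Not at hcon
    exact hv ((Module.forall_dual_apply_eq_zero_iff (ZMod p) v).1 hcon)
  let f₀ : Module.Dual (ZMod p) V := (g v)⁻¹ • g
  have hf₀ : f₀ v = 1 := by
    change (g v)⁻¹ * g v = 1
    exact inv_mul_cancel₀ hg
  let ev : Module.Dual (ZMod p) V →ₗ[ZMod p] ZMod p := Module.Dual.eval (ZMod p) V v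
  have hev : ∀ f, ev f = f v := fun f => rfl
  have hsurj : Function.Surjective ev := by
    intro c
    refine ⟨c • f₀, ?_⟩
    rw [map_smul, hev, hf₀, smul_eq_mul, mul_one]
  have h2 : Nat.card {f : Module.Dual (ZMod p) V // f v = 1} = Nat.card (LinearMap.ker ev) := by
    apply Nat.card_congr
    refine
      { toFun := fun f => ⟨f.1 - f₀, ?_⟩
        invFun := fun f => ⟨f.1 + f₀, ?_⟩
        left_inv := fun f => Subtype.ext (by simp)
        right_inv := fun f => Subtype.ext (by simp) }
    · rw [LinearMap.mem_ker, map_sub, hev, hev, f.2, hf₀, sub_self]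
    · have := LinearMap.mem_ker.1 f.2
      rw [hev] at this
      change f.1 v + f₀ v = 1
      rw [this, hf₀, zero_add]
  have h3 := Submodule.card_eq_card_quotient_mul_card (LinearMap.ker ev)
  rw [Nat.card_congr (ev.quotKerEquivOfSurjective hsurj).toEquiv, Nat.card_zmod] at h3
  rw [h2, ← h1, h3, mul_comm]

theorem card_hom_fiber_aux [Fact p.Prime] {V : Type*} [AddCommGroup V] [Module (ZMod p) V]
    [Finite V] (v : V) (hv : v ≠ 0) :
    Nat.card V ≤ p * Nat.card {f : V →+ ZMod p // f v = 1} := by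
  rw [← card_dual_fiber (p := p) v hv]
  apply Nat.mul_le_mul_left
  have hfin : Finite (V →+ ZMod p) := by
    apply Finite.of_injective (fun f : V →+ ZMod p => (f : V → ZMod p))
    exact DFunLike.coe_injective
  apply Nat.card_le_card_of_injective
    (fun f : {f : Module.Dual (ZMod p) V // f v = 1} =>
      (⟨f.1.toAddMonoidHom, f.2⟩ : {f : V →+ ZMod p // f v = 1}))
  intro f g hfg
  apply Subtype.ext
  ext x
  exact DFunLike.congr_fun (congrArg Subtype.val hfg) x

theorem card_hom_fiber [Fact p.Prime] {V : Type*} [AddCommGroup V] [Finite V]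
    (hp : ∀ x : V, p • x = 0) (v : V) (hv : v ≠ 0) :
    Nat.card V ≤ p * Nat.card {f : V →+ ZMod p // f v = 1} :=
  @card_hom_fiber_aux p _ V _ (AddCommGroup.zmodModule hp) _ v hv

theorem count_hyp [Finite A] [Fact p.Prime] {N H : Subgroup A} (hNH : N ≤ H)
    (hcomm : ∀ x ∈ H, ∀ y ∈ H, x * y * x⁻¹ * y⁻¹ ∈ N) (hpow : ∀ x ∈ H, x ^ p ∈ N)
    {v : A} (hvH : v ∈ H) (hv : v ∉ N) :
    N.relIndex H ≤ p * Nat.card ↥(hyp p N H v) := by
  classical
  have hnorm : (N.subgroupOf H).Normal := by
    constructor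
    intro n hn g
    rw [Subgroup.mem_subgroupOf] at hn ⊢
    have h1 := hcomm g g.2 n n.2
    have h2 := N.mul_mem h1 hn
    have e1 : (g : A) * n * (g : A)⁻¹ * (n : A)⁻¹ * n = g * n * (g : A)⁻¹ := by group
    rwa [e1] at h2
  let Q := ↥H ⧸ N.subgroupOf H
  have hQcomm : ∀ a b : Q, a * b = b * a := by
    intro a b
    obtain ⟨x, rfl⟩ := QuotientGroup.mk_surjective a
    obtain ⟨y, rfl⟩ := QuotientGroup.mk_surjective b
    rw [← QuotientGroup.mk_mul, ← QuotientGroup.mk_mul, QuotientGroup.eq,
      Subgroup.mem_subgroupOf]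
    have h1 := hcomm (y : A)⁻¹ (H.inv_mem y.2) (x : A)⁻¹ (H.inv_mem x.2)
    have e1 : (y : A)⁻¹ * (x : A)⁻¹ * (y : A)⁻¹⁻¹ * (x : A)⁻¹⁻¹
      = (((x * y)⁻¹ * (y * x) : H) : A) := by
      push_cast
      group
    rwa [e1] at h1
  let instQ : CommGroup Q := { (inferInstance : Group Q) with mul_comm := hQcomm }
  have hQp : ∀ x : Additive Q, p • x = 0 := by
    intro x
    obtain ⟨y, hy⟩ := QuotientGroup.mk_surjective (Additive.toMul x)
    have h1 : (Additive.toMul x) ^ p = 1 := by
      rw [← hy, ← QuotientGroup.mk_pow, QuotientGroup.eq_one_iff, Subgroup.mem_subgroupOf]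
      have := hpow y y.2
      simpa using this
    exact h1
  let vQ : Additive Q := Additive.ofMul (QuotientGroup.mk ⟨v, hvH⟩)
  have hvQ : vQ ≠ 0 := by
    intro h
    have h1 : (QuotientGroup.mk (⟨v, hvH⟩ : H) : Q) = 1 := h
    rw [QuotientGroup.eq_one_iff, Subgroup.mem_subgroupOf] at h1
    exact hv h1
  have h1 := card_hom_fiber hQp vQ hvQ
  have h2 : Nat.card (Additive Q) = N.relIndex H := rfl
  rw [h2] at h1
  refine h1.trans (Nat.mul_le_mul_left _ ?_)
  -- the homomorphisms on `H`
  let χ : (Additive Q →+ ZMod p) → (H →* Multiplicative (ZMod p)) := fun f =>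
    { toFun := fun h => Multiplicative.ofAdd (f (Additive.ofMul (QuotientGroup.mk h)))
      map_one' := by
        change Multiplicative.ofAdd (f 0) = 1
        rw [map_zero]; rfl
      map_mul' := fun x y => by
        change Multiplicative.ofAdd (f (Additive.ofMul (QuotientGroup.mk x)
          + Additive.ofMul (QuotientGroup.mk y))) = _
        rw [map_add]; rfl }
  have hχ : ∀ f (h : H), χ f h = Multiplicative.ofAdd (f (Additive.ofMul (QuotientGroup.mk h))) :=
    fun f h => rfl
  have hmem : ∀ f (h : H), (h : A) ∈ (χ f).ker.map H.subtype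
      ↔ f (Additive.ofMul (QuotientGroup.mk h)) = 0 := by
    intro f h
    constructor
    · rintro ⟨y, hy, hyh⟩
      have : y = h := Subtype.ext hyh
      subst this
      exact hy
    · intro hh
      exact ⟨h, hh, rfl⟩
  have hfin : Finite ↥(hyp p N H v) := Set.toFinite _
  apply Nat.card_le_card_of_injective
    (fun f : {f : Additive Q →+ ZMod p // f vQ = 1} =>
      (⟨(χ f.1).ker.map H.subtype, by
        refine ⟨?_, ?_, ?_, ?_⟩
        · intro n hn
          refine (hmem f.1 ⟨n, hNH hn⟩).2 ?_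
          have : (QuotientGroup.mk (⟨n, hNH hn⟩ : H) : Q) = 1 := by
            rw [QuotientGroup.eq_one_iff, Subgroup.mem_subgroupOf]
            exact hn
          rw [this]
          exact map_zero f.1
        · rintro _ ⟨y, _, rfl⟩
          exact y.2
        · rw [Subgroup.relIndex, Subgroup.subgroupOf,
            Subgroup.comap_map_eq_self_of_injective H.subtype_injective, Subgroup.index_ker]
          have hsurj : Function.Surjective (χ f.1) := by
            intro c
            refine ⟨⟨v, hvH⟩ ^ (Multiplicative.toAdd c).val, ?_⟩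
            rw [map_pow, hχ]
            have h3 : f.1 (Additive.ofMul (QuotientGroup.mk (⟨v, hvH⟩ : H))) = 1 := f.2
            rw [h3]
            change (Multiplicative.toAdd c).val • (1 : ZMod p) = Multiplicative.toAdd c
            rw [nsmul_eq_mul, mul_one, ZMod.natCast_zmod_val]
          rw [MonoidHom.range_eq_top.2 hsurj, Subgroup.card_top]
          exact Nat.card_zmod p
        · intro hvm
          have h3 := (hmem f.1 ⟨v, hvH⟩).1 hvm
          have h4 : f.1 (Additive.ofMul (QuotientGroup.mk (⟨v, hvH⟩ : H))) = 1 := f.2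
          rw [h4] at h3
          exact one_ne_zero h3⟩ : ↥(hyp p N H v)))
  intro f g hfg
  have h3 : (χ f.1).ker.map H.subtype = (χ g.1).ker.map H.subtype := congrArg Subtype.val hfg
  apply Subtype.ext
  apply AddMonoidHom.ext
  intro x
  obtain ⟨h, hh⟩ := QuotientGroup.mk_surjective (Additive.toMul x)
  have hx : x = Additive.ofMul (QuotientGroup.mk h) := hh.symm
  let n : ℕ := (f.1 x).val
  have hn : ((n : ℕ) : ZMod p) = f.1 x := ZMod.natCast_zmod_val _
  have hfv : f.1 (Additive.ofMul (QuotientGroup.mk (⟨v, hvH⟩ : H))) = 1 := f.2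
  have hgv : g.1 (Additive.ofMul (QuotientGroup.mk (⟨v, hvH⟩ : H))) = 1 := g.2
  let y : H := h * (⟨v, hvH⟩ ^ n)⁻¹
  have hy : ∀ f' : Additive Q →+ ZMod p, f' (Additive.ofMul (QuotientGroup.mk y))
      = f' x - n • f' (Additive.ofMul (QuotientGroup.mk (⟨v, hvH⟩ : H))) := by
    intro f'
    rw [hx, ← map_nsmul, ← map_sub, sub_eq_add_neg]
    rfl
  have h4 : f.1 (Additive.ofMul (QuotientGroup.mk y)) = 0 := by
    rw [hy, hfv, nsmul_eq_mul, mul_one, hn, sub_self]
  have h5 : g.1 (Additive.ofMul (QuotientGroup.mk y)) = 0 := by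
    rw [← hmem, ← h3, hmem]; exact h4
  rw [hy, hgv, nsmul_eq_mul, mul_one, hn] at h5
  exact (sub_eq_zero.1 h5).symm

end Pool.Agent.Lib.P0c8ca5
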