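import Mathlib
import Pool.Agent.Lib.P0c8ca5.Hyper

/-! The combinatorial reduction theorem. -/

namespace Pool.Agent.Lib.P0c8ca5

set_option linter.unusedSectionVars false

variable {p : ℕ} {A : Type*} [Group A]

theorem cnt_eq_sum_fc {X : Type*} [Fintype X] (s : X → Subgroup A) (N H : Subgroup A) :
    cnt s N H = ∑ x, fc (s x) N H := rfl

section
variable [Finite A] {N H U : Subgroup A}

theorem rel_zpowers [Fact p.Prime] (hN : N.Normal) {v : A} (hv : v ∉ N) (hvp : v ^ p ∈ N) :
    N.relIndex (N ⊔ Subgroup.zpowers v) = p := by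
  have hvN : v ∈ N ⊔ Subgroup.zpowers v :=
    (le_sup_right : Subgroup.zpowers v ≤ _) (Subgroup.mem_zpowers v)
  let N₁ := N ⊔ Subgroup.zpowers v
  let Q := ↥N₁ ⧸ N.subgroupOf N₁
  let g : Q := QuotientGroup.mk ⟨v, hvN⟩
  have h1 : orderOf g = p := by
    apply orderOf_eq_prime
    · change (QuotientGroup.mk (⟨v, hvN⟩ ^ p) : Q) = 1
      rw [QuotientGroup.eq_one_iff, Subgroup.mem_subgroupOf]
      exact hvp
    · intro h
      have h2 : (QuotientGroup.mk (⟨v, hvN⟩ : N₁) : Q) = 1 := h
      rw [QuotientGroup.eq_one_iff, Subgroup.mem_subgroupOf] at h2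
      exact hv h2
  have h2 : ∀ x : Q, x ∈ Subgroup.zpowers g := by
    intro x
    obtain ⟨⟨y, hy⟩, rfl⟩ := QuotientGroup.mk_surjective x
    have hy' := hy
    rw [mem_sup_norm (by rw [Subgroup.normalizer_eq_top]; exact le_top)] at hy'
    obtain ⟨n, hn, d, hd, rfl⟩ := hy'
    obtain ⟨m, rfl⟩ := Subgroup.mem_zpowers_iff.1 hd
    refine Subgroup.mem_zpowers_iff.2 ⟨m, ?_⟩
    change (QuotientGroup.mk (⟨v, hvN⟩ ^ m) : Q) = _
    rw [QuotientGroup.eq, Subgroup.mem_subgroupOf]
    have := hN.conj_mem n hn (v ^ m)⁻¹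
    have e1 : (v ^ m)⁻¹ * n * (v ^ m)⁻¹⁻¹ = (v ^ m)⁻¹ * (n * v ^ m) := by group
    rw [e1] at this
    exact this
  have h3 : Nat.card Q = p := by
    rw [← h1, ← Nat.card_zpowers, (Subgroup.eq_top_iff' _).2 h2, Subgroup.card_top]
  exact h3

/-- the two facts about index `p²` -/
theorem fc_index_sq [Fact p.Prime] {s : Subgroup A} (hNH : N ≤ H)
    (hn : H ≤ Subgroup.normalizer (N : Set A)) (hidx : N.relIndex H = p ^ 2)
    (g : ℕ) (hg1 : H ⊓ s ≤ N → g = Nat.card ↥(H ⊓ s)) (hg2 : ¬ H ⊓ s ≤ N → g = 0) :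
    p ^ 2 * fc s N N + (p - 1) * fc s N H = p * fc s H H + p * (p - 1) * g ∧
    p ^ 2 * g + fc s N H ≤ p ^ 2 * fc s N N := by
  classical
  set K := N ⊔ (H ⊓ s) with hK
  have hNpos : 0 < Nat.card N := Nat.card_pos
  have hKH : K ≤ H := sup_le hNH inf_le_left
  have hNK : N ≤ K := le_sup_left
  have hc := card_mul_rel hNH
  have hcK := card_mul_rel hNK
  rw [hidx] at hc
  have e1 : Nat.card N * fc s H H = _ := fc_high (s := s) hNH hNH hn
  have e2 : Nat.card N * fc s N H = _ := fc_low (s := s) hNH (le_refl H) hn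
  have e3 : Nat.card N * fc s N N = _ := fc_low (s := s) (le_refl N) hNH hn
  rw [← hK, if_pos (sup_eq_left.2 hKH)] at e1
  rw [← hK] at e2
  rw [← hK, if_pos hNK] at e3
  have e3' : fc s N N = Nat.card ↥(N ⊓ s) := Nat.eq_of_mul_eq_mul_left hNpos e3
  have e1' : fc s H H = N.relIndex K * Nat.card ↥(N ⊓ s) := by
    apply Nat.eq_of_mul_eq_mul_left hNpos
    rw [e1, ← hcK]; ring
  have hp1 : 1 ≤ p := (Fact.out : p.Prime).one_lt.le
  obtain ⟨q, hq⟩ : ∃ q, p = q + 1 := ⟨p - 1, by omega⟩
  have hpq : p - 1 = q := by omega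
  have hgN : H ⊓ s ≤ N ↔ K = N := by
    rw [hK]; exact (sup_eq_left).symm
  -- possible values of the index
  have hdiv : N.relIndex K ∣ p ^ 2 := by
    rw [← hidx, ← Subgroup.relIndex_mul_relIndex N K H hNK hKH]
    exact dvd_mul_right _ _
  obtain ⟨i, hi, hi'⟩ := (Nat.dvd_prime_pow (Fact.out : p.Prime)).1 hdiv
  have hKN : K = N ↔ i = 0 := by
    constructor
    · intro h
      rw [h, Subgroup.relIndex_self] at hi'
      by_contra h0
      have := Nat.one_lt_pow h0 (Fact.out : p.Prime).one_lt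
      omega
    · intro h
      rw [h, pow_zero] at hi'
      exact le_antisymm (Subgroup.relIndex_eq_one.1 hi') hNK
  have hKHi : H ≤ K ↔ i = 2 := by
    constructor
    · intro h
      have h1 : K = H := le_antisymm hKH h
      rw [h1, hidx] at hi'
      exact (Nat.pow_right_injective (Fact.out : p.Prime).two_le hi').symm
    · intro h
      have h1 := Subgroup.relIndex_mul_relIndex N K H hNK hKH
      rw [hi', h, hidx] at h1
      have h2 : K.relIndex H = 1 := by
        have hpp : 0 < p ^ 2 := pow_pos (Fact.out : p.Prime).pos 2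
        exact Nat.eq_of_mul_eq_mul_left hpp (by rw [h1, mul_one])
      exact Subgroup.relIndex_eq_one.1 h2
  have hi3 : i = 0 ∨ i = 1 ∨ i = 2 := by omega
  rcases hi3 with h | h | h
  · -- K = N
    have h1 : H ⊓ s ≤ N := hgN.2 (hKN.2 h)
    have h2 : ¬ H ≤ K := fun h' => by have := hKHi.1 h'; omega
    rw [if_neg h2] at e2
    have e2' : fc s N H = 0 := by
      rcases Nat.mul_eq_zero.1 e2 with h' | h'
      · omega
      · exact h'
    have hg : g = Nat.card ↥(N ⊓ s) := by
      rw [hg1 h1]
      have : H ⊓ s = N ⊓ s := le_antisymm (le_inf h1 inf_le_right) (inf_le_inf_right s hNH)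
      rw [this]
    rw [e3', e1', e2', hi', h, hg, hpq, hq]
    constructor
    · ring
    · omega
  · have h1 : ¬ H ⊓ s ≤ N := fun h' => by have := hKN.1 (hgN.1 h'); omega
    have h2 : ¬ H ≤ K := fun h' => by have := hKHi.1 h'; omega
    rw [if_neg h2] at e2
    have e2' : fc s N H = 0 := by
      rcases Nat.mul_eq_zero.1 e2 with h' | h'
      · omega
      · exact h'
    rw [e3', e1', e2', hi', h, hg2 h1]
    constructor
    · ring
    · rw [mul_zero, zero_add]; exact Nat.zero_le _
  · have h1 : ¬ H ⊓ s ≤ N := fun h' => by have := hKN.1 (hgN.1 h'); omega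
    have h2 : H ≤ K := hKHi.2 h
    rw [if_pos h2] at e2
    have e2' : fc s N H = p ^ 2 * Nat.card ↥(N ⊓ s) := by
      apply Nat.eq_of_mul_eq_mul_left hNpos
      rw [e2, ← hc]; ring
    rw [e3', e1', e2', hi', h, hg2 h1, hpq, hq]
    constructor
    · ring
    · rw [mul_zero, zero_add]

end

section families
variable [Finite A] {X Y : Type*} [Fintype X] [Fintype Y]

open Classical in
/-- the part of the family with `H ∩ s ≤ N` -/
noncomputable def reg (s : X → Subgroup A) (N H : Subgroup A) : ℕ :=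
  ∑ x, if H ⊓ s x ≤ N then Nat.card ↥(H ⊓ s x) else 0

/-- divisibility property of a family coming from an action -/
def DivFam (s : X → Subgroup A) : Prop :=
  ∀ N H : Subgroup A, N ≤ H → H ≤ Subgroup.normalizer (N : Set A) →
    Nat.card H ∣ cnt s N H ∧ Nat.card H ∣ reg s N H

theorem cnt_index_sq [Fact p.Prime] (s : X → Subgroup A) {N H : Subgroup A} (hNH : N ≤ H)
    (hn : H ≤ Subgroup.normalizer (N : Set A)) (hidx : N.relIndex H = p ^ 2) :
    p ^ 2 * cnt s N N + (p - 1) * cnt s N H = p * cnt s H H + p * (p - 1) * reg s N H ∧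
    p ^ 2 * reg s N H + cnt s N H ≤ p ^ 2 * cnt s N N := by
  classical
  have key := fun x => fc_index_sq (p := p) (s := s x) hNH hn hidx
    (if H ⊓ s x ≤ N then Nat.card ↥(H ⊓ s x) else 0) (fun h => if_pos h) (fun h => if_neg h)
  rw [cnt_eq_sum_fc, cnt_eq_sum_fc, cnt_eq_sum_fc, reg]
  constructor
  · rw [Finset.mul_sum, Finset.mul_sum, Finset.mul_sum, Finset.mul_sum,
      ← Finset.sum_add_distrib, ← Finset.sum_add_distrib]
    exact Finset.sum_congr rfl (fun x _ => (key x).1)
  · rw [Finset.mul_sum, Finset.mul_sum, ← Finset.sum_add_distrib]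
    exact Finset.sum_le_sum (fun x _ => (key x).2)

theorem rank_two [Fact p.Prime] {s : X → Subgroup A} {t : Y → Subgroup A} (hs : DivFam s)
    (ht : DivFam t) {N H : Subgroup A} (hNH : N ≤ H)
    (hn : H ≤ Subgroup.normalizer (N : Set A)) (hidx : N.relIndex H = p ^ 2)
    (h1 : cnt s N N = cnt t N N) (h2 : cnt s H H = cnt t H H) (h3 : cnt s N H ≠ cnt t N H) :
    (p ^ 2 + p) * Nat.card N ≤ cnt s N N := by
  obtain ⟨a1, a2⟩ := cnt_index_sq s hNH hn hidx
  obtain ⟨b1, b2⟩ := cnt_index_sq t hNH hn hidx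
  obtain ⟨⟨f, hf⟩, ⟨r, hr⟩⟩ := hs N H hNH hn
  obtain ⟨⟨f', hf'⟩, ⟨r', hr'⟩⟩ := ht N H hNH hn
  have hp2 : 2 ≤ p := (Fact.out : p.Prime).two_le
  have hc := card_mul_rel hNH
  rw [hidx] at hc
  have hNpos : 0 < Nat.card N := Nat.card_pos
  have hHpos : 0 < Nat.card H := Nat.card_pos
  rw [hf] at a1 a2 h3
  rw [hr] at a1 a2
  rw [← h1, hf', hr'] at b1 b2
  rw [← h2] at b1
  rw [hf'] at h3
  obtain ⟨q, hq⟩ : ∃ q, p = q + 2 := ⟨p - 2, by omega⟩
  have hpq : p - 1 = q + 1 := by omega
  rw [hpq] at a1 b1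
  -- difference
  have h4 : f + p * r' = f' + p * r := by
    have h5 : (q + 1) * (Nat.card H * f) + p * (q + 1) * (Nat.card H * r')
        = (q + 1) * (Nat.card H * f') + p * (q + 1) * (Nat.card H * r) := by
      omega
    have h6 : ((q + 1) * Nat.card H) * (f + p * r') = ((q + 1) * Nat.card H) * (f' + p * r) := by
      calc ((q + 1) * Nat.card H) * (f + p * r')
          = (q + 1) * (Nat.card H * f) + p * (q + 1) * (Nat.card H * r') := by ring
        _ = _ := h5
        _ = ((q + 1) * Nat.card H) * (f' + p * r) := by ring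
    exact Nat.eq_of_mul_eq_mul_left (Nat.mul_pos (Nat.succ_pos q) hHpos) h6
  have hff : f ≠ f' := fun h => h3 (by rw [h])
  have hpp : 0 < p ^ 2 := pow_pos (by omega) 2
  -- the bound for a single family
  have bound : ∀ f r : ℕ, p ^ 2 * (Nat.card H * r) + Nat.card H * f ≤ p ^ 2 * cnt s N N →
      1 ≤ r → p ≤ f → (p ^ 2 + p) * Nat.card N ≤ cnt s N N := by
    intro f r hb hr1 hf1
    apply Nat.le_of_mul_le_mul_left _ hpp
    calc p ^ 2 * ((p ^ 2 + p) * Nat.card N)
        = p ^ 2 * (Nat.card H * 1) + Nat.card H * p := by rw [← hc]; ring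
      _ ≤ p ^ 2 * (Nat.card H * r) + Nat.card H * f :=
          Nat.add_le_add (Nat.mul_le_mul_left _ (Nat.mul_le_mul_left _ hr1))
            (Nat.mul_le_mul_left _ hf1)
      _ ≤ _ := hb
  rcases Nat.lt_or_gt_of_ne hff with hlt | hlt
  · have h7 : r < r' := by
      by_contra hcon
      have : p * r' ≤ p * r := Nat.mul_le_mul_left _ (by omega)
      omega
    apply bound f' r' b2 (by omega)
    have : p * (r + 1) ≤ p * r' := Nat.mul_le_mul_left _ (by omega)
    have e : p * (r + 1) = p * r + p := by ring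
    omega
  · have h7 : r' < r := by
      by_contra hcon
      have : p * r ≤ p * r' := Nat.mul_le_mul_left _ (by omega)
      omega
    apply bound f r a2 (by omega)
    have : p * (r' + 1) ≤ p * r := Nat.mul_le_mul_left _ (by omega)
    have e : p * (r' + 1) = p * r' + p := by ring
    omega

theorem cnt_identity [Fact p.Prime] (s : X → Subgroup A) {N H : Subgroup A}
    (hNH : N ≤ H) (hn : H ≤ Subgroup.normalizer (N : Set A))
    {v : A} (hvH : v ∈ H) (hv : N.relIndex (N ⊔ Subgroup.zpowers v) = p)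
    (hn₁ : H ≤ Subgroup.normalizer ((N ⊔ Subgroup.zpowers v : Subgroup A) : Set A))
    (T : Finset (Subgroup A)) (hT : ∀ U, U ∈ T ↔ U ∈ hyp p N H v) :
    p * cnt s (N ⊔ Subgroup.zpowers v) H + T.card * cnt s N H
      = p * cnt s N H + ∑ U ∈ T, p * cnt s N U := by
  simp only [cnt_eq_sum_fc, Finset.mul_sum]
  rw [Finset.sum_comm (s := T), ← Finset.sum_add_distrib, ← Finset.sum_add_distrib]
  exact Finset.sum_congr rfl (fun x _ => fc_identity hNH hn hvH hv hn₁ T hT)

theorem fc_kernel [Fact p.Prime] {s N H L : Subgroup A} (hNL : N ≤ L) (hLH : L ≤ H)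
    (hn : H ≤ Subgroup.normalizer (N : Set A)) (hidx : N.relIndex L = p) :
    fc s N L ≤ p * fc s N N ∧ (fc s N L = p * fc s N N → fc s N H = fc s L H) := by
  classical
  have hNpos : 0 < Nat.card N := Nat.card_pos
  have hc := card_mul_rel hNL
  rw [hidx] at hc
  have e2 : Nat.card N * fc s N L = _ := fc_low (s := s) hNL hLH hn
  have e3 : Nat.card N * fc s N N = _ := fc_low (s := s) (le_refl N) (hNL.trans hLH) hn
  rw [if_pos le_sup_left] at e3
  have e3' : fc s N N = Nat.card ↥(N ⊓ s) := Nat.eq_of_mul_eq_mul_left hNpos e3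
  have hspos : 0 < Nat.card ↥(N ⊓ s) := Nat.card_pos
  have hppos : 0 < p := (Fact.out : p.Prime).pos
  by_cases h : L ≤ N ⊔ (H ⊓ s)
  · rw [if_pos h, ← hc] at e2
    have e2' : fc s N L = p * Nat.card ↥(N ⊓ s) := by
      apply Nat.eq_of_mul_eq_mul_left hNpos
      rw [e2]; ring
    refine ⟨by rw [e2', e3'], fun _ => ?_⟩
    have h1 : L ⊔ (H ⊓ s) = N ⊔ (H ⊓ s) := by
      apply le_antisymm
      · exact sup_le h le_sup_right
      · exact sup_le_sup_right hNL _
    unfold fc
    rw [h1]
  · rw [if_neg h] at e2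
    have e2' : fc s N L = 0 := by
      rcases Nat.mul_eq_zero.1 e2 with h' | h'
      · omega
      · exact h'
    rw [e2', e3']
    refine ⟨Nat.zero_le _, fun h' => ?_⟩
    have := Nat.mul_pos hppos hspos
    omega

theorem cnt_kernel [Fact p.Prime] (s : X → Subgroup A) {N H L : Subgroup A} (hNL : N ≤ L)
    (hLH : L ≤ H) (hn : H ≤ Subgroup.normalizer (N : Set A)) (hidx : N.relIndex L = p)
    (h : cnt s N L = p * cnt s N N) : cnt s N H = cnt s L H := by
  classical
  simp only [cnt_eq_sum_fc, Finset.mul_sum] at h ⊢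
  have h1 := (Finset.sum_eq_sum_iff_of_le (fun x _ =>
    (fc_kernel (s := s x) hNL hLH hn hidx).1)).1 h
  exact Finset.sum_congr rfl (fun x hx => (fc_kernel (s := s x) hNL hLH hn hidx).2 (h1 x hx))

theorem reduce [Fact p.Prime] {s : X → Subgroup A} {t : Y → Subgroup A} (hs : DivFam s)
    (ht : DivFam t) {Φ Z : Subgroup A} (hΦp : ∀ x : A, x ^ p ∈ Φ)
    (hΦc : ∀ x y : A, x * y * x⁻¹ * y⁻¹ ∈ Φ) (hZs : ∀ x, Z ≤ s x) (hZt : ∀ y, Z ≤ t y)
    (h0 : ∀ N, Φ ≤ N → cnt s N N = cnt t N N)
    (h2 : ∀ N H, Φ ≤ N → N ≤ H → N.relIndex H = p ^ 2 → H ⊓ Z ≤ N →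
      (p ^ 2 + p) * Nat.card N ≤ cnt s N N →
      (∀ v ∈ H, v ∉ N → cnt s N (N ⊔ Subgroup.zpowers v) ≠ p * cnt s N N ∧
        cnt t N (N ⊔ Subgroup.zpowers v) ≠ p * cnt t N N) → cnt s N H = cnt t N H) :
    ∀ (m : ℕ) (N H : Subgroup A), Φ ≤ N → N ≤ H → N.relIndex H = m →
      cnt s N H = cnt t N H := by
  classical
  have hp2 : 2 ≤ p := (Fact.out : p.Prime).two_le
  have hnorm : ∀ N : Subgroup A, Φ ≤ N → N.Normal := by
    intro N hN
    constructor
    intro n hn g
    have h1 := N.mul_mem (hN (hΦc g n)) hn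
    have e1 : g * n * g⁻¹ * n⁻¹ * n = g * n * g⁻¹ := by group
    rwa [e1] at h1
  have hle : ∀ N H : Subgroup A, Φ ≤ N → H ≤ Subgroup.normalizer (N : Set A) := by
    intro N H hN
    have := hnorm N hN
    rw [Subgroup.normalizer_eq_top]
    exact le_top
  intro m
  induction m using Nat.strong_induction_on with
  | _ m ih =>
    intro N H hΦN hNH hm
    have hNn := hnorm N hΦN
    have hn := hle N H hΦN
    -- the index is a power of `p`
    have hpow : ∃ n, m = p ^ n := by
      have hnorm' : (N.subgroupOf H).Normal := inferInstance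
      have hQp : IsPGroup p (↥H ⧸ N.subgroupOf H) := by
        intro q
        obtain ⟨x, rfl⟩ := QuotientGroup.mk_surjective q
        refine ⟨1, ?_⟩
        rw [← QuotientGroup.mk_pow, QuotientGroup.eq_one_iff, Subgroup.mem_subgroupOf, pow_one]
        exact hΦN (hΦp x)
      obtain ⟨n, hn'⟩ := IsPGroup.iff_card.1 hQp
      exact ⟨n, by rw [← hm]; exact hn'⟩
    obtain ⟨n, rfl⟩ := hpow
    have hcount : ∀ {v : A} (hvH : v ∈ H) (hv : v ∉ N), p ^ n ≤ p * Nat.card ↥(hyp p N H v) := by
      intro v hvH hv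
      rw [← hm]
      exact count_hyp hNH (fun x _ y _ => hΦN (hΦc x y)) (fun x _ => hΦN (hΦp x)) hvH hv
    have hUrel : ∀ {v : A} {U : Subgroup A}, U ∈ hyp p N H v → N.relIndex U * p = p ^ n := by
      intro v U hU
      have := Subgroup.relIndex_mul_relIndex N U H hU.1 hU.2.1
      rw [hU.2.2.1, hm] at this
      exact this
    have hUeq : ∀ {v : A} {U : Subgroup A}, U ∈ hyp p N H v → cnt s N U = cnt t N U := by
      intro v U hU
      have h3 := hUrel hU
      apply ih (N.relIndex U) _ N U hΦN hU.1 rfl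
      have h4 : 0 < p ^ n := pow_pos (by omega) n
      have h5 : 0 < N.relIndex U := by
        rcases Nat.eq_zero_or_pos (N.relIndex U) with h | h
        · rw [h, zero_mul] at h3; omega
        · exact h
      calc N.relIndex U < N.relIndex U * p := by
            apply lt_mul_of_one_lt_right h5 (by omega)
        _ = p ^ n := h3
    rcases Nat.lt_or_ge n 3 with hn3 | hn3
    · interval_cases n
      · rw [pow_zero] at hm
        have hNHeq : N = H := le_antisymm hNH (Subgroup.relIndex_eq_one.1 hm)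
        subst hNHeq
        exact h0 N hΦN
      · rw [pow_one] at hm
        have e2 : p * cnt s H H + cnt s N H = p * cnt s N H + p * cnt s N N := by
          simp only [cnt_eq_sum_fc, Finset.mul_sum]
          rw [← Finset.sum_add_distrib, ← Finset.sum_add_distrib]
          exact Finset.sum_congr rfl (fun x _ => fc_index_p hNH hn hm)
        have e3 : p * cnt t H H + cnt t N H = p * cnt t N H + p * cnt t N N := by
          simp only [cnt_eq_sum_fc, Finset.mul_sum]
          rw [← Finset.sum_add_distrib, ← Finset.sum_add_distrib]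
          exact Finset.sum_congr rfl (fun x _ => fc_index_p hNH hn hm)
        rw [h0 H (hΦN.trans hNH), h0 N hΦN] at e2
        obtain ⟨q, hq⟩ : ∃ q, p = q + 2 := ⟨p - 2, by omega⟩
        have e4 : (q + 1) * cnt s N H = (q + 1) * cnt t N H := by
          have e5 : p * cnt s N H = (q + 1) * cnt s N H + cnt s N H := by rw [hq]; ring
          have e6 : p * cnt t N H = (q + 1) * cnt t N H + cnt t N H := by rw [hq]; ring
          omega
        exact Nat.eq_of_mul_eq_mul_left (Nat.succ_pos q) e4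
      · by_cases hZ : H ⊓ Z ≤ N
        · by_contra hne
          refine hne (h2 N H hΦN hNH hm hZ
            (rank_two hs ht hNH hn hm (h0 N hΦN) (h0 H (hΦN.trans hNH)) hne) ?_)
          intro v hvH hvN
          have hidx := rel_zpowers (p := p) hNn hvN (hΦN (hΦp v))
          have hLH : N ⊔ Subgroup.zpowers v ≤ H := sup_le hNH ((Subgroup.zpowers_le).2 hvH)
          have hNL : N ≤ N ⊔ Subgroup.zpowers v := le_sup_left
          have hlt : p < p ^ 2 := by
            rw [pow_two]
            exact lt_mul_of_one_lt_left (by omega) (by omega)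
          have hrel := Subgroup.relIndex_mul_relIndex N (N ⊔ Subgroup.zpowers v) H hNL hLH
          rw [hidx, hm, pow_two] at hrel
          have hidx2 : (N ⊔ Subgroup.zpowers v).relIndex H = p :=
            Nat.eq_of_mul_eq_mul_left (by omega) hrel
          have i1 := ih p hlt N (N ⊔ Subgroup.zpowers v) hΦN hNL hidx
          have i2 := ih p hlt (N ⊔ Subgroup.zpowers v) H (hΦN.trans hNL) hLH hidx2
          have i3 := h0 N hΦN
          have hcon : cnt s N (N ⊔ Subgroup.zpowers v) = p * cnt s N N → False := by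
            intro h
            have h' : cnt t N (N ⊔ Subgroup.zpowers v) = p * cnt t N N := by
              rw [← i1, ← i3, h]
            apply hne
            rw [cnt_kernel s hNL hLH hn hidx h, cnt_kernel t hNL hLH hn hidx h', i2]
          refine ⟨hcon, fun h => hcon ?_⟩
          rw [i1, i3, h]
        · obtain ⟨c, hc, hcN⟩ := SetLike.not_le_iff_exists.1 hZ
          obtain ⟨hcH, hcZ⟩ := Subgroup.mem_inf.1 hc
          have h3 := hcount hcH hcN
          have h4 : Nat.card ↥(hyp p N H c) ≠ 0 := by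
            intro h
            rw [h, mul_zero] at h3
            have : 0 < p ^ 2 := pow_pos (by omega) 2
            omega
          have h5 : Nonempty ↥(hyp p N H c) := by
            by_contra h
            rw [not_nonempty_iff] at h
            exact h4 Nat.card_of_isEmpty
          obtain ⟨⟨U, hU⟩⟩ := h5
          have e1 : cnt s N H = p * cnt s N U := by
            simp only [cnt_eq_sum_fc, Finset.mul_sum]
            exact Finset.sum_congr rfl (fun x _ => fc_central hNH hn hcH (hZs x hcZ) hU)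
          have e2 : cnt t N H = p * cnt t N U := by
            simp only [cnt_eq_sum_fc, Finset.mul_sum]
            exact Finset.sum_congr rfl (fun x _ => fc_central hNH hn hcH (hZt x hcZ) hU)
          rw [e1, e2, hUeq hU]
    · -- `n ≥ 3`
      have hne : ¬ H ≤ N := by
        intro h
        rw [Subgroup.relIndex_eq_one.2 h] at hm
        have := Nat.one_lt_pow (by omega : n ≠ 0) (by omega : 1 < p)
        omega
      obtain ⟨v, hvH, hvN⟩ := SetLike.not_le_iff_exists.1 hne
      have hidx := rel_zpowers (p := p) hNn hvN (hΦN (hΦp v))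
      have hN₁H : N ⊔ Subgroup.zpowers v ≤ H := sup_le hNH ((Subgroup.zpowers_le).2 hvH)
      have hΦN₁ : Φ ≤ N ⊔ Subgroup.zpowers v := hΦN.trans le_sup_left
      have hfin : (hyp p N H v).Finite := Set.toFinite _
      have hT : ∀ U, U ∈ hfin.toFinset ↔ U ∈ hyp p N H v := fun U => by
        rw [Set.Finite.mem_toFinset]
      have e1 := cnt_identity s hNH hn hvH hidx (hle _ H hΦN₁) hfin.toFinset hT
      have e2 := cnt_identity t hNH hn hvH hidx (hle _ H hΦN₁) hfin.toFinset hT
      have hrel := Subgroup.relIndex_mul_relIndex N (N ⊔ Subgroup.zpowers v) H le_sup_left hN₁H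
      rw [hidx, hm] at hrel
      have e3 : cnt s (N ⊔ Subgroup.zpowers v) H = cnt t (N ⊔ Subgroup.zpowers v) H := by
        apply ih _ _ _ H hΦN₁ hN₁H rfl
        have h4 : 0 < p ^ n := pow_pos (by omega) n
        have h5 : 0 < (N ⊔ Subgroup.zpowers v).relIndex H := by
          rcases Nat.eq_zero_or_pos ((N ⊔ Subgroup.zpowers v).relIndex H) with h | h
          · rw [h, mul_zero] at hrel; omega
          · exact h
        calc (N ⊔ Subgroup.zpowers v).relIndex H < p * (N ⊔ Subgroup.zpowers v).relIndex H := by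
              apply lt_mul_of_one_lt_left h5 (by omega)
          _ = p ^ n := hrel
      have e4 : ∑ U ∈ hfin.toFinset, p * cnt s N U = ∑ U ∈ hfin.toFinset, p * cnt t N U :=
        Finset.sum_congr rfl (fun U hU => by rw [hUeq ((hT U).1 hU)])
      rw [e3, e4] at e1
      have hcard : hfin.toFinset.card = Nat.card ↥(hyp p N H v) := by
        rw [Nat.card_coe_set_eq, Set.ncard_eq_toFinset_card _ hfin]
      have h6 := hcount hvH hvN
      rw [← hcard] at h6
      have h7 : p < hfin.toFinset.card := by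
        have h8 : p ^ 3 ≤ p ^ n := Nat.pow_le_pow_right (by omega) hn3
        have h9 : p * p ^ 2 ≤ p * hfin.toFinset.card := by
          calc p * p ^ 2 = p ^ 3 := by ring
            _ ≤ _ := h8.trans h6
        have h10 := Nat.le_of_mul_le_mul_left h9 (by omega)
        have h11 : p < p ^ 2 := by
          rw [pow_two]
          exact lt_mul_of_one_lt_left (by omega) (by omega)
        omega
      obtain ⟨d, hd⟩ : ∃ d, hfin.toFinset.card = p + (d + 1) := ⟨hfin.toFinset.card - p - 1, by omega⟩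
      rw [hd] at e1 e2
      have e5 : (d + 1) * cnt s N H = (d + 1) * cnt t N H := by
        have e6 : (p + (d + 1)) * cnt s N H = p * cnt s N H + (d + 1) * cnt s N H := by ring
        have e7 : (p + (d + 1)) * cnt t N H = p * cnt t N H + (d + 1) * cnt t N H := by ring
        omega
      exact Nat.eq_of_mul_eq_mul_left (Nat.succ_pos d) e5

end families

end Pool.Agent.Lib.P0c8ca5
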