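import Mathlib
import Pool.Agent.Lib.P0c8ca5.Reduce
import Pool.Agent.Lib.P0c8ca5.Conj
import Pool.Agent.Lib.P0c8ca5.LHS

/-! Families of stabilizers, and the action on the pairs `(R, φ)`. -/

namespace Pool.Agent.Lib.P0c8ca5

open MonoidAlgebra

set_option linter.unusedSectionVars false

variable {p : ℕ} {k : Type*} [Field k] {A : Type*} [Group A]

section divis
variable {X : Type*} [MulAction A X] [Finite A]

theorem stabilizer_smul_cg (a : A) (x : X) :
    MulAction.stabilizer A (a • x) = cg a (MulAction.stabilizer A x) := by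
  ext g
  rw [mem_cg, MulAction.mem_stabilizer_iff, MulAction.mem_stabilizer_iff, mul_smul, mul_smul]
  constructor
  · intro h
    rw [h, inv_smul_smul]
  · intro h
    have := congrArg (fun y => a • y) h
    simp only [smul_inv_smul] at this
    exact this

theorem dvd_sum_finset (H : Subgroup A) : ∀ (n : ℕ) (S : Finset X), S.card = n →
    (∀ h ∈ H, ∀ x ∈ S, h • x ∈ S) →
    Nat.card H ∣ ∑ x ∈ S, Nat.card ↥(H ⊓ MulAction.stabilizer A x) := by
  classical
  intro n
  induction n using Nat.strong_induction_on with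
  | _ n ih =>
    intro S hSn hS
    rcases S.eq_empty_or_nonempty with rfl | ⟨x₀, hx₀⟩
    · simp
    · let O : Finset X := S.filter (fun x => ∃ h ∈ H, x = h • x₀)
      have hO : ∀ x, x ∈ O ↔ ∃ h ∈ H, x = h • x₀ := by
        intro x
        rw [Finset.mem_filter]
        constructor
        · exact fun h => h.2
        · rintro ⟨h, hh, rfl⟩
          exact ⟨hS h hh x₀ hx₀, h, hh, rfl⟩
      rw [← Finset.sum_filter_add_sum_filter_not S (fun x => ∃ h ∈ H, x = h • x₀)]
      have h1 : ∑ x ∈ S.filter (fun x => ∃ h ∈ H, x = h • x₀),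
          Nat.card ↥(H ⊓ MulAction.stabilizer A x) = Nat.card H := sum_orbit H x₀ O hO
      rw [h1]
      apply dvd_add (dvd_refl _)
      apply ih _ _ _ rfl
      · intro h hh x hx
        rw [Finset.mem_filter] at hx ⊢
        refine ⟨hS h hh x hx.1, ?_⟩
        rintro ⟨h', hh', he⟩
        apply hx.2
        refine ⟨h⁻¹ * h', H.mul_mem (H.inv_mem hh) hh', ?_⟩
        rw [mul_smul, ← he, inv_smul_smul]
      · rw [← hSn]
        apply Finset.card_lt_card
        rw [Finset.ssubset_iff_of_subset (Finset.filter_subset _ _)]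
        refine ⟨x₀, hx₀, ?_⟩
        rw [Finset.mem_filter]
        rintro ⟨_, h⟩
        exact h ⟨1, H.one_mem, (one_smul A x₀).symm⟩

open Classical in
theorem dvd_sum_pred [Fintype X] (H : Subgroup A) (P : X → Prop)
    (hP : ∀ h ∈ H, ∀ x, P x → P (h • x)) :
    Nat.card H ∣ ∑ x, if P x then Nat.card ↥(H ⊓ MulAction.stabilizer A x) else 0 := by
  rw [← Finset.sum_filter]
  apply dvd_sum_finset H _ _ rfl
  intro h hh x hx
  rw [Finset.mem_filter] at hx ⊢
  exact ⟨Finset.mem_univ _, hP h hh x hx.2⟩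

theorem divFam_stabilizer [Fintype X] : DivFam (fun x : X => MulAction.stabilizer A x) := by
  classical
  intro N H hNH hn
  have hcg : ∀ h ∈ H, ∀ x : X, H ⊓ MulAction.stabilizer A (h • x)
      = cg h (H ⊓ MulAction.stabilizer A x) := by
    intro h hh x
    rw [stabilizer_smul_cg, cg_inf, cg_of_mem hh]
  constructor
  · rw [cnt_def]
    apply dvd_sum_pred H (fun x => N ⊔ (H ⊓ MulAction.stabilizer A x) = H)
    intro h hh x hx
    rw [hcg h hh x]
    have := congrArg (cg h) hx
    rwa [cg_sup, cg_eq_self_iff.2 (hn hh), cg_of_mem hh] at this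
  · unfold reg
    apply dvd_sum_pred H (fun x => H ⊓ MulAction.stabilizer A x ≤ N)
    intro h hh x hx
    rw [hcg h hh x]
    have := cg_le_cg (g := h) hx
    rwa [cg_eq_self_iff.2 (hn hh)] at this

theorem DivFam.equiv {X Y : Type*} [Fintype X] [Fintype Y] {s : X → Subgroup A}
    {t : Y → Subgroup A} (E : X ≃ Y) (h : ∀ x, s x = t (E x)) (ht : DivFam t) : DivFam s := by
  classical
  intro N H hNH hn
  have h1 : cnt s N H = cnt t N H := by
    rw [cnt_def, cnt_def]
    exact Fintype.sum_equiv E _ _ (fun x => by rw [h])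
  have h2 : reg s N H = reg t N H := by
    unfold reg
    exact Fintype.sum_equiv E _ _ (fun x => by rw [h])
  rw [h1, h2]
  exact ht N H hNH hn

end divis

theorem divFam_stX [Finite A] {G : Subgroup A} [hG : G.Normal] {e : MonoidAlgebra k A}
    (he : InvBy ⊤ e) [Fintype (IrX G e)] : DivFam (stX (G := G) he) := by
  let _ := actX (G := G) he
  exact divFam_stabilizer

/-- pairs of a subgroup and a function -/
@[ext]
structure WP (k A : Type*) [Group A] where
  R : Subgroup A
  f : A → k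

instance : MulAction A (WP k A) where
  smul a w := ⟨cg a w.R, fun x => w.f (a⁻¹ * x * a)⟩
  one_smul w := by
    apply WP.ext
    · exact cg_one w.R
    · funext x
      change w.f (1⁻¹ * x * 1) = w.f x
      congr 1; group
  mul_smul a b w := by
    apply WP.ext
    · exact (cg_cg a b w.R).symm
    · funext x
      change w.f ((a * b)⁻¹ * x * (a * b)) = w.f (b⁻¹ * (a⁻¹ * x * a) * b)
      congr 1; group

theorem WP.smul_R (a : A) (w : WP k A) : (a • w).R = cg a w.R := rfl
theorem WP.smul_f (a : A) (w : WP k A) (x : A) : (a • w).f x = w.f (a⁻¹ * x * a) := rfl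

open Classical in
/-- the function on `A` defined by an element of `k[N_A(R)/R]` -/
noncomputable def infl (R : Subgroup A) (φ : MonoidAlgebra k (NQ R)) : A → k := fun x =>
  if hx : x ∈ Subgroup.normalizer (R : Set A) then φ.coeff (qm R x hx) else 0

theorem infl_of_mem {R : Subgroup A} (φ : MonoidAlgebra k (NQ R)) {x : A}
    (hx : x ∈ Subgroup.normalizer (R : Set A)) : infl R φ x = φ.coeff (qm R x hx) := dif_pos hx

theorem infl_of_notMem {R : Subgroup A} (φ : MonoidAlgebra k (NQ R)) {x : A}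
    (hx : x ∉ Subgroup.normalizer (R : Set A)) : infl R φ x = 0 := dif_neg hx

theorem infl_inj {R : Subgroup A} {φ φ' : MonoidAlgebra k (NQ R)} (h : infl R φ = infl R φ') :
    φ = φ' := by
  ext w
  obtain ⟨x, hx, rfl⟩ := qm_surj w
  rw [← infl_of_mem, ← infl_of_mem, h]

/-- the set of pairs `(R, φ)` -/
def YT (p : ℕ) (G : Subgroup A) (e : MonoidAlgebra k A) : Set (WP k A) :=
  {w | (w.R ≤ G ∧ IsPGroup p w.R) ∧
    ∃ φ, (IsDZ p (sec G w.R) φ ∧ φ * proj w.R e = φ) ∧ w.f = infl w.R φ}

section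
variable [Fintype A] {G : Subgroup A} [hG : G.Normal] {e : MonoidAlgebra k A}

theorem YT_smul (heG : SuppIn G e) (he : InvBy ⊤ e) (a : A) {w : WP k A} (hw : w ∈ YT p G e) :
    a • w ∈ YT p G e := by
  obtain ⟨⟨h1, h2⟩, φ, ⟨h3, h4⟩, h5⟩ := hw
  obtain ⟨φ', g1, g2, g3⟩ := conj_DZ a heG h3 h4
  rw [cg_normal a G] at g1
  rw [invBy_iff_cj.1 he a (Subgroup.mem_top a)] at g2
  refine ⟨⟨?_, isPGroup_cg h2⟩, φ', ⟨g1, g2⟩, ?_⟩
  · have := cg_le_cg (g := a) h1
    rwa [cg_normal a G] at this
  · funext x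
    rw [WP.smul_f, h5]
    change _ = infl (cg a w.R) φ' x
    have e1 : a * (a⁻¹ * x * a) * a⁻¹ = x := by group
    by_cases hx : a⁻¹ * x * a ∈ Subgroup.normalizer (w.R : Set A)
    · have hx' := conj_mem_normalizer a hx
      rw [infl_of_mem φ hx, ← g3 _ hx hx', ← infl_of_mem φ' hx', e1]
    · have hx' : x ∉ Subgroup.normalizer (cg a w.R : Set A) := by
        intro h
        apply hx
        rw [← cg_normalizer, mem_cg] at h
        exact h
      rw [infl_of_notMem φ hx, infl_of_notMem φ' hx']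

/-- the action on the pairs -/
@[reducible] def actY (heG : SuppIn G e) (he : InvBy ⊤ e) : MulAction A ↥(YT p G e) where
  smul a w := ⟨a • w.1, YT_smul heG he a w.2⟩
  one_smul w := Subtype.ext (one_smul A w.1)
  mul_smul a b w := Subtype.ext (mul_smul a b w.1)

/-- the identification of the two descriptions -/
theorem exists_equivPY (heG : SuppIn G e) (he : InvBy ⊤ e) :
    ∃ E : PT p G e ≃ ↥(YT p G e), ∀ x,
      letI := actY (p := p) heG he
      stP p G e x = MulAction.stabilizer A (E x) := by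
  let _ := actY (p := p) heG he
  let F : PT p G e → ↥(YT p G e) := fun x =>
    ⟨⟨x.1.1, infl x.1.1 x.2.1⟩, x.1.2, x.2.1, x.2.2, rfl⟩
  have hF : Function.Bijective F := by
    constructor
    · rintro ⟨⟨R, hR⟩, ⟨φ, hφ⟩⟩ ⟨⟨R', hR'⟩, ⟨φ', hφ'⟩⟩ h
      have h1 : (⟨R, infl R φ⟩ : WP k A) = ⟨R', infl R' φ'⟩ := congrArg Subtype.val h
      have h2 : R = R' := congrArg WP.R h1
      subst h2
      have h3 : infl R φ = infl R φ' := congrArg WP.f h1
      have h4 := infl_inj h3
      subst h4
      rfl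
    · rintro ⟨⟨R, f⟩, ⟨h1, φ, h2, h3⟩⟩
      refine ⟨⟨⟨R, h1⟩, ⟨φ, h2⟩⟩, ?_⟩
      apply Subtype.ext
      apply WP.ext
      · rfl
      · exact h3.symm
  refine ⟨Equiv.ofBijective F hF, ?_⟩
  rintro ⟨⟨R, hR⟩, ⟨φ, hφ⟩⟩
  ext a
  rw [MulAction.mem_stabilizer_iff]
  change a ∈ st R φ ↔ a • F _ = F _
  have hiff : a • F ⟨⟨R, hR⟩, ⟨φ, hφ⟩⟩ = F ⟨⟨R, hR⟩, ⟨φ, hφ⟩⟩ ↔
      (cg a R = R ∧ ∀ x, infl R φ (a⁻¹ * x * a) = infl R φ x) := by
    constructor
    · intro h
      have h1 := congrArg Subtype.val h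
      exact ⟨congrArg WP.R h1, fun x => congrFun (congrArg WP.f h1) x⟩
    · rintro ⟨h1, h2⟩
      apply Subtype.ext
      apply WP.ext
      · exact h1
      · funext x; exact h2 x
  rw [hiff, mem_st]
  constructor
  · rintro ⟨ha, hφa⟩
    refine ⟨cg_eq_self_iff.2 ha, fun x => ?_⟩
    by_cases hx : x ∈ Subgroup.normalizer (R : Set A)
    · have hx' : a⁻¹ * x * a ∈ Subgroup.normalizer (R : Set A) :=
        (Subgroup.normalizer (R : Set A)).mul_mem ((Subgroup.normalizer (R : Set A)).mul_mem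
          ((Subgroup.normalizer (R : Set A)).inv_mem ha) hx) ha
      rw [infl_of_mem φ hx, infl_of_mem φ hx']
      nth_rewrite 2 [← hφa]
      rw [coeff_cj]
      rfl
    · have hx' : a⁻¹ * x * a ∉ Subgroup.normalizer (R : Set A) := by
        intro h
        apply hx
        have := (Subgroup.normalizer (R : Set A)).mul_mem
          ((Subgroup.normalizer (R : Set A)).mul_mem ha h)
          ((Subgroup.normalizer (R : Set A)).inv_mem ha)
        have e1 : a * (a⁻¹ * x * a) * a⁻¹ = x := by group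
        rwa [e1] at this
      rw [infl_of_notMem φ hx, infl_of_notMem φ hx']
  · rintro ⟨h1, h2⟩
    have ha := cg_eq_self_iff.1 h1
    refine ⟨ha, ?_⟩
    ext w
    obtain ⟨x, hx, rfl⟩ := qm_surj w
    have hx' : a⁻¹ * x * a ∈ Subgroup.normalizer (R : Set A) :=
      (Subgroup.normalizer (R : Set A)).mul_mem ((Subgroup.normalizer (R : Set A)).mul_mem
        ((Subgroup.normalizer (R : Set A)).inv_mem ha) hx) ha
    have h3 := h2 x
    rw [infl_of_mem φ hx, infl_of_mem φ hx'] at h3
    rw [coeff_cj, ← h3]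
    rfl

theorem divFam_stP (heG : SuppIn G e) (he : InvBy ⊤ e) [Fintype (PT p G e)] :
    DivFam (stP p G e) := by
  obtain ⟨E, hE⟩ := exists_equivPY (p := p) heG he
  let _ := actY (p := p) heG he
  have : Finite ↥(YT p G e) := Finite.of_equiv _ E
  have : Fintype ↥(YT p G e) := Fintype.ofFinite _
  exact DivFam.equiv E hE divFam_stabilizer

end

end Pool.Agent.Lib.P0c8ca5
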