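import Mathlib
import Pool.Agent.Lib.P0c8ca5.Conj
import Pool.Agent.Lib.P0c8ca5.LHS

/-! Relating the official definitions (`DZ`, `Theta`, `NavarroEq`) to the counts. -/

namespace Pool.Agent.Lib.P0c8ca5

open MonoidAlgebra

set_option linter.unusedSectionVars false

variable {p : ℕ} {k : Type*} [Field k] {A : Type*} [Group A]

section
variable [Fintype A]

theorem proj_invBy' {M R : Subgroup A} {e : MonoidAlgebra k A} (he : InvBy M e) :
    InvBy (sec M R) (proj R e) := by
  classical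
  intro g hg w
  obtain ⟨x, hxM, hx, rfl⟩ := mem_sec.1 hg
  obtain ⟨n, hn, rfl⟩ := qm_surj w
  have hx' := Subgroup.mem_normalizer_iff.1 hx
  have e1 : qm R x hx * qm R n hn * (qm R x hx)⁻¹ = qm R (x * n * x⁻¹)
      ((Subgroup.normalizer (R : Set A)).mul_mem
        ((Subgroup.normalizer (R : Set A)).mul_mem hx hn)
        ((Subgroup.normalizer (R : Set A)).inv_mem hx)) := rfl
  rw [e1, coeff_proj, coeff_proj]
  refine (Fintype.sum_equiv (MulAut.conj x).toEquiv _ _ (fun y => ?_)).symm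
  change (if n⁻¹ * y ∈ R then e.coeff y else 0)
    = if (x * n * x⁻¹)⁻¹ * (x * y * x⁻¹) ∈ R then e.coeff (x * y * x⁻¹) else 0
  have e2 : (x * n * x⁻¹)⁻¹ * (x * y * x⁻¹) = x * (n⁻¹ * y) * x⁻¹ := by group
  rw [e2, he x hxM]
  by_cases h : n⁻¹ * y ∈ R
  · rw [if_pos h, if_pos ((hx' _).1 h)]
  · rw [if_neg h, if_neg (fun h' => h ((hx' _).2 h'))]

theorem proj_add {R : Subgroup A} (a b : MonoidAlgebra k A) :
    proj R (a + b) = proj R a + proj R b := by
  classical
  ext w
  obtain ⟨n, hn, rfl⟩ := qm_surj w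
  change _ = (proj R a).coeff _ + (proj R b).coeff _
  rw [coeff_proj, coeff_proj, coeff_proj, ← Finset.sum_add_distrib]
  refine Finset.sum_congr rfl (fun x _ => ?_)
  by_cases h : n⁻¹ * x ∈ R
  · rw [if_pos h, if_pos h, if_pos h]; rfl
  · rw [if_neg h, if_neg h, if_neg h, add_zero]

theorem proj_smul {R : Subgroup A} (c : k) (a : MonoidAlgebra k A) :
    proj R (c • a) = c • proj R a := by
  classical
  ext w
  obtain ⟨n, hn, rfl⟩ := qm_surj w
  change _ = c * (proj R a).coeff _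
  rw [coeff_proj, coeff_proj, Finset.mul_sum]
  refine Finset.sum_congr rfl (fun x _ => ?_)
  by_cases h : n⁻¹ * x ∈ R
  · rw [if_pos h, if_pos h]; rfl
  · rw [if_neg h, if_neg h, mul_zero]

theorem coeff_one' {B : Type*} [Group B] [DecidableEq B] (x : B) :
    (1 : MonoidAlgebra k B).coeff x = if x = 1 then 1 else 0 := by
  rw [MonoidAlgebra.one_def]
  change (Finsupp.single 1 1 : B →₀ k) x = _
  rw [Finsupp.single_apply]
  simp only [eq_comm]

theorem proj_one {R : Subgroup A} : proj R (1 : MonoidAlgebra k A) = 1 := by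
  classical
  ext w
  obtain ⟨n, hn, rfl⟩ := qm_surj w
  rw [coeff_proj, coeff_one', Finset.sum_eq_single 1]
  · rw [coeff_one', if_pos rfl]
    simp only [qm_eq_one_iff, mul_one, Subgroup.inv_mem_iff]
  · intro x _ hx
    rw [coeff_one', if_neg hx]
    simp
  · intro h; exact absurd (Finset.mem_univ _) h

variable [Fact p.Prime] [CharP k p]

/-- the homomorphism between centres given by projection -/
noncomputable def projHom {K Q : Subgroup A} (hQK : Q ≤ K) (hQ : IsPGroup p Q)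
    {L : Subgroup (NQ Q)} (hL : sec K Q = L) : fixAlg k K K →ₐ[k] fixAlg k L L where
  toFun z := ⟨proj Q z.1, by
    rw [← hL, mem_fixAlg]
    exact ⟨proj_suppIn (mem_fixAlg.1 z.2).1 Q, proj_invBy' (mem_fixAlg.1 z.2).2⟩⟩
  map_one' := Subtype.ext proj_one
  map_mul' x y := Subtype.ext (proj_mul hQ ((mem_fixAlg.1 x.2).2.mono hQK)
    ((mem_fixAlg.1 y.2).2.mono hQK))
  map_zero' := Subtype.ext (by
    change proj Q (0 : MonoidAlgebra k A) = 0
    rw [← zero_smul k (0 : MonoidAlgebra k A), proj_smul, zero_smul])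
  map_add' x y := Subtype.ext (proj_add _ _)
  commutes' r := Subtype.ext (by
    change proj Q (algebraMap k (MonoidAlgebra k A) r) = algebraMap k _ r
    rw [Algebra.algebraMap_eq_smul_one, proj_smul, proj_one, Algebra.algebraMap_eq_smul_one])

theorem projHom_apply {K Q : Subgroup A} (hQK : Q ≤ K) (hQ : IsPGroup p Q)
    {L : Subgroup (NQ Q)} (hL : sec K Q = L) (z : fixAlg k K K) :
    (projHom hQK hQ hL z : MonoidAlgebra k (NQ Q)) = proj Q z.1 := rfl

variable [IsAlgClosed k]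

theorem sec_inf_normalizer (H Q : Subgroup A) :
    sec (H ⊓ Subgroup.normalizer (Q : Set A)) Q = sec H Q := by
  apply le_antisymm (sec_mono inf_le_left)
  intro w hw
  obtain ⟨x, hx, hx', rfl⟩ := mem_sec.1 hw
  exact qm_mem_sec _ (Subgroup.mem_inf.2 ⟨hx, hx'⟩)

theorem proj_congr {Q : Subgroup A} {a b : MonoidAlgebra k A}
    (h : ∀ x ∈ Subgroup.normalizer (Q : Set A), a.coeff x = b.coeff x) :
    proj Q a = proj Q b := by
  classical
  ext w
  obtain ⟨n, hn, rfl⟩ := qm_surj w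
  rw [coeff_proj, coeff_proj]
  refine Finset.sum_congr rfl (fun x _ => ?_)
  by_cases hx : n⁻¹ * x ∈ Q
  · rw [if_pos hx, if_pos hx]
    apply h
    have := (Subgroup.normalizer (Q : Set A)).mul_mem hn (Subgroup.le_normalizer hx)
    rwa [mul_inv_cancel_left] at this
  · rw [if_neg hx, if_neg hx]

/-- the homomorphism given by a central character -/
def IsCentChar.toHom {K : Subgroup A} {l : MonoidAlgebra k A → k} (h : IsCentChar K l) :
    fixAlg k K K →ₐ[k] k where
  toFun z := l z.1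
  map_one' := h.one
  map_mul' x y := h.mul x.1 y.1 x.2 y.2
  map_zero' := by
    have h1 := h.smul 0 1 (fixAlg k K K).one_mem
    rw [zero_smul, zero_mul] at h1
    exact h1
  map_add' x y := h.add x.1 y.1 x.2 y.2
  commutes' r := by
    change l (algebraMap k (MonoidAlgebra k A) r) = r
    rw [Algebra.algebraMap_eq_smul_one, h.smul r 1 (fixAlg k K K).one_mem, h.one, mul_one]

open Classical in
/-- the function given by a homomorphism -/
noncomputable def ofHom {K : Subgroup A} (L : fixAlg k K K →ₐ[k] k) (z : MonoidAlgebra k A) : k :=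
  if h : z ∈ fixAlg k K K then L ⟨z, h⟩ else 0

theorem ofHom_mem {K : Subgroup A} (L : fixAlg k K K →ₐ[k] k) {z : MonoidAlgebra k A}
    (h : z ∈ fixAlg k K K) : ofHom L z = L ⟨z, h⟩ := dif_pos h

theorem ofHom_isCentChar {K : Subgroup A} (L : fixAlg k K K →ₐ[k] k) :
    IsCentChar K (ofHom L) where
  one := by
    rw [ofHom_mem L (fixAlg k K K).one_mem]
    exact map_one L
  mul a b ha hb := by
    rw [ofHom_mem L ((fixAlg k K K).mul_mem ha hb), ofHom_mem L ha, ofHom_mem L hb, ← map_mul]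
    rfl
  add a b ha hb := by
    rw [ofHom_mem L ((fixAlg k K K).add_mem ha hb), ofHom_mem L ha, ofHom_mem L hb, ← map_add]
    rfl
  smul c a ha := by
    rw [ofHom_mem L ((fixAlg k K K).smul_mem ha c), ofHom_mem L ha, ← smul_eq_mul, ← map_smul]
    rfl

/-- the official set `DZ` -/
theorem DZ_eq {H Q : Subgroup A} (hQH : Q ≤ H) (hQ : IsPGroup p Q) {e : MonoidAlgebra k A}
    (he : IsBlock H e) :
    DZ p H e Q = {f | IsDZ p (sec H Q) f ∧ f * proj Q e = f} := by
  classical
  have hQC : Q ≤ H ⊓ Subgroup.normalizer (Q : Set A) := le_inf hQH Subgroup.le_normalizer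
  have hLC := sec_inf_normalizer H Q
  ext f
  -- the two homomorphisms
  let πH := projHom (k := k) hQH hQ (rfl : sec H Q = sec H Q)
  let πC := projHom (k := k) hQC hQ hLC
  -- compatibility
  have hcompat : ∀ (z : fixAlg k H H) (z' : fixAlg k (H ⊓ Subgroup.normalizer (Q : Set A))
      (H ⊓ Subgroup.normalizer (Q : Set A))),
      (∀ x ∈ H ⊓ Subgroup.normalizer (Q : Set A), z'.1.coeff x = z.1.coeff x) → πC z' = πH z := by
    intro z z' hzz
    apply Subtype.ext
    rw [projHom_apply, projHom_apply]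
    apply proj_congr
    intro x hx
    by_cases hxH : x ∈ H
    · exact hzz x ⟨hxH, hx⟩
    · have h1 : z'.1.coeff x = 0 := by
        by_contra h
        exact hxH ((mem_fixAlg.1 z'.2).1 x h).1
      have h2 : z.1.coeff x = 0 := by
        by_contra h
        exact hxH ((mem_fixAlg.1 z.2).1 x h)
      rw [h1, h2]
  constructor
  · rintro ⟨h1, h2, b, b', hb, hbf, hb', ⟨l₀, w₀, hl₀, hw₀, hl1, hw1, hlw₀⟩, hbe⟩
    let l := hl₀.toHom
    let w := hw₀.toHom
    have hlw : ∀ (z : fixAlg k H H) (z' : fixAlg k (H ⊓ Subgroup.normalizer (Q : Set A))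
        (H ⊓ Subgroup.normalizer (Q : Set A))),
        (∀ x ∈ H ⊓ Subgroup.normalizer (Q : Set A), z'.1.coeff x = z.1.coeff x) → w z = l z' :=
      fun z z' h => hlw₀ z.1 z'.1 z.2 z'.2 h
    refine ⟨isDZ_iff.2 ⟨h1, h2⟩, ?_⟩
    have hb'e : b' = e := by
      rcases hb'.eq_or_mul_eq_zero he with h | h
      · exact h
      · exact absurd h hbe
    subst hb'e
    obtain ⟨lf, hlf⟩ := PrimIdem.exists_char (k := k) h1.primIdem
    -- `lf ∘ πC` is the character at `b`
    have hchar : l = lf.comp πC := by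
      apply hb.primIdem.char_unique l (lf.comp πC) hl1
      change lf (πC ⟨b, hb.mem⟩) = 1
      have h3 : (πC ⟨b, hb.mem⟩).1 = proj Q b := rfl
      have h4 : (πC ⟨b, hb.mem⟩).1 * (πC ⟨b, hb.mem⟩).1 = (πC ⟨b, hb.mem⟩).1 := by
        have := hb.primIdem.idem
        rw [← Subalgebra.coe_mul, ← map_mul]
        congr 2
      rcases h1.mul_eq (πC ⟨b, hb.mem⟩).2 h4 with h5 | h5
      · exfalso
        apply hbf
        rw [← h3, h5]
      · have h6 : πC ⟨b, hb.mem⟩ * ⟨f, h1.mem⟩ = ⟨f, h1.mem⟩ := Subtype.ext h5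
        have h7 := congrArg lf h6
        rw [map_mul, hlf, mul_one] at h7
        exact h7
    -- the restriction of `b'`
    have hres : ∃ z' : fixAlg k (H ⊓ Subgroup.normalizer (Q : Set A))
        (H ⊓ Subgroup.normalizer (Q : Set A)),
        ∀ x ∈ H ⊓ Subgroup.normalizer (Q : Set A), z'.1.coeff x = b'.coeff x := by
      refine ⟨⟨resS ((H ⊓ Subgroup.normalizer (Q : Set A) : Subgroup A) : Set A) b', ?_⟩, ?_⟩
      · rw [mem_fixAlg]
        refine ⟨resS_suppIn, ?_⟩
        apply resS_invBy Subgroup.le_normalizer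
        exact he.invBy.mono inf_le_left
      · intro x hx
        exact coeff_resS_of_mem _ hx
    obtain ⟨z', hz'⟩ := hres
    have h8 := hlw ⟨b', he.mem⟩ z' hz'
    have hw1' : w ⟨b', he.mem⟩ = 1 := hw1
    rw [hw1', hchar] at h8
    change 1 = lf (πC z') at h8
    rw [hcompat ⟨b', he.mem⟩ z' hz'] at h8
    -- conclude
    have h9 : (πH ⟨b', he.mem⟩).1 = proj Q b' := rfl
    have h10 : (πH ⟨b', he.mem⟩).1 * (πH ⟨b', he.mem⟩).1 = (πH ⟨b', he.mem⟩).1 := by
      have := he.primIdem.idem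
      rw [← Subalgebra.coe_mul, ← map_mul]
      congr 2
    have hcomm : f * proj Q b' = proj Q b' * f :=
      commute_of h1.suppIn (proj_invBy' he.invBy)
    rcases h1.mul_eq (πH ⟨b', he.mem⟩).2 h10 with h5 | h5
    · exfalso
      have h6 : πH ⟨b', he.mem⟩ * ⟨f, h1.mem⟩ = 0 := Subtype.ext h5
      have h7 := congrArg lf h6
      rw [map_mul, hlf, mul_one, map_zero, ← h8] at h7
      exact one_ne_zero h7
    · rw [hcomm, ← h9, h5]
  · rintro ⟨h1, h2⟩
    obtain ⟨h1a, h1b⟩ := isDZ_iff.1 h1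
    obtain ⟨lf, hlf⟩ := PrimIdem.exists_char (k := k) h1a.primIdem
    obtain ⟨b, hb, hbl⟩ := exists_prim_of_char (lf.comp πC)
    refine ⟨h1a, h1b, b.1, e, isBlock_of_primIdem hb, ?_, he, ?_, ?_⟩
    · intro h
      have h6 : πC b * ⟨f, h1a.mem⟩ = 0 := Subtype.ext h
      have h7 := congrArg lf h6
      rw [map_mul, hlf, mul_one, map_zero] at h7
      have h8 : lf (πC b) = 1 := hbl
      rw [h8] at h7
      exact one_ne_zero h7
    · refine ⟨ofHom (lf.comp πC), ofHom (lf.comp πH), ofHom_isCentChar _, ofHom_isCentChar _,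
        (ofHom_mem _ b.2).trans hbl, (ofHom_mem _ he.mem).trans ?_, ?_⟩
      · change lf (πH ⟨e, he.mem⟩) = 1
        have h6 : ⟨f, h1a.mem⟩ * πH ⟨e, he.mem⟩ = ⟨f, h1a.mem⟩ := Subtype.ext h2
        have h7 := congrArg lf h6
        rw [map_mul, hlf, one_mul] at h7
        exact h7
      · intro z z' hz hz' hzz
        rw [ofHom_mem _ hz, ofHom_mem _ hz']
        change lf (πH ⟨z, hz⟩) = lf (πC ⟨z', hz'⟩)
        rw [hcompat ⟨z, hz⟩ ⟨z', hz'⟩ hzz]
    · rw [he.idem]; exact he.ne_zero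

/-- nonvanishing of the projection implies nonvanishing of the Brauer map -/
theorem hasBr_of_proj {Q : Subgroup A} (hQ : IsPGroup p Q) {a : MonoidAlgebra k A}
    (ha : InvBy Q a) (h : proj Q a ≠ 0) : HasBr Q a := by
  classical
  by_contra hcon
  apply h
  ext w
  obtain ⟨n, hn, rfl⟩ := qm_surj w
  have hn' := Subgroup.mem_normalizer_iff.1 hn
  rw [coeff_proj]
  change _ = (0 : k)
  rw [sum_conj_eq (p := p) hQ (fun x => if n⁻¹ * x ∈ Q then a.coeff x else 0) ?_
    (Finset.univ.filter (fun x => x ∈ Subgroup.centralizer (Q : Set A))) (fun x => by simp)]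
  · apply Finset.sum_eq_zero
    intro x hx
    rw [Finset.mem_filter] at hx
    have : a.coeff x = 0 := by
      by_contra h0
      exact hcon ⟨x, hx.2, h0⟩
    rw [this]; simp
  · intro d hd x
    have h5 : n⁻¹ * d * n ∈ Q := by
      apply (hn' _).2
      have e2 : n * (n⁻¹ * d * n) * n⁻¹ = d := by group
      rw [e2]; exact hd
    have hcond : n⁻¹ * (d * x * d⁻¹) ∈ Q ↔ n⁻¹ * x ∈ Q := by
      have e1 : n⁻¹ * (d * x * d⁻¹) = (n⁻¹ * d * n) * (n⁻¹ * x) * d⁻¹ := by group
      rw [e1, Q.mul_mem_cancel_right (Q.inv_mem hd), Q.mul_mem_cancel_left h5]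
    simp only [hcond]
    rw [ha d hd x]

theorem exists_defect {N P : Subgroup A} {e : MonoidAlgebra k A} (hP : P ≤ N)
    (hp : IsPGroup p P) (hbr : HasBr P e) : ∃ D, IsDefectGroup p N e D ∧ P ≤ D := by
  classical
  have : Finite (Subgroup A) := inferInstance
  let S : Set (Subgroup A) := {D | D ≤ N ∧ IsPGroup p D ∧ HasBr D e ∧ P ≤ D}
  have hS : S.Nonempty := ⟨P, hP, hp, hbr, le_refl P⟩
  obtain ⟨D, hD⟩ := (Set.toFinite S).exists_maximal hS
  obtain ⟨h1, h2, h3, h4⟩ := hD.prop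
  refine ⟨D, ⟨h1, h2, h3, ?_⟩, h4⟩
  intro P' hP' hpP' hbr' hDP'
  exact (hD.eq_of_le ⟨hP', hpP', hbr', h4.trans hDP'⟩ hDP').symm

end

end Pool.Agent.Lib.P0c8ca5
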