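import Mathlib
import Pool.Agent.Lib.P0c8ca5.Official

/-! Navarro's equality as an equality of two counts. -/

namespace Pool.Agent.Lib.P0c8ca5

open MonoidAlgebra

set_option linter.unusedSectionVars false

variable {p : ℕ} {k : Type*} [Field k] {A : Type*} [Group A]

theorem isBlock_up [Finite A] [Fact p.Prime] [CharP k p] {G H : Subgroup A} [hG : G.Normal]
    (hGH : G ≤ H)
    (hp : ∀ x : A, ∃ n : ℕ, x ^ p ^ n ∈ G) {e : MonoidAlgebra k A} (he : IsBlock G e)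
    (hinv : InvBy ⊤ e) : IsBlock H e where
  mem := mem_fixAlg.2 ⟨he.suppIn.mono hGH, hinv.mono le_top⟩
  idem := he.idem
  ne_zero := he.ne_zero
  prim := fun f hf hff hfe => by
    have h1 : SuppIn G f := supp_in_of_pQuotient hGH
      (fun x _ => mem_norm_of_normal G x) (fun x _ => hp x) hf hff
    exact he.prim f (mem_fixAlg.2 ⟨h1, (mem_fixAlg.1 hf).2.mono hGH⟩) hff hfe

theorem exists_transversal [Finite A] (H : Subgroup A) (Θ : Set (Subgroup A)) :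
    ∃ T : Finset (Subgroup A), ↑T ⊆ Θ ∧
      ∀ Q ∈ Θ, ∃! Q', Q' ∈ T ∧ ∃ h ∈ H, Q' = Q.map (MulAut.conj h).toMonoidHom := by
  classical
  have : Finite (Subgroup A) := inferInstance
  let s : Setoid (Subgroup A) :=
    { r := fun Q Q' => ∃ h ∈ H, Q' = cg h Q
      iseqv :=
        { refl := fun Q => ⟨1, H.one_mem, (cg_one Q).symm⟩
          symm := fun {Q Q'} ⟨h, hh, hQ⟩ => ⟨h⁻¹, H.inv_mem hh, by
            rw [hQ, cg_cg, inv_mul_cancel, cg_one]⟩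
          trans := fun {Q Q' Q''} ⟨h, hh, hQ⟩ ⟨h', hh', hQ'⟩ => ⟨h' * h, H.mul_mem hh' hh, by
            rw [hQ', hQ, cg_cg]⟩ } }
  let mq : Subgroup A → Quotient s := Quotient.mk s
  let f : Quotient s → Subgroup A := fun c =>
    if hc : ∃ Q ∈ Θ, mq Q = c then hc.choose else ⊥
  have hf : ∀ Q ∈ Θ, f (mq Q) ∈ Θ ∧ (mq (f (mq Q))) = (mq Q) := by
    intro Q hQ
    have hc : ∃ Q' ∈ Θ, mq Q' = (mq Q) := ⟨Q, hQ, rfl⟩
    have h1 : f (mq Q) = hc.choose := dif_pos hc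
    rw [h1]
    exact hc.choose_spec
  refine ⟨(Set.toFinite ((fun Q => f (mq Q)) '' Θ)).toFinset, ?_, ?_⟩
  · intro Q hQ
    rw [Set.Finite.coe_toFinset] at hQ
    obtain ⟨Q', hQ', rfl⟩ := hQ
    exact (hf Q' hQ').1
  · intro Q hQ
    refine ⟨f (mq Q), ⟨?_, ?_⟩, ?_⟩
    · rw [Set.Finite.mem_toFinset]
      exact ⟨Q, hQ, rfl⟩
    · exact Quotient.exact (hf Q hQ).2.symm
    · rintro Q' ⟨h1, h2⟩
      rw [Set.Finite.mem_toFinset] at h1
      obtain ⟨Q₂, hQ₂, rfl⟩ := h1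
      have h3 : mq Q = mq (f (mq Q₂)) := Quotient.sound h2
      have h4 := (hf Q₂ hQ₂).2
      change f (mq Q₂) = f (mq Q)
      rw [h3, h4]

theorem sum_transversal [Finite A] {N H : Subgroup A} (hn : H ≤ Subgroup.normalizer (N : Set A))
    {e : MonoidAlgebra k A} (T : Finset (Subgroup A)) (hT1 : ↑T ⊆ Theta p N H e)
    (hT2 : ∀ Q ∈ Theta p N H e,
      ∃! Q', Q' ∈ T ∧ ∃ h ∈ H, Q' = Q.map (MulAut.conj h).toMonoidHom)
    (S : Finset (Subgroup A)) (hS : ∀ Q, Q ∈ S ↔ Q ≤ H ∧ IsPGroup p Q ∧ N ⊔ Q = H)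
    (w : Subgroup A → ℕ) (hw : ∀ Q ∈ S, w Q ≠ 0 → Q ∈ Theta p N H e)
    (hwc : ∀ Q, ∀ h ∈ H, w (cg h Q) = w Q) :
    ∑ Q ∈ S, Nat.card ↥(H ⊓ Subgroup.normalizer (Q : Set A)) * w Q
      = Nat.card H * ∑ Q ∈ T, w Q := by
  classical
  have : Fintype (Subgroup A) := Fintype.ofFinite _
  let F : Subgroup A → ℕ := fun Q => Nat.card ↥(H ⊓ Subgroup.normalizer (Q : Set A)) * w Q
  have h1 : ∀ Q' ∈ T, Nat.card H * w Q' = ∑ Q, if ∃ h ∈ H, Q = cg h Q' then F Q else 0 := by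
    intro Q' _
    rw [← Finset.sum_filter, ← sum_class H Q' (Finset.univ.filter (fun Q => ∃ h ∈ H, Q = cg h Q'))
      (fun Q => by simp), Finset.sum_mul]
    refine Finset.sum_congr rfl (fun Q hQ => ?_)
    rw [Finset.mem_filter] at hQ
    obtain ⟨_, h, hh, rfl⟩ := hQ
    change _ = _ * w (cg h Q')
    rw [hwc _ h hh]
  rw [Finset.mul_sum, Finset.sum_congr rfl h1, Finset.sum_comm]
  change ∑ Q ∈ S, F Q = _
  rw [← Finset.sum_filter_add_sum_filter_not Finset.univ (fun Q => Q ∈ S)]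
  have h2 : (∑ Q ∈ Finset.univ.filter (fun Q => ¬ Q ∈ S),
      ∑ Q' ∈ T, if ∃ h ∈ H, Q = cg h Q' then F Q else 0) = 0 := by
    apply Finset.sum_eq_zero
    intro Q hQ
    rw [Finset.mem_filter] at hQ
    apply Finset.sum_eq_zero
    intro Q' hQ'
    rw [if_neg]
    rintro ⟨h, hh, rfl⟩
    apply hQ.2
    obtain ⟨h3, h4, h5, _⟩ := hT1 hQ'
    rw [hS]
    refine ⟨?_, isPGroup_cg h4, ?_⟩
    · have := cg_le_cg (g := h) h3
      rwa [cg_of_mem hh] at this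
    · have := congrArg (cg h) h5
      rwa [cg_of_mem hh, cg_sup, cg_eq_self_iff.2 (hn hh)] at this
  rw [h2, add_zero]
  have h3 : Finset.univ.filter (fun Q => Q ∈ S) = S := by ext Q; simp
  rw [h3]
  refine Finset.sum_congr rfl (fun Q hQ => ?_)
  by_cases hwQ : w Q = 0
  · have hF : F Q = 0 := by
      change _ * w Q = 0
      rw [hwQ, mul_zero]
    rw [hF]
    symm
    apply Finset.sum_eq_zero
    intro Q' _
    simp
  · obtain ⟨Q', ⟨hQ'T, h, hh, hQ'⟩, huniq⟩ := hT2 Q (hw Q hQ hwQ)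
    rw [Finset.sum_eq_single Q']
    · rw [if_pos]
      refine ⟨h⁻¹, H.inv_mem hh, ?_⟩
      rw [hQ']
      change Q = cg h⁻¹ (cg h Q)
      rw [cg_cg, inv_mul_cancel, cg_one]
    · intro Q'' hQ'' hne
      rw [if_neg]
      rintro ⟨h', hh', hQQ⟩
      apply hne
      apply huniq
      refine ⟨hQ'', h'⁻¹, H.inv_mem hh', ?_⟩
      change Q'' = cg h'⁻¹ Q
      rw [hQQ, cg_cg, inv_mul_cancel, cg_one]
    · intro h'; exact absurd hQ'T h'

theorem navarroEq_iff [Fintype A] [Fact p.Prime] [CharP k p] [IsAlgClosed k]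
    {G N H : Subgroup A} [hG : G.Normal] (hGN : G ≤ N) (hNH : N ≤ H)
    (hn : H ≤ Subgroup.normalizer (N : Set A)) (hp : ∀ x : A, ∃ n : ℕ, x ^ p ^ n ∈ G)
    {e : MonoidAlgebra k A} (he : IsBlock G e) (hinv : InvBy ⊤ e)
    [Fintype (IrX G e)] [Fintype (PT p G e)] :
    NavarroEq p N H e ↔ cnt (stX (G := G) hinv) N H = cnt (stP p G e) N H := by
  classical
  have : Fintype (Subgroup A) := Fintype.ofFinite _
  have hGH := hGN.trans hNH
  have heH : IsBlock H e := isBlock_up hGH hp he hinv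
  let S : Finset (Subgroup A) := Finset.univ.filter (fun Q => Q ≤ H ∧ IsPGroup p Q ∧ N ⊔ Q = H)
  have hS : ∀ Q, Q ∈ S ↔ Q ≤ H ∧ IsPGroup p Q ∧ N ⊔ Q = H := by
    intro Q; simp [S]
  let w : Subgroup A → ℕ := fun Q =>
    Nat.card {f : MonoidAlgebra k (NQ Q) | IsDZ p (sec H Q) f ∧ f * proj Q e = f}
  have hwc : ∀ Q, ∀ h ∈ H, w (cg h Q) = w Q := fun Q h hh =>
    card_cg_eq heH.suppIn heH.invBy hh
  have hw : ∀ Q ∈ S, w Q ≠ 0 → Q ∈ Theta p N H e := by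
    intro Q hQ hwQ
    obtain ⟨h1, h2, h3⟩ := (hS Q).1 hQ
    obtain ⟨⟨f, hf1, hf2⟩⟩ : Nonempty
        {f : MonoidAlgebra k (NQ Q) | IsDZ p (sec H Q) f ∧ f * proj Q e = f} := by
      by_contra hemp
      rw [not_nonempty_iff] at hemp
      exact hwQ Nat.card_of_isEmpty
    have h4 : proj Q e ≠ 0 := by
      intro h
      rw [h, mul_zero] at hf2
      exact hf1.blk.ne_zero hf2.symm
    have h5 : HasBr Q e := hasBr_of_proj (p := p) h2 (hinv.mono le_top) h4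
    have h6 : HasBr (Q ⊓ N) e := by
      obtain ⟨x, hx, hx'⟩ := h5
      exact ⟨x, Subgroup.centralizer_le (inf_le_left : Q ⊓ N ≤ Q) hx, hx'⟩
    obtain ⟨D, hD, hQD⟩ := exists_defect (p := p) (N := N) (P := Q ⊓ N) inf_le_right
      (h2.to_le inf_le_left) h6
    exact ⟨h1, h2, h3, D, hD, hQD⟩
  have hcard : ∀ Q ∈ S, Nat.card (DZ p H e Q) = w Q := by
    intro Q hQ
    obtain ⟨h1, h2, h3⟩ := (hS Q).1 hQ
    rw [DZ_eq h1 h2 heH]
  have hTS : ∀ T : Finset (Subgroup A), ↑T ⊆ Theta p N H e → ∀ Q ∈ T, Q ∈ S := by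
    intro T hT Q hQ
    obtain ⟨h1, h2, h3, _⟩ := hT hQ
    exact (hS Q).2 ⟨h1, h2, h3⟩
  have key : ∀ T : Finset (Subgroup A), ↑T ⊆ Theta p N H e →
      (∀ Q ∈ Theta p N H e, ∃! Q', Q' ∈ T ∧ ∃ h ∈ H, Q' = Q.map (MulAut.conj h).toMonoidHom) →
      cnt (stP p G e) N H = Nat.card H * ∑ Q ∈ T, Nat.card (DZ p H e Q) := by
    intro T hT1 hT2
    rw [cnt_stP hGN hGH hp he.suppIn hinv he.idem S hS,
      sum_transversal hn T hT1 hT2 S hS w hw hwc]
    congr 1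
    exact Finset.sum_congr rfl (fun Q hQ => (hcard Q (hTS T hT1 Q hQ)).symm)
  have hX := cnt_stX hGN hNH hn hp he.suppIn hinv he.idem
  constructor
  · intro h
    obtain ⟨T, hT1, hT2⟩ := exists_transversal H (Theta p N H e)
    rw [hX, key T hT1 hT2, h T hT1 hT2]
  · intro h T hT1 hT2
    rw [hX, key T hT1 hT2] at h
    exact Nat.eq_of_mul_eq_mul_left Nat.card_pos h

end Pool.Agent.Lib.P0c8ca5
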