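import Mathlib
import Pool.Agent.Lib.P0c8ca5.Act
import Pool.Agent.Lib.P0c8ca5.Equiv

/-! Assembly of the reduction theorem. -/

namespace Pool.Agent.Lib.P0c8ca5

open MonoidAlgebra

set_option linter.unusedSectionVars false

variable {p : ℕ} {k : Type*} [Field k] {A : Type*} [Group A]

section frattini

theorem coatom_card [Fact p.Prime] {P : Type*} [Group P] [Finite P] (hP : IsPGroup p P)
    {M : Subgroup P} (hM : IsCoatom M) : ∃ _ : M.Normal, Nat.card (P ⧸ M) = p := by
  have hnil : Group.IsNilpotent P := hP.isNilpotent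
  have hnorm : M.Normal :=
    Subgroup.NormalizerCondition.normal_of_coatom M (Group.normalizerCondition_of_isNilpotent) hM
  refine ⟨hnorm, ?_⟩
  have hQ : IsPGroup p (P ⧸ M) := hP.to_quotient M
  have hnt : Nontrivial (P ⧸ M) := by
    rw [QuotientGroup.nontrivial_iff]
    exact hM.1
  obtain ⟨z, hz⟩ := exists_prime_orderOf_dvd_card' (G := P ⧸ M) p (by
    obtain ⟨n, hn⟩ := IsPGroup.iff_card.1 hQ
    have h1 : 1 < Nat.card (P ⧸ M) := Finite.one_lt_card
    rw [hn] at h1 ⊢
    apply dvd_pow_self
    rintro rfl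
    rw [pow_zero] at h1
    exact lt_irrefl _ h1)
  have h1 : (Subgroup.zpowers z).comap (QuotientGroup.mk' M) = ⊤ := by
    apply hM.2
    refine lt_of_le_of_ne ?_ ?_
    · intro x hx
      rw [Subgroup.mem_comap]
      have : QuotientGroup.mk' M x = 1 := by
        rw [QuotientGroup.mk'_apply, QuotientGroup.eq_one_iff]; exact hx
      rw [this]; exact Subgroup.one_mem _
    · intro h
      obtain ⟨y, hy⟩ := QuotientGroup.mk'_surjective M z
      have h2 : y ∈ M := by
        rw [h, Subgroup.mem_comap, hy]; exact Subgroup.mem_zpowers z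
      have h3 : z = 1 := by
        rw [← hy, QuotientGroup.mk'_apply, QuotientGroup.eq_one_iff]; exact h2
      rw [h3, orderOf_one] at hz
      exact (Fact.out : p.Prime).one_lt.ne hz
  have h2 : Subgroup.zpowers z = ⊤ := by
    rw [Subgroup.eq_top_iff']
    intro w
    obtain ⟨y, rfl⟩ := QuotientGroup.mk'_surjective M w
    have : y ∈ (Subgroup.zpowers z).comap (QuotientGroup.mk' M) := by
      rw [h1]; exact Subgroup.mem_top y
    exact this
  rw [← hz, ← Nat.card_zpowers, h2, Subgroup.card_top]

theorem mem_frattini_iff {P : Type*} [Group P] {x : P} :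
    x ∈ frattini P ↔ ∀ M : Subgroup P, IsCoatom M → x ∈ M := by
  unfold frattini Order.radical
  rw [Subgroup.mem_iInf]
  constructor
  · intro h M hM
    have := h M
    rw [Subgroup.mem_iInf] at this
    exact this hM
  · intro h M
    rw [Subgroup.mem_iInf]
    exact fun hM => h M hM

theorem pow_mem_frattini [Fact p.Prime] {P : Type*} [Group P] [Finite P] (hP : IsPGroup p P)
    (x : P) : x ^ p ∈ frattini P := by
  rw [mem_frattini_iff]
  intro M hM
  obtain ⟨hn, hc⟩ := coatom_card hP hM
  rw [← QuotientGroup.eq_one_iff, QuotientGroup.mk_pow, ← hc]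
  exact pow_card_eq_one'

theorem comm_mem_frattini [Fact p.Prime] {P : Type*} [Group P] [Finite P] (hP : IsPGroup p P)
    (x y : P) : x * y * x⁻¹ * y⁻¹ ∈ frattini P := by
  rw [mem_frattini_iff]
  intro M hM
  obtain ⟨hn, hc⟩ := coatom_card hP hM
  have hcyc : IsCyclic (P ⧸ M) := isCyclic_of_prime_card hc
  have hcomm : ∀ a b : P ⧸ M, a * b = b * a := by
    let _ : CommGroup (P ⧸ M) := IsCyclic.commGroup
    intro a b
    exact mul_comm a b
  rw [← QuotientGroup.eq_one_iff]
  change (QuotientGroup.mk x : P ⧸ M) * QuotientGroup.mk y * (QuotientGroup.mk x)⁻¹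
    * (QuotientGroup.mk y)⁻¹ = 1
  rw [hcomm (QuotientGroup.mk x) (QuotientGroup.mk y)]
  group

end frattini

theorem central_le_stX [Finite A] {G : Subgroup A} [hG : G.Normal] {e : MonoidAlgebra k A}
    (he : InvBy ⊤ e) (x : IrX G e) : Subgroup.centralizer (G : Set A) ≤ stX (G := G) he x := by
  intro c hc
  let _ := actX (G := G) he
  change c • x = x
  induction x using Quotient.inductionOn with
  | _ σ =>
    apply mk_eq_mk.2
    change Iso (tw (mem_norm_of_normal G c) σ.ρ) σ.ρ
    have hcy : ∀ y : G, cjN (mem_norm_of_normal G c) y = y := by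
      intro y
      apply Subtype.ext
      rw [coe_cjN]
      rw [Subgroup.mem_centralizer_iff] at hc
      have := hc y y.2
      calc c⁻¹ * (y : A) * c = c⁻¹ * ((y : A) * c) := by group
        _ = c⁻¹ * (c * y) := by rw [this]
        _ = y := by group
    have : tw (mem_norm_of_normal G c) σ.ρ = σ.ρ :=
      MonoidHom.ext (fun y => by rw [tw_apply, hcy])
    rw [this]
    exact Iso.refl _

theorem central_le_stP [Fintype A] {G : Subgroup A} [hG : G.Normal] {e : MonoidAlgebra k A}
    (x : PT p G e) : Subgroup.centralizer (G : Set A) ≤ stP p G e x := by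
  obtain ⟨⟨R, hR1, hR2⟩, ⟨φ, hφ1, hφ2⟩⟩ := x
  intro c hc
  change c ∈ st R φ
  rw [Subgroup.mem_centralizer_iff] at hc
  have hcR : c ∈ Subgroup.normalizer (R : Set A) := by
    rw [Subgroup.mem_normalizer_iff]
    have h1 : ∀ r ∈ R, c * r * c⁻¹ = r := by
      intro r hr
      have := hc r (hR1 hr)
      rw [← this]; group
    intro r
    constructor
    · intro hr; rw [h1 r hr]; exact hr
    · intro hr
      have h2 := h1 _ hr
      have h3 : c * r * c⁻¹ = r := by
        have h4 : c * (c * r * c⁻¹) * c⁻¹ = c * r * c⁻¹ := h2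
        have h5 : c * r * c⁻¹ = c⁻¹ * (c * (c * r * c⁻¹) * c⁻¹) * c := by group
        rw [h4] at h5
        rw [h5]; group
      rw [h3] at hr; exact hr
  refine ⟨hcR, ?_⟩
  ext w
  rw [coeff_cj]
  by_cases hw : w ∈ sec G R
  · obtain ⟨y, hy, hy', rfl⟩ := mem_sec.1 hw
    have h1 : (qm R c hcR)⁻¹ * qm R y hy' * qm R c hcR = qm R y hy' := by
      have h2 := hc y hy
      change qm R (c⁻¹ * y * c) ((Subgroup.normalizer (R : Set A)).mul_mem
        ((Subgroup.normalizer (R : Set A)).mul_mem
          ((Subgroup.normalizer (R : Set A)).inv_mem hcR) hy') hcR) = qm R y hy'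
      rw [qm_eq_iff]
      have h3 : c⁻¹ * y * c = y := by
        calc c⁻¹ * y * c = c⁻¹ * (y * c) := by group
          _ = c⁻¹ * (c * y) := by rw [h2]
          _ = y := by group
      rw [h3, inv_mul_cancel]
      exact R.one_mem
    rw [h1]
  · have hw' : (qm R c hcR)⁻¹ * w * qm R c hcR ∉ sec G R := by
      intro h
      apply hw
      have := (Subgroup.mem_normalizer_iff.1 (sec_normal G R (qm R c hcR)) _).1 h
      have e1 : qm R c hcR * ((qm R c hcR)⁻¹ * w * qm R c hcR) * (qm R c hcR)⁻¹ = w := by group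
      rwa [e1] at this
    have h1 : φ.coeff w = 0 := by
      by_contra h; exact hw (hφ1.blk.suppIn w h)
    have h2 : φ.coeff ((qm R c hcR)⁻¹ * w * qm R c hcR) = 0 := by
      by_contra h; exact hw' (hφ1.blk.suppIn _ h)
    rw [h1, h2]

theorem cnt_frattini {X : Type*} [Fintype X] [Finite A] {G : Subgroup A} [hG : G.Normal]
    (s : X → Subgroup A) :
    cnt s G ⊤ = cnt s ((frattini (A ⧸ G)).comap (QuotientGroup.mk' G)) ⊤ := by
  classical
  rw [cnt_def, cnt_def]
  refine Finset.sum_congr rfl (fun x _ => ?_)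
  have hG' : G ≤ (frattini (A ⧸ G)).comap (QuotientGroup.mk' G) := by
    intro g hg
    rw [Subgroup.mem_comap]
    have : QuotientGroup.mk' G g = 1 := by
      rw [QuotientGroup.mk'_apply, QuotientGroup.eq_one_iff]; exact hg
    rw [this]; exact Subgroup.one_mem _
  have h : G ⊔ (⊤ ⊓ s x) = ⊤ ↔
      (frattini (A ⧸ G)).comap (QuotientGroup.mk' G) ⊔ (⊤ ⊓ s x) = ⊤ := by
    rw [top_inf_eq]
    constructor
    · intro h
      rw [eq_top_iff, ← h]
      exact sup_le_sup_right hG' _
    · intro h
      have h1 := congrArg (Subgroup.map (QuotientGroup.mk' G)) h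
      rw [Subgroup.map_sup, Subgroup.map_comap_eq_self_of_surjective
        (QuotientGroup.mk'_surjective G), sup_comm,
        Subgroup.map_top_of_surjective _ (QuotientGroup.mk'_surjective G)] at h1
      have h2 := frattini_nongenerating h1
      rw [Subgroup.eq_top_iff']
      intro a
      have h3 : QuotientGroup.mk' G a ∈ (s x).map (QuotientGroup.mk' G) := by
        rw [h2]; exact Subgroup.mem_top _
      obtain ⟨y, hy, hya⟩ := h3
      have h4 : y⁻¹ * a ∈ G := by
        rw [QuotientGroup.mk'_apply, QuotientGroup.mk'_apply] at hya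
        exact QuotientGroup.eq.1 hya
      have h5 : a * y⁻¹ ∈ G := by
        have := hG.conj_mem _ h4 y
        have e1 : y * (y⁻¹ * a) * y⁻¹ = a * y⁻¹ := by group
        rwa [e1] at this
      have h6 := Subgroup.mul_mem_sup h5 hy
      rwa [inv_mul_cancel_right] at h6
  simp only [h]

/-- the number of all irreducible representations in a block -/
theorem card_irr_eq [Finite A] (N : Subgroup A) (e : MonoidAlgebra k A) :
    Nat.card (Quotient (irrInvSetoid N N e)) = Nat.card (Quotient (irrInvSetoid N ⊥ e)) := by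
  apply Nat.card_congr
  refine
    { toFun := Quotient.map (fun ρ => ⟨ρ.n, ρ.ρ, ρ.irr, ρ.blk, fun h hh => ρ.inv h
          ((bot_le : (⊥ : Subgroup A) ≤ N) hh)⟩) (fun a b h => h)
      invFun := Quotient.map (fun ρ => ⟨ρ.n, ρ.ρ, ρ.irr, ρ.blk,
          (inv_iff Subgroup.le_normalizer ρ.ρ).2 (fun h hh => iso_tw_of_mem _ hh ρ.ρ)⟩)
          (fun a b h => h)
      left_inv := ?_
      right_inv := ?_ }
  · intro x
    induction x using Quotient.inductionOn with
    | _ σ => rfl
  · intro x
    induction x using Quotient.inductionOn with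
    | _ σ => rfl

/-- the number of irreducible representations in a covering block is at most that in `e` -/
theorem card_irr_le [Finite A] [Fact p.Prime] [CharP k p] {G N : Subgroup A} [hG : G.Normal]
    (hGN : G ≤ N) (hp : ∀ x : A, ∃ n : ℕ, x ^ p ^ n ∈ G)
    {e : MonoidAlgebra k A} (heG : SuppIn G e) (hinv : InvBy ⊤ e) (hee : e * e = e) :
    Nat.card (Quotient (irrInvSetoid N ⊥ e)) ≤ Nat.card (Quotient (irrInvSetoid G ⊥ e)) := by
  classical
  have : Finite (IrX G e) := inferInstance
  have : Fintype (IrX G e) := Fintype.ofFinite _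
  have h3 := cnt_stX hGN (le_refl N) Subgroup.le_normalizer hp heG hinv hee
  rw [card_irr_eq] at h3
  have h4 : cnt (stX (G := G) hinv) N N ≤ Nat.card N * Nat.card (IrX G e) := by
    rw [cnt_def, Nat.card_eq_fintype_card (α := IrX G e), mul_comm, ← smul_eq_mul,
      ← Finset.card_univ]
    apply Finset.sum_le_card_nsmul
    intro x _
    have h5 : Nat.card ↥(N ⊓ stX (G := G) hinv x) ≤ Nat.card N := by
      apply Nat.card_le_card_of_injective (Subgroup.inclusion inf_le_left)
      exact Subgroup.inclusion_injective _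
    split_ifs
    · exact h5
    · exact Nat.zero_le _
  rw [h3] at h4
  exact Nat.le_of_mul_le_mul_left h4 Nat.card_pos

end Pool.Agent.Lib.P0c8ca5
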