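import Mathlib

/-! Finite sets with the same numbers of fixed points of all subgroups are isomorphic. -/

namespace Pool.Agent.Lib.P0c8ca5

section
variable {A : Type*} [Group A] {X Y : Type*} [MulAction A X] [MulAction A Y]

/-- the points of `S` fixed by `H` -/
def fixS (H : Subgroup A) (S : Set X) : Set X := {x | x ∈ S ∧ H ≤ MulAction.stabilizer A x}

theorem fixS_diff_card [Finite X] (H : Subgroup A) (S T : Set X) (hT : T ⊆ S) :
    Nat.card ↥(fixS H S) = Nat.card ↥(fixS H (S \ T)) + Nat.card ↥(fixS H T) := by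
  have h1 : fixS H S = fixS H (S \ T) ∪ fixS H T := by
    ext x
    constructor
    · rintro ⟨h1, h2⟩
      by_cases h : x ∈ T
      · right; exact ⟨h, h2⟩
      · left; exact ⟨⟨h1, h⟩, h2⟩
    · rintro (⟨⟨h1, _⟩, h2⟩ | ⟨h1, h2⟩)
      · exact ⟨h1, h2⟩
      · exact ⟨hT h1, h2⟩
  have h2 : Disjoint (fixS H (S \ T)) (fixS H T) := by
    rw [Set.disjoint_left]
    rintro x ⟨⟨_, h1⟩, _⟩ ⟨h2, _⟩
    exact h1 h2
  rw [h1, Nat.card_coe_set_eq, Nat.card_coe_set_eq, Nat.card_coe_set_eq]
  exact Set.ncard_union_eq h2 (Set.toFinite _) (Set.toFinite _)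

theorem orbit_iso {x : X} {y : Y} (h : MulAction.stabilizer A x = MulAction.stabilizer A y) :
    ∃ f : X → Y, Set.BijOn f (MulAction.orbit A x) (MulAction.orbit A y) ∧
      ∀ (a : A), ∀ z ∈ MulAction.orbit A x, f (a • z) = a • f z := by
  classical
  have key : ∀ a b : A, a • x = b • x → a • y = b • y := by
    intro a b hab
    have h1 : b⁻¹ * a ∈ MulAction.stabilizer A x := by
      rw [MulAction.mem_stabilizer_iff, mul_smul, hab, inv_smul_smul]
    rw [h, MulAction.mem_stabilizer_iff, mul_smul, inv_smul_eq_iff] at h1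
    exact h1
  have key' : ∀ a b : A, a • y = b • y → a • x = b • x := by
    intro a b hab
    have h1 : b⁻¹ * a ∈ MulAction.stabilizer A y := by
      rw [MulAction.mem_stabilizer_iff, mul_smul, hab, inv_smul_smul]
    rw [← h, MulAction.mem_stabilizer_iff, mul_smul, inv_smul_eq_iff] at h1
    exact h1
  let f : X → Y := fun z => if hz : z ∈ MulAction.orbit A x then hz.choose • y else y
  have hf : ∀ a : A, f (a • x) = a • y := by
    intro a
    have hz : a • x ∈ MulAction.orbit A x := ⟨a, rfl⟩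
    have h1 : hz.choose • x = a • x := hz.choose_spec
    change (if hz : a • x ∈ MulAction.orbit A x then hz.choose • y else y) = _
    rw [dif_pos hz]
    exact key _ _ h1
  refine ⟨f, ⟨?_, ?_, ?_⟩, ?_⟩
  · rintro _ ⟨a, rfl⟩
    change f (a • x) ∈ _
    rw [hf]
    exact ⟨a, rfl⟩
  · rintro _ ⟨a, rfl⟩ _ ⟨b, rfl⟩ hab
    change f (a • x) = f (b • x) at hab
    rw [hf, hf] at hab
    exact key' _ _ hab
  · rintro _ ⟨a, rfl⟩
    exact ⟨a • x, ⟨a, rfl⟩, hf a⟩
  · rintro a _ ⟨b, rfl⟩
    change f (a • b • x) = a • f (b • x)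
    rw [smul_smul, hf, hf, smul_smul]

theorem fixS_orbit_card {x : X} {y : Y}
    (h : MulAction.stabilizer A x = MulAction.stabilizer A y) (H : Subgroup A) :
    Nat.card ↥(fixS H (MulAction.orbit A x)) = Nat.card ↥(fixS H (MulAction.orbit A y)) := by
  obtain ⟨f, hf, hfe⟩ := orbit_iso h
  apply Nat.card_congr
  apply Set.BijOn.equiv f
  refine ⟨?_, ?_, ?_⟩
  · rintro z ⟨hz, hzH⟩
    refine ⟨hf.mapsTo hz, ?_⟩
    intro a ha
    rw [MulAction.mem_stabilizer_iff, ← hfe a z hz, MulAction.mem_stabilizer_iff.1 (hzH ha)]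
  · exact hf.injOn.mono (fun z hz => hz.1)
  · rintro w ⟨hw, hwH⟩
    obtain ⟨z, hz, rfl⟩ := hf.surjOn hw
    refine ⟨z, ⟨hz, ?_⟩, rfl⟩
    intro a ha
    rw [MulAction.mem_stabilizer_iff]
    have h1 : a • z ∈ MulAction.orbit A x := by
      obtain ⟨b, rfl⟩ := hz
      exact ⟨a * b, mul_smul a b x⟩
    apply hf.injOn h1 hz
    rw [hfe a z hz]
    exact MulAction.mem_stabilizer_iff.1 (hwH ha)

theorem marks_aux [Finite A] [Finite X] [Finite Y] [Nonempty Y] :
    ∀ (n : ℕ) (S : Set X) (T : Set Y), Nat.card S = n →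
    (∀ (a : A), ∀ x ∈ S, a • x ∈ S) → (∀ (a : A), ∀ y ∈ T, a • y ∈ T) →
    (∀ H : Subgroup A, Nat.card ↥(fixS H S) = Nat.card ↥(fixS H T)) →
    ∃ f : X → Y, Set.BijOn f S T ∧ ∀ (a : A), ∀ x ∈ S, f (a • x) = a • f x := by
  classical
  intro n
  induction n using Nat.strong_induction_on with
  | _ n ih =>
    intro S T hSn hS hT hfix
    rcases S.eq_empty_or_nonempty with rfl | hne
    · have hTe : T = ∅ := by
        have h1 := hfix ⊥
        have h2 : fixS (⊥ : Subgroup A) T = T := by
          ext x; exact ⟨fun h => h.1, fun h => ⟨h, bot_le⟩⟩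
        have h3 : fixS (⊥ : Subgroup A) (∅ : Set X) = ∅ := by
          ext x; exact ⟨fun h => h.1, fun h => h.elim⟩
        rw [h2, h3] at h1
        have h4 : Nat.card ↥(∅ : Set X) = 0 := Nat.card_of_isEmpty
        rw [h4] at h1
        rw [Nat.card_coe_set_eq] at h1
        exact (Set.ncard_eq_zero (Set.toFinite T)).1 h1.symm
      subst hTe
      obtain ⟨y⟩ := ‹Nonempty Y›
      exact ⟨fun _ => y, ⟨fun x hx => hx.elim, fun x hx => hx.elim, fun y hy => hy.elim⟩,
        fun a x hx => hx.elim⟩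
    · obtain ⟨x, hxS, hx⟩ := Set.exists_max_image S
        (fun x => Nat.card ↥(MulAction.stabilizer A x)) (Set.toFinite S) hne
      have h1 : 0 < Nat.card ↥(fixS (MulAction.stabilizer A x) T) := by
        rw [← hfix]
        have : Nonempty ↥(fixS (MulAction.stabilizer A x) S) := ⟨⟨x, hxS, le_refl _⟩⟩
        exact Nat.card_pos
      obtain ⟨⟨y, hyT, hy⟩⟩ := (Nat.card_pos_iff.1 h1).1
      have h2 : 0 < Nat.card ↥(fixS (MulAction.stabilizer A y) S) := by
        rw [hfix]
        have : Nonempty ↥(fixS (MulAction.stabilizer A y) T) := ⟨⟨y, hyT, le_refl _⟩⟩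
        exact Nat.card_pos
      obtain ⟨⟨x', hx'S, hx'⟩⟩ := (Nat.card_pos_iff.1 h2).1
      have h3 : MulAction.stabilizer A x = MulAction.stabilizer A x' :=
        Subgroup.eq_of_le_of_card_ge (hy.trans hx') (hx x' hx'S)
      have h4 : MulAction.stabilizer A x = MulAction.stabilizer A y :=
        le_antisymm hy (by rw [h3]; exact hx')
      have hOx : MulAction.orbit A x ⊆ S := by
        rintro _ ⟨a, rfl⟩; exact hS a x hxS
      have hOy : MulAction.orbit A y ⊆ T := by
        rintro _ ⟨a, rfl⟩; exact hT a y hyT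
      have hOx' : ∀ (a : A), ∀ z, z ∈ MulAction.orbit A x → a • z ∈ MulAction.orbit A x := by
        rintro a _ ⟨b, rfl⟩; exact ⟨a * b, mul_smul a b x⟩
      have hOy' : ∀ (a : A), ∀ z, z ∈ MulAction.orbit A y → a • z ∈ MulAction.orbit A y := by
        rintro a _ ⟨b, rfl⟩; exact ⟨a * b, mul_smul a b y⟩
      obtain ⟨f₁, hf₁, hf₁e⟩ := orbit_iso h4
      obtain ⟨f₂, hf₂, hf₂e⟩ := ih _ (by
          rw [← hSn, Nat.card_coe_set_eq, Nat.card_coe_set_eq]
          apply Set.ncard_lt_ncard _ (Set.toFinite S)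
          refine ⟨Set.sdiff_subset, fun h => ?_⟩
          exact (h hxS).2 (MulAction.mem_orbit_self x)) (S \ MulAction.orbit A x)
        (T \ MulAction.orbit A y) rfl (by
          rintro a z ⟨hz1, hz2⟩
          refine ⟨hS a z hz1, fun h => hz2 ?_⟩
          have := hOx' a⁻¹ _ h
          rwa [inv_smul_smul] at this) (by
          rintro a z ⟨hz1, hz2⟩
          refine ⟨hT a z hz1, fun h => hz2 ?_⟩
          have := hOy' a⁻¹ _ h
          rwa [inv_smul_smul] at this) (by
          intro H
          have e1 := fixS_diff_card H S _ hOx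
          have e2 := fixS_diff_card H T _ hOy
          have e3 := fixS_orbit_card h4 H
          have e4 := hfix H
          omega)
      refine ⟨fun z => if z ∈ MulAction.orbit A x then f₁ z else f₂ z, ⟨?_, ?_, ?_⟩, ?_⟩
      · intro z hz
        change (if z ∈ MulAction.orbit A x then f₁ z else f₂ z) ∈ T
        split_ifs with h
        · exact hOy (hf₁.mapsTo h)
        · exact (hf₂.mapsTo ⟨hz, h⟩).1
      · intro z hz w hw hzw
        change (if z ∈ MulAction.orbit A x then f₁ z else f₂ z)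
          = (if w ∈ MulAction.orbit A x then f₁ w else f₂ w) at hzw
        by_cases h : z ∈ MulAction.orbit A x
        · by_cases h' : w ∈ MulAction.orbit A x
          · rw [if_pos h, if_pos h'] at hzw
            exact hf₁.injOn h h' hzw
          · rw [if_pos h, if_neg h'] at hzw
            exfalso
            exact (hf₂.mapsTo ⟨hw, h'⟩).2 (hzw ▸ hf₁.mapsTo h)
        · by_cases h' : w ∈ MulAction.orbit A x
          · rw [if_neg h, if_pos h'] at hzw
            exfalso
            exact (hf₂.mapsTo ⟨hz, h⟩).2 (hzw ▸ hf₁.mapsTo h')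
          · rw [if_neg h, if_neg h'] at hzw
            exact hf₂.injOn ⟨hz, h⟩ ⟨hw, h'⟩ hzw
      · intro w hw
        by_cases h : w ∈ MulAction.orbit A y
        · obtain ⟨z, hz, rfl⟩ := hf₁.surjOn h
          exact ⟨z, hOx hz, if_pos hz⟩
        · obtain ⟨z, hz, rfl⟩ := hf₂.surjOn ⟨hw, h⟩
          exact ⟨z, hz.1, if_neg hz.2⟩
      · intro a z hz
        change (if a • z ∈ MulAction.orbit A x then f₁ (a • z) else f₂ (a • z))
          = a • (if z ∈ MulAction.orbit A x then f₁ z else f₂ z)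
        by_cases h : z ∈ MulAction.orbit A x
        · rw [if_pos h, if_pos (hOx' a z h)]
          exact hf₁e a z h
        · have h' : a • z ∉ MulAction.orbit A x := by
            intro h'
            apply h
            have := hOx' a⁻¹ _ h'
            rwa [inv_smul_smul] at this
          rw [if_neg h, if_neg h']
          exact hf₂e a z ⟨hz, h⟩

/-- Burnside: the numbers of fixed points of all subgroups determine a finite set with action -/
theorem marks [Finite A] [Finite X] [Finite Y]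
    (h : ∀ H : Subgroup A, Nat.card {x : X // H ≤ MulAction.stabilizer A x}
      = Nat.card {y : Y // H ≤ MulAction.stabilizer A y}) :
    ∃ f : X ≃ Y, ∀ (a : A) (x : X), f (a • x) = a • f x := by
  classical
  have hX : ∀ H : Subgroup A, Nat.card ↥(fixS H (Set.univ : Set X))
      = Nat.card {x : X // H ≤ MulAction.stabilizer A x} := fun H =>
    Nat.card_congr (Equiv.subtypeEquivRight (fun x => ⟨fun h => h.2, fun h => ⟨trivial, h⟩⟩))
  have hY : ∀ H : Subgroup A, Nat.card ↥(fixS H (Set.univ : Set Y))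
      = Nat.card {x : Y // H ≤ MulAction.stabilizer A x} := fun H =>
    Nat.card_congr (Equiv.subtypeEquivRight (fun x => ⟨fun h => h.2, fun h => ⟨trivial, h⟩⟩))
  by_cases hYn : Nonempty Y
  · obtain ⟨f, hf, hfe⟩ := marks_aux (A := A) _ (Set.univ : Set X) (Set.univ : Set Y) rfl
      (fun _ _ _ => trivial) (fun _ _ _ => trivial) (fun H => by rw [hX, hY, h])
    refine ⟨Equiv.ofBijective f ⟨?_, ?_⟩, fun a x => hfe a x trivial⟩
    · exact Set.injOn_univ.1 hf.injOn
    · intro y
      obtain ⟨x, _, hx⟩ := hf.surjOn (Set.mem_univ y)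
      exact ⟨x, hx⟩
  · rw [not_nonempty_iff] at hYn
    have h1 := h ⊥
    have h2 : IsEmpty X := by
      have h3 : Nat.card {y : Y // (⊥ : Subgroup A) ≤ MulAction.stabilizer A y} = 0 :=
        Nat.card_of_isEmpty
      rw [h3] at h1
      rcases Nat.card_eq_zero.1 h1 with h4 | h4
      · exact ⟨fun x => h4.false ⟨x, bot_le⟩⟩
      · exact absurd (inferInstance : Finite _) (not_finite_iff_infinite.2 h4)
    exact ⟨Equiv.equivOfIsEmpty X Y, fun a x => (h2.false x).elim⟩

end

end Pool.Agent.Lib.P0c8ca5
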