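import Mathlib
import Pool.Agent.Lib.P0c8ca5.Defs

/-! Definitions: weights, their conjugates, and invariant classes of weights. -/

namespace Pool.Agent.Lib.P0c8ca5

variable {k : Type*} [Field k] {A : Type*} [Group A]

/-- A `B`-weight of `G`, where `e` is the block idempotent of the block `B` of `G`: a pair
`(R, φ)` of a `p`-subgroup `R` of `G` and an element `φ` of `dz(N_G(R)/R | B)`. -/
structure Wt (p : ℕ) (G : Subgroup A) (e : MonoidAlgebra k A) where
  R : Subgroup A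
  φ : MonoidAlgebra k (NQ R)
  le : R ≤ G
  pgrp : IsPGroup p R
  dz : φ ∈ DZ p G e R

variable {p : ℕ} {G : Subgroup A} {e : MonoidAlgebra k A}

/-- `w'` is the conjugate of the weight `w` by `a`. -/
structure WConj (a : A) (w w' : Wt p G e) : Prop where
  sub : w'.R = w.R.map (MulAut.conj a).toMonoidHom
  coef : ∀ (x : A) (hx : x ∈ Subgroup.normalizer (w.R : Set A))
    (hx' : a * x * a⁻¹ ∈ Subgroup.normalizer (w'.R : Set A)),
    w'.φ.coeff (QuotientGroup.mk ⟨a * x * a⁻¹, hx'⟩) = w.φ.coeff (QuotientGroup.mk ⟨x, hx⟩)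

/-- `w` and `w'` are conjugate under `N`. -/
def WSame (N : Subgroup A) (w w' : Wt p G e) : Prop := ∃ n ∈ N, WConj n w w'

theorem WConj.one (w : Wt p G e) : WConj 1 w w := by
  constructor
  · ext x; simp
  · intro x hx hx'
    have e1 : (⟨1 * x * 1⁻¹, hx'⟩ : ↥(Subgroup.normalizer (w.R : Set A))) = ⟨x, hx⟩ :=
      Subtype.ext (by group)
    rw [e1]

theorem WConj.mem_iff {a : A} {w w' : Wt p G e} (h : WConj a w w') (y : A) :
    y ∈ w'.R ↔ a⁻¹ * y * a ∈ w.R := by
  rw [h.sub]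
  constructor
  · rintro ⟨z, hz, rfl⟩
    have e1 : a⁻¹ * (MulAut.conj a).toMonoidHom z * a = z := by
      simp only [MulEquiv.toMonoidHom_eq_coe, MonoidHom.coe_coe, MulAut.conj_apply]; group
    rw [e1]; exact hz
  · intro hy
    refine ⟨_, hy, ?_⟩
    simp only [MulEquiv.toMonoidHom_eq_coe, MonoidHom.coe_coe, MulAut.conj_apply]; group

theorem WConj.symm {a : A} {w w' : Wt p G e} (h : WConj a w w') : WConj a⁻¹ w' w := by
  have h1 : w.R = w'.R.map (MulAut.conj a⁻¹).toMonoidHom := by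
    ext x
    constructor
    · intro hx
      refine ⟨a * x * a⁻¹, (h.mem_iff _).2 ?_, ?_⟩
      · have e1 : a⁻¹ * (a * x * a⁻¹) * a = x := by group
        rw [e1]; exact hx
      · simp only [MulEquiv.toMonoidHom_eq_coe, MonoidHom.coe_coe, MulAut.conj_apply]; group
    · rintro ⟨z, hz, rfl⟩
      have := (h.mem_iff z).1 hz
      have e1 : (MulAut.conj a⁻¹).toMonoidHom z = a⁻¹ * z * a := by
        simp only [MulEquiv.toMonoidHom_eq_coe, MonoidHom.coe_coe, MulAut.conj_apply]; group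
      rw [e1]; exact this
  refine ⟨h1, ?_⟩
  intro x hx hx'
  have h2 : a * (a⁻¹ * x * a⁻¹⁻¹) * a⁻¹ ∈ Subgroup.normalizer (w'.R : Set A) := by
    have e1 : a * (a⁻¹ * x * a⁻¹⁻¹) * a⁻¹ = x := by group
    rw [e1]; exact hx
  rw [← h.coef _ hx' h2]
  have e1 : (⟨a * (a⁻¹ * x * a⁻¹⁻¹) * a⁻¹, h2⟩ : ↥(Subgroup.normalizer (w'.R : Set A)))
      = ⟨x, hx⟩ := Subtype.ext (by group)
  rw [e1]

theorem WConj.trans {a b : A} {w w' w'' : Wt p G e} (h : WConj a w w') (h' : WConj b w' w'') :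
    WConj (b * a) w w'' := by
  have hn : ∀ x ∈ Subgroup.normalizer (w.R : Set A),
      a * x * a⁻¹ ∈ Subgroup.normalizer (w'.R : Set A) := by
    intro x hx
    have hR := h.mem_iff
    rw [Subgroup.mem_normalizer_iff] at hx ⊢
    intro y
    have h1 := hx (a⁻¹ * y * a)
    rw [hR, hR, h1]
    have e1 : a⁻¹ * (a * x * a⁻¹ * y * (a * x * a⁻¹)⁻¹) * a = x * (a⁻¹ * y * a) * x⁻¹ := by group
    rw [e1]
  constructor
  · rw [h'.sub, h.sub, Subgroup.map_map]
    congr 1
    ext x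
    simp only [MulEquiv.toMonoidHom_eq_coe, MonoidHom.coe_comp, MonoidHom.coe_coe,
      Function.comp_apply, MulAut.conj_apply]
    group
  · intro x hx hx'
    have h3 : b * (a * x * a⁻¹) * b⁻¹ ∈ Subgroup.normalizer (w''.R : Set A) := by
      have e1 : b * (a * x * a⁻¹) * b⁻¹ = b * a * x * (b * a)⁻¹ := by group
      rw [e1]; exact hx'
    rw [← h.coef x hx (hn x hx), ← h'.coef _ (hn x hx) h3]
    have e1 : (⟨b * a * x * (b * a)⁻¹, hx'⟩ : ↥(Subgroup.normalizer (w''.R : Set A)))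
      = ⟨b * (a * x * a⁻¹) * b⁻¹, h3⟩ := Subtype.ext (by group)
    rw [e1]

theorem WSame.refl (N : Subgroup A) (w : Wt p G e) : WSame N w w :=
  ⟨1, N.one_mem, WConj.one w⟩

theorem WSame.symm {N : Subgroup A} {w w' : Wt p G e} (h : WSame N w w') : WSame N w' w := by
  obtain ⟨n, hn, h⟩ := h
  exact ⟨n⁻¹, N.inv_mem hn, h.symm⟩

theorem WSame.trans {N : Subgroup A} {w w' w'' : Wt p G e} (h : WSame N w w')
    (h' : WSame N w' w'') : WSame N w w'' := by
  obtain ⟨n, hn, h⟩ := h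
  obtain ⟨m, hm, h'⟩ := h'
  exact ⟨m * n, N.mul_mem hm hn, h.trans h'⟩

/-- `N`-conjugacy of weights; its classes are the `N`-classes of `B`-weights. -/
def wtSetoid (p : ℕ) (G : Subgroup A) (e : MonoidAlgebra k A) (N : Subgroup A) :
    Setoid (Wt p G e) where
  r := WSame N
  iseqv := ⟨WSame.refl N, WSame.symm, WSame.trans⟩

/-- The `N`-classes of `B`-weights that are invariant under `H`. -/
def invClasses (p : ℕ) (G : Subgroup A) (e : MonoidAlgebra k A) (N H : Subgroup A) :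
    Set (Quotient (wtSetoid p G e N)) :=
  {c | ∀ h ∈ H, ∀ w w' : Wt p G e, Quotient.mk _ w = c → WConj h w w' → Quotient.mk _ w' = c}

/-- `σ` is isomorphic to the conjugate of `ρ` by `a`. -/
def RConj {N H : Subgroup A} (a : A) (ρ σ : IrrInv N H e) : Prop :=
  ∃ τ : Rp k N ρ.n, IsConjRep a ρ.ρ τ ∧ Nonempty (τ.Equiv σ.ρ)

end Pool.Agent.Lib.P0c8ca5
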