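import Mathlib
import Pool.Agent.Lib.P0c8ca5.MainA
import Pool.Agent.Lib.P0c8ca5.Marks
import Pool.Agent.Lib.P0c8ca5.WtDefs

/-! The count of invariant classes of weights. -/

namespace Pool.Agent.Lib.P0c8ca5

open MonoidAlgebra

set_option linter.unusedSectionVars false

variable {p : ℕ} {k : Type*} [Field k] {A : Type*} [Group A]

section
variable [Fintype A] [Fact p.Prime] [CharP k p] [IsAlgClosed k] {G : Subgroup A}
  [hG : G.Normal] {e : MonoidAlgebra k A}

/-- the local count over a transversal -/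
theorem cnt_stP_trans {N H : Subgroup A} (hGN : G ≤ N) (hNH : N ≤ H)
    (hn : H ≤ Subgroup.normalizer (N : Set A)) (hp : ∀ x : A, ∃ n : ℕ, x ^ p ^ n ∈ G)
    (he : IsBlock G e) (hinv : InvBy ⊤ e) [Fintype (PT p G e)]
    (T : Finset (Subgroup A)) (hT1 : ↑T ⊆ Theta p N H e)
    (hT2 : ∀ Q ∈ Theta p N H e, ∃! Q', Q' ∈ T ∧ ∃ h ∈ H,
      Q' = Q.map (MulAut.conj h).toMonoidHom) :
    cnt (stP p G e) N H = Nat.card H * ∑ Q ∈ T, Nat.card (DZ p H e Q) := by
  classical
  have : Fintype (Subgroup A) := Fintype.ofFinite _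
  have hGH := hGN.trans hNH
  have heH : IsBlock H e := isBlock_up hGH hp he hinv
  let S : Finset (Subgroup A) := Finset.univ.filter (fun Q => Q ≤ H ∧ IsPGroup p Q ∧ N ⊔ Q = H)
  have hS : ∀ Q, Q ∈ S ↔ Q ≤ H ∧ IsPGroup p Q ∧ N ⊔ Q = H := by
    intro Q; simp [S]
  let w : Subgroup A → ℕ := fun Q =>
    Nat.card {f : MonoidAlgebra k (NQ Q) | IsDZ p (sec H Q) f ∧ f * proj Q e = f}
  have hwc : ∀ Q, ∀ h ∈ H, w (cg h Q) = w Q := fun Q h hh =>
    card_cg_eq heH.suppIn heH.invBy hh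
  have hw : ∀ Q ∈ S, w Q ≠ 0 → Q ∈ Theta p N H e := by
    intro Q hQ hwQ
    obtain ⟨h1, h2, h3⟩ := (hS Q).1 hQ
    obtain ⟨⟨f, hf1, hf2⟩⟩ : Nonempty
        {f : MonoidAlgebra k (NQ Q) | IsDZ p (sec H Q) f ∧ f * proj Q e = f} := by
      by_contra hemp
      rw [not_nonempty_iff] at hemp
      exact hwQ Nat.card_of_isEmpty
    have h4 : proj Q e ≠ 0 := by
      intro h
      rw [h, mul_zero] at hf2
      exact hf1.blk.ne_zero hf2.symm
    have h5 : HasBr Q e := hasBr_of_proj (p := p) h2 (hinv.mono le_top) h4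
    have h6 : HasBr (Q ⊓ N) e := by
      obtain ⟨x, hx, hx'⟩ := h5
      exact ⟨x, Subgroup.centralizer_le (inf_le_left : Q ⊓ N ≤ Q) hx, hx'⟩
    obtain ⟨D, hD, hQD⟩ := exists_defect (p := p) (N := N) (P := Q ⊓ N) inf_le_right
      (h2.to_le inf_le_left) h6
    exact ⟨h1, h2, h3, D, hD, hQD⟩
  have hcard : ∀ Q ∈ S, Nat.card (DZ p H e Q) = w Q := by
    intro Q hQ
    obtain ⟨h1, h2, h3⟩ := (hS Q).1 hQ
    rw [DZ_eq h1 h2 heH]
  have hTS : ∀ Q ∈ T, Q ∈ S := by
    intro Q hQ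
    obtain ⟨h1, h2, h3, _⟩ := hT1 hQ
    exact (hS Q).2 ⟨h1, h2, h3⟩
  rw [cnt_stP hGN hGH hp he.suppIn hinv he.idem S hS,
    sum_transversal hn T hT1 hT2 S hS w hw hwc]
  congr 1
  exact Finset.sum_congr rfl (fun Q hQ => (hcard Q (hTS Q hQ)).symm)

/-- weights as pairs -/
noncomputable def toY (he : IsBlock G e) (w : Wt p G e) : ↥(YT p G e) :=
  ⟨⟨w.R, infl w.R w.φ⟩, ⟨w.le, w.pgrp⟩, w.φ, by
    have h1 := w.dz
    rw [DZ_eq w.le w.pgrp he] at h1
    exact ⟨h1, rfl⟩⟩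

theorem toY_bij (he : IsBlock G e) : Function.Bijective (toY (p := p) he) := by
  constructor
  · rintro ⟨R, φ, h1, h2, h3⟩ ⟨R', φ', h1', h2', h3'⟩ h
    have h4 : (⟨R, infl R φ⟩ : WP k A) = ⟨R', infl R' φ'⟩ := congrArg Subtype.val h
    have h5 : R = R' := congrArg WP.R h4
    subst h5
    have h6 : infl R φ = infl R φ' := congrArg WP.f h4
    have h7 := infl_inj h6
    subst h7
    rfl
  · rintro ⟨⟨R, f⟩, ⟨⟨h1, h2⟩, φ, h3, h4⟩⟩
    refine ⟨⟨R, φ, h1, h2, ?_⟩, ?_⟩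
    · rw [DZ_eq h1 h2 he]; exact h3
    · apply Subtype.ext
      apply WP.ext
      · rfl
      · exact h4.symm

theorem wConj_iff (he : IsBlock G e) (_hinv : InvBy ⊤ e) (a : A) (w w' : Wt p G e) :
    WConj a w w' ↔ (toY he w').1 = a • (toY he w).1 := by
  constructor
  · intro h
    apply WP.ext
    · exact h.sub
    · funext x
      change infl w'.R w'.φ x = infl w.R w.φ (a⁻¹ * x * a)
      have hsub : w'.R = cg a w.R := h.sub
      have hN : x ∈ Subgroup.normalizer (w'.R : Set A) ↔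
          a⁻¹ * x * a ∈ Subgroup.normalizer (w.R : Set A) := by
        rw [hsub, ← cg_normalizer, mem_cg]
      by_cases hx : x ∈ Subgroup.normalizer (w'.R : Set A)
      · have hx' := hN.1 hx
        rw [infl_of_mem _ hx, infl_of_mem _ hx']
        have e1 : a * (a⁻¹ * x * a) * a⁻¹ = x := by group
        have hx2 : a * (a⁻¹ * x * a) * a⁻¹ ∈ Subgroup.normalizer (w'.R : Set A) := by
          rw [e1]; exact hx
        have h1 := h.coef _ hx' hx2
        have e2 : (⟨a * (a⁻¹ * x * a) * a⁻¹, hx2⟩ : ↥(Subgroup.normalizer (w'.R : Set A)))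
          = ⟨x, hx⟩ := Subtype.ext e1
        rw [e2] at h1
        exact h1
      · rw [infl_of_notMem _ hx, infl_of_notMem _ (fun h => hx (hN.2 h))]
  · intro h
    refine ⟨congrArg WP.R h, ?_⟩
    intro x hx hx'
    have h1 := congrFun (congrArg WP.f h) (a * x * a⁻¹)
    change infl w'.R w'.φ (a * x * a⁻¹) = infl w.R w.φ (a⁻¹ * (a * x * a⁻¹) * a) at h1
    have e1 : a⁻¹ * (a * x * a⁻¹) * a = x := by group
    rw [e1, infl_of_mem _ hx', infl_of_mem _ hx] at h1
    exact h1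

theorem exists_wConj (he : IsBlock G e) (hinv : InvBy ⊤ e) (a : A) (w : Wt p G e) :
    ∃ w' : Wt p G e, WConj a w w' := by
  obtain ⟨w', hw'⟩ := (toY_bij (p := p) he).2 ⟨a • (toY he w).1, YT_smul he.suppIn hinv a (toY he w).2⟩
  exact ⟨w', (wConj_iff he hinv a w w').2 (congrArg Subtype.val hw')⟩

theorem cnt_weights {N H : Subgroup A} (hNH : N ≤ H)
    (hn : H ≤ Subgroup.normalizer (N : Set A))
    (he : IsBlock G e) (hinv : InvBy ⊤ e) [Fintype (PT p G e)] :
    cnt (stP p G e) N H = Nat.card H * Nat.card (invClasses p G e N H) := by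
  classical
  let _ := actY (p := p) he.suppIn hinv
  obtain ⟨E, hE⟩ := exists_equivPY (p := p) he.suppIn hinv
  have : Finite ↥(YT p G e) := Finite.of_equiv _ E
  have : Fintype ↥(YT p G e) := Fintype.ofFinite _
  have h0 : cnt (stP p G e) N H = cnt (fun y : ↥(YT p G e) => MulAction.stabilizer A y) N H := by
    rw [cnt_def, cnt_def]
    exact Fintype.sum_equiv E _ _ (fun x => by rw [hE])
  have hconj : ∀ (a : A) (w w' : Wt p G e), WConj a w w' ↔ toY he w' = a • toY he w := by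
    intro a w w'
    rw [wConj_iff he hinv, Subtype.ext_iff]
    rfl
  have hfinW : Finite (Wt p G e) := Finite.of_injective _ (toY_bij (p := p) he).1
  rw [h0]
  apply cnt_eq hNH hn (C := invClasses p G e N H)
    (fun y c => ∃ w, toY he w = y ∧ Quotient.mk (wtSetoid p G e N) w = c.1)
  · intro c
    obtain ⟨w, hw⟩ := Quotient.exists_rep c.1
    exact ⟨toY he w, w, rfl, hw⟩
  · rintro _ y c ⟨w, rfl, hw⟩
    constructor
    · rintro ⟨w', rfl, hw'⟩
      obtain ⟨n, hn', h⟩ := (Quotient.exact (hw.trans hw'.symm) : WSame N w w')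
      exact ⟨n, hn', (hconj n w w').1 h⟩
    · rintro ⟨n, hn', rfl⟩
      obtain ⟨w', hw'⟩ := exists_wConj he hinv n w
      refine ⟨w', (hconj n w w').1 hw', ?_⟩
      rw [← hw]
      exact Quotient.sound (WSame.symm ⟨n, hn', hw'⟩)
  · rintro x c c' ⟨w, rfl, hw⟩ ⟨w', h, hw'⟩
    have h1 : w' = w := (toY_bij (p := p) he).1 h
    subst h1
    exact Subtype.ext (hw.symm.trans hw')
  · intro y
    constructor
    · rintro ⟨c, w, rfl, hw⟩
      apply le_antisymm (sup_le hNH inf_le_left)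
      intro h hh
      obtain ⟨w', hw'⟩ := exists_wConj he hinv h w
      have h1 := c.2 h hh w w' hw hw'
      obtain ⟨n, hn', h2⟩ := (Quotient.exact (hw.trans h1.symm) : WSame N w w')
      have h3 : n⁻¹ * h ∈ H ⊓ MulAction.stabilizer A (toY he w) := by
        refine Subgroup.mem_inf.2 ⟨H.mul_mem (H.inv_mem (hNH hn')) hh, ?_⟩
        rw [MulAction.mem_stabilizer_iff, mul_smul, ← (hconj h w w').1 hw', (hconj n w w').1 h2,
          inv_smul_smul]
      have h4 := Subgroup.mul_mem_sup hn' h3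
      rwa [mul_inv_cancel_left] at h4
    · intro hx
      obtain ⟨w, rfl⟩ := (toY_bij (p := p) he).2 y
      refine ⟨⟨Quotient.mk _ w, ?_⟩, w, rfl, rfl⟩
      intro h hh w₁ w₂ hw₁ hw₂
      obtain ⟨n, hn', h1⟩ := (Quotient.exact hw₁ : WSame N w₁ w)
      have h2 := hw₂
      have h3 : h * n⁻¹ ∈ H := H.mul_mem hh (H.inv_mem (hNH hn'))
      rw [← hx, mem_sup_norm (inf_le_left.trans hn)] at h3
      obtain ⟨m, hm, s, hs, hms⟩ := h3
      have h4 : toY he w₂ = m • toY he w := by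
        have e1 := (hconj h w₁ w₂).1 hw₂
        have e2 := (hconj n w₁ w).1 h1
        have e3 : toY he w₁ = n⁻¹ • toY he w := by rw [e2, inv_smul_smul]
        rw [e1, e3, smul_smul, ← hms, mul_smul,
          MulAction.mem_stabilizer_iff.1 (Subgroup.mem_inf.1 hs).2]
      exact Quotient.sound (WSame.symm ⟨m, hm, (hconj m w w₂).2 h4⟩)

end

end Pool.Agent.Lib.P0c8ca5
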