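import Mathlib
import Pool.Agent.Lib.P0c8ca5.WtMain

/-! The reduction theorem. -/

namespace Pool.Agent.Lib.P0c8ca5

open MonoidAlgebra

set_option linter.unusedSectionVars false

variable {p : ℕ} {k : Type*} [Field k] {A : Type*} [Group A]

theorem iso_iff' {N H : Subgroup A} {e : MonoidAlgebra k A} {ρ σ : IrrInv N H e} :
    Nonempty (ρ.ρ.Equiv σ.ρ) ↔ (Quotient.mk (irrInvSetoid N H e) ρ = Quotient.mk _ σ) :=
  ⟨fun h => Quotient.sound h, fun h => Quotient.exact h⟩

/-- if every representation in `b` is fixed by `v`, then all are invariant under `N⟨v⟩` -/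
theorem card_irr_fixed [Finite A] {N : Subgroup A} {b : MonoidAlgebra k A}
    {v : A} (hv : v ∈ Subgroup.normalizer (N : Set A)) (hinv : InvBy ⊤ b)
    (h : ∀ ρ σ : IrrInv N ⊥ b, RConj v ρ σ → Nonempty (ρ.ρ.Equiv σ.ρ)) :
    Nat.card (Quotient (irrInvSetoid N (N ⊔ Subgroup.zpowers v) b))
      = Nat.card (Quotient (irrInvSetoid N ⊥ b)) := by
  have hL : N ⊔ Subgroup.zpowers v ≤ Subgroup.normalizer (N : Set A) :=
    sup_le Subgroup.le_normalizer ((Subgroup.zpowers_le).2 hv)
  have hfix : ∀ ρ : IrrInv N ⊥ b, Iso (tw hv ρ.ρ) ρ.ρ := by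
    intro ρ
    have h1 : act (tw hv ρ.ρ) b = 1 := by
      rw [act_tw _ _ hinv]; exact act_iff.2 ρ.blk
    let σ : IrrInv N ⊥ b := mkIrr (tw hv ρ.ρ) ((irr_iff.1 ρ.irr).tw _) h1
    have h2 : RConj v ρ σ := by
      refine ⟨tw hv ρ.ρ, ?_, iso_iff.1 (Iso.refl _)⟩
      intro x y w hxy
      change tw hv ρ.ρ y w = ρ.ρ x w
      rw [tw_apply]
      have e1 : cjN hv y = x := by
        apply Subtype.ext
        rw [coe_cjN, hxy]
        group
      rw [e1]
    exact (iso_iff.2 (h ρ σ h2)).symm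
  have hall : ∀ (ρ : IrrInv N ⊥ b) (a : A) (ha : a ∈ N ⊔ Subgroup.zpowers v),
      Iso (tw (hL ha) ρ.ρ) ρ.ρ := by
    intro ρ
    -- the stabilizer
    have hmul : ∀ (a c : A) (ha : a ∈ Subgroup.normalizer (N : Set A))
        (hc : c ∈ Subgroup.normalizer (N : Set A)) (hac : a * c ∈ Subgroup.normalizer (N : Set A)),
        Iso (tw ha ρ.ρ) ρ.ρ → Iso (tw hc ρ.ρ) ρ.ρ → Iso (tw hac ρ.ρ) ρ.ρ := by
      intro a c ha hc hac h1 h2
      have h3 : Iso (tw ha (tw hc ρ.ρ)) (tw ha ρ.ρ) := Iso.tw ha h2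
      rw [tw_tw ha hc hac] at h3
      exact h3.trans h1
    have hinvv : ∀ (a : A) (ha : a ∈ Subgroup.normalizer (N : Set A))
        (ha' : a⁻¹ ∈ Subgroup.normalizer (N : Set A)),
        Iso (tw ha ρ.ρ) ρ.ρ → Iso (tw ha' ρ.ρ) ρ.ρ := by
      intro a ha ha' h1
      have h3 : Iso (tw ha' (tw ha ρ.ρ)) (tw ha' ρ.ρ) := Iso.tw ha' h1
      have h5 : ∀ (c : A) (hc : c ∈ Subgroup.normalizer (N : Set A)), c = 1 → tw hc ρ.ρ = ρ.ρ := by
        rintro c hc rfl
        exact tw_one _ _
      rw [tw_tw ha' ha ((Subgroup.normalizer (N : Set A)).mul_mem ha' ha),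
        h5 _ _ (inv_mul_cancel a)] at h3
      exact h3.symm
    let St : Subgroup A :=
      { carrier := {a | ∃ ha : a ∈ Subgroup.normalizer (N : Set A), Iso (tw ha ρ.ρ) ρ.ρ}
        mul_mem' := by
          rintro a c ⟨ha, ha'⟩ ⟨hc, hc'⟩
          exact ⟨(Subgroup.normalizer (N : Set A)).mul_mem ha hc, hmul a c ha hc _ ha' hc'⟩
        one_mem' := by
          refine ⟨(Subgroup.normalizer (N : Set A)).one_mem, ?_⟩
          rw [tw_one]
          exact Iso.refl _
        inv_mem' := by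
          rintro a ⟨ha, ha'⟩
          exact ⟨(Subgroup.normalizer (N : Set A)).inv_mem ha, hinvv a ha _ ha'⟩ }
    have hNv : N ⊔ Subgroup.zpowers v ≤ St := by
      apply sup_le
      · intro n hn
        exact ⟨Subgroup.le_normalizer hn, iso_tw_of_mem _ hn ρ.ρ⟩
      · rw [Subgroup.zpowers_le]
        exact ⟨hv, hfix ρ⟩
    intro a ha
    exact (hNv ha).2
  apply Nat.card_congr
  refine
    { toFun := Quotient.map (fun ρ => ⟨ρ.n, ρ.ρ, ρ.irr, ρ.blk, fun h hh => ρ.inv h
          ((bot_le : (⊥ : Subgroup A) ≤ N ⊔ Subgroup.zpowers v) hh)⟩) (fun a b h => h)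
      invFun := Quotient.map (fun ρ => ⟨ρ.n, ρ.ρ, ρ.irr, ρ.blk,
          (inv_iff hL ρ.ρ).2 (fun h hh => hall ρ h hh)⟩)
          (fun a b h => h)
      left_inv := ?_
      right_inv := ?_ }
  · intro x
    induction x using Quotient.inductionOn with
    | _ σ => rfl
  · intro x
    induction x using Quotient.inductionOn with
    | _ σ => rfl

/-- if every weight is fixed by `v` up to `N`-conjugacy, then all classes are invariant -/
theorem card_classes_fixed {N : Subgroup A} {b : MonoidAlgebra k A}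
    {v : A} (hex : ∀ (a : A) (w : Wt p N b), ∃ w', WConj a w w')
    (h : ∀ w w' : Wt p N b, WConj v w w' → WSame N w w') :
    Nat.card (invClasses p N b N (N ⊔ Subgroup.zpowers v)) = Nat.card (invClasses p N b N N) := by
  have huniq : ∀ (a : A) (w w₁ w₂ : Wt p N b), WConj a w w₁ → WConj a w w₂ → WSame N w₁ w₂ := by
    intro a w w₁ w₂ h1 h2
    have := h1.symm.trans h2
    rw [mul_inv_cancel] at this
    exact ⟨1, N.one_mem, this⟩
  let St : Subgroup A :=
    { carrier := {a | ∀ w w' : Wt p N b, WConj a w w' → WSame N w w'}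
      mul_mem' := by
        intro a c ha hc w w' hw
        obtain ⟨w₁, hw₁⟩ := hex c w
        obtain ⟨w₂, hw₂⟩ := hex a w₁
        exact ((hc w w₁ hw₁).trans (ha w₁ w₂ hw₂)).trans (huniq _ _ _ _ (hw₁.trans hw₂) hw)
      one_mem' := by
        intro w w' hw
        exact ⟨1, N.one_mem, hw⟩
      inv_mem' := by
        intro a ha w w' hw
        have := hw.symm
        rw [inv_inv] at this
        exact (ha w' w this).symm }
  have hNv : N ⊔ Subgroup.zpowers v ≤ St := by
    apply sup_le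
    · intro n hn w w' hw
      exact ⟨n, hn, hw⟩
    · rw [Subgroup.zpowers_le]
      exact h
  have hall : ∀ (H : Subgroup A), H ≤ N ⊔ Subgroup.zpowers v → invClasses p N b N H = Set.univ := by
    intro H hH
    ext c
    refine ⟨fun _ => trivial, fun _ => ?_⟩
    intro a ha w w' hw hww
    rw [← hw]
    exact Quotient.sound (hNv (hH ha) w w' hww).symm
  rw [hall _ (le_refl _), hall N le_sup_left]

theorem main_reduction [Finite A] [Fact p.Prime] [CharP k p] [IsAlgClosed k]
    (G : Subgroup A) [hG : G.Normal] (hp : IsPGroup p (A ⧸ G))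
    {e : MonoidAlgebra k A} (he : IsBlock G e) (hinv : InvBy ⊤ e)
    (hyp : ∀ (N H : Subgroup A) (b : MonoidAlgebra k A),
      (frattini (A ⧸ G)).comap (QuotientGroup.mk' G) ≤ N → N ≤ H →
      IsBlock N b → b * e ≠ 0 →
      (N = H ∨ (N.relIndex H = p ^ 2 ∧ H ⊓ Subgroup.centralizer (G : Set A) ≤ N ∧
        p ^ 2 + p ≤ Nat.card (Quotient (irrInvSetoid N ⊥ b)) ∧
        ∀ v ∈ H, v ∉ N →
          (∃ ρ σ : IrrInv N ⊥ b, RConj v ρ σ ∧ ¬ Nonempty (ρ.ρ.Equiv σ.ρ)) ∧
          ∃ w w' : Wt p N b, WConj v w w' ∧ ¬ WSame N w w')) →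
      NavarroEq p N H b) :
    NavarroEq p G ⊤ e := by
  classical
  have : Fintype A := Fintype.ofFinite A
  have hp' : ∀ x : A, ∃ n : ℕ, x ^ p ^ n ∈ G := by
    intro x
    obtain ⟨n, hn⟩ := hp (QuotientGroup.mk x)
    refine ⟨n, ?_⟩
    rwa [← QuotientGroup.mk_pow, QuotientGroup.eq_one_iff] at hn
  have : Finite (IrX G e) := inferInstance
  have : Fintype (IrX G e) := Fintype.ofFinite _
  have : Fintype (PT p G e) := Fintype.ofFinite _
  set Φ := (frattini (A ⧸ G)).comap (QuotientGroup.mk' G) with hΦ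
  have hGΦ : G ≤ Φ := by
    intro g hg
    rw [hΦ, Subgroup.mem_comap]
    have : QuotientGroup.mk' G g = 1 := by
      rw [QuotientGroup.mk'_apply, QuotientGroup.eq_one_iff]; exact hg
    rw [this]; exact Subgroup.one_mem _
  have hΦp : ∀ x : A, x ^ p ∈ Φ := fun x => by
    rw [hΦ, Subgroup.mem_comap, map_pow]
    exact pow_mem_frattini hp _
  have hΦc : ∀ x y : A, x * y * x⁻¹ * y⁻¹ ∈ Φ := fun x y => by
    rw [hΦ, Subgroup.mem_comap, map_mul, map_mul, map_mul, map_inv, map_inv]
    exact comm_mem_frattini hp _ _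
  have hle : ∀ N H : Subgroup A, Φ ≤ N → H ≤ Subgroup.normalizer (N : Set A) := by
    intro N H hN
    have : N.Normal := by
      constructor
      intro n hn g
      have h1 := N.mul_mem (hN (hΦc g n)) hn
      have e1 : g * n * g⁻¹ * n⁻¹ * n = g * n * g⁻¹ := by group
      rwa [e1] at h1
    rw [Subgroup.normalizer_eq_top]
    exact le_top
  have hee : e * e ≠ 0 := by rw [he.idem]; exact he.ne_zero
  have h0 : ∀ N, Φ ≤ N → cnt (stX (G := G) hinv) N N = cnt (stP p G e) N N := by
    intro N hN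
    exact (navarroEq_iff (hGΦ.trans hN) (le_refl N) (hle N N hN) hp' he hinv).1
      (hyp N N e hN (le_refl N) (isBlock_up (hGΦ.trans hN) hp' he hinv) hee (Or.inl rfl))
  have h2 : ∀ N H, Φ ≤ N → N ≤ H → N.relIndex H = p ^ 2 →
      H ⊓ Subgroup.centralizer (G : Set A) ≤ N →
      (p ^ 2 + p) * Nat.card N ≤ cnt (stX (G := G) hinv) N N →
      (∀ v ∈ H, v ∉ N →
        cnt (stX (G := G) hinv) N (N ⊔ Subgroup.zpowers v) ≠ p * cnt (stX (G := G) hinv) N N ∧
        cnt (stP p G e) N (N ⊔ Subgroup.zpowers v) ≠ p * cnt (stP p G e) N N) →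
      cnt (stX (G := G) hinv) N H = cnt (stP p G e) N H := by
    intro N H hN hNH hidx hZ hbound hfaith
    apply (navarroEq_iff (hGΦ.trans hN) hNH (hle N H hN) hp' he hinv).1
    have h3 := cnt_stX (hGΦ.trans hN) (le_refl N) (hle N N hN) hp' he.suppIn hinv he.idem
    refine hyp N H e hN hNH (isBlock_up (hGΦ.trans hN) hp' he hinv) hee
      (Or.inr ⟨hidx, hZ, ?_, ?_⟩)
    · rw [h3, mul_comm (Nat.card N)] at hbound
      rw [← card_irr_eq]
      exact Nat.le_of_mul_le_mul_right hbound Nat.card_pos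
    · intro v hvH hvN
      obtain ⟨f1, f2⟩ := hfaith v hvH hvN
      have hNn : N.Normal := Subgroup.normalizer_eq_top_iff.1 (top_le_iff.1 (hle N ⊤ hN))
      have hidx' := rel_zpowers (p := p) hNn hvN (hN (hΦp v))
      have hcard := card_mul_rel (le_sup_left : N ≤ N ⊔ Subgroup.zpowers v)
      rw [hidx'] at hcard
      have hNL : N ≤ N ⊔ Subgroup.zpowers v := le_sup_left
      constructor
      · by_contra hcon
        push Not at hcon
        apply f1
        have h4 := cnt_stX (hGΦ.trans hN) hNL (hle N _ hN) hp' he.suppIn hinv he.idem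
        have h5 := card_irr_fixed (N := N) (b := e) (v := v) (hle N ⊤ hN (Subgroup.mem_top v)) hinv
          (fun ρ σ h => hcon ρ σ h)
        rw [h4, h3, h5, card_irr_eq, ← hcard]
        ring
      · by_contra hcon
        push Not at hcon
        apply f2
        have heN := isBlock_up (hGΦ.trans hN) hp' he hinv
        have hpN : ∀ x : A, ∃ n : ℕ, x ^ p ^ n ∈ N := fun x => by
          obtain ⟨n, hn⟩ := hp' x
          exact ⟨n, hGΦ.trans hN hn⟩
        have : Fintype (PT p N e) := Fintype.ofFinite _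
        have : Fintype (Subgroup A) := Fintype.ofFinite _
        have h6 : ∀ L : Subgroup A, N ≤ L →
            cnt (stP p G e) N L = cnt (stP p N e) N L := by
          intro L hL
          rw [cnt_stP (hGΦ.trans hN) ((hGΦ.trans hN).trans hL) hp' he.suppIn hinv he.idem
            (Finset.univ.filter (fun Q => Q ≤ L ∧ IsPGroup p Q ∧ N ⊔ Q = L)) (by simp),
            cnt_stP (le_refl N) hL hpN heN.suppIn hinv he.idem
            (Finset.univ.filter (fun Q => Q ≤ L ∧ IsPGroup p Q ∧ N ⊔ Q = L)) (by simp)]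
        rw [h6 _ hNL, h6 N (le_refl N), cnt_weights hNL (hle N _ hN) heN hinv,
          cnt_weights (le_refl N) (hle N _ hN) heN hinv,
          card_classes_fixed (fun a w => exists_wConj heN hinv a w) (fun w w' h => hcon w w' h),
          ← hcard]
        ring
  have h1 : cnt (stX (G := G) hinv) Φ ⊤ = cnt (stP p G e) Φ ⊤ :=
    reduce (p := p) (s := stX (G := G) hinv) (t := stP p G e)
      (divFam_stX hinv) (divFam_stP he.suppIn hinv) hΦp hΦc
      (Z := Subgroup.centralizer (G : Set A))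
      (fun x => central_le_stX hinv x) (fun y => central_le_stP y) h0 h2 _ Φ ⊤
      (le_refl Φ) le_top rfl
  rw [← cnt_frattini, ← cnt_frattini] at h1
  exact (navarroEq_iff (le_refl G) le_top (fun x _ => mem_norm_of_normal G x) hp' he hinv).2 h1


end Pool.Agent.Lib.P0c8ca5
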