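import Mathlib
import Pool.Agent.Lib.P0c8ca5.MainB

/-! Navarro's equality and equivariant bijections. -/

namespace Pool.Agent.Lib.P0c8ca5

open MonoidAlgebra

set_option linter.unusedSectionVars false

variable {p : ℕ} {k : Type*} [Field k] {A : Type*} [Group A]

section
variable [Fintype A] [Fact p.Prime] [CharP k p] [IsAlgClosed k] {G : Subgroup A}
  [hG : G.Normal] {e : MonoidAlgebra k A}

theorem wConj_unique (he : IsBlock G e) (hinv : InvBy ⊤ e) {a : A} {w w₁ w₂ : Wt p G e}
    (h1 : WConj a w w₁) (h2 : WConj a w w₂) : w₁ = w₂ := by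
  apply (toY_bij (p := p) he).1
  apply Subtype.ext
  rw [(wConj_iff he hinv a w w₁).1 h1, (wConj_iff he hinv a w w₂).1 h2]

/-- conjugate of a weight -/
noncomputable def cjW (he : IsBlock G e) (hinv : InvBy ⊤ e) (a : A) (w : Wt p G e) : Wt p G e :=
  Classical.choose (exists_wConj he hinv a w)

theorem cjW_spec (he : IsBlock G e) (hinv : InvBy ⊤ e) (a : A) (w : Wt p G e) :
    WConj a w (cjW he hinv a w) := Classical.choose_spec (exists_wConj he hinv a w)

theorem cjW_eq (he : IsBlock G e) (hinv : InvBy ⊤ e) {a : A} {w w' : Wt p G e}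
    (h : WConj a w w') : cjW he hinv a w = w' :=
  wConj_unique he hinv (cjW_spec he hinv a w) h

/-- the classes of weights -/
abbrev WtC (p : ℕ) (G : Subgroup A) (e : MonoidAlgebra k A) : Type _ :=
  Quotient (wtSetoid p G e G)

theorem mkW_eq {N : Subgroup A} {w w' : Wt p G e} :
    (Quotient.mk (wtSetoid p G e N) w = Quotient.mk (wtSetoid p G e N) w') ↔ WSame N w w' :=
  ⟨fun h => Quotient.exact h, fun h => Quotient.sound h⟩

/-- the action on classes of weights -/
@[reducible] noncomputable def actZ (he : IsBlock G e) (hinv : InvBy ⊤ e) :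
    MulAction A (WtC p G e) where
  smul a := Quotient.map (cjW he hinv a) (by
    rintro w w' ⟨g, hg, h⟩
    have h1 := cjW_spec he hinv a w
    have h2 := cjW_spec he hinv a w'
    have h3 := (h1.symm.trans h).trans h2
    exact ⟨_, by
      have := hG.conj_mem g hg a
      have e1 : a * g * a⁻¹ = a * (g * a⁻¹) := by group
      rwa [e1] at this, h3⟩)
  one_smul := by
    intro x
    induction x using Quotient.inductionOn with
    | _ w =>
      apply mkW_eq.2
      rw [cjW_eq he hinv (WConj.one w)]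
      exact WSame.refl _ _
  mul_smul := by
    intro a b x
    induction x using Quotient.inductionOn with
    | _ w =>
      apply mkW_eq.2
      rw [cjW_eq he hinv ((cjW_spec he hinv b w).trans (cjW_spec he hinv a _))]
      exact WSame.refl _ _

/-- stabilizers -/
noncomputable def stZ (he : IsBlock G e) (hinv : InvBy ⊤ e) (z : WtC p G e) : Subgroup A :=
  letI := actZ (p := p) he hinv
  MulAction.stabilizer A z

theorem G_le_stZ (he : IsBlock G e) (hinv : InvBy ⊤ e) (z : WtC p G e) :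
    G ≤ stZ he hinv z := by
  let _ := actZ (p := p) he hinv
  intro g hg
  change g • z = z
  induction z using Quotient.inductionOn with
  | _ w =>
    apply mkW_eq.2
    exact WSame.symm ⟨g, hg, cjW_spec he hinv g w⟩

theorem G_le_stX (hinv : InvBy ⊤ e) (x : IrX G e) : G ≤ stX (G := G) hinv x := by
  let _ := actX (G := G) hinv
  intro g hg
  change g • x = x
  induction x using Quotient.inductionOn with
  | _ σ =>
    apply mk_eq_mk.2
    exact iso_tw_of_mem _ hg _

theorem finite_Wt (he : IsBlock G e) (hinv : InvBy ⊤ e) : Finite (Wt p G e) := by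
  obtain ⟨E, hE⟩ := exists_equivPY (p := p) he.suppIn hinv
  have : Finite ↥(YT p G e) := Finite.of_equiv _ E
  exact Finite.of_injective _ (toY_bij (p := p) he).1

theorem cnt_stZ {N H : Subgroup A} (hGN : G ≤ N) (hNH : N ≤ H)
    (hn : H ≤ Subgroup.normalizer (N : Set A))
    (he : IsBlock G e) (hinv : InvBy ⊤ e) [Fintype (WtC p G e)] :
    cnt (stZ (p := p) he hinv) N H = Nat.card H * Nat.card (invClasses p G e N H) := by
  classical
  let _ := actZ (p := p) he hinv
  have hfinW : Finite (Wt p G e) := finite_Wt he hinv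
  have hsm : ∀ (a : A) (w w' : Wt p G e), WConj a w w' →
      (a • (Quotient.mk _ w : WtC p G e) = Quotient.mk _ w') := by
    intro a w w' h
    apply mkW_eq.2
    rw [cjW_eq he hinv h]
    exact WSame.refl _ _
  apply cnt_eq (X := WtC p G e) hNH hn (C := invClasses p G e N H)
    (fun z c => ∃ w, Quotient.mk _ w = z ∧ Quotient.mk (wtSetoid p G e N) w = c.1)
  · intro c
    obtain ⟨w, hw⟩ := Quotient.exists_rep c.1
    exact ⟨Quotient.mk _ w, w, rfl, hw⟩
  · rintro _ y c ⟨w, rfl, hw⟩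
    constructor
    · rintro ⟨w', rfl, hw'⟩
      obtain ⟨n, hn', h⟩ := mkW_eq.1 (hw.trans hw'.symm)
      exact ⟨n, hn', (hsm n w w' h).symm⟩
    · rintro ⟨n, hn', rfl⟩
      obtain ⟨w', hw'⟩ := exists_wConj he hinv n w
      refine ⟨w', (hsm n w w' hw').symm, ?_⟩
      rw [← hw]
      exact mkW_eq.2 (WSame.symm ⟨n, hn', hw'⟩)
  · rintro x c c' ⟨w, rfl, hw⟩ ⟨w', h, hw'⟩
    obtain ⟨g, hg, h1⟩ := mkW_eq.1 h
    apply Subtype.ext
    rw [← hw, ← hw']
    exact mkW_eq.2 (WSame.symm ⟨g, hGN hg, h1⟩)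
  · intro z
    constructor
    · rintro ⟨c, w, rfl, hw⟩
      apply le_antisymm (sup_le hNH inf_le_left)
      intro h hh
      obtain ⟨w', hw'⟩ := exists_wConj he hinv h w
      have h1 := c.2 h hh w w' hw hw'
      obtain ⟨n, hn', h2⟩ := mkW_eq.1 (hw.trans h1.symm)
      have h3 : n⁻¹ * h ∈ H ⊓ MulAction.stabilizer A (Quotient.mk _ w : WtC p G e) := by
        refine Subgroup.mem_inf.2 ⟨H.mul_mem (H.inv_mem (hNH hn')) hh, ?_⟩
        rw [MulAction.mem_stabilizer_iff, mul_smul, hsm h w w' hw', ← hsm n w w' h2,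
          inv_smul_smul]
      have h4 := Subgroup.mul_mem_sup hn' h3
      rwa [mul_inv_cancel_left] at h4
    · intro hx
      induction z using Quotient.inductionOn with
      | _ w =>
      refine ⟨⟨Quotient.mk _ w, ?_⟩, w, rfl, rfl⟩
      intro h hh w₁ w₂ hw₁ hw₂
      obtain ⟨n, hn', h1⟩ := mkW_eq.1 hw₁
      have h3 : h * n⁻¹ ∈ H := H.mul_mem hh (H.inv_mem (hNH hn'))
      rw [← hx, mem_sup_norm (inf_le_left.trans hn)] at h3
      obtain ⟨m, hm, s, hs, hms⟩ := h3
      obtain ⟨w₃, hw₃⟩ := exists_wConj he hinv m w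
      have h4 : (Quotient.mk _ w₂ : WtC p G e) = Quotient.mk _ w₃ := by
        have e3 : (Quotient.mk _ w₁ : WtC p G e) = n⁻¹ • Quotient.mk _ w := by
          rw [← hsm n w₁ w h1, inv_smul_smul]
        rw [← hsm h w₁ w₂ hw₂, e3, smul_smul, ← hms, mul_smul,
          MulAction.mem_stabilizer_iff.1 (Subgroup.mem_inf.1 hs).2, hsm m w w₃ hw₃]
      obtain ⟨g, hg, h5⟩ := mkW_eq.1 h4
      apply mkW_eq.2
      exact (WSame.trans ⟨m, hm, hw₃⟩ (WSame.symm ⟨g, hGN hg, h5⟩)).symm

open Classical in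
theorem fc_fixed {s G H : Subgroup A} (hGH : G ≤ H) (hs : G ≤ s) :
    fc s G H = if H ≤ s then Nat.card H else 0 := by
  unfold fc
  have h1 : G ⊔ (H ⊓ s) = H ⊓ s := sup_eq_right.2 (le_inf hGH hs)
  rw [h1]
  by_cases h : H ≤ s
  · rw [if_pos h, if_pos (inf_eq_left.2 h), inf_eq_left.2 h]
  · rw [if_neg h, if_neg (fun h' => h (inf_eq_left.1 h'))]

theorem cnt_fixed {X : Type*} [Fintype X] {s : X → Subgroup A} {H : Subgroup A} (hGH : G ≤ H)
    (hs : ∀ x, G ≤ s x) : cnt s G H = Nat.card H * Nat.card {x : X // H ≤ s x} := by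
  classical
  rw [cnt_eq_sum_fc, Finset.sum_congr rfl (fun x _ => fc_fixed hGH (hs x)), ← Finset.sum_filter,
    Finset.sum_const, smul_eq_mul, mul_comm, Nat.card_eq_fintype_card (α := {x // H ≤ s x}),
    Fintype.card_subtype]

theorem navarroEq_iff_stZ {N H : Subgroup A} (hGN : G ≤ N) (hNH : N ≤ H)
    (hn : H ≤ Subgroup.normalizer (N : Set A)) (hp : ∀ x : A, ∃ n : ℕ, x ^ p ^ n ∈ G)
    (he : IsBlock G e) (hinv : InvBy ⊤ e) [Fintype (IrX G e)] [Fintype (WtC p G e)] :
    NavarroEq p N H e ↔ cnt (stX (G := G) hinv) N H = cnt (stZ (p := p) he hinv) N H := by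
  have : Fintype (PT p G e) := Fintype.ofFinite _
  rw [navarroEq_iff hGN hNH hn hp he hinv, cnt_weights hNH hn he hinv,
    cnt_stZ hGN hNH hn he hinv]

theorem rConj_iff (hinv : InvBy ⊤ e) (a : A) (ρ σ : IrrInv G ⊥ e) :
    letI := actX (G := G) hinv
    RConj a ρ σ ↔ a • (Quotient.mk _ ρ : IrX G e) = Quotient.mk _ σ := by
  let _ := actX (G := G) hinv
  have hsm : (a • (Quotient.mk _ ρ : IrX G e) = Quotient.mk _ σ) ↔
      Iso (tw (mem_norm_of_normal G a) ρ.ρ) σ.ρ :=
    ⟨fun h => mk_eq_mk.1 h, fun h => mk_eq_mk.2 h⟩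
  rw [hsm]
  have hconj : IsConjRep a ρ.ρ (tw (mem_norm_of_normal G a) ρ.ρ) := by
    intro x y w hxy
    change tw (mem_norm_of_normal G a) ρ.ρ y w = ρ.ρ x w
    rw [tw_apply]
    have e1 : cjN (mem_norm_of_normal G a) y = x := by
      apply Subtype.ext
      rw [coe_cjN, hxy]
      group
    rw [e1]
  constructor
  · rintro ⟨τ, h1, h2⟩
    have h3 : τ = tw (mem_norm_of_normal G a) ρ.ρ := by
      apply MonoidHom.ext
      intro y
      apply LinearMap.ext
      intro v
      rw [tw_apply]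
      exact h1 (cjN (mem_norm_of_normal G a) y) y v (by rw [coe_cjN]; group)
    rw [← h3]
    exact iso_iff.2 h2
  · intro h
    exact ⟨_, hconj, iso_iff.1 h⟩

theorem equivariant_iff (hp : ∀ x : A, ∃ n : ℕ, x ^ p ^ n ∈ G)
    (he : IsBlock G e) (hinv : InvBy ⊤ e) :
    ((∀ H, G ≤ H → NavarroEq p G H e) ↔
      ∃ β : IrX G e ≃ WtC p G e, ∀ (a : A) (ρ σ : IrrInv G ⊥ e) (w w' : Wt p G e),
        RConj a ρ σ → WConj a w w' → β (Quotient.mk _ ρ) = Quotient.mk _ w →
          β (Quotient.mk _ σ) = Quotient.mk _ w') ∧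
    ((∃ β : IrX G e ≃ WtC p G e, ∀ (a : A) (ρ σ : IrrInv G ⊥ e) (w w' : Wt p G e),
        RConj a ρ σ → WConj a w w' → β (Quotient.mk _ ρ) = Quotient.mk _ w →
          β (Quotient.mk _ σ) = Quotient.mk _ w') →
      ∀ N H, G ≤ N → N ≤ H → H ≤ Subgroup.normalizer (N : Set A) → NavarroEq p N H e) := by
  classical
  have hfinW : Finite (Wt p G e) := finite_Wt he hinv
  have : Finite (IrX G e) := inferInstance
  have : Fintype (IrX G e) := Fintype.ofFinite _
  have : Fintype (WtC p G e) := Fintype.ofFinite _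
  let _ := actX (G := G) hinv
  let _ := actZ (p := p) he hinv
  have hsm : ∀ (a : A) (w w' : Wt p G e), WConj a w w' →
      (a • (Quotient.mk _ w : WtC p G e) = Quotient.mk _ w') := by
    intro a w w' h
    apply mkW_eq.2
    rw [cjW_eq he hinv h]
    exact WSame.refl _ _
  have key : ∀ β : IrX G e ≃ WtC p G e,
      (∀ (a : A) (ρ σ : IrrInv G ⊥ e) (w w' : Wt p G e),
        RConj a ρ σ → WConj a w w' → β (Quotient.mk _ ρ) = Quotient.mk _ w →
          β (Quotient.mk _ σ) = Quotient.mk _ w') ↔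
      ∀ (a : A) (x : IrX G e), β (a • x) = a • β x := by
    intro β
    constructor
    · intro h a x
      induction x using Quotient.inductionOn with
      | _ ρ =>
        obtain ⟨σ, hσ⟩ := Quotient.exists_rep (a • (Quotient.mk _ ρ : IrX G e))
        obtain ⟨w, hw⟩ := Quotient.exists_rep (β (Quotient.mk _ ρ))
        obtain ⟨w', hw'⟩ := exists_wConj he hinv a w
        have h1 := h a ρ σ w w' ((rConj_iff hinv a ρ σ).2 hσ.symm) hw' hw.symm
        rw [← hσ, h1, ← hw, hsm a w w' hw']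
    · intro h a ρ σ w w' h1 h2 h3
      rw [← (rConj_iff hinv a ρ σ).1 h1, h, h3, hsm a w w' h2]
  have hback : (∃ β : IrX G e ≃ WtC p G e, ∀ (a : A) (ρ σ : IrrInv G ⊥ e) (w w' : Wt p G e),
        RConj a ρ σ → WConj a w w' → β (Quotient.mk _ ρ) = Quotient.mk _ w →
          β (Quotient.mk _ σ) = Quotient.mk _ w') →
      ∀ N H, G ≤ N → N ≤ H → H ≤ Subgroup.normalizer (N : Set A) → NavarroEq p N H e := by
    rintro ⟨β, hβ⟩ N H hGN hNH hn
    rw [navarroEq_iff_stZ hGN hNH hn hp he hinv]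
    have hβ' := (key β).1 hβ
    have hst : ∀ x, stX (G := G) hinv x = stZ (p := p) he hinv (β x) := by
      intro x
      ext a
      change a • x = x ↔ a • β x = β x
      rw [← hβ', β.injective.eq_iff]
    rw [cnt_def, cnt_def]
    exact Fintype.sum_equiv β _ _ (fun x => by rw [hst])
  refine ⟨⟨?_, fun h H hH => hback h G H (le_refl G) hH (fun x _ => mem_norm_of_normal G x)⟩,
    hback⟩
  intro h
  obtain ⟨β, hβ⟩ := marks (A := A) (X := IrX G e) (Y := WtC p G e) (by
    intro H
    have hGX : ∀ x : IrX G e, G ≤ MulAction.stabilizer A x := fun x => G_le_stX hinv x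
    have hGZ : ∀ x : WtC p G e, G ≤ MulAction.stabilizer A x := fun x => G_le_stZ he hinv x
    have e1 : Nat.card {x : IrX G e // H ≤ MulAction.stabilizer A x}
        = Nat.card {x : IrX G e // H ⊔ G ≤ MulAction.stabilizer A x} :=
      Nat.card_congr (Equiv.subtypeEquivRight (fun x =>
        ⟨fun h => sup_le h (hGX x), fun h => le_sup_left.trans h⟩))
    have e2 : Nat.card {x : WtC p G e // H ≤ MulAction.stabilizer A x}
        = Nat.card {x : WtC p G e // H ⊔ G ≤ MulAction.stabilizer A x} :=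
      Nat.card_congr (Equiv.subtypeEquivRight (fun x =>
        ⟨fun h => sup_le h (hGZ x), fun h => le_sup_left.trans h⟩))
    rw [e1, e2]
    have h1 := (navarroEq_iff_stZ (le_refl G) (le_sup_right : G ≤ H ⊔ G)
      (fun x _ => mem_norm_of_normal G x) hp he hinv).1 (h (H ⊔ G) le_sup_right)
    rw [cnt_fixed le_sup_right (fun x => G_le_stX hinv x),
      cnt_fixed le_sup_right (fun x => G_le_stZ he hinv x)] at h1
    exact Nat.eq_of_mul_eq_mul_left Nat.card_pos h1)
  exact ⟨β, (key β).2 hβ⟩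

theorem small_trivial {X : Type*} [MulAction A X] [Finite X] {G : Subgroup A} [G.Normal]
    (hp : IsPGroup p (A ⧸ G)) (hG : ∀ x : X, G ≤ MulAction.stabilizer A x)
    (hX : Nat.card X < p) (a : A) (x : X) : a • x = x := by
  obtain ⟨n, hn⟩ := IsPGroup.iff_card.1 hp
  have h1 : (MulAction.stabilizer A x).index ∣ p ^ n := by
    rw [← hn]
    exact Subgroup.index_dvd_of_le (hG x)
  obtain ⟨m, _, hm⟩ := (Nat.dvd_prime_pow (Fact.out : p.Prime)).1 h1
  have h2 : (MulAction.stabilizer A x).index ≤ Nat.card X := by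
    rw [MulAction.index_stabilizer]
    exact Set.ncard_le_card _
  have h3 : m = 0 := by
    by_contra h
    have : p ≤ p ^ m := Nat.le_self_pow h p
    omega
  rw [h3, pow_zero, Subgroup.index_eq_one] at hm
  have : a ∈ MulAction.stabilizer A x := by rw [hm]; exact Subgroup.mem_top a
  exact this

theorem small_blocks (hp : IsPGroup p (A ⧸ G)) (he : IsBlock G e) (hinv : InvBy ⊤ e)
    (hsmall : Nat.card (Quotient (irrInvSetoid G ⊥ e)) < p) (hawc : NavarroEq p G G e) :
    ∀ N H, G ≤ N → N ≤ H → H ≤ Subgroup.normalizer (N : Set A) → NavarroEq p N H e := by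
  classical
  have hp' : ∀ x : A, ∃ n : ℕ, x ^ p ^ n ∈ G := by
    intro x
    obtain ⟨n, hn⟩ := hp (QuotientGroup.mk x)
    refine ⟨n, ?_⟩
    rwa [← QuotientGroup.mk_pow, QuotientGroup.eq_one_iff] at hn
  have hfinW : Finite (Wt p G e) := finite_Wt he hinv
  have : Finite (IrX G e) := inferInstance
  have : Fintype (IrX G e) := Fintype.ofFinite _
  have : Fintype (WtC p G e) := Fintype.ofFinite _
  let _ := actX (G := G) hinv
  let _ := actZ (p := p) he hinv
  apply (equivariant_iff hp' he hinv).2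
  have h1 := (navarroEq_iff_stZ (le_refl G) (le_refl G)
      (fun x _ => mem_norm_of_normal G x) hp' he hinv).1 hawc
  rw [cnt_fixed (le_refl G) (fun x => G_le_stX hinv x),
    cnt_fixed (le_refl G) (fun x => G_le_stZ he hinv x)] at h1
  have h2 := Nat.eq_of_mul_eq_mul_left Nat.card_pos h1
  have e1 : Nat.card {x : IrX G e // G ≤ stX (G := G) hinv x} = Nat.card (IrX G e) :=
    Nat.card_congr (Equiv.subtypeUnivEquiv (fun x => G_le_stX hinv x))
  have e2 : Nat.card {x : WtC p G e // G ≤ stZ (p := p) he hinv x} = Nat.card (WtC p G e) :=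
    Nat.card_congr (Equiv.subtypeUnivEquiv (fun x => G_le_stZ he hinv x))
  rw [e1, e2] at h2
  obtain ⟨β⟩ : Nonempty (IrX G e ≃ WtC p G e) := by
    rw [Nat.card_eq_fintype_card, Nat.card_eq_fintype_card] at h2
    exact ⟨Fintype.equivOfCardEq h2⟩
  refine ⟨β, ?_⟩
  intro a ρ σ w w' h3 h4 h5
  have h6 := (rConj_iff hinv a ρ σ).1 h3
  rw [small_trivial hp (fun x => G_le_stX hinv x) hsmall] at h6
  have h7 : a • (Quotient.mk _ w : WtC p G e) = Quotient.mk _ w' := by
    apply mkW_eq.2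
    rw [cjW_eq he hinv h4]
    exact WSame.refl _ _
  rw [small_trivial hp (fun x => G_le_stZ he hinv x) (by rw [← h2]; exact hsmall)] at h7
  rw [← h6, h5, h7]

end

end Pool.Agent.Lib.P0c8ca5
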